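import Mathlib

/-!
# Cochains on automorphism groups
-/

set_option autoImplicit false

section


namespace Pool.Agent.TBR

universe u

section

variable {k Ω : Type u} [Field k] [Field Ω] [Algebra k Ω]

/-- `σ` and `τ` agree on `S` -/
def Ag (S : Set Ω) (σ τ : Ω ≃ₐ[k] Ω) : Prop := ∀ x ∈ S, σ x = τ x

/-- the automorphisms which fix the elements of `S` -/
def Fx (k : Type u) {Ω : Type u} [Field k] [Field Ω] [Algebra k Ω] (S : Set Ω) :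
    Subgroup (Ω ≃ₐ[k] Ω) where
  carrier := {σ | ∀ x ∈ S, σ x = x}
  mul_mem' {σ τ} hσ hτ x hx := by rw [AlgEquiv.mul_apply, hτ x hx, hσ x hx]
  one_mem' _ _ := rfl
  inv_mem' {σ} hσ x hx := by
    have := hσ x hx
    calc σ⁻¹ x = σ⁻¹ (σ x) := by rw [this]
      _ = x := σ.symm_apply_apply x

/-- the automorphisms which fix the elements of `S` and the elements algebraic over `k` -/
def Ge (k : Type u) {Ω : Type u} [Field k] [Field Ω] [Algebra k Ω] (S : Set Ω) :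
    Subgroup (Ω ≃ₐ[k] Ω) := Fx k S ⊓ Fx k {x : Ω | IsAlgebraic k x}

/-- the decomposition group of a valuation ring -/
def St (k : Type u) {Ω : Type u} [Field k] [Field Ω] [Algebra k Ω] (V : ValuationSubring Ω) :
    Subgroup (Ω ≃ₐ[k] Ω) where
  carrier := {σ | ∀ x : Ω, σ x ∈ V ↔ x ∈ V}
  mul_mem' {σ τ} hσ hτ x := by rw [AlgEquiv.mul_apply, hσ, hτ]
  one_mem' _ := Iff.rfl
  inv_mem' {σ} hσ x := by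
    rw [← hσ (σ⁻¹ x)]
    exact iff_of_eq (congrArg (· ∈ V) (σ.apply_symm_apply x))

/-- the 1-cochain depends only on the restriction to a finite subset of `T` -/
def Lc1 (T : Set Ω) {M : Type*} (b : (Ω ≃ₐ[k] Ω) → M) : Prop :=
  ∃ S : Finset Ω, (S : Set Ω) ⊆ T ∧ ∀ σ σ' : Ω ≃ₐ[k] Ω, Ag (S : Set Ω) σ σ' → b σ = b σ'

/-- the 2-cochain depends only on the restrictions to a finite subset of `T` -/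
def Lc2 (T : Set Ω) {M : Type*} (c : (Ω ≃ₐ[k] Ω) → (Ω ≃ₐ[k] Ω) → M) : Prop :=
  ∃ S : Finset Ω, (S : Set Ω) ⊆ T ∧ ∀ σ σ' τ τ' : Ω ≃ₐ[k] Ω, Ag (S : Set Ω) σ σ' →
    Ag (S : Set Ω) τ τ' → c σ τ = c σ' τ'

/-- `c` is a 2-cocycle on `N` -/
def Coc (N : Subgroup (Ω ≃ₐ[k] Ω)) (c : (Ω ≃ₐ[k] Ω) → (Ω ≃ₐ[k] Ω) → Ωˣ) : Prop :=
  ∀ σ ∈ N, ∀ τ ∈ N, ∀ ρ ∈ N, c σ τ * c (σ * τ) ρ = σ • c τ ρ * c σ (τ * ρ)

/-- on `D` the 2-cochain `c` is the coboundary of `b` -/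
def Cob (D : Subgroup (Ω ≃ₐ[k] Ω)) (c : (Ω ≃ₐ[k] Ω) → (Ω ≃ₐ[k] Ω) → Ωˣ)
    (b : (Ω ≃ₐ[k] Ω) → Ωˣ) : Prop :=
  ∀ σ ∈ D, ∀ τ ∈ D, c σ τ * b (σ * τ) = b σ * σ • b τ

/-- on `D` the 2-cochain `c` is the coboundary of a continuous 1-cochain -/
def Tri (D : Subgroup (Ω ≃ₐ[k] Ω)) (c : (Ω ≃ₐ[k] Ω) → (Ω ≃ₐ[k] Ω) → Ωˣ) : Prop :=
  ∃ b : (Ω ≃ₐ[k] Ω) → Ωˣ, Lc1 Set.univ b ∧ Cob D c b

/-- all orbits of `D` on `E` are finite -/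
def Orb (D : Subgroup (Ω ≃ₐ[k] Ω)) (E : Set Ω) : Prop :=
  ∀ x ∈ E, {y : Ω | ∃ σ ∈ D, σ x = y}.Finite

/-- `D` is closed for the topology of pointwise convergence -/
def Clo (D : Subgroup (Ω ≃ₐ[k] Ω)) : Prop :=
  ∀ σ : Ω ≃ₐ[k] Ω, (∀ S : Finset Ω, ∃ τ ∈ D, Ag (S : Set Ω) σ τ) → σ ∈ D

/-- `x` is a unit of `V` -/
def Un (V : ValuationSubring Ω) (x : Ω) : Prop := x ∈ V ∧ x⁻¹ ∈ V

/-- the elements fixed by `D` -/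
def Fi (D : Subgroup (Ω ≃ₐ[k] Ω)) : Set Ω := {x | ∀ σ ∈ D, σ x = x}

/-- the field generated by `A` and `S` -/
def AA {k Ω : Type u} [Field k] [Field Ω] [Algebra k Ω] (A : IntermediateField k Ω) (S : Set Ω) :
    IntermediateField k Ω := A ⊔ IntermediateField.adjoin k S

/-- the polynomial has coefficients in `A` -/
def Cf (A : Set Ω) (f : MvPolynomial (Fin 2) Ω) : Prop := ∀ m, MvPolynomial.coeff m f ∈ A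

end

end Pool.Agent.TBR

end

section


namespace Pool.Agent.TBR

universe u

section

variable {k Ω : Type u} [Field k] [Field Ω] [Algebra k Ω]

theorem Ag.refl (S : Set Ω) (σ : Ω ≃ₐ[k] Ω) : Ag S σ σ := fun _ _ => rfl

theorem Ag.symm {S : Set Ω} {σ τ : Ω ≃ₐ[k] Ω} (h : Ag S σ τ) : Ag S τ σ :=
  fun x hx => (h x hx).symm

theorem Ag.trans {S : Set Ω} {σ τ ρ : Ω ≃ₐ[k] Ω} (h : Ag S σ τ) (h' : Ag S τ ρ) : Ag S σ ρ :=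
  fun x hx => (h x hx).trans (h' x hx)

theorem Ag.mono {S T : Set Ω} (hST : S ⊆ T) {σ τ : Ω ≃ₐ[k] Ω} (h : Ag T σ τ) : Ag S σ τ :=
  fun x hx => h x (hST hx)

theorem Ag.mul {S : Set Ω} {σ σ' τ τ' : Ω ≃ₐ[k] Ω} (h : Ag S σ σ') (h' : Ag S τ τ')
    (hS : ∀ x ∈ S, τ x ∈ S) : Ag S (σ * τ) (σ' * τ') := by
  intro x hx
  rw [AlgEquiv.mul_apply, AlgEquiv.mul_apply, ← h' x hx]
  exact h _ (hS x hx)

theorem Ag.inv {S : Set Ω} {σ σ' : Ω ≃ₐ[k] Ω} (h : Ag S σ σ') (hS : ∀ x ∈ S, σ⁻¹ x ∈ S) :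
    Ag S σ⁻¹ σ'⁻¹ := by
  intro x hx
  have h1 : σ' (σ⁻¹ x) = x := by
    rw [← h _ (hS x hx)]
    exact σ.apply_symm_apply x
  calc σ⁻¹ x = σ'⁻¹ (σ' (σ⁻¹ x)) := (σ'.symm_apply_apply _).symm
    _ = σ'⁻¹ x := by rw [h1]

theorem mem_Fx {S : Set Ω} {σ : Ω ≃ₐ[k] Ω} : σ ∈ Fx k S ↔ ∀ x ∈ S, σ x = x := Iff.rfl

theorem Fx_mono {S T : Set Ω} (h : S ⊆ T) : Fx k T ≤ Fx k S := fun _ hσ x hx => hσ x (h hx)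

theorem mem_Ge {S : Set Ω} {σ : Ω ≃ₐ[k] Ω} :
    σ ∈ Ge k S ↔ (∀ x ∈ S, σ x = x) ∧ ∀ x, IsAlgebraic k x → σ x = x := Iff.rfl

theorem Ge_mono {S T : Set Ω} (h : S ⊆ T) : Ge k T ≤ Ge k S :=
  fun _ hσ => ⟨fun x hx => hσ.1 x (h hx), hσ.2⟩

theorem mem_St {V : ValuationSubring Ω} {σ : Ω ≃ₐ[k] Ω} :
    σ ∈ St k V ↔ ∀ x : Ω, σ x ∈ V ↔ x ∈ V := Iff.rfl

section

variable {M : Type*}

theorem Lc1.mono {S T : Set Ω} (h : S ⊆ T) {b : (Ω ≃ₐ[k] Ω) → M} (hb : Lc1 S b) : Lc1 T b := by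
  obtain ⟨S', h1, h2⟩ := hb
  exact ⟨S', h1.trans h, h2⟩

theorem Lc2.mono {S T : Set Ω} (h : S ⊆ T) {c : (Ω ≃ₐ[k] Ω) → (Ω ≃ₐ[k] Ω) → M}
    (hc : Lc2 S c) : Lc2 T c := by
  obtain ⟨S', h1, h2⟩ := hc
  exact ⟨S', h1.trans h, h2⟩

theorem Lc1.const (T : Set Ω) (m : M) : Lc1 T (fun _ : Ω ≃ₐ[k] Ω => m) :=
  ⟨∅, by simp, fun _ _ _ => rfl⟩

theorem Lc1.map {T : Set Ω} {M' : Type*} {b : (Ω ≃ₐ[k] Ω) → M} (hb : Lc1 T b) (f : M → M') :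
    Lc1 T (fun σ => f (b σ)) := by
  obtain ⟨S, h1, h2⟩ := hb
  exact ⟨S, h1, fun σ σ' h => congrArg f (h2 σ σ' h)⟩

theorem Lc2.map {T : Set Ω} {M' : Type*} {c : (Ω ≃ₐ[k] Ω) → (Ω ≃ₐ[k] Ω) → M} (hc : Lc2 T c)
    (f : M → M') : Lc2 T (fun σ τ => f (c σ τ)) := by
  obtain ⟨S, h1, h2⟩ := hc
  exact ⟨S, h1, fun σ σ' τ τ' h h' => congrArg f (h2 σ σ' τ τ' h h')⟩

theorem Lc1.map₂ {T : Set Ω} {M' M'' : Type*} {b : (Ω ≃ₐ[k] Ω) → M} {b' : (Ω ≃ₐ[k] Ω) → M'}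
    (hb : Lc1 T b) (hb' : Lc1 T b') (f : M → M' → M'') : Lc1 T (fun σ => f (b σ) (b' σ)) := by
  classical
  obtain ⟨S, h1, h2⟩ := hb
  obtain ⟨S', h1', h2'⟩ := hb'
  refine ⟨S ∪ S', by rw [Finset.coe_union]; exact Set.union_subset h1 h1', fun σ σ' h => ?_⟩
  rw [Finset.coe_union] at h
  show f (b σ) (b' σ) = f (b σ') (b' σ')
  rw [h2 σ σ' (h.mono Set.subset_union_left), h2' σ σ' (h.mono Set.subset_union_right)]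

theorem Lc2.map₂ {T : Set Ω} {M' M'' : Type*} {c : (Ω ≃ₐ[k] Ω) → (Ω ≃ₐ[k] Ω) → M}
    {c' : (Ω ≃ₐ[k] Ω) → (Ω ≃ₐ[k] Ω) → M'} (hc : Lc2 T c) (hc' : Lc2 T c')
    (f : M → M' → M'') : Lc2 T (fun σ τ => f (c σ τ) (c' σ τ)) := by
  classical
  obtain ⟨S, h1, h2⟩ := hc
  obtain ⟨S', h1', h2'⟩ := hc'
  refine ⟨S ∪ S', by rw [Finset.coe_union]; exact Set.union_subset h1 h1',
    fun σ σ' τ τ' h h' => ?_⟩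
  rw [Finset.coe_union] at h h'
  show f (c σ τ) (c' σ τ) = f (c σ' τ') (c' σ' τ')
  rw [h2 σ σ' τ τ' (h.mono Set.subset_union_left) (h'.mono Set.subset_union_left),
    h2' σ σ' τ τ' (h.mono Set.subset_union_right) (h'.mono Set.subset_union_right)]

/-- conjugation -/
theorem Lc1.conj {b : (Ω ≃ₐ[k] Ω) → M} {T : Set Ω} (hb : Lc1 T b) (g : Ω ≃ₐ[k] Ω)
    (hg : ∀ x ∈ T, g x ∈ T) : Lc1 T (fun σ => b (g⁻¹ * σ * g)) := by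
  classical
  obtain ⟨S, h1, h2⟩ := hb
  refine ⟨S.image g, ?_, fun σ σ' h => h2 _ _ fun x hx => ?_⟩
  · intro y hy
    rw [Finset.coe_image] at hy
    obtain ⟨x, hx, rfl⟩ := hy
    exact hg x (h1 hx)
  · have := h (g x) (by rw [Finset.coe_image]; exact ⟨x, hx, rfl⟩)
    show g⁻¹ (σ (g x)) = g⁻¹ (σ' (g x))
    rw [this]

theorem Lc2.conj {c : (Ω ≃ₐ[k] Ω) → (Ω ≃ₐ[k] Ω) → M} {T : Set Ω} (hc : Lc2 T c)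
    (g : Ω ≃ₐ[k] Ω) (hg : ∀ x ∈ T, g x ∈ T) :
    Lc2 T (fun σ τ => c (g⁻¹ * σ * g) (g⁻¹ * τ * g)) := by
  classical
  obtain ⟨S, h1, h2⟩ := hc
  refine ⟨S.image g, ?_, fun σ σ' τ τ' h h' => h2 _ _ _ _ (fun x hx => ?_) fun x hx => ?_⟩
  · intro y hy
    rw [Finset.coe_image] at hy
    obtain ⟨x, hx, rfl⟩ := hy
    exact hg x (h1 hx)
  · have := h (g x) (by rw [Finset.coe_image]; exact ⟨x, hx, rfl⟩)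
    show g⁻¹ (σ (g x)) = g⁻¹ (σ' (g x))
    rw [this]
  · have := h' (g x) (by rw [Finset.coe_image]; exact ⟨x, hx, rfl⟩)
    show g⁻¹ (τ (g x)) = g⁻¹ (τ' (g x))
    rw [this]

end

section

variable {T : Set Ω}

theorem Lc1.mul {b b' : (Ω ≃ₐ[k] Ω) → Ωˣ} (hb : Lc1 T b) (hb' : Lc1 T b') :
    Lc1 T (fun σ => b σ * b' σ) := hb.map₂ hb' (· * ·)

theorem Lc1.inv {b : (Ω ≃ₐ[k] Ω) → Ωˣ} (hb : Lc1 T b) : Lc1 T (fun σ => (b σ)⁻¹) :=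
  hb.map (·⁻¹)

theorem Lc1.pow {b : (Ω ≃ₐ[k] Ω) → Ωˣ} (hb : Lc1 T b) (n : ℕ) : Lc1 T (fun σ => b σ ^ n) :=
  hb.map (· ^ n)

theorem Lc1.zpow {b : (Ω ≃ₐ[k] Ω) → Ωˣ} (hb : Lc1 T b) (n : ℤ) : Lc1 T (fun σ => b σ ^ n) :=
  hb.map (· ^ n)

theorem Lc1.smul {b : (Ω ≃ₐ[k] Ω) → Ωˣ} (hb : Lc1 T b) (g : Ω ≃ₐ[k] Ω) :
    Lc1 T (fun σ => g • b σ) := hb.map (g • ·)

theorem Lc2.mul {c c' : (Ω ≃ₐ[k] Ω) → (Ω ≃ₐ[k] Ω) → Ωˣ} (hc : Lc2 T c) (hc' : Lc2 T c') :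
    Lc2 T (fun σ τ => c σ τ * c' σ τ) := hc.map₂ hc' (· * ·)

theorem Lc2.inv {c : (Ω ≃ₐ[k] Ω) → (Ω ≃ₐ[k] Ω) → Ωˣ} (hc : Lc2 T c) :
    Lc2 T (fun σ τ => (c σ τ)⁻¹) := hc.map (·⁻¹)

theorem Lc2.pow {c : (Ω ≃ₐ[k] Ω) → (Ω ≃ₐ[k] Ω) → Ωˣ} (hc : Lc2 T c) (n : ℕ) :
    Lc2 T (fun σ τ => c σ τ ^ n) := hc.map (· ^ n)

theorem Lc2.zpow {c : (Ω ≃ₐ[k] Ω) → (Ω ≃ₐ[k] Ω) → Ωˣ} (hc : Lc2 T c) (n : ℤ) :
    Lc2 T (fun σ τ => c σ τ ^ n) := hc.map (· ^ n)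

theorem Lc2.smul {c : (Ω ≃ₐ[k] Ω) → (Ω ≃ₐ[k] Ω) → Ωˣ} (hc : Lc2 T c) (g : Ω ≃ₐ[k] Ω) :
    Lc2 T (fun σ τ => g • c σ τ) := hc.map (g • ·)

end

section

variable {D D' : Subgroup (Ω ≃ₐ[k] Ω)} {c c' : (Ω ≃ₐ[k] Ω) → (Ω ≃ₐ[k] Ω) → Ωˣ}
  {b b' : (Ω ≃ₐ[k] Ω) → Ωˣ}

theorem smul_zpow_units (σ : Ω ≃ₐ[k] Ω) (u : Ωˣ) (n : ℤ) : σ • (u ^ n) = (σ • u) ^ n :=
  map_zpow (MulDistribMulAction.toMonoidHom Ωˣ σ) u n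

theorem Cob.mul (h : Cob D c b) (h' : Cob D c' b') :
    Cob D (fun σ τ => c σ τ * c' σ τ) (fun σ => b σ * b' σ) := by
  intro σ hσ τ hτ
  show c σ τ * c' σ τ * (b (σ * τ) * b' (σ * τ)) = b σ * b' σ * σ • (b τ * b' τ)
  rw [smul_mul', mul_mul_mul_comm, h σ hσ τ hτ, h' σ hσ τ hτ, mul_mul_mul_comm]

theorem Cob.zpow (h : Cob D c b) (n : ℤ) :
    Cob D (fun σ τ => c σ τ ^ n) (fun σ => b σ ^ n) := by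
  intro σ hσ τ hτ
  show c σ τ ^ n * b (σ * τ) ^ n = b σ ^ n * σ • (b τ ^ n)
  rw [← mul_zpow, h σ hσ τ hτ, mul_zpow, smul_zpow_units]

theorem Cob.pow (h : Cob D c b) (n : ℕ) : Cob D (fun σ τ => c σ τ ^ n) (fun σ => b σ ^ n) := by
  have h1 := h.zpow (n : ℤ)
  simpa only [zpow_natCast] using h1

theorem Cob.inv (h : Cob D c b) : Cob D (fun σ τ => (c σ τ)⁻¹) (fun σ => (b σ)⁻¹) := by
  have h1 := h.zpow (-1)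
  simpa only [zpow_neg, zpow_one] using h1

theorem Cob.mono (hD : D' ≤ D) (h : Cob D c b) : Cob D' c b :=
  fun σ hσ τ hτ => h σ (hD hσ) τ (hD hτ)

theorem Cob.congr (h : Cob D c b) (h1 : ∀ σ ∈ D, ∀ τ ∈ D, c σ τ = c' σ τ) : Cob D c' b :=
  fun σ hσ τ hτ => by rw [← h1 σ hσ τ hτ]; exact h σ hσ τ hτ

theorem Tri.mul (h : Tri D c) (h' : Tri D c') : Tri D (fun σ τ => c σ τ * c' σ τ) := by
  obtain ⟨b, hb, h1⟩ := h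
  obtain ⟨b', hb', h1'⟩ := h'
  exact ⟨_, hb.mul hb', h1.mul h1'⟩

theorem Tri.zpow (h : Tri D c) (n : ℤ) : Tri D (fun σ τ => c σ τ ^ n) := by
  obtain ⟨b, hb, h1⟩ := h
  exact ⟨_, hb.zpow n, h1.zpow n⟩

theorem Tri.pow (h : Tri D c) (n : ℕ) : Tri D (fun σ τ => c σ τ ^ n) := by
  obtain ⟨b, hb, h1⟩ := h
  exact ⟨_, hb.pow n, h1.pow n⟩

theorem Tri.inv (h : Tri D c) : Tri D (fun σ τ => (c σ τ)⁻¹) := by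
  obtain ⟨b, hb, h1⟩ := h
  exact ⟨_, hb.inv, h1.inv⟩

theorem Tri.mono (hD : D' ≤ D) (h : Tri D c) : Tri D' c := by
  obtain ⟨b, hb, h1⟩ := h
  exact ⟨b, hb, h1.mono hD⟩

theorem Tri.congr (h : Tri D c) (h1 : ∀ σ ∈ D, ∀ τ ∈ D, c σ τ = c' σ τ) : Tri D c' := by
  obtain ⟨b, hb, h2⟩ := h
  exact ⟨b, hb, h2.congr h1⟩

theorem Coc.mono (hD : D' ≤ D) (h : Coc D c) : Coc D' c :=
  fun σ hσ τ hτ ρ hρ => h σ (hD hσ) τ (hD hτ) ρ (hD hρ)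

theorem Coc.mul (h : Coc D c) (h' : Coc D c') : Coc D (fun σ τ => c σ τ * c' σ τ) := by
  intro σ hσ τ hτ ρ hρ
  show c σ τ * c' σ τ * (c (σ * τ) ρ * c' (σ * τ) ρ) =
    σ • (c τ ρ * c' τ ρ) * (c σ (τ * ρ) * c' σ (τ * ρ))
  rw [smul_mul', mul_mul_mul_comm, h σ hσ τ hτ ρ hρ, h' σ hσ τ hτ ρ hρ, mul_mul_mul_comm]

theorem Coc.zpow (h : Coc D c) (n : ℤ) : Coc D (fun σ τ => c σ τ ^ n) := by
  intro σ hσ τ hτ ρ hρ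
  show c σ τ ^ n * c (σ * τ) ρ ^ n = σ • (c τ ρ ^ n) * c σ (τ * ρ) ^ n
  rw [smul_zpow_units, ← mul_zpow, ← mul_zpow, h σ hσ τ hτ ρ hρ]

theorem Coc.pow (h : Coc D c) (n : ℕ) : Coc D (fun σ τ => c σ τ ^ n) := by
  have h1 := h.zpow (n : ℤ)
  simpa only [zpow_natCast] using h1

theorem Coc.inv (h : Coc D c) : Coc D (fun σ τ => (c σ τ)⁻¹) := by
  have h1 := h.zpow (-1)
  simpa only [zpow_neg, zpow_one] using h1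

/-- the coboundary of a 1-cochain is a cocycle -/
theorem Cob.coc (h : Cob D c b) : Coc D c := by
  intro σ hσ τ hτ ρ hρ
  have e : ∀ σ ∈ D, ∀ τ ∈ D, c σ τ = b σ * σ • b τ * (b (σ * τ))⁻¹ := fun σ hσ τ hτ => by
    rw [← h σ hσ τ hτ, mul_inv_cancel_right]
  rw [e σ hσ τ hτ, e (σ * τ) (D.mul_mem hσ hτ) ρ hρ, e τ hτ ρ hρ,
    e σ hσ (τ * ρ) (D.mul_mem hτ hρ), mul_assoc σ τ ρ]
  simp only [smul_mul', smul_inv', mul_smul]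
  apply Additive.ofMul.injective
  simp only [ofMul_mul, ofMul_inv]
  abel

theorem Coc.one_left (h : Coc D c) {σ : Ω ≃ₐ[k] Ω} (hσ : σ ∈ D) : c 1 σ = c 1 1 := by
  have h1 := h 1 D.one_mem 1 D.one_mem σ hσ
  rw [one_smul, one_mul, one_mul] at h1
  exact (mul_right_cancel h1).symm

theorem Coc.one_right (h : Coc D c) {σ : Ω ≃ₐ[k] Ω} (hσ : σ ∈ D) : c σ 1 = σ • c 1 1 := by
  have h1 := h σ hσ 1 D.one_mem 1 D.one_mem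
  rw [mul_one, mul_one] at h1
  exact mul_right_cancel h1

end

end

end Pool.Agent.TBR

end

section


namespace Pool.Agent.TBR

universe u

section

variable {k Ω : Type u} [Field k] [Field Ω] [Algebra k Ω]

theorem Orb.mono {D D' : Subgroup (Ω ≃ₐ[k] Ω)} (hD : D' ≤ D) {T T' : Set Ω} (hT : T' ⊆ T)
    (h : Orb D T) : Orb D' T' := by
  intro x hx
  refine (h x (hT hx)).subset ?_
  rintro y ⟨σ, hσ, rfl⟩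
  exact ⟨σ, hD hσ, rfl⟩

/-- a finite stable set -/
theorem exists_stable (D : Subgroup (Ω ≃ₐ[k] Ω)) (T : Set Ω) (hT : ∀ σ ∈ D, ∀ x ∈ T, σ x ∈ T)
    (horb : Orb D T) (S : Finset Ω) (hS : (S : Set Ω) ⊆ T) :
    ∃ S' : Finset Ω, S ⊆ S' ∧ (S' : Set Ω) ⊆ T ∧ ∀ σ ∈ D, ∀ x ∈ S', σ x ∈ S' := by
  classical
  have hfin : (⋃ x ∈ S, {y : Ω | ∃ σ ∈ D, σ x = y}).Finite :=
    S.finite_toSet.biUnion (fun x hx => horb x (hS hx))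
  refine ⟨hfin.toFinset, ?_, ?_, ?_⟩
  · intro x hx
    rw [Set.Finite.mem_toFinset, Set.mem_iUnion₂]
    exact ⟨x, hx, 1, D.one_mem, rfl⟩
  · intro y hy
    rw [Set.Finite.coe_toFinset, Set.mem_iUnion₂] at hy
    obtain ⟨x, hx, σ, hσ, rfl⟩ := hy
    exact hT σ hσ x (hS hx)
  · intro σ hσ y hy
    rw [Set.Finite.mem_toFinset, Set.mem_iUnion₂] at hy ⊢
    obtain ⟨x, hx, τ, hτ, rfl⟩ := hy
    exact ⟨x, hx, σ * τ, D.mul_mem hσ hτ, rfl⟩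

/-- a locally constant function takes finitely many values -/
theorem finite_range (D : Subgroup (Ω ≃ₐ[k] Ω)) (S : Finset Ω) (horb : Orb D (S : Set Ω))
    {M : Type*} (f : (Ω ≃ₐ[k] Ω) → M)
    (hf : ∀ σ ∈ D, ∀ τ ∈ D, Ag (S : Set Ω) σ τ → f σ = f τ) : {m | ∃ σ ∈ D, f σ = m}.Finite := by
  classical
  -- the restriction to `S`
  have h1 : {g : S → Ω | ∃ σ ∈ D, g = fun x : S => σ (x : Ω)}.Finite := by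
    refine (Set.Finite.pi' (t := fun x : S => {y : Ω | ∃ σ ∈ D, σ (x : Ω) = y})
      (fun x => horb _ x.2)).subset ?_
    rintro g ⟨σ, hσ, rfl⟩ x
    exact ⟨σ, hσ, rfl⟩
  refine (h1.image (fun g : S → Ω => if h : ∃ σ ∈ D, g = fun x : S => σ (x : Ω) then f h.choose
    else f 1)).subset ?_
  rintro m ⟨σ, hσ, rfl⟩
  refine ⟨fun x : S => σ (x : Ω), ⟨σ, hσ, rfl⟩, ?_⟩
  have h : ∃ τ ∈ D, (fun x : S => σ (x : Ω)) = fun x : S => τ (x : Ω) := ⟨σ, hσ, rfl⟩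
  simp only [dif_pos h]
  exact hf _ h.choose_spec.1 _ hσ (fun x hx => (congrFun h.choose_spec.2 ⟨x, hx⟩).symm)

/-- the function is determined on `D` by the restriction to a finite subset of `T` -/
def Lo1 (D : Subgroup (Ω ≃ₐ[k] Ω)) (T : Set Ω) {M : Type*} (f : (Ω ≃ₐ[k] Ω) → M) : Prop :=
  ∃ S : Finset Ω, (S : Set Ω) ⊆ T ∧ ∀ σ ∈ D, ∀ τ ∈ D, Ag (S : Set Ω) σ τ → f σ = f τ

/-- the function is determined on `D` by the restrictions to a finite subset of `T` -/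
def Lo2 (D : Subgroup (Ω ≃ₐ[k] Ω)) (T : Set Ω) {M : Type*}
    (f : (Ω ≃ₐ[k] Ω) → (Ω ≃ₐ[k] Ω) → M) : Prop :=
  ∃ S : Finset Ω, (S : Set Ω) ⊆ T ∧ ∀ σ ∈ D, ∀ σ' ∈ D, ∀ τ ∈ D, ∀ τ' ∈ D,
    Ag (S : Set Ω) σ σ' → Ag (S : Set Ω) τ τ' → f σ τ = f σ' τ'

theorem Lc1.lo {T : Set Ω} {M : Type*} {f : (Ω ≃ₐ[k] Ω) → M} (h : Lc1 T f)
    (D : Subgroup (Ω ≃ₐ[k] Ω)) : Lo1 D T f := by
  obtain ⟨S, h1, h2⟩ := h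
  exact ⟨S, h1, fun σ _ τ _ h => h2 σ τ h⟩

theorem Lc2.lo {T : Set Ω} {M : Type*} {f : (Ω ≃ₐ[k] Ω) → (Ω ≃ₐ[k] Ω) → M} (h : Lc2 T f)
    (D : Subgroup (Ω ≃ₐ[k] Ω)) : Lo2 D T f := by
  obtain ⟨S, h1, h2⟩ := h
  exact ⟨S, h1, fun σ _ σ' _ τ _ τ' _ h h' => h2 σ σ' τ τ' h h'⟩

/-- extension of a function from `D` -/
theorem Lo1.extend {D : Subgroup (Ω ≃ₐ[k] Ω)} {T : Set Ω} {M : Type*} {f : (Ω ≃ₐ[k] Ω) → M}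
    (h : Lo1 D T f) : ∃ f' : (Ω ≃ₐ[k] Ω) → M, Lc1 T f' ∧ (∀ σ ∈ D, f' σ = f σ) ∧
      ∀ σ, ∃ τ ∈ D, f' σ = f τ := by
  classical
  obtain ⟨S, h1, h2⟩ := h
  refine ⟨fun σ => if hσ : ∃ σ' ∈ D, Ag (S : Set Ω) σ σ' then f hσ.choose else f 1,
    ⟨S, h1, ?_⟩, ?_, ?_⟩
  · intro σ σ' hσ
    by_cases h3 : ∃ τ ∈ D, Ag (S : Set Ω) σ τ
    · have h4 : ∃ τ ∈ D, Ag (S : Set Ω) σ' τ := by
        obtain ⟨τ, hτ, h5⟩ := h3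
        exact ⟨τ, hτ, hσ.symm.trans h5⟩
      simp only [dif_pos h3, dif_pos h4]
      exact h2 _ h3.choose_spec.1 _ h4.choose_spec.1
        ((h3.choose_spec.2.symm.trans hσ).trans h4.choose_spec.2)
    · have h4 : ¬ ∃ τ ∈ D, Ag (S : Set Ω) σ' τ := by
        rintro ⟨τ, hτ, h5⟩
        exact h3 ⟨τ, hτ, hσ.trans h5⟩
      simp only [dif_neg h3, dif_neg h4]
  · intro σ hσ
    have h3 : ∃ τ ∈ D, Ag (S : Set Ω) σ τ := ⟨σ, hσ, Ag.refl _ _⟩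
    simp only [dif_pos h3]
    exact h2 _ h3.choose_spec.1 _ hσ h3.choose_spec.2.symm
  · intro σ
    by_cases h3 : ∃ τ ∈ D, Ag (S : Set Ω) σ τ
    · exact ⟨h3.choose, h3.choose_spec.1, by simp only [dif_pos h3]⟩
    · exact ⟨1, D.one_mem, by simp only [dif_neg h3]⟩

/-- extension of a function of two variables from `D`; the new values are old values, or `m` -/
theorem Lo2.extend {D : Subgroup (Ω ≃ₐ[k] Ω)} {T : Set Ω} {M : Type*}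
    {f : (Ω ≃ₐ[k] Ω) → (Ω ≃ₐ[k] Ω) → M} (h : Lo2 D T f) (m : M) :
    ∃ f' : (Ω ≃ₐ[k] Ω) → (Ω ≃ₐ[k] Ω) → M, Lc2 T f' ∧ (∀ σ ∈ D, ∀ τ ∈ D, f' σ τ = f σ τ) ∧
      (∀ σ τ, f' σ τ = m ∨ ∃ σ' ∈ D, ∃ τ' ∈ D, f' σ τ = f σ' τ') ∧
      ((∀ σ ∈ D, f 1 σ = m ∧ f σ 1 = m) → ∀ σ, f' 1 σ = m ∧ f' σ 1 = m) := by
  classical
  obtain ⟨S, h1, h2⟩ := h
  obtain ⟨f', hf'⟩ : ∃ f' : (Ω ≃ₐ[k] Ω) → (Ω ≃ₐ[k] Ω) → M, ∀ σ τ, f' σ τ =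
      if h : (∃ σ' ∈ D, Ag (S : Set Ω) σ σ') ∧ (∃ τ' ∈ D, Ag (S : Set Ω) τ τ') then
        f h.1.choose h.2.choose else m := ⟨_, fun _ _ => rfl⟩
  have key : ∀ σ τ : Ω ≃ₐ[k] Ω, ∀ σ₀ ∈ D, ∀ τ₀ ∈ D, Ag (S : Set Ω) σ σ₀ → Ag (S : Set Ω) τ τ₀ →
      f' σ τ = f σ₀ τ₀ := by
    intro σ τ σ₀ hσ₀ τ₀ hτ₀ h3 h4
    have h5 : (∃ σ' ∈ D, Ag (S : Set Ω) σ σ') ∧ (∃ τ' ∈ D, Ag (S : Set Ω) τ τ') :=
      ⟨⟨σ₀, hσ₀, h3⟩, ⟨τ₀, hτ₀, h4⟩⟩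
    rw [hf', dif_pos h5]
    exact h2 _ h5.1.choose_spec.1 _ hσ₀ _ h5.2.choose_spec.1 _ hτ₀
      (h5.1.choose_spec.2.symm.trans h3) (h5.2.choose_spec.2.symm.trans h4)
  have key' : ∀ σ τ : Ω ≃ₐ[k] Ω,
      ¬ ((∃ σ' ∈ D, Ag (S : Set Ω) σ σ') ∧ (∃ τ' ∈ D, Ag (S : Set Ω) τ τ')) → f' σ τ = m :=
    fun σ τ h => by rw [hf', dif_neg h]
  refine ⟨f', ⟨S, h1, ?_⟩, ?_, ?_, ?_⟩
  · intro σ σ' τ τ' hσ hτ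
    by_cases h3 : (∃ σ' ∈ D, Ag (S : Set Ω) σ σ') ∧ (∃ τ' ∈ D, Ag (S : Set Ω) τ τ')
    · obtain ⟨⟨σ₀, hσ₀, h4⟩, ⟨τ₀, hτ₀, h5⟩⟩ := h3
      rw [key σ τ σ₀ hσ₀ τ₀ hτ₀ h4 h5,
        key σ' τ' σ₀ hσ₀ τ₀ hτ₀ (hσ.symm.trans h4) (hτ.symm.trans h5)]
    · rw [key' σ τ h3, key' σ' τ']
      rintro ⟨⟨σ₀, hσ₀, h4⟩, ⟨τ₀, hτ₀, h5⟩⟩
      exact h3 ⟨⟨σ₀, hσ₀, hσ.trans h4⟩, ⟨τ₀, hτ₀, hτ.trans h5⟩⟩
  · intro σ hσ τ hτ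
    exact key σ τ σ hσ τ hτ (Ag.refl _ _) (Ag.refl _ _)
  · intro σ τ
    by_cases h3 : (∃ σ' ∈ D, Ag (S : Set Ω) σ σ') ∧ (∃ τ' ∈ D, Ag (S : Set Ω) τ τ')
    · obtain ⟨⟨σ₀, hσ₀, h4⟩, ⟨τ₀, hτ₀, h5⟩⟩ := h3
      exact Or.inr ⟨σ₀, hσ₀, τ₀, hτ₀, key σ τ σ₀ hσ₀ τ₀ hτ₀ h4 h5⟩
    · exact Or.inl (key' σ τ h3)
  · intro h σ
    by_cases h3 : ∃ σ' ∈ D, Ag (S : Set Ω) σ σ'
    · obtain ⟨σ₀, hσ₀, h4⟩ := h3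
      rw [key 1 σ 1 D.one_mem σ₀ hσ₀ (Ag.refl _ _) h4, key σ 1 σ₀ hσ₀ 1 D.one_mem h4 (Ag.refl _ _)]
      exact h σ₀ hσ₀
    · exact ⟨key' _ _ fun h4 => h3 h4.2, key' _ _ fun h4 => h3 h4.1⟩

end

end Pool.Agent.TBR

end

section


namespace Pool.Agent.TBR

/-- the cochain of Shapiro's lemma -/
def shY {D M X : Type*} [Group D] [CommGroup M] [MulDistribMulAction D M] [MulAction D X]
    (x : D → D → X → M) (b : D → M) (r : X → D) (σ : D) (R : X) : M :=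
  x σ (r (σ⁻¹ • R)) R * (x (r R) ((r R)⁻¹ * σ * r (σ⁻¹ • R)) R)⁻¹ *
    r R • b ((r R)⁻¹ * σ * r (σ⁻¹ • R))

end Pool.Agent.TBR

end
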