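import Pool.Agent.TBM.Base

/-!
# Inflation, Shapiro and Hilbert 90
-/

set_option autoImplicit false

section


namespace Pool.Agent.TBR

universe u

section

/--
Shapiro's lemma for 2-cocycles, explicitly. `shY x b r σ R = x σ r' R * (x r s R)⁻¹ * r • b s`
with `r = r R`, `r' = r (σ⁻¹ • R)`, `s = r⁻¹ * σ * r'` (def in TBR/Abs.lean).
PROOF. Put R' = σ⁻¹ R, R'' = τ⁻¹ R', r = r R, r' = r R', r'' = r R'', s = r⁻¹ σ r',
s' = r'⁻¹ τ r'', so s s' = r⁻¹ σ τ r'', r s = σ r', r' s' = τ r'', and s R₀ = s' R₀ = R₀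
(r'' R₀ = R'' etc.; (σ τ)⁻¹ R = R''). Three instances of hx:
(1) (σ,τ,r'') at R:  x(σ,τ)(R) x(στ,r'')(R) = σ•x(τ,r'')(R') * x(σ,τr'')(R)
(2) (σ,r',s') at R:  x(σ,r')(R) x(σr',s')(R) = σ•x(r',s')(R') * x(σ,r's')(R)
(3) (r,s,s') at R:   x(r,s)(R) x(rs,s')(R) = r•x(s,s')(R₀) * x(r,ss')(R)      (r⁻¹ R = R₀)
and (4) u := x(s,s')(R₀) b(ss') (b(s) s•b(s'))⁻¹ ∈ U R₀, so r • u ∈ U R by hU and r R₀ = R.
Then the element of the statement equals r • u: in the commutative group M replace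
x(σ,τ)(R) by (1), x(σr',s') by (2), r•x(s,s')(R₀) by (3) (note r•(s•b s') = (σ r')•b s' =
σ•(r'•b s')); everything cancels (write additively and use abel).
-/
theorem shap {D M X : Type*} [Group D] [CommGroup M] [MulDistribMulAction D M] [MulAction D X]
    (U : X → Subgroup M) (hU : ∀ (σ : D) (R : X), ∀ m ∈ U R, σ • m ∈ U (σ • R))
    (x : D → D → X → M)
    (hx : ∀ σ τ ρ R, x σ τ R * x (σ * τ) ρ R = σ • x τ ρ (σ⁻¹ • R) * x σ (τ * ρ) R)
    (R₀ : X) (b : D → M)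
    (hb : ∀ s t : D, s • R₀ = R₀ → t • R₀ = R₀ →
      x s t R₀ * b (s * t) * (b s * s • b t)⁻¹ ∈ U R₀)
    (r : X → D) (hr : ∀ R ∈ MulAction.orbit D R₀, r R • R₀ = R) (σ τ : D) (R : X)
    (hR : R ∈ MulAction.orbit D R₀) :
    x σ τ R * shY x b r (σ * τ) R * (shY x b r σ R * σ • shY x b r τ (σ⁻¹ • R))⁻¹ ∈ U R := by
  have horb : ∀ (g : D) (Q : X), Q ∈ MulAction.orbit D R₀ → g • Q ∈ MulAction.orbit D R₀ := by
    rintro g Q ⟨h, rfl⟩
    exact ⟨g * h, mul_smul _ _ _⟩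
  have e0 : r R • R₀ = R := hr R hR
  have e1 : r (σ⁻¹ • R) • R₀ = σ⁻¹ • R := hr _ (horb _ _ hR)
  have e2 : r (τ⁻¹ • σ⁻¹ • R) • R₀ = τ⁻¹ • σ⁻¹ • R := hr _ (horb _ _ (horb _ _ hR))
  have e3 : (σ * τ)⁻¹ • R = τ⁻¹ • σ⁻¹ • R := by rw [mul_inv_rev, mul_smul]
  unfold shY
  rw [e3]
  generalize hR' : σ⁻¹ • R = R' at e1 e2 e3 ⊢
  generalize hR'' : τ⁻¹ • R' = R'' at e2 e3 ⊢
  generalize r R = r0 at e0 ⊢
  generalize r R' = r1 at e1 ⊢
  generalize r R'' = r2 at e2 ⊢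
  have hs : (r0⁻¹ * σ * r1) • R₀ = R₀ := by
    rw [mul_smul, mul_smul, e1, ← hR', smul_inv_smul, ← e0, inv_smul_smul]
  have hs' : (r1⁻¹ * τ * r2) • R₀ = R₀ := by
    rw [mul_smul, mul_smul, e2, ← hR'', smul_inv_smul, ← e1, inv_smul_smul]
  have hss : r0⁻¹ * (σ * τ) * r2 = (r0⁻¹ * σ * r1) * (r1⁻¹ * τ * r2) := by group
  have hrs : r0 * (r0⁻¹ * σ * r1) = σ * r1 := by group
  have hrs' : r1 * (r1⁻¹ * τ * r2) = τ * r2 := by group
  have h4 := hU r0 R₀ _ (hb _ _ hs hs')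
  rw [e0] at h4
  generalize hsd : r0⁻¹ * σ * r1 = s at hs hss hrs h4 ⊢
  generalize hsd' : r1⁻¹ * τ * r2 = s' at hs' hss hrs' h4 ⊢
  rw [hss]
  have i1 := hx σ τ r2 R
  have i2 := hx σ r1 s' R
  have i3 := hx r0 s s' R
  rw [hR'] at i1 i2
  have e0' : r0⁻¹ • R = R₀ := by rw [← e0, inv_smul_smul]
  rw [e0', hrs] at i3
  rw [hrs'] at i2
  have hq : σ • r1 • b s' = r0 • s • b s' := by
    rw [← mul_smul, ← mul_smul, hrs]
  refine (Subgroup.mem_carrier.1 ?_ : _ ∈ U R)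
  have key : x σ τ R * (x (σ * τ) r2 R * (x r0 (s * s') R)⁻¹ * r0 • b (s * s')) *
      (x σ r1 R * (x r0 s R)⁻¹ * r0 • b s *
        σ • (x τ r2 R' * (x r1 s' R')⁻¹ * r1 • b s'))⁻¹ =
      r0 • (x s s' R₀ * b (s * s') * (b s * s • b s')⁻¹) := by
    simp only [smul_mul', smul_inv', hq] at i1 i2 i3 ⊢
    apply Additive.ofMul.injective
    have j1 := congrArg Additive.ofMul i1
    have j2 := congrArg Additive.ofMul i2
    have j3 := congrArg Additive.ofMul i3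
    simp only [ofMul_mul, ofMul_inv] at j1 j2 j3 ⊢
    generalize Additive.ofMul (x σ τ R) = X1 at j1 j2 j3 ⊢
    generalize Additive.ofMul (x (σ * τ) r2 R) = X2 at j1 j2 j3 ⊢
    generalize Additive.ofMul (σ • x τ r2 R') = X3 at j1 j2 j3 ⊢
    generalize Additive.ofMul (x σ (τ * r2) R) = X4 at j1 j2 j3 ⊢
    generalize Additive.ofMul (x σ r1 R) = X5 at j1 j2 j3 ⊢
    generalize Additive.ofMul (x (σ * r1) s' R) = X6 at j1 j2 j3 ⊢
    generalize Additive.ofMul (σ • x r1 s' R') = X7 at j1 j2 j3 ⊢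
    generalize Additive.ofMul (x r0 s R) = X8 at j1 j2 j3 ⊢
    generalize Additive.ofMul (r0 • x s s' R₀) = X9 at j1 j2 j3 ⊢
    generalize Additive.ofMul (x r0 (s * s') R) = X10 at j1 j2 j3 ⊢
    have k1 : X1 = X3 + X4 - X2 := eq_sub_of_add_eq j1
    have k2 : X4 = X5 + X6 - X7 := by rw [j2]; abel
    have k3 : X6 = X9 + X10 - X8 := by rw [← j3]; abel
    rw [k1, k2, k3]
    abel
  rw [key]
  exact h4

end

end Pool.Agent.TBR

end

section


namespace Pool.Agent.TBR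

universe u

section

/-- multiply the cochain `c` by the coboundary of `e` -/
private def inflCob {N M : Type*} [Group N] [CommGroup M] [MulDistribMulAction N M]
    (c : N → N → M) (e : N → M) (g h : N) : M :=
  c g h * e (g * h) * (e g * g • e h)⁻¹

private theorem infl_cob_mul {N M : Type*} [Group N] [CommGroup M] [MulDistribMulAction N M]
    (c : N → N → M) (e f : N → M) (g h : N) :
    inflCob (inflCob c e) f g h = inflCob c (fun x => e x * f x) g h := by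
  simp only [inflCob, smul_mul', mul_inv]
  generalize c g h = a1
  generalize e (g * h) = a2
  generalize e g = a3
  generalize g • e h = a4
  generalize f (g * h) = a5
  generalize f g = a6
  generalize g • f h = a7
  simp only [mul_assoc, mul_comm, mul_left_comm]

private theorem infl_cob_cocycle {N M : Type*} [Group N] [CommGroup M] [MulDistribMulAction N M]
    (c : N → N → M) (hc : ∀ g h j, c g h * c (g * h) j = g • c h j * c g (h * j)) (e : N → M)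
    (g h j : N) :
    inflCob c e g h * inflCob c e (g * h) j = g • inflCob c e h j * inflCob c e g (h * j) := by
  have h1 := hc g h j
  simp only [inflCob, smul_mul', mul_inv, smul_inv', mul_smul, mul_assoc g h j]
  generalize c g h = a1 at *
  generalize c (g * h) j = a2 at *
  generalize g • c h j = a3 at *
  generalize c g (h * j) = a4 at *
  generalize e (g * h) = a5 at *
  generalize e g = a6 at *
  generalize g • e h = a7 at *
  generalize e (g * (h * j)) = a8 at *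
  generalize g • h • e j = a9 at *
  generalize g • e (h * j) = a10 at *
  have h2 : a1 = a3 * a4 * a2⁻¹ := by rw [← h1]; group
  rw [h2]
  have : ∀ x y z : M, x = y → z = z := fun _ _ _ _ => rfl
  calc a3 * a4 * a2⁻¹ * a5 * (a6⁻¹ * a7⁻¹) * (a2 * a8 * (a5⁻¹ * a9⁻¹))
      = a3 * a4 * (a2⁻¹ * a2) * (a5 * a5⁻¹) * (a6⁻¹ * a7⁻¹) * (a8 * a9⁻¹) := by
        simp only [mul_assoc, mul_comm, mul_left_comm]
    _ = a3 * a4 * (a10 * a10⁻¹) * (a6⁻¹ * a7⁻¹) * (a8 * a9⁻¹) := by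
        simp
    _ = _ := by simp only [mul_assoc, mul_comm, mul_left_comm]

private theorem infl_cob_level {N M : Type*} [Group N] [CommGroup M] [MulDistribMulAction N M]
    (U : Subgroup N) [U.Normal] (c : N → N → M)
    (hcU : ∀ g h, ∀ u ∈ U, ∀ v ∈ U, c (g * u) (h * v) = c g h) (e : N → M)
    (he : ∀ g, ∀ u ∈ U, e (g * u) = e g) (heM : ∀ g, ∀ u ∈ U, u • e g = e g)
    (g h : N) (u : N) (hu : u ∈ U) (v : N) (hv : v ∈ U) :
    inflCob c e (g * u) (h * v) = inflCob c e g h := by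
  have h1 : g * u * (h * v) = g * h * (h⁻¹ * u * h * v) := by group
  have h2 : h⁻¹ * u * h * v ∈ U := by
    refine U.mul_mem ?_ hv
    simpa using (inferInstance : U.Normal).conj_mem u hu h⁻¹
  simp only [inflCob]
  rw [hcU g h u hu v hv, h1, he _ _ h2, he g u hu, he h v hv, mul_smul, heM h u hu]

private theorem infl_cob_val {N M : Type*} [Group N] [CommGroup M] [MulDistribMulAction N M]
    (U : Subgroup N) [U.Normal] (c : N → N → M)
    (hcM : ∀ g h, ∀ u ∈ U, u • c g h = c g h) (e : N → M)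
    (heM : ∀ g, ∀ u ∈ U, u • e g = e g)
    (g h : N) (u : N) (hu : u ∈ U) :
    u • inflCob c e g h = inflCob c e g h := by
  have h2 : g⁻¹ * u * g ∈ U := by
    simpa using (inferInstance : U.Normal).conj_mem u hu g⁻¹
  have h3 : u • g • e h = g • e h := by
    have : u • g • e h = g • (g⁻¹ * u * g) • e h := by
      simp only [← mul_smul]; congr 1; group
    rw [this, heM _ _ h2]
  simp only [inflCob, smul_mul', smul_inv']
  rw [hcM g h u hu, heM _ u hu, heM _ u hu, h3]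

/-- Step 1: make the cocycle trivial on `H`. -/
private theorem infl_step1 {N M : Type*} [Group N] [CommGroup M] [MulDistribMulAction N M]
    (H U : Subgroup N) [H.Normal] [U.Normal] (c : N → N → M)
    (b : N → M) (hb : ∀ s ∈ H, ∀ t ∈ H, c s t * b (s * t) = b s * s • b t)
    (hbU : ∀ s ∈ H, ∀ u ∈ U, s * u ∈ H → b (s * u) = b s)
    (hbM : ∀ s ∈ H, ∀ u ∈ U, u • b s = b s) :
    ∃ e : N → M, (∀ g, ∀ u ∈ U, e (g * u) = e g) ∧ (∀ g, ∀ u ∈ U, u • e g = e g) ∧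
      ∀ s ∈ H, ∀ t ∈ H, inflCob c e s t = 1 := by
  classical
  let P : N → N → Prop := fun g s => s ∈ H ∧ s⁻¹ * g ∈ U
  let B : N → M := fun g => if h : ∃ s, P g s then b h.choose else 1
  have hB : ∀ g s, s ∈ H → s⁻¹ * g ∈ U → B g = b s := by
    intro g s hs hg
    have hex : ∃ s, P g s := ⟨s, hs, hg⟩
    have h1 : B g = b hex.choose := by simp only [B]; rw [dif_pos hex]
    obtain ⟨h2, h3⟩ := hex.choose_spec
    rw [h1]
    have h4 : hex.choose = s * (s⁻¹ * hex.choose) := by group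
    have h5 : s⁻¹ * hex.choose ∈ U := by
      have : s⁻¹ * hex.choose = (s⁻¹ * g) * (hex.choose⁻¹ * g)⁻¹ := by group
      rw [this]
      exact U.mul_mem hg (U.inv_mem h3)
    rw [h4]
    refine hbU s hs _ h5 ?_
    rw [← h4]; exact h2
  have hB1 : ∀ g, (¬ ∃ s, P g s) → B g = 1 := by
    intro g hg
    simp only [B]; rw [dif_neg hg]
  refine ⟨B, ?_, ?_, ?_⟩
  · intro g u hu
    by_cases hex : ∃ s, P g s
    · obtain ⟨s, hs, hg⟩ := hex
      rw [hB g s hs hg, hB (g * u) s hs (by rw [← mul_assoc]; exact U.mul_mem hg hu)]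
    · have hex' : ¬ ∃ s, P (g * u) s := by
        rintro ⟨s, hs, hg⟩
        refine hex ⟨s, hs, ?_⟩
        have : s⁻¹ * g = s⁻¹ * (g * u) * u⁻¹ := by group
        rw [this]
        exact U.mul_mem hg (U.inv_mem hu)
      rw [hB1 g hex, hB1 (g * u) hex']
  · intro g u hu
    by_cases hex : ∃ s, P g s
    · obtain ⟨s, hs, hg⟩ := hex
      rw [hB g s hs hg, hbM s hs u hu]
    · rw [hB1 g hex, smul_one]
  · intro s hs t ht
    have h1 : ∀ s ∈ H, B s = b s := fun s hs => hB s s hs (by simp)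
    simp only [inflCob]
    rw [h1 _ (H.mul_mem hs ht), h1 s hs, h1 t ht, hb s hs t ht]
    simp

open scoped Pointwise in
/-- representatives of the cosets of `H ⊔ U` -/
private theorem infl_reps {N : Type*} [Group N] (H U : Subgroup N) [H.Normal] [U.Normal] :
    ∃ r σ : N → N, (∀ g, σ g ∈ H) ∧ (∀ g, ∃ u ∈ U, g = σ g * u * r g) ∧
      (∀ g, ∀ s ∈ H, r (s * g) = r g) ∧ (∀ g, ∀ u ∈ U, r (g * u) = r g) ∧
      (∀ s ∈ H, r s = 1) := by
  classical
  let K : Subgroup N := H ⊔ U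
  let r : N → N := fun g => if g ∈ K then 1 else (QuotientGroup.mk g : N ⧸ K).out
  have hr0 : ∀ g g' : N, (QuotientGroup.mk g : N ⧸ K) = QuotientGroup.mk g' → r g = r g' := by
    intro g g' h
    have h1 : g ∈ K ↔ g' ∈ K := by
      rw [QuotientGroup.eq] at h
      constructor
      · intro hg
        have : g' = g * (g⁻¹ * g') := by group
        rw [this]; exact K.mul_mem hg h
      · intro hg
        have : g = g' * (g⁻¹ * g')⁻¹ := by group
        rw [this]; exact K.mul_mem hg (K.inv_mem h)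
    simp only [r]
    by_cases hg : g ∈ K
    · rw [if_pos hg, if_pos (h1.1 hg)]
    · rw [if_neg hg, if_neg (fun h' => hg (h1.2 h')), h]
  have hK : K.Normal := inferInstance
  have hr1 : ∀ g, g * (r g)⁻¹ ∈ K := by
    intro g
    simp only [r]
    by_cases hg : g ∈ K
    · rw [if_pos hg]; simpa using hg
    · rw [if_neg hg]
      have h1 : (QuotientGroup.mk (QuotientGroup.mk g : N ⧸ K).out : N ⧸ K) = QuotientGroup.mk g :=
        Quotient.out_eq _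
      rw [QuotientGroup.eq] at h1
      have h2 := hK.conj_mem _ h1 ((QuotientGroup.mk g : N ⧸ K).out)
      have h3 : (QuotientGroup.mk g : N ⧸ K).out * ((QuotientGroup.mk g : N ⧸ K).out⁻¹ * g) *
        (QuotientGroup.mk g : N ⧸ K).out⁻¹ = g * (QuotientGroup.mk g : N ⧸ K).out⁻¹ := by group
      rw [h3] at h2
      exact h2
  have hsu : ∀ k ∈ K, ∃ s ∈ H, ∃ u ∈ U, k = s * u := by
    intro k hk
    have : k ∈ ((H : Set N) * (U : Set N)) := by
      rw [← Subgroup.mul_normal]; exact hk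
    obtain ⟨s, hs, u, hu, h⟩ := Set.mem_mul.1 this
    exact ⟨s, hs, u, hu, h.symm⟩
  have hex : ∀ g, ∃ s ∈ H, ∃ u ∈ U, g = s * u * r g := by
    intro g
    obtain ⟨s, hs, u, hu, h⟩ := hsu _ (hr1 g)
    exact ⟨s, hs, u, hu, by rw [← h]; group⟩
  choose σ h1 h2 using hex
  refine ⟨r, σ, h1, h2, ?_, ?_, ?_⟩
  · intro g s hs
    apply hr0
    rw [QuotientGroup.eq]
    have h3 : (s * g)⁻¹ * g = g⁻¹ * s⁻¹ * g := by group
    rw [h3]
    have h4 : s⁻¹ ∈ K := K.inv_mem ((le_sup_left : H ≤ K) hs)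
    simpa using hK.conj_mem _ h4 g⁻¹
  · intro g u hu
    apply hr0
    rw [QuotientGroup.eq]
    have h3 : (g * u)⁻¹ * g = u⁻¹ := by group
    rw [h3]
    exact K.inv_mem ((le_sup_right : U ≤ K) hu)
  · intro s hs
    simp only [r]
    rw [if_pos ((le_sup_left : H ≤ K) hs)]

/-- Step 2: make the cocycle trivial for the first variable in `H`. -/
private theorem infl_step2 {N M : Type*} [Group N] [CommGroup M] [MulDistribMulAction N M]
    (H U : Subgroup N) [H.Normal] [U.Normal] (c : N → N → M)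
    (hc : ∀ g h j, c g h * c (g * h) j = g • c h j * c g (h * j))
    (hcU : ∀ g h, ∀ u ∈ U, ∀ v ∈ U, c (g * u) (h * v) = c g h)
    (hcM : ∀ g h, ∀ u ∈ U, u • c g h = c g h)
    (hcH : ∀ s ∈ H, ∀ t ∈ H, c s t = 1) :
    ∃ e : N → M, (∀ g, ∀ u ∈ U, e (g * u) = e g) ∧ (∀ g, ∀ u ∈ U, u • e g = e g) ∧
      ∀ s ∈ H, ∀ g, inflCob c e s g = 1 := by
  obtain ⟨r, σ, hσ, hrep, hrs, hru, hr1⟩ := infl_reps H U
  have hcU1 : ∀ g h, ∀ u ∈ U, c (g * u) h = c g h := by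
    intro g h u hu
    have := hcU g h u hu 1 U.one_mem
    simpa using this
  have hcU2 : ∀ g h, ∀ u ∈ U, c g (h * u) = c g h := by
    intro g h u hu
    have := hcU g h 1 U.one_mem u hu
    simpa using this
  have hg1 : ∀ g, c g 1 = 1 := by
    intro g
    have h1 := hc g 1 1
    rw [hcH 1 H.one_mem 1 H.one_mem, smul_one, one_mul] at h1
    simp only [mul_one] at h1
    simpa using h1
  let E : N → M := fun g => c (σ g) (r g)
  have hE : ∀ g s u, s ∈ H → u ∈ U → g = s * u * r g → E g = c s (r g) := by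
    intro g s u hs hu hg
    obtain ⟨u', hu', hg'⟩ := hrep g
    simp only [E]
    have h1 : s * u = σ g * u' := by
      have : s * u * r g = σ g * u' * r g := by rw [← hg, ← hg']
      exact mul_right_cancel this
    have h2 : s = σ g * (u' * u⁻¹) := by
      rw [← mul_assoc, ← h1]; group
    have h3 : c s (r g) = c (σ g * (u' * u⁻¹)) (r g) := by rw [← h2]
    rw [h3, hcU1 _ _ _ (U.mul_mem hu' (U.inv_mem hu))]
  have hEU : ∀ g, ∀ u ∈ U, E (g * u) = E g := by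
    intro g u hu
    obtain ⟨u', hu', hg'⟩ := hrep g
    have h1 : g * u = σ g * (u' * (r g * u * (r g)⁻¹)) * r (g * u) := by
      rw [hru g u hu]
      calc g * u = σ g * u' * r g * u := by rw [← hg']
        _ = _ := by group
    have h2 : u' * (r g * u * (r g)⁻¹) ∈ U :=
      U.mul_mem hu' ((inferInstance : U.Normal).conj_mem u hu (r g))
    rw [hE _ _ _ (hσ g) h2 h1, hru g u hu]
  have hEM : ∀ g, ∀ u ∈ U, u • E g = E g := fun g u hu => hcM _ _ u hu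
  have hEs : ∀ s ∈ H, ∀ g, E (s * g) = s • E g * c s g := by
    intro s hs g
    obtain ⟨u', hu', hg'⟩ := hrep g
    have h1 : s * g = s * σ g * u' * r (s * g) := by
      rw [hrs g s hs]
      calc s * g = s * (σ g * u' * r g) := by rw [← hg']
        _ = _ := by group
    rw [hE _ _ _ (H.mul_mem hs (hσ g)) hu' h1, hrs g s hs]
    have h2 := hc s (σ g) (r g)
    rw [hcH s hs _ (hσ g), one_mul] at h2
    rw [h2]
    congr 1
    have h3 : g = σ g * r g * ((r g)⁻¹ * u' * r g) := by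
      calc g = σ g * u' * r g := hg'
        _ = _ := by group
    have h4 : (r g)⁻¹ * u' * r g ∈ U := by
      simpa using (inferInstance : U.Normal).conj_mem u' hu' (r g)⁻¹
    calc c s (σ g * r g) = c s (σ g * r g * ((r g)⁻¹ * u' * r g)) := (hcU2 _ _ _ h4).symm
      _ = c s g := by rw [← h3]
  have hE1 : ∀ s ∈ H, E s = 1 := by
    intro s hs
    have h1 : s = s * 1 * r s := by rw [hr1 s hs]; simp
    rw [hE s s 1 hs U.one_mem h1, hr1 s hs, hg1]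
  refine ⟨fun g => (E g)⁻¹, ?_, ?_, ?_⟩
  · intro g u hu
    simp only [hEU g u hu]
  · intro g u hu
    simp only [smul_inv', hEM g u hu]
  · intro s hs g
    simp only [inflCob]
    rw [hEs s hs g, hE1 s hs, smul_inv']
    simp [mul_comm]

/-- Step 3: make the cocycle trivial for either variable in `H`. -/
private theorem infl_step3 {N M : Type*} [Group N] [CommGroup M] [MulDistribMulAction N M]
    (H U : Subgroup N) [H.Normal] [U.Normal] (c : N → N → M)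
    (hc : ∀ g h j, c g h * c (g * h) j = g • c h j * c g (h * j))
    (hcU : ∀ g h, ∀ u ∈ U, ∀ v ∈ U, c (g * u) (h * v) = c g h)
    (hcM : ∀ g h, ∀ u ∈ U, u • c g h = c g h)
    (hcH : ∀ s ∈ H, ∀ g, c s g = 1)
    (h90 : ∀ x : N → M, (∀ s ∈ H, ∀ t ∈ H, x (s * t) = x s * s • x t) →
      (∀ s ∈ H, ∀ u ∈ U, s * u ∈ H → x (s * u) = x s) → (∀ s ∈ H, ∀ u ∈ U, u • x s = x s) →
      ∃ y : M, (∀ u ∈ U, u • y = y) ∧ ∀ s ∈ H, x s * s • y = y) :
    ∃ e : N → M, (∀ g, ∀ u ∈ U, e (g * u) = e g) ∧ (∀ g, ∀ u ∈ U, u • e g = e g) ∧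
      (∀ s ∈ H, ∀ g, inflCob c e s g = 1) ∧ ∀ s ∈ H, ∀ g, inflCob c e g s = 1 := by
  obtain ⟨r, σ, hσ, hrep, hrs, hru, hr1⟩ := infl_reps H U
  have hcU1 : ∀ g h, ∀ u ∈ U, c (g * u) h = c g h := by
    intro g h u hu
    have := hcU g h u hu 1 U.one_mem
    simpa using this
  have hcU2 : ∀ g h, ∀ u ∈ U, c g (h * u) = c g h := by
    intro g h u hu
    have := hcU g h 1 U.one_mem u hu
    simpa using this
  have hi : ∀ s ∈ H, ∀ g t, c (s * g) t = s • c g t := by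
    intro s hs g t
    have h1 := hc s g t
    rw [hcH s hs, hcH s hs] at h1
    simpa using h1
  have hii : ∀ g, ∀ s ∈ H, ∀ t, c g (s * t) = c g s * (g * s * g⁻¹) • c g t := by
    intro g s hs t
    have h1 := hc g s t
    rw [hcH s hs, smul_one, one_mul] at h1
    have h2 : g * s = g * s * g⁻¹ * g := by group
    have h3 : c (g * s) t = (g * s * g⁻¹) • c g t := by
      rw [← hi _ ((inferInstance : H.Normal).conj_mem s hs g), ← h2]
    rw [← h1, h3]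
  have hy : ∀ ρ : N, ∃ y : M, (∀ u ∈ U, u • y = y) ∧
      (∀ s ∈ H, c ρ (ρ⁻¹ * s * ρ) * s • y = y) ∧ (ρ = 1 → y = 1) := by
    intro ρ
    by_cases hρ : ρ = 1
    · subst hρ
      refine ⟨1, fun u _ => smul_one u, ?_, fun _ => rfl⟩
      intro s _
      rw [hcH 1 H.one_mem, smul_one, one_mul]
    · obtain ⟨y, hy1, hy2⟩ := h90 (fun t => c ρ (ρ⁻¹ * t * ρ)) (by
        intro s hs t _
        have h1 : ρ⁻¹ * (s * t) * ρ = (ρ⁻¹ * s * ρ) * (ρ⁻¹ * t * ρ) := by group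
        have h2 : ρ⁻¹ * s * ρ ∈ H := by
          simpa using (inferInstance : H.Normal).conj_mem s hs ρ⁻¹
        have h3 : ρ * (ρ⁻¹ * s * ρ) * ρ⁻¹ = s := by group
        show c ρ (ρ⁻¹ * (s * t) * ρ) = c ρ (ρ⁻¹ * s * ρ) * s • c ρ (ρ⁻¹ * t * ρ)
        rw [h1, hii ρ _ h2, h3]) (by
        intro s _ u hu _
        have h1 : ρ⁻¹ * (s * u) * ρ = (ρ⁻¹ * s * ρ) * (ρ⁻¹ * u * ρ) := by group
        have h2 : ρ⁻¹ * u * ρ ∈ U := by
          simpa using (inferInstance : U.Normal).conj_mem u hu ρ⁻¹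
        show c ρ (ρ⁻¹ * (s * u) * ρ) = c ρ (ρ⁻¹ * s * ρ)
        rw [h1, hcU2 _ _ _ h2]) (by
        intro s _ u hu
        exact hcM _ _ u hu)
      exact ⟨y, hy1, hy2, fun h => absurd h hρ⟩
  choose y hy1 hy2 hy3 using hy
  let Y : N → M := fun g => σ g • y (r g)
  have hY : ∀ g s u, s ∈ H → u ∈ U → g = s * u * r g → Y g = s • y (r g) := by
    intro g s u hs hu hg
    obtain ⟨u', hu', hg'⟩ := hrep g
    simp only [Y]
    have h1 : s * u = σ g * u' := by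
      have : s * u * r g = σ g * u' * r g := by rw [← hg, ← hg']
      exact mul_right_cancel this
    have h2 : s = σ g * (u' * u⁻¹) := by
      rw [← mul_assoc, ← h1]; group
    have h3 : s • y (r g) = (σ g * (u' * u⁻¹)) • y (r g) := by rw [← h2]
    rw [h3, mul_smul, hy1 _ _ (U.mul_mem hu' (U.inv_mem hu))]
  have hYU : ∀ g, ∀ u ∈ U, Y (g * u) = Y g := by
    intro g u hu
    obtain ⟨u', hu', hg'⟩ := hrep g
    have h1 : g * u = σ g * (u' * (r g * u * (r g)⁻¹)) * r (g * u) := by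
      rw [hru g u hu]
      calc g * u = σ g * u' * r g * u := by rw [← hg']
        _ = _ := by group
    have h2 : u' * (r g * u * (r g)⁻¹) ∈ U :=
      U.mul_mem hu' ((inferInstance : U.Normal).conj_mem u hu (r g))
    rw [hY _ _ _ (hσ g) h2 h1, hru g u hu]
  have hYM : ∀ g, ∀ u ∈ U, u • Y g = Y g := by
    intro g u hu
    have h2 : (σ g)⁻¹ * u * σ g ∈ U := by
      simpa using (inferInstance : U.Normal).conj_mem u hu (σ g)⁻¹
    have : u • σ g • y (r g) = σ g • ((σ g)⁻¹ * u * σ g) • y (r g) := by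
      simp only [← mul_smul]; congr 1; group
    show u • σ g • y (r g) = σ g • y (r g)
    rw [this, hy1 _ _ h2]
  have hYs : ∀ s ∈ H, ∀ g, Y (s * g) = s • Y g := by
    intro s hs g
    obtain ⟨u', hu', hg'⟩ := hrep g
    have h1 : s * g = s * σ g * u' * r (s * g) := by
      rw [hrs g s hs]
      calc s * g = s * (σ g * u' * r g) := by rw [← hg']
        _ = _ := by group
    rw [hY _ _ _ (H.mul_mem hs (hσ g)) hu' h1, hrs g s hs, mul_smul]
  have hY1 : ∀ s ∈ H, Y s = 1 := by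
    intro s hs
    show σ s • y (r s) = 1
    rw [hr1 s hs, hy3 1 rfl, smul_one]
  have hiii : ∀ g, ∀ t ∈ H, c g (g⁻¹ * t * g) = Y g * (t • Y g)⁻¹ := by
    intro g t ht
    obtain ⟨u, hu, hg⟩ := hrep g
    set ρ := r g with hρ
    set s := σ g with hs
    have hsH : s ∈ H := hσ g
    have ht' : s⁻¹ * t * s ∈ H := by
      simpa using (inferInstance : H.Normal).conj_mem t ht s⁻¹
    have h1 : ∀ h, c g h = s • c ρ h := by
      intro h
      have h2 : g = s * (ρ * (ρ⁻¹ * u * ρ)) := by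
        calc g = s * u * ρ := hg
          _ = _ := by group
      have h3 : ρ⁻¹ * u * ρ ∈ U := by
        simpa using (inferInstance : U.Normal).conj_mem u hu ρ⁻¹
      calc c g h = c (s * (ρ * (ρ⁻¹ * u * ρ))) h := by rw [← h2]
        _ = _ := by rw [hi s hsH, hcU1 _ _ _ h3]
    have h4 : g⁻¹ * t * g = ρ⁻¹ * (s⁻¹ * t * s) * ρ *
        (ρ⁻¹ * ((s⁻¹ * t * s)⁻¹ * u⁻¹ * (s⁻¹ * t * s) * u) * ρ) := by
      calc g⁻¹ * t * g = (s * u * ρ)⁻¹ * t * (s * u * ρ) := by rw [← hg]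
        _ = _ := by group
    have h5 : ρ⁻¹ * ((s⁻¹ * t * s)⁻¹ * u⁻¹ * (s⁻¹ * t * s) * u) * ρ ∈ U := by
      have h6 : (s⁻¹ * t * s)⁻¹ * u⁻¹ * (s⁻¹ * t * s) * u ∈ U := by
        refine U.mul_mem ?_ hu
        simpa using (inferInstance : U.Normal).conj_mem u⁻¹ (U.inv_mem hu) (s⁻¹ * t * s)⁻¹
      simpa using (inferInstance : U.Normal).conj_mem _ h6 ρ⁻¹
    have h7 : c ρ (ρ⁻¹ * (s⁻¹ * t * s) * ρ) = y ρ * ((s⁻¹ * t * s) • y ρ)⁻¹ := by
      rw [eq_mul_inv_iff_mul_eq]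
      exact hy2 ρ _ ht'
    rw [h1, h4, hcU2 _ _ _ h5, h7, smul_mul', smul_inv', ← mul_smul]
    have h8 : s * (s⁻¹ * t * s) = t * s := by group
    rw [h8, mul_smul]
  refine ⟨Y, hYU, hYM, ?_, ?_⟩
  · intro s hs g
    simp only [inflCob]
    rw [hcH s hs, hYs s hs, hY1 s hs]
    simp
  · intro s hs g
    simp only [inflCob]
    have h1 : g * s = g * s * g⁻¹ * g := by group
    have h2 : g * s * g⁻¹ ∈ H := (inferInstance : H.Normal).conj_mem s hs g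
    have h3 : Y (g * s) = (g * s * g⁻¹) • Y g := by
      rw [← hYs _ h2, ← h1]
    have h4 : g⁻¹ * (g * s * g⁻¹) * g = s := by group
    have h5 := hiii g _ h2
    rw [h4] at h5
    rw [h3, h5, hY1 s hs, smul_one]
    simp

/-- Step 4: invariance. -/
private theorem infl_step4 {N M : Type*} [Group N] [CommGroup M] [MulDistribMulAction N M]
    (H : Subgroup N) [H.Normal] (c : N → N → M)
    (hc : ∀ g h j, c g h * c (g * h) j = g • c h j * c g (h * j))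
    (h1 : ∀ s ∈ H, ∀ g, c s g = 1) (h2 : ∀ s ∈ H, ∀ g, c g s = 1) :
    (∀ g h, ∀ s ∈ H, ∀ t ∈ H, c (g * s) (h * t) = c g h) ∧
      (∀ g h, ∀ s ∈ H, s • c g h = c g h) := by
  have ha : ∀ g h, ∀ s ∈ H, c g (h * s) = c g h := by
    intro g h s hs
    have h3 := hc g h s
    rw [h2 s hs, h2 s hs, smul_one, one_mul, mul_one] at h3
    exact h3.symm
  have hb : ∀ g h, ∀ s ∈ H, c g (s * h) = c g h := by
    intro g h s hs
    have h3 : s * h = h * (h⁻¹ * s * h) := by group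
    have h4 : h⁻¹ * s * h ∈ H := by
      simpa using (inferInstance : H.Normal).conj_mem s hs h⁻¹
    rw [h3, ha _ _ _ h4]
  have hd : ∀ g h, ∀ s ∈ H, c (g * s) h = c g h := by
    intro g h s hs
    have h3 := hc g s h
    rw [h2 s hs, h1 s hs, smul_one, one_mul, one_mul] at h3
    rw [h3, hb _ _ _ hs]
  refine ⟨?_, ?_⟩
  · intro g h s hs t ht
    rw [hd _ _ _ hs, ha _ _ _ ht]
  · intro g h s hs
    have h3 := hc s g h
    rw [h1 s hs, h1 s hs, one_mul, mul_one] at h3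
    have h4 : s * g = g * (g⁻¹ * s * g) := by group
    have h5 : g⁻¹ * s * g ∈ H := by
      simpa using (inferInstance : H.Normal).conj_mem s hs g⁻¹
    rw [← h3, h4, hd _ _ _ h5]

/--
Inflation (Hochschild-Serre in degree 2) at the level `U`: `c` is a cocycle on `N` which is a
coboundary on the normal subgroup `H`, and `H^1(H, M^U) = 0` (h90). Then `c` is cohomologous to a
cocycle `a g h = c g h * e (g h) * (e g * g • e h)⁻¹` of `N / H` with values in `M^H`.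
PROOF. M^U is stable under N (U normal). 'level U' = right U-invariant with values in M^U. For a
cochain e write c·∂e := c g h * e(gh) * (e g * g•e h)⁻¹; it is again a cocycle, of level U in both
variables if c and e are; ∂(e e') = ∂e ∂e'. So the steps can be done one after the other.
Step 0. m₀ = c 1 1; c 1 h = m₀, c g 1 = g•m₀ (cocycle identity for (1,1,h), (g,1,1)). Take e = m₀
constant: c' = c·∂m₀ = c g h * (g•m₀)⁻¹ has c' 1 h = 1 = c' g 1, and b' = b m₀⁻¹ on H satisfies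
c' s t * b'(st) = b' s * s•b' t; so b' 1 = 1.
Step 1. B(g) := b' s if g = s u with s ∈ H, u ∈ U (independent of the choice by hbU: if s u = s' u'
then s⁻¹ s' = u u'⁻¹ ∈ U), B(g) := 1 if g ∉ HU. B has level U, B 1 = 1. c1 := c'·∂B. Then
c1 s t = 1 for s,t ∈ H; c1 1 g = c1 g 1 = 1.
Step 2. Choose r : N → N with r g ∈ (HU) g, r constant on the cosets (HU) g, and r = 1 on HU.
Write g = s u (r g), s ∈ H, u ∈ U. E g := c1 s (r g): independent of the choice (s' = s v,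
v ∈ H ⊓ U, and c1 has level U), of level U (g v = s (u r v r⁻¹) r, r(g v) = r g since
g v = (g v g⁻¹) g). By the cocycle identity for (s, s', u' r) (g = s' u' r):
c1 s s' * c1 (s s') (u' r) = s•c1 s' (u' r) * c1 s (s' u' r), i.e. E (s g) = s•E g * c1 s g.
E s = c1 s 1 = 1 for s ∈ H. c2 := c1·∂(E⁻¹) = c1 g h * E g * g•E h * (E (gh))⁻¹. Then c2 s g = 1
for s ∈ H and all g.
Step 3. From (s,g,t) and c2 s _ = 1: c2 (s g) t = s•c2 g t (i). From (g,s,t), s ∈ H: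
c2 g (s t) = c2 g s * c2 (g s) t = c2 g s * (g s g⁻¹)•c2 g t (ii), by g s = (g s g⁻¹) g and (i).
For r in the image of r(·) put x_r(t) := c2 r (r⁻¹ t r), t ∈ H. By (ii) x_r(s t) = x_r s * s•x_r t;
it has level U. h90 gives y_r ∈ M^U with x_r s * s•y_r = y_r; choose y_1 = 1 (x_1 = 1).
Y g := s•y_{r g} for g = s u (r g): independent of the choice as y_r ∈ M^U; level U; Y (s g) =
s•Y g; Y s = 1 for s ∈ H. For g = s u r: c2 g h = s•c2 (u r) h = s•c2 r h (level U), so for t ∈ H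
c2 g (g⁻¹ t g) = s•c2 r (g⁻¹ t g) and g⁻¹ t g = r⁻¹ (s⁻¹ t s) r v with v ∈ U, hence
c2 g (g⁻¹ t g) = s•x_r(s⁻¹ t s) = s•(y_r (s⁻¹ t s•y_r)⁻¹) = Y g * (t•Y g)⁻¹ (iii).
c3 := c2·∂Y. c3 s g = Y(sg) (Y s * s•Y g)⁻¹ = 1. c3 g s = c2 g s * Y(g s) * (Y g * g•1)⁻¹ with
Y (g s) = Y ((g s g⁻¹) g) = (g s g⁻¹)•Y g, so c3 g s = 1 by (iii) with t = g s g⁻¹.
Step 4. From c3 s g = 1 = c3 g s (s ∈ H): (g,h,s) gives c3 g (h s) = c3 g h; then
c3 g (s h) = c3 g (h (h⁻¹ s h)) = c3 g h; (g,s,h) gives c3 (g s) h = c3 g (s h) = c3 g h; (s,g,h)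
gives c3 (s g) h = s•c3 g h, and s g = g (g⁻¹ s g), so s•c3 g h = c3 g h. Total: e = m₀ B E⁻¹ Y.
The last conclusion (normalization) holds at every step.
-/
theorem infl {N M : Type*} [Group N] [CommGroup M] [MulDistribMulAction N M] (H U : Subgroup N)
    [H.Normal] [U.Normal] (c : N → N → M)
    (hc : ∀ g h j, c g h * c (g * h) j = g • c h j * c g (h * j))
    (hcU : ∀ g h, ∀ u ∈ U, ∀ v ∈ U, c (g * u) (h * v) = c g h)
    (hcM : ∀ g h, ∀ u ∈ U, u • c g h = c g h)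
    (b : N → M) (hb : ∀ s ∈ H, ∀ t ∈ H, c s t * b (s * t) = b s * s • b t)
    (hbU : ∀ s ∈ H, ∀ u ∈ U, s * u ∈ H → b (s * u) = b s)
    (hbM : ∀ s ∈ H, ∀ u ∈ U, u • b s = b s)
    (h90 : ∀ x : N → M, (∀ s ∈ H, ∀ t ∈ H, x (s * t) = x s * s • x t) →
      (∀ s ∈ H, ∀ u ∈ U, s * u ∈ H → x (s * u) = x s) → (∀ s ∈ H, ∀ u ∈ U, u • x s = x s) →
      ∃ y : M, (∀ u ∈ U, u • y = y) ∧ ∀ s ∈ H, x s * s • y = y) :
    ∃ e : N → M, (∀ g, ∀ u ∈ U, e (g * u) = e g) ∧ (∀ g, ∀ u ∈ U, u • e g = e g) ∧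
      (∀ g h, ∀ s ∈ H, ∀ t ∈ H, c (g * s) (h * t) * e (g * s * (h * t)) *
        (e (g * s) * (g * s) • e (h * t))⁻¹ = c g h * e (g * h) * (e g * g • e h)⁻¹) ∧
      (∀ g h, ∀ s ∈ H, s • (c g h * e (g * h) * (e g * g • e h)⁻¹) =
        c g h * e (g * h) * (e g * g • e h)⁻¹) ∧
      ∀ g, c 1 g * e (1 * g) * (e 1 * (1 : N) • e g)⁻¹ = 1 ∧
        c g 1 * e (g * 1) * (e g * g • e 1)⁻¹ = 1 := by
  obtain ⟨B, hB1, hB2, hB3⟩ := infl_step1 H U c b hb hbU hbM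
  obtain ⟨E, hE1, hE2, hE3⟩ := infl_step2 H U (inflCob c B)
    (fun g h j => infl_cob_cocycle c hc B g h j)
    (fun g h u hu v hv => infl_cob_level U c hcU B hB1 hB2 g h u hu v hv)
    (fun g h u hu => infl_cob_val U c hcM B hB2 g h u hu) hB3
  obtain ⟨Y, hY1, hY2, hY3, hY4⟩ := infl_step3 H U (inflCob (inflCob c B) E)
    (fun g h j => infl_cob_cocycle _ (fun g h j => infl_cob_cocycle c hc B g h j) E g h j)
    (fun g h u hu v hv => infl_cob_level U _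
      (fun g h u hu v hv => infl_cob_level U c hcU B hB1 hB2 g h u hu v hv) E hE1 hE2 g h u hu v hv)
    (fun g h u hu => infl_cob_val U _
      (fun g h u hu => infl_cob_val U c hcM B hB2 g h u hu) E hE2 g h u hu) hE3 h90
  obtain ⟨hF1, hF2⟩ := infl_step4 H (inflCob (inflCob (inflCob c B) E) Y)
    (fun g h j => infl_cob_cocycle _ (fun g h j => infl_cob_cocycle _
      (fun g h j => infl_cob_cocycle c hc B g h j) E g h j) Y g h j) hY3 hY4
  have hcomb : ∀ g h, inflCob (inflCob (inflCob c B) E) Y g h =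
      inflCob c (fun x => B x * (E x * Y x)) g h := by
    intro g h
    rw [infl_cob_mul, infl_cob_mul]
  simp only [hcomb] at hF1 hF2 hY3 hY4
  refine ⟨fun x => B x * (E x * Y x), ?_, ?_, ?_, ?_, ?_⟩
  · intro g u hu
    simp only [hB1 g u hu, hE1 g u hu, hY1 g u hu]
  · intro g u hu
    simp only [smul_mul', hB2 g u hu, hE2 g u hu, hY2 g u hu]
  · intro g h s hs t ht
    exact hF1 g h s hs t ht
  · intro g h s hs
    exact hF2 g h s hs
  · intro g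
    exact ⟨hY3 1 H.one_mem g, hY4 1 H.one_mem g⟩

end

end Pool.Agent.TBR

end

section


namespace Pool.Agent.TBR

universe u

section

variable {k Ω : Type u} [Field k] [Field Ω] [Algebra k Ω]

/--
Hilbert 90. PROOF. The set Q of the restrictions f : S → Ω, f = σ|S with σ ∈ D, is finite (they map
S to S). E₀ := IntermediateField.adjoin k S is mapped to itself by D, and σ|E₀ is determined by
σ|S. Let T ⊆ D be a finite set of representatives for the relation Ag S on D. By Dedekind's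
linear independence of the pairwise distinct monoid homs σ|E₀ : E₀ → Ω (σ ∈ T; Mathlib
linearIndependent_monoidHom) there is w ∈ E₀ with y := ∑_{τ ∈ T} x τ * τ w ≠ 0 (the x τ are ≠ 0).
y lies in the field of the statement. For σ ∈ D: σ y = ∑ σ(x τ) (σ τ) w = ∑ (x σ)⁻¹ x(σ τ) (σ τ) w
by hx, and τ ↦ representative of σ τ is a permutation of T, x and (· w) depend only on the class:
σ y = (x σ)⁻¹ y.
-/
theorem h90u (D : Subgroup (Ω ≃ₐ[k] Ω)) (S : Finset Ω) (hS : ∀ σ ∈ D, ∀ x ∈ S, σ x ∈ S)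
    (x : (Ω ≃ₐ[k] Ω) → Ωˣ) (hlc : ∀ σ ∈ D, ∀ τ ∈ D, Ag (S : Set Ω) σ τ → x σ = x τ)
    (hx : ∀ σ ∈ D, ∀ τ ∈ D, x (σ * τ) = x σ * σ • x τ) :
    ∃ y : Ωˣ, (y : Ω) ∈ IntermediateField.adjoin k
      ((S : Set Ω) ∪ {w | ∃ σ ∈ D, (x σ : Ω) = w}) ∧ ∀ σ ∈ D, x σ * σ • y = y := by
  classical
  set E₀ : IntermediateField k Ω := IntermediateField.adjoin k (S : Set Ω) with hE₀
  have hag : ∀ σ τ : Ω ≃ₐ[k] Ω, Ag (S : Set Ω) σ τ → ∀ w ∈ E₀, σ w = τ w := by
    intro σ τ h w hw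
    induction hw using IntermediateField.adjoin_induction with
    | mem y hy => exact h y hy
    | algebraMap y => rw [AlgEquiv.commutes, AlgEquiv.commutes]
    | add y z _ _ h1 h2 => rw [map_add, map_add, h1, h2]
    | inv y _ h1 => rw [map_inv₀, map_inv₀, h1]
    | mul y z _ _ h1 h2 => rw [map_mul, map_mul, h1, h2]
  have hst : ∀ σ ∈ D, ∀ w ∈ E₀, σ w ∈ E₀ := by
    intro σ hσ w hw
    induction hw using IntermediateField.adjoin_induction with
    | mem y hy => exact IntermediateField.subset_adjoin k _ (hS σ hσ y hy)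
    | algebraMap y => rw [AlgEquiv.commutes]; exact E₀.algebraMap_mem y
    | add y z _ _ h1 h2 => rw [map_add]; exact E₀.add_mem h1 h2
    | inv y _ h1 => rw [map_inv₀]; exact E₀.inv_mem h1
    | mul y z _ _ h1 h2 => rw [map_mul]; exact E₀.mul_mem h1 h2
  -- the classes
  let r : Setoid D :=
    { r := fun σ τ => Ag (S : Set Ω) (σ : Ω ≃ₐ[k] Ω) τ
      iseqv := ⟨fun _ => Ag.refl _ _, fun h => h.symm, fun h h' => h.trans h'⟩ }
  have hfin : Finite (Quotient r) := by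
    refine Finite.of_injective (β := S → S)
      (Quotient.lift (fun σ : D => fun y : S => ⟨(σ : Ω ≃ₐ[k] Ω) y, hS σ σ.2 y y.2⟩) ?_) ?_
    · intro σ τ h
      funext y
      exact Subtype.ext (h y y.2)
    · intro q q'
      induction q using Quotient.inductionOn
      induction q' using Quotient.inductionOn
      intro h
      refine Quotient.sound fun y hy => ?_
      exact congrArg Subtype.val (congrFun h ⟨y, hy⟩)
  have : Fintype (Quotient r) := Fintype.ofFinite _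
  -- the homomorphisms
  let φ : Quotient r → (E₀ →* Ω) := Quotient.lift
    (fun σ : D => ((σ : Ω ≃ₐ[k] Ω) : Ω →* Ω).comp (E₀.val : E₀ →* Ω)) (by
      intro σ τ h
      ext w
      exact hag _ _ h w w.2)
  have hφ : ∀ (σ : D) (w : E₀), φ ⟦σ⟧ w = (σ : Ω ≃ₐ[k] Ω) w := fun σ w => rfl
  let c : Quotient r → Ω := Quotient.lift (fun σ : D => ((x σ : Ωˣ) : Ω)) (by
      intro σ τ h
      exact congrArg Units.val (hlc σ σ.2 τ τ.2 h))
  have hc : ∀ σ : D, c ⟦σ⟧ = (x σ : Ω) := fun σ => rfl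
  have hinj : Function.Injective φ := by
    intro q q'
    induction q using Quotient.inductionOn with | _ σ => ?_
    induction q' using Quotient.inductionOn with | _ τ => ?_
    intro h
    refine Quotient.sound fun y hy => ?_
    have := congrArg (fun f : E₀ →* Ω => f ⟨y, IntermediateField.subset_adjoin k _ hy⟩) h
    exact this
  have hlin : LinearIndependent Ω (fun q : Quotient r => ((φ q : E₀ →* Ω) : E₀ → Ω)) :=
    (linearIndependent_monoidHom E₀ Ω).comp φ hinj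
  obtain ⟨w, hw⟩ : ∃ w : E₀, ∑ q, c q * φ q w ≠ 0 := by
    by_contra hcon
    push Not at hcon
    have h1 : ∑ q, c q • ((φ q : E₀ →* Ω) : E₀ → Ω) = 0 := by
      funext w
      rw [Finset.sum_apply]
      simpa using hcon w
    have h2 := Fintype.linearIndependent_iff.1 hlin c h1 ⟦1⟧
    exact (x (1 : D)).ne_zero h2
  refine ⟨Units.mk0 _ hw, ?_, ?_⟩
  · rw [Units.val_mk0]
    refine sum_mem fun q _ => ?_
    induction q using Quotient.inductionOn with | _ σ => ?_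
    rw [hc, hφ]
    refine mul_mem ?_ ?_
    · exact IntermediateField.subset_adjoin k _ (Or.inr ⟨σ, σ.2, rfl⟩)
    · exact IntermediateField.adjoin.mono k _ _ Set.subset_union_left (hst σ σ.2 w w.2)
  · intro σ hσ
    apply Units.ext
    have hsm : ∀ (ρ : Ω ≃ₐ[k] Ω) (u : Ωˣ), ((ρ • u : Ωˣ) : Ω) = ρ (u : Ω) := fun _ _ => rfl
    rw [Units.val_mul, hsm, Units.val_mk0]
    rw [map_sum, Finset.mul_sum]
    let e : Quotient r → Quotient r := Quotient.map (fun τ : D => ⟨σ, hσ⟩ * τ) (by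
      intro τ τ' h y hy
      change σ ((τ : Ω ≃ₐ[k] Ω) y) = σ ((τ' : Ω ≃ₐ[k] Ω) y)
      rw [h y hy])
    have he : ∀ τ : D, e ⟦τ⟧ = ⟦⟨σ, hσ⟩ * τ⟧ := fun τ => rfl
    have hei : Function.Injective e := by
      intro q q'
      induction q using Quotient.inductionOn with | _ τ => ?_
      induction q' using Quotient.inductionOn with | _ τ' => ?_
      intro h
      rw [he, he] at h
      have h' : Ag (S : Set Ω) (σ * (τ : Ω ≃ₐ[k] Ω)) (σ * (τ' : Ω ≃ₐ[k] Ω)) := Quotient.exact h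
      refine Quotient.sound fun y hy => ?_
      have := h' y hy
      rw [AlgEquiv.mul_apply, AlgEquiv.mul_apply] at this
      exact σ.injective this
    have heb : Function.Bijective e := (Finite.injective_iff_bijective).1 hei
    rw [← Equiv.sum_comp (Equiv.ofBijective e heb) (fun q => c q * φ q w)]
    refine Finset.sum_congr rfl fun q _ => ?_
    induction q using Quotient.inductionOn with | _ τ => ?_
    rw [Equiv.ofBijective_apply, he, hc, hφ, hc, hφ, map_mul]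
    have h1 := hx σ hσ τ τ.2
    have h2 := congrArg Units.val h1
    rw [Units.val_mul, hsm] at h2
    rw [← mul_assoc, ← h2]
    rfl

end

end Pool.Agent.TBR

end

section


namespace Pool.Agent.TBR

universe u

section

variable {k Ω : Type u} [Field k] [Field Ω] [Algebra k Ω]

/--
Compactness: a locally constant function on a closed subgroup with finite orbits, which depends
only on the restriction to T, depends only on the restriction to a finite subset of T.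
PROOF. Otherwise for every finite S ⊆ T there are σ_S, τ_S ∈ D with Ag S σ_S τ_S and
f σ_S ≠ f τ_S. Take an ultrafilter 𝒰 on the finite subsets of T (type {S : Finset Ω // ↑S ⊆ T} or
Finset T) finer than atTop (Ultrafilter.of Filter.atTop; NeBot since directed, nonempty). For x : Ω
the values σ_S x lie in the finite orbit of x, so there is a unique σ(x) with σ_S x = σ(x) for
𝒰-almost all S (Ultrafilter.finite_biUnion_mem_iff or similar). In the same way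
σ'(x) = lim σ_S⁻¹ x. σ is a k-algebra hom (each identity holds for
almost all S), σ' is its inverse, so σ : Ω ≃ₐ[k] Ω; for every finite set S₀, σ = σ_S on S₀ for almost
all S, so σ ∈ D by hcl. Same for τ = lim τ_S. For x ∈ T almost all S contain x, so σ x = τ x.
Hence f σ = f τ by hT. With the finite set S₀ of hf: for almost all S, σ_S agrees with σ on S₀ and
τ_S with τ, so f σ_S = f σ = f τ = f τ_S, a contradiction.
-/
theorem cpt (D : Subgroup (Ω ≃ₐ[k] Ω)) (horb : Orb D Set.univ) (hcl : Clo D) (T : Set Ω)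
    {M : Type*} (f : (Ω ≃ₐ[k] Ω) → M) (hf : Lo1 D Set.univ f)
    (hT : ∀ σ ∈ D, ∀ τ ∈ D, Ag T σ τ → f σ = f τ) : Lo1 D T f := by
  classical
  by_contra hcon
  have h1 : ∀ S : Finset Ω, ∃ p : (Ω ≃ₐ[k] Ω) × (Ω ≃ₐ[k] Ω), p.1 ∈ D ∧ p.2 ∈ D ∧
      (∀ x ∈ S, x ∈ T → p.1 x = p.2 x) ∧ f p.1 ≠ f p.2 := by
    intro S
    by_contra h
    refine hcon ⟨S.filter (· ∈ T), ?_, fun σ hσ τ hτ hag => ?_⟩
    · intro x hx
      rw [Finset.mem_coe, Finset.mem_filter] at hx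
      exact hx.2
    · by_contra hne
      refine h ⟨(σ, τ), hσ, hτ, fun x hx hxT => hag x ?_, hne⟩
      rw [Finset.mem_coe, Finset.mem_filter]
      exact ⟨hx, hxT⟩
  choose p hp1 hp2 hp3 hp4 using h1
  obtain ⟨U, hU⟩ : ∃ U : Ultrafilter (Finset Ω), (U : Filter (Finset Ω)) ≤ Filter.atTop :=
    ⟨Ultrafilter.of Filter.atTop, Ultrafilter.of_le _⟩
  -- the limit of a family of elements of `D`
  have hlim : ∀ g : Finset Ω → (Ω ≃ₐ[k] Ω), (∀ S, g S ∈ D) →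
      ∃ σ ∈ D, ∀ x : Ω, ∀ᶠ S in (U : Filter (Finset Ω)), g S x = σ x := by
    intro g hg
    have hone : ∀ h : Finset Ω → (Ω ≃ₐ[k] Ω), (∀ S, h S ∈ D) → ∀ x : Ω, ∃ y : Ω,
        ∀ᶠ S in (U : Filter (Finset Ω)), h S x = y := by
      intro h hh x
      have hfin := horb x (Set.mem_univ _)
      have h2 : (⋃ y ∈ {y : Ω | ∃ σ ∈ D, σ x = y}, {S : Finset Ω | h S x = y}) ∈ U := by
        refine Filter.mem_of_superset Filter.univ_mem fun S _ => ?_
        rw [Set.mem_iUnion₂]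
        exact ⟨h S x, ⟨h S, hh S, rfl⟩, rfl⟩
      rw [Ultrafilter.finite_biUnion_mem_iff hfin] at h2
      obtain ⟨y, -, hy⟩ := h2
      exact ⟨y, hy⟩
    choose σ hσ using hone g hg
    choose σ' hσ' using hone (fun S => (g S)⁻¹) (fun S => D.inv_mem (hg S))
    have hex : ∀ {P : Finset Ω → Prop}, (∀ᶠ S in (U : Filter (Finset Ω)), P S) → ∃ S, P S :=
      fun h => h.exists
    have hl : ∀ x, σ' (σ x) = x := by
      intro x
      obtain ⟨S, hS1, hS2⟩ := hex ((hσ x).and (hσ' (σ x)))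
      rw [← hS2, ← hS1]
      exact (g S).symm_apply_apply x
    have hr : ∀ x, σ (σ' x) = x := by
      intro x
      obtain ⟨S, hS1, hS2⟩ := hex ((hσ' x).and (hσ (σ' x)))
      rw [← hS2, ← hS1]
      exact (g S).apply_symm_apply x
    have hmul : ∀ x y, σ (x * y) = σ x * σ y := by
      intro x y
      obtain ⟨S, ⟨hS1, hS2⟩, hS3⟩ := hex (((hσ x).and (hσ y)).and (hσ (x * y)))
      rw [← hS1, ← hS2, ← hS3, map_mul]
    have hadd : ∀ x y, σ (x + y) = σ x + σ y := by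
      intro x y
      obtain ⟨S, ⟨hS1, hS2⟩, hS3⟩ := hex (((hσ x).and (hσ y)).and (hσ (x + y)))
      rw [← hS1, ← hS2, ← hS3, map_add]
    have hcom : ∀ r : k, σ (algebraMap k Ω r) = algebraMap k Ω r := by
      intro r
      obtain ⟨S, hS⟩ := hex (hσ (algebraMap k Ω r))
      rw [← hS, AlgEquiv.commutes]
    let s : Ω ≃ₐ[k] Ω :=
      { toFun := σ, invFun := σ', left_inv := hl, right_inv := hr, map_mul' := hmul,
        map_add' := hadd, commutes' := hcom }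
    refine ⟨s, ?_, fun x => hσ x⟩
    refine hcl s fun S₀ => ?_
    have h3 : ∀ᶠ S in (U : Filter (Finset Ω)), ∀ x ∈ S₀, g S x = σ x := by
      rw [Filter.eventually_all_finset]
      exact fun x _ => hσ x
    obtain ⟨S, hS⟩ := hex h3
    exact ⟨g S, hg S, fun x hx => (hS x hx).symm⟩
  obtain ⟨σ, hσD, hσ⟩ := hlim (fun S => (p S).1) hp1
  obtain ⟨τ, hτD, hτ⟩ := hlim (fun S => (p S).2) hp2
  have hat : ∀ x : Ω, ∀ᶠ S in (U : Filter (Finset Ω)), x ∈ S := by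
    intro x
    refine hU (Filter.mem_of_superset (Filter.mem_atTop ({x} : Finset Ω)) fun S hS => ?_)
    exact Finset.singleton_subset_iff.1 hS
  have hag : Ag T σ τ := by
    intro x hx
    obtain ⟨S, ⟨hS1, hS2⟩, hS3⟩ := (((hσ x).and (hτ x)).and (hat x)).exists
    rw [← hS1, ← hS2]
    exact hp3 S x hS3 hx
  obtain ⟨S₀, -, hS₀⟩ := hf
  have h5 : ∀ᶠ S in (U : Filter (Finset Ω)), (∀ x ∈ S₀, (p S).1 x = σ x) ∧
      ∀ x ∈ S₀, (p S).2 x = τ x := by
    refine Filter.Eventually.and ?_ ?_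
    · rw [Filter.eventually_all_finset]
      exact fun x _ => hσ x
    · rw [Filter.eventually_all_finset]
      exact fun x _ => hτ x
  obtain ⟨S, hS1, hS2⟩ := h5.exists
  refine hp4 S ?_
  rw [hS₀ _ (hp1 S) σ hσD hS1, hS₀ _ (hp2 S) τ hτD hS2]
  exact hT σ hσD τ hτD hag

end

end Pool.Agent.TBR

end

section


namespace Pool.Agent.TBR

universe u

section

variable {k Ω : Type u} [Field k] [Field Ω] [Algebra k Ω]

/--
PROOF. Apply cpt to F σ := (fun τ : D => f σ τ) : D → M (a function with values in D → M) and to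
G τ := (fun σ : D => f σ τ); take the union of the two finite sets and go from (σ,τ) to (σ',τ) to
(σ',τ').
-/
theorem cpt2 (D : Subgroup (Ω ≃ₐ[k] Ω)) (horb : Orb D Set.univ) (hcl : Clo D) (T : Set Ω)
    {M : Type*} (f : (Ω ≃ₐ[k] Ω) → (Ω ≃ₐ[k] Ω) → M) (hf : Lo2 D Set.univ f)
    (hT : ∀ σ ∈ D, ∀ σ' ∈ D, ∀ τ ∈ D, ∀ τ' ∈ D, Ag T σ σ' → Ag T τ τ' → f σ τ = f σ' τ') :
    Lo2 D T f := by
  classical
  obtain ⟨S, hS, hSf⟩ := hf
  -- the function of the first variable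
  have h1 : Lo1 D T (fun σ : Ω ≃ₐ[k] Ω => fun τ : D => f σ τ) := by
    refine cpt D horb hcl T _ ⟨S, hS, fun σ hσ σ' hσ' h => ?_⟩ fun σ hσ σ' hσ' h => ?_
    · funext τ
      exact hSf σ hσ σ' hσ' τ τ.2 τ τ.2 h (Ag.refl _ _)
    · funext τ
      exact hT σ hσ σ' hσ' τ τ.2 τ τ.2 h (Ag.refl _ _)
  have h2 : Lo1 D T (fun τ : Ω ≃ₐ[k] Ω => fun σ : D => f σ τ) := by
    refine cpt D horb hcl T _ ⟨S, hS, fun τ hτ τ' hτ' h => ?_⟩ fun τ hτ τ' hτ' h => ?_
    · funext σ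
      exact hSf σ σ.2 σ σ.2 τ hτ τ' hτ' (Ag.refl _ _) h
    · funext σ
      exact hT σ σ.2 σ σ.2 τ hτ τ' hτ' (Ag.refl _ _) h
  obtain ⟨S1, hS1, hf1⟩ := h1
  obtain ⟨S2, hS2, hf2⟩ := h2
  refine ⟨S1 ∪ S2, ?_, fun σ hσ σ' hσ' τ hτ τ' hτ' h h' => ?_⟩
  · rw [Finset.coe_union]
    exact Set.union_subset hS1 hS2
  · rw [Finset.coe_union] at h h'
    have e1 := congrFun (hf1 σ hσ σ' hσ' (h.mono Set.subset_union_left)) ⟨τ, hτ⟩
    have e2 := congrFun (hf2 τ hτ τ' hτ' (h'.mono Set.subset_union_right)) ⟨σ', hσ'⟩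
    exact e1.trans e2

end

end Pool.Agent.TBR

end

section


namespace Pool.Agent.TBR

universe u

section

variable {k Ω : Type u} [Field k] [Field Ω] [Algebra k Ω]

/--
Inflation for continuous cochains. PROOF. Let S₀ be the union of: the finite set of hlc, the finite
set of the cochain b of htri (Cob H c b), the values c σ τ (σ, τ ∈ N; finitely many: finite_range
applied in both variables) and the values b s (s ∈ H, finite_range). exists_stable (T = univ) gives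
a finite S₁ ⊇ S₀ stable under N. Let U = {σ ∈ N | σ fixes S₁}; it is normal in N. Apply infl to the
group ↥N acting on Ωˣ, the subgroups H.subgroupOf N and U (as subgroups of ↥N), c and b restricted:
level: c (σ u) (τ v) = c σ τ as σ u = σ on S₁; u • c σ τ = c σ τ as the value is in S₁. h90: for an
H-cocycle x with (H ⊓ U)-invariance and values fixed by U use h90u with D = H, S = S₁ (for σ, τ ∈ H
with Ag S₁ σ τ, τ = σ u with u ∈ U; extend x by 1 outside of N); y is in the field generated by S₁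
and values of x, so it is fixed by U. Put e = the result, extended to all automorphisms by
Lo1.extend (level S₁), and a σ τ := c σ τ * e (σ τ) * (e σ * σ • e τ)⁻¹; Lo2 with S₁ (σ•e τ depends
only on σ|S₁: e τ is fixed by U, and σ' = σ u if Ag S₁ σ σ', so σ'•e τ = σ•e τ).
-/
theorem inflation (N H : Subgroup (Ω ≃ₐ[k] Ω)) (hHN : H ≤ N)
    (hnorm : ∀ σ ∈ N, ∀ τ ∈ H, σ * τ * σ⁻¹ ∈ H) (horb : Orb N Set.univ)
    (c : (Ω ≃ₐ[k] Ω) → (Ω ≃ₐ[k] Ω) → Ωˣ) (hlc : Lc2 Set.univ c) (hc : Coc N c)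
    (htri : Tri H c) :
    ∃ (a : (Ω ≃ₐ[k] Ω) → (Ω ≃ₐ[k] Ω) → Ωˣ) (e : (Ω ≃ₐ[k] Ω) → Ωˣ),
      Lo2 N Set.univ a ∧ Lc1 Set.univ e ∧
      (∀ σ ∈ N, ∀ τ ∈ N, a σ τ = c σ τ * e (σ * τ) * (e σ * σ • e τ)⁻¹) ∧
      (∀ σ ∈ N, ∀ τ ∈ N, ∀ s ∈ H, ∀ t ∈ H, a (σ * s) (τ * t) = a σ τ) ∧
      (∀ σ ∈ N, ∀ τ ∈ N, ∀ s ∈ H, s • a σ τ = a σ τ) ∧ ∀ σ ∈ N, a 1 σ = 1 ∧ a σ 1 = 1 := by
  classical
  obtain ⟨Sc, -, hSc⟩ := hlc
  obtain ⟨b, ⟨Sb, -, hSb⟩, hcb⟩ := htri
  have horb' : ∀ S : Finset Ω, Orb N (S : Set Ω) := fun S => horb.mono le_rfl (Set.subset_univ _)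
  -- the values of `c`
  have hcfin : {m : Ωˣ | ∃ σ ∈ N, ∃ τ ∈ N, c σ τ = m}.Finite := by
    have h1 := finite_range N Sc (horb' Sc) (fun σ => c σ) (fun σ _ τ _ h =>
      funext fun ρ => hSc σ τ ρ ρ h (Ag.refl _ _))
    have h2 : ∀ g ∈ {m | ∃ σ ∈ N, c σ = m}, {m : Ωˣ | ∃ τ ∈ N, g τ = m}.Finite := by
      rintro g ⟨σ, hσ, rfl⟩
      exact finite_range N Sc (horb' Sc) (fun τ => c σ τ) (fun τ _ τ' _ h =>
        hSc σ σ τ τ' (Ag.refl _ _) h)
    refine (h1.biUnion h2).subset ?_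
    rintro m ⟨σ, hσ, τ, hτ, rfl⟩
    rw [Set.mem_iUnion₂]
    exact ⟨c σ, ⟨σ, hσ, rfl⟩, τ, hτ, rfl⟩
  have hbfin : {m : Ωˣ | ∃ σ ∈ H, b σ = m}.Finite :=
    finite_range H Sb (horb.mono hHN (Set.subset_univ _)) b (fun σ _ τ _ h => hSb σ τ h)
  obtain ⟨S₁, hS01, -, hS₁⟩ := exists_stable N Set.univ (fun _ _ _ _ => Set.mem_univ _) horb
    (Sc ∪ Sb ∪ (hcfin.toFinset.image (fun u : Ωˣ => (u : Ω))) ∪
      (hbfin.toFinset.image (fun u : Ωˣ => (u : Ω)))) (Set.subset_univ _)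
  have hSc1 : Sc ⊆ S₁ := fun x hx => hS01 (by
    rw [Finset.mem_union, Finset.mem_union, Finset.mem_union]; exact Or.inl (Or.inl (Or.inl hx)))
  have hSb1 : Sb ⊆ S₁ := fun x hx => hS01 (by
    rw [Finset.mem_union, Finset.mem_union, Finset.mem_union]; exact Or.inl (Or.inl (Or.inr hx)))
  have hcv : ∀ σ ∈ N, ∀ τ ∈ N, ((c σ τ : Ωˣ) : Ω) ∈ S₁ := fun σ hσ τ hτ => hS01 (by
    rw [Finset.mem_union, Finset.mem_union]
    refine Or.inl (Or.inr ?_)
    rw [Finset.mem_image]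
    exact ⟨c σ τ, hcfin.mem_toFinset.2 ⟨σ, hσ, τ, hτ, rfl⟩, rfl⟩)
  have hbv : ∀ σ ∈ H, ((b σ : Ωˣ) : Ω) ∈ S₁ := fun σ hσ => hS01 (by
    rw [Finset.mem_union]
    refine Or.inr ?_
    rw [Finset.mem_image]
    exact ⟨b σ, hbfin.mem_toFinset.2 ⟨σ, hσ, rfl⟩, rfl⟩)
  have hinvS : ∀ σ ∈ N, ∀ x ∈ S₁, σ⁻¹ x ∈ S₁ := fun σ hσ x hx => hS₁ σ⁻¹ (N.inv_mem hσ) x hx
  -- the subgroups
  let H' : Subgroup N := H.subgroupOf N
  let U : Subgroup N := (Fx k (S₁ : Set Ω)).subgroupOf N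
  have hU : ∀ {u : N}, u ∈ U ↔ ∀ x ∈ S₁, (u : Ω ≃ₐ[k] Ω) x = x := fun {u} =>
    Subgroup.mem_subgroupOf
  have hH' : ∀ {u : N}, u ∈ H' ↔ (u : Ω ≃ₐ[k] Ω) ∈ H := fun {u} => Subgroup.mem_subgroupOf
  have hHn : H'.Normal := ⟨fun s hs g => hH'.2 (by
    have := hnorm g g.2 s (hH'.1 hs)
    simpa using this)⟩
  have hUn : U.Normal := ⟨fun s hs g => hU.2 (fun x hx => by
    show (g : Ω ≃ₐ[k] Ω) ((s : Ω ≃ₐ[k] Ω) (((g⁻¹ : N) : Ω ≃ₐ[k] Ω) x)) = x
    rw [hU.1 hs _ (by simpa using hinvS g g.2 x hx)]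
    exact (g : Ω ≃ₐ[k] Ω).apply_symm_apply x)⟩
  have hsm : ∀ (g : N) (m : Ωˣ), g • m = (g : Ω ≃ₐ[k] Ω) • m := fun _ _ => rfl
  have hagU : ∀ (g : Ω ≃ₐ[k] Ω), ∀ u ∈ U,
      Ag (S₁ : Set Ω) (g * (u : Ω ≃ₐ[k] Ω)) g := by
    intro g u hu x hx
    show g ((u : Ω ≃ₐ[k] Ω) x) = g x
    rw [hU.1 hu x hx]
  obtain ⟨e, he1, he2, he3, he4, he5⟩ := infl (N := N) (M := Ωˣ) H' U
    (fun g h => c g h) (fun g h j => by
      have := hc g g.2 h h.2 j j.2
      simpa [hsm] using this)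
    (fun g h u hu v hv => by
      exact hSc _ _ _ _ ((hagU g u hu).mono (by exact_mod_cast hSc1))
        ((hagU h v hv).mono (by exact_mod_cast hSc1)))
    (fun g h u hu => Units.ext (hU.1 hu _ (hcv g g.2 h h.2)))
    (fun g => b g) (fun s hs t ht => hcb s (hH'.1 hs) t (hH'.1 ht))
    (fun s hs u hu _ => hSb _ _ ((hagU s u hu).mono (by exact_mod_cast hSb1)))
    (fun s hs u hu => Units.ext (hU.1 hu _ (hbv s (hH'.1 hs))))
    (fun x hx hxU hxM => by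
      obtain ⟨x', hx'⟩ : ∃ x' : (Ω ≃ₐ[k] Ω) → Ωˣ, ∀ (σ : Ω ≃ₐ[k] Ω) (hσ : σ ∈ N), x' σ = x ⟨σ, hσ⟩ :=
        ⟨fun σ => if hσ : σ ∈ N then x ⟨σ, hσ⟩ else 1, fun σ hσ => dif_pos hσ⟩
      obtain ⟨y, hy1, hy2⟩ := h90u H S₁ (fun σ hσ x hx => hS₁ σ (hHN hσ) x hx) x'
        (fun σ hσ τ hτ h => by
          rw [hx' σ (hHN hσ), hx' τ (hHN hτ)]
          have h2 : (⟨σ, hHN hσ⟩ : N)⁻¹ * ⟨τ, hHN hτ⟩ ∈ U := hU.2 (fun z hz => by
            show σ⁻¹ (τ z) = z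
            rw [← h z hz]
            exact σ.symm_apply_apply z)
          have h3 := hxU ⟨σ, hHN hσ⟩ (hH'.2 hσ) _ h2 (by
            rw [mul_inv_cancel_left]; exact hH'.2 hτ)
          rw [mul_inv_cancel_left] at h3
          exact h3.symm)
        (fun σ hσ τ hτ => by
          rw [hx' σ (hHN hσ), hx' τ (hHN hτ), hx' _ (N.mul_mem (hHN hσ) (hHN hτ))]
          exact hx ⟨σ, hHN hσ⟩ (hH'.2 hσ) ⟨τ, hHN hτ⟩ (hH'.2 hτ))
      refine ⟨y, fun u hu => Units.ext ?_, fun s hs => ?_⟩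
      · show (u : Ω ≃ₐ[k] Ω) (y : Ω) = y
        have h4 : IntermediateField.adjoin k ((S₁ : Set Ω) ∪ {w | ∃ σ ∈ H, (x' σ : Ω) = w}) ≤
            IntermediateField.fixedField (Subgroup.zpowers (u : Ω ≃ₐ[k] Ω)) := by
          rw [IntermediateField.adjoin_le_iff]
          have h5 : ∀ z ∈ ((S₁ : Set Ω) ∪ {w | ∃ σ ∈ H, (x' σ : Ω) = w}),
              (u : Ω ≃ₐ[k] Ω) z = z := by
            rintro z (hz | ⟨σ, hσ, rfl⟩)
            · exact hU.1 hu z hz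
            · rw [hx' σ (hHN hσ)]
              exact congrArg Units.val (hxM ⟨σ, hHN hσ⟩ (hH'.2 hσ) u hu)
          intro z hz
          rw [SetLike.mem_coe, IntermediateField.mem_fixedField_iff]
          intro g hg
          have h6 : g ∈ MulAction.stabilizer (Ω ≃ₐ[k] Ω) z :=
            (Subgroup.zpowers_le.2 (MulAction.mem_stabilizer_iff.2 (h5 z hz))) hg
          exact h6
        have h7 := h4 hy1
        rw [IntermediateField.mem_fixedField_iff] at h7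
        exact h7 _ (Subgroup.mem_zpowers _)
      · have h8 := hy2 s (hH'.1 hs)
        rw [hx' s s.2] at h8
        exact h8)
  -- extension of `e`
  obtain ⟨e', he'⟩ : ∃ e' : (Ω ≃ₐ[k] Ω) → Ωˣ, ∀ (σ : Ω ≃ₐ[k] Ω) (hσ : σ ∈ N), e' σ = e ⟨σ, hσ⟩ :=
    ⟨fun σ => if hσ : σ ∈ N then e ⟨σ, hσ⟩ else 1, fun σ hσ => dif_pos hσ⟩
  have hquo : ∀ σ (hσ : σ ∈ N), ∀ τ (hτ : τ ∈ N), Ag (S₁ : Set Ω) σ τ →
      ∃ u ∈ U, (⟨τ, hτ⟩ : N) = ⟨σ, hσ⟩ * u := by
    intro σ hσ τ hτ h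
    refine ⟨(⟨σ, hσ⟩ : N)⁻¹ * ⟨τ, hτ⟩, hU.2 (fun z hz => ?_), by rw [mul_inv_cancel_left]⟩
    show σ⁻¹ (τ z) = z
    rw [← h z hz]
    exact σ.symm_apply_apply z
  have hlo : Lo1 N Set.univ e' := by
    refine ⟨S₁, Set.subset_univ _, fun σ hσ τ hτ h => ?_⟩
    obtain ⟨u, hu, h2⟩ := hquo σ hσ τ hτ h
    rw [he' σ hσ, he' τ hτ, h2, he1 _ u hu]
  obtain ⟨f, hf, hf1, -⟩ := hlo.extend
  have hfe : ∀ g : N, f g = e g := fun g => by rw [hf1 g g.2, he' g g.2]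
  refine ⟨fun σ τ => c σ τ * f (σ * τ) * (f σ * σ • f τ)⁻¹, f, ?_, hf, fun _ _ _ _ => rfl,
    ?_, ?_, ?_⟩
  · refine ⟨S₁, Set.subset_univ _, fun σ hσ σ' hσ' τ hτ τ' hτ' h h' => ?_⟩
    obtain ⟨u, hu, h2⟩ := hquo σ hσ σ' hσ' h
    obtain ⟨v, hv, h3⟩ := hquo τ hτ τ' hτ' h'
    have h4 : c σ τ = c σ' τ' := hSc _ _ _ _ (h.mono (by exact_mod_cast hSc1))
      (h'.mono (by exact_mod_cast hSc1))
    have e1 : f σ' = f σ := by
      calc f σ' = e ⟨σ', hσ'⟩ := hfe ⟨σ', hσ'⟩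
        _ = e ⟨σ, hσ⟩ := by rw [h2, he1 _ u hu]
        _ = f σ := (hfe ⟨σ, hσ⟩).symm
    have e2 : f τ' = f τ := by
      calc f τ' = e ⟨τ', hτ'⟩ := hfe ⟨τ', hτ'⟩
        _ = e ⟨τ, hτ⟩ := by rw [h3, he1 _ v hv]
        _ = f τ := (hfe ⟨τ, hτ⟩).symm
    have e3 : f (σ' * τ') = f (σ * τ) := by
      have h5 : Ag (S₁ : Set Ω) (σ * τ) (σ' * τ') := h.mul h' (fun x hx => hS₁ τ hτ x hx)
      obtain ⟨w, hw, h6⟩ := hquo _ (N.mul_mem hσ hτ) _ (N.mul_mem hσ' hτ') h5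
      calc f (σ' * τ') = e ⟨σ' * τ', N.mul_mem hσ' hτ'⟩ := hfe ⟨σ' * τ', N.mul_mem hσ' hτ'⟩
        _ = e ⟨σ * τ, N.mul_mem hσ hτ⟩ := by rw [h6, he1 _ w hw]
        _ = f (σ * τ) := (hfe ⟨σ * τ, N.mul_mem hσ hτ⟩).symm
    have e4 : σ' • f τ = σ • f τ := by
      have h7 : σ' = σ * u := congrArg Subtype.val h2
      rw [h7, mul_smul]
      congr 1
      have := he2 ⟨τ, hτ⟩ u hu
      rw [← hfe] at this
      exact this
    show c σ τ * f (σ * τ) * (f σ * σ • f τ)⁻¹ = c σ' τ' * f (σ' * τ') * (f σ' * σ' • f τ')⁻¹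
    rw [h4, e1, e2, e3, e4]
  · intro σ hσ τ hτ s hs t ht
    have h2 := he3 ⟨σ, hσ⟩ ⟨τ, hτ⟩ ⟨s, hHN hs⟩ (hH'.2 hs) ⟨t, hHN ht⟩ (hH'.2 ht)
    simp only [← hfe] at h2
    exact h2
  · intro σ hσ τ hτ s hs
    have h2 := he4 ⟨σ, hσ⟩ ⟨τ, hτ⟩ ⟨s, hHN hs⟩ (hH'.2 hs)
    simp only [← hfe] at h2
    exact h2
  · intro σ hσ
    have h2 := he5 ⟨σ, hσ⟩
    simp only [← hfe] at h2
    exact h2

end

end Pool.Agent.TBR

end

section


namespace Pool.Agent.TBR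

universe u

section

variable {k Ω : Type u} [Field k] [Field Ω] [Algebra k Ω]

/--
PROOF. H = N ⊓ Fx A is normalized by N (hNA for σ and σ⁻¹). inflation gives a₀, e. If σ, σ' ∈ N
agree on A then σ' = σ s with s ∈ H. So a₀ satisfies the hypothesis of cpt2 with T = A; hence
Lo2 N A a₀; a := Lo2.extend with m = 1 (values are 1 or old values, so they are fixed by H;
normalization by the last clause of Lo2.extend). a = c·∂e on N: a is a cocycle on N (or transfer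
Coc from c and Cob: a * c⁻¹ = ∂(e⁻¹): Cob N (a c⁻¹) (e⁻¹), Cob.coc, Coc.mul) and
Tri N (a c⁻¹) with b = e⁻¹: a c⁻¹ σ τ * (e (σ τ))⁻¹ = (e σ)⁻¹ * σ•(e τ)⁻¹.
-/
theorem inflA (A : IntermediateField k Ω) (N : Subgroup (Ω ≃ₐ[k] Ω))
    (hNA : ∀ σ ∈ N, ∀ x ∈ A, σ x ∈ A) (horb : Orb N Set.univ) (hclo : Clo N)
    (c : (Ω ≃ₐ[k] Ω) → (Ω ≃ₐ[k] Ω) → Ωˣ) (hlc : Lc2 Set.univ c) (hc : Coc N c)
    (htri : Tri (N ⊓ Fx k (A : Set Ω)) c) :
    ∃ a : (Ω ≃ₐ[k] Ω) → (Ω ≃ₐ[k] Ω) → Ωˣ, Lc2 (A : Set Ω) a ∧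
      (∀ σ τ, ∀ s ∈ N ⊓ Fx k (A : Set Ω), s • a σ τ = a σ τ) ∧
      (∀ σ, a 1 σ = 1 ∧ a σ 1 = 1) ∧ Coc N a ∧
      Tri N (fun σ τ => a σ τ * (c σ τ)⁻¹) := by
  classical
  have hnorm : ∀ σ ∈ N, ∀ τ ∈ N ⊓ Fx k (A : Set Ω), σ * τ * σ⁻¹ ∈ N ⊓ Fx k (A : Set Ω) := by
    intro σ hσ s hs
    refine ⟨N.mul_mem (N.mul_mem hσ hs.1) (N.inv_mem hσ), fun x hx => ?_⟩
    show σ (s (σ⁻¹ x)) = x
    rw [hs.2 _ (hNA σ⁻¹ (N.inv_mem hσ) x hx)]
    exact σ.apply_symm_apply x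
  have hag : ∀ σ ∈ N, ∀ τ ∈ N, Ag (A : Set Ω) σ τ → σ⁻¹ * τ ∈ N ⊓ Fx k (A : Set Ω) := by
    intro σ hσ τ hτ h
    refine ⟨N.mul_mem (N.inv_mem hσ) hτ, fun x hx => ?_⟩
    show σ⁻¹ (τ x) = x
    rw [← h x hx]
    exact σ.symm_apply_apply x
  obtain ⟨a₀, e, ha0, he, ha0e, hinv, hfix, hone⟩ := inflation N (N ⊓ Fx k (A : Set Ω))
    inf_le_left hnorm horb c hlc hc htri
  have hlo := cpt2 N horb hclo (A : Set Ω) a₀ ha0 (fun σ hσ σ' hσ' τ hτ τ' hτ' h h' => by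
    have h2 := hinv σ hσ τ hτ _ (hag σ hσ σ' hσ' h) _ (hag τ hτ τ' hτ' h')
    rw [mul_inv_cancel_left, mul_inv_cancel_left] at h2
    exact h2.symm)
  obtain ⟨a, ha, ha1, ha2, ha3⟩ := hlo.extend 1
  have hcob : Cob N (fun σ τ => a σ τ * (c σ τ)⁻¹) (fun σ => (e σ)⁻¹) := by
    intro σ hσ τ hτ
    show a σ τ * (c σ τ)⁻¹ * (e (σ * τ))⁻¹ = (e σ)⁻¹ * σ • (e τ)⁻¹
    rw [ha1 σ hσ τ hτ, ha0e σ hσ τ hτ, smul_inv']
    apply Additive.ofMul.injective
    simp only [ofMul_mul, ofMul_inv]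
    abel
  have htr : Tri N (fun σ τ => a σ τ * (c σ τ)⁻¹) := ⟨_, he.inv, hcob⟩
  refine ⟨a, ha, ?_, ha3 hone, ?_, htr⟩
  · intro σ τ s hs
    rcases ha2 σ τ with h | ⟨σ', hσ', τ', hτ', h⟩
    · rw [h, smul_one]
    · rw [h]
      exact hfix σ' hσ' τ' hτ' s hs
  · have h1 := hcob.coc.mul hc
    intro σ hσ τ hτ ρ hρ
    have h2 := h1 σ hσ τ hτ ρ hρ
    simp only [inv_mul_cancel_right] at h2
    exact h2

end

end Pool.Agent.TBR

end

section


namespace Pool.Agent.TBR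

universe u

section

variable {k Ω : Type u} [Field k] [Field Ω] [Algebra k Ω]

/--
Injectivity of the inflation. PROOF. Let b₀ with Lc1 univ b₀ and Cob N a b₀; H = N ⊓ Fx A. For
s, t ∈ H, a s t = a 1 1 = 1 (Lc2 A), so b₀ (s t) = b₀ s * s • b₀ t. A finite N-stable set S
containing the set of b₀ (exists_stable) and h90u with D = H give y with b₀ s * s • y = y on H.
b₁ σ := b₀ σ * σ • y * y⁻¹; Cob N a b₁; b₁ s = 1 for s ∈ H. For σ ∈ N, s ∈ H: a σ s = a σ 1 = 1 and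
a s σ = a 1 σ = 1, so b₁ (σ s) = b₁ σ * σ • b₁ s = b₁ σ and b₁ (s σ) = b₁ s * s • b₁ σ = s • b₁ σ;
and s σ = σ (σ⁻¹ s σ) with σ⁻¹ s σ ∈ H, so s • b₁ σ = b₁ σ. b₁ is locally constant on N (σ • y
depends only on σ y), and depends only on σ|A on N (σ' = σ s). By cpt Lo1 N A b₁; take Lo1.extend.
-/
theorem injA (A : IntermediateField k Ω) (N : Subgroup (Ω ≃ₐ[k] Ω))
    (hNA : ∀ σ ∈ N, ∀ x ∈ A, σ x ∈ A) (horb : Orb N Set.univ) (hclo : Clo N)
    (a : (Ω ≃ₐ[k] Ω) → (Ω ≃ₐ[k] Ω) → Ωˣ) (ha : Lc2 (A : Set Ω) a)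
    (h1 : ∀ σ, a 1 σ = 1 ∧ a σ 1 = 1) (htri : Tri N a) :
    ∃ b : (Ω ≃ₐ[k] Ω) → Ωˣ, Lc1 (A : Set Ω) b ∧
      (∀ σ, ∀ s ∈ N ⊓ Fx k (A : Set Ω), s • b σ = b σ) ∧ Cob N a b := by
  classical
  obtain ⟨b₀, hb₀, hc₀⟩ := htri
  obtain ⟨S, hS, hSa⟩ := ha
  obtain ⟨S₀, -, hS₀⟩ := hb₀
  obtain ⟨S₁, hS01, -, hS₁⟩ := exists_stable N Set.univ (fun _ _ _ _ => Set.mem_univ _) horb S₀
    (Set.subset_univ _)
  have hH : ∀ s ∈ N ⊓ Fx k (A : Set Ω), Ag (S : Set Ω) s 1 := fun s hs x hx => hs.2 x (hS hx)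
  have hx : ∀ s ∈ N ⊓ Fx k (A : Set Ω), ∀ t ∈ N ⊓ Fx k (A : Set Ω),
      b₀ (s * t) = b₀ s * s • b₀ t := by
    intro s hs t ht
    have h2 := hc₀ s hs.1 t ht.1
    rw [hSa s 1 t 1 (hH s hs) (hH t ht), (h1 1).1, one_mul] at h2
    exact h2
  obtain ⟨y, -, hy⟩ := h90u (N ⊓ Fx k (A : Set Ω)) S₁ (fun σ hσ x hx => hS₁ σ hσ.1 x hx) b₀
    (fun σ _ τ _ h => hS₀ σ τ (h.mono (by exact_mod_cast hS01))) hx
  obtain ⟨b₁, hb₁⟩ : ∃ b₁ : (Ω ≃ₐ[k] Ω) → Ωˣ, ∀ σ, b₁ σ = b₀ σ * σ • y * y⁻¹ := ⟨_, fun _ => rfl⟩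
  have hc₁ : Cob N a b₁ := by
    intro σ hσ τ hτ
    have h2 := hc₀ σ hσ τ hτ
    rw [hb₁, hb₁, hb₁, smul_mul', smul_mul', mul_smul, smul_inv']
    calc a σ τ * (b₀ (σ * τ) * σ • τ • y * y⁻¹)
        = (a σ τ * b₀ (σ * τ)) * (σ • τ • y * y⁻¹) := by
          simp only [mul_assoc]
      _ = (b₀ σ * σ • b₀ τ) * (σ • τ • y * y⁻¹) := by rw [h2]
      _ = b₀ σ * σ • y * y⁻¹ * (σ • b₀ τ * σ • τ • y * (σ • y)⁻¹) := by
          apply Additive.ofMul.injective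
          simp only [ofMul_mul, ofMul_inv]
          abel
  have hs1 : ∀ s ∈ N ⊓ Fx k (A : Set Ω), b₁ s = 1 := by
    intro s hs
    rw [hb₁, hy s hs, mul_inv_cancel]
  have hr : ∀ σ ∈ N, ∀ s ∈ N ⊓ Fx k (A : Set Ω), b₁ (σ * s) = b₁ σ := by
    intro σ hσ s hs
    have h2 := hc₁ σ hσ s hs.1
    rw [hSa σ σ s 1 (Ag.refl _ _) (hH s hs), (h1 σ).2, one_mul, hs1 s hs, smul_one, mul_one] at h2
    exact h2
  have hconj : ∀ σ ∈ N, ∀ s ∈ N ⊓ Fx k (A : Set Ω), σ⁻¹ * s * σ ∈ N ⊓ Fx k (A : Set Ω) := by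
    intro σ hσ s hs
    refine ⟨N.mul_mem (N.mul_mem (N.inv_mem hσ) hs.1) hσ, fun x hx => ?_⟩
    show σ⁻¹ (s (σ x)) = x
    rw [hs.2 _ (hNA σ hσ x hx)]
    exact σ.symm_apply_apply x
  have hfix : ∀ σ ∈ N, ∀ s ∈ N ⊓ Fx k (A : Set Ω), s • b₁ σ = b₁ σ := by
    intro σ hσ s hs
    have h2 := hc₁ s hs.1 σ hσ
    rw [hSa s 1 σ σ (hH s hs) (Ag.refl _ _), (h1 σ).1, one_mul, hs1 s hs, one_mul] at h2
    rw [← h2]
    have h3 : s * σ = σ * (σ⁻¹ * s * σ) := by group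
    rw [h3]
    exact hr σ hσ _ (hconj σ hσ s hs)
  have hlo : Lo1 N Set.univ b₁ := by
    refine ⟨insert (y : Ω) S₀, Set.subset_univ _, fun σ _ τ _ h => ?_⟩
    have h2 : b₀ σ = b₀ τ := hS₀ σ τ (h.mono (by
      rw [Finset.coe_insert]; exact Set.subset_insert _ _))
    have h3 : σ • y = τ • y := Units.ext (h (y : Ω) (by
      rw [Finset.coe_insert]; exact Set.mem_insert _ _))
    rw [hb₁, hb₁, h2, h3]
  obtain ⟨b, hb, hb1, hb2⟩ := (cpt N horb hclo (A : Set Ω) b₁ hlo (fun σ hσ τ hτ h => by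
    have h2 : σ⁻¹ * τ ∈ N ⊓ Fx k (A : Set Ω) := by
      refine ⟨N.mul_mem (N.inv_mem hσ) hτ, fun x hx => ?_⟩
      show σ⁻¹ (τ x) = x
      rw [← h x hx]
      exact σ.symm_apply_apply x
    have h3 := hr σ hσ _ h2
    rw [mul_inv_cancel_left] at h3
    exact h3.symm)).extend
  refine ⟨b, hb, fun σ s hs => ?_, fun σ hσ τ hτ => ?_⟩
  · obtain ⟨τ, hτ, h2⟩ := hb2 σ
    rw [h2]
    exact hfix τ hτ s hs
  · rw [hb1 σ hσ, hb1 τ hτ, hb1 _ (N.mul_mem hσ hτ)]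
    exact hc₁ σ hσ τ hτ

end

end Pool.Agent.TBR

end
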