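import Pool.Agent.TBM.Sit
import Pool.Agent.TBM.Base
import Pool.Agent.TBM.Coh

/-!
# Norms to the field of an unordered pair of points
-/

set_option autoImplicit false

section


namespace Pool.Agent.TBR

open Pool.Agent.TQU

universe u

section

variable {k Ω : Type u} [Field k] [Field Ω] [Algebra k Ω] [IsAlgClosed Ω]
variable {A : IntermediateField k Ω} {z : Ω} {P Q : Fin 2 → Ω} {L : Set Ω} {t : Ω ≃ₐ[k] Ω}

theorem swap_smul (hZ : SitZ A z P) (hW : Swap A z P Q L t) (g g' : Ω ≃ₐ[k] Ω) (hg : g ∈ Fx k L)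
    (hg' : g' ∈ Fx k ({z} ∪ Set.range P)) (h : Ag (A : Set Ω) g g') (f : Ωˣ)
    (hf : ∀ s ∈ Fx k ((A : Set Ω) ∪ Set.range P), s • f = f) :
    g • (f * t • f) = g' • f * t • (g' • f) := by
  have hz : g ∈ Fx k {z} := fun x hx => by
    rw [Set.mem_singleton_iff] at hx
    rw [hx]
    exact hg z hW.mem
  have hgP' : ∀ i, g' (P i) = P i := fun i => hg' _ (Or.inr ⟨i, rfl⟩)
  have hgA : ∀ x ∈ (A : Set Ω), g x ∈ (A : Set Ω) := fun x hx => (hZ.stab g hz x).2 hx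
  have htA : ∀ x ∈ (A : Set Ω), t x = x := fun x hx => hW.fix x hx
  have hag : ∀ σ ρ : Ω ≃ₐ[k] Ω, (∀ x ∈ (A : Set Ω), σ x = ρ x) → (∀ i, σ (P i) = ρ (P i)) →
      σ • f = ρ • f := by
    intro σ ρ h1 h2
    have h3 : ρ⁻¹ * σ ∈ Fx k ((A : Set Ω) ∪ Set.range P) := by
      rintro x (hx | ⟨i, rfl⟩)
      · show ρ⁻¹ (σ x) = x
        rw [h1 x hx]
        exact ρ.symm_apply_apply x
      · show ρ⁻¹ (σ (P i)) = P i
        rw [h2 i]
        exact ρ.symm_apply_apply _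
    have h4 := hf _ h3
    rw [mul_smul, inv_smul_eq_iff] at h4
    exact h4
  rw [smul_mul', ← mul_smul, ← mul_smul t g' f]
  rcases hW.perm g hg with hp | hp
  · have e1 : g • f = g' • f := hag _ _ h (fun i => by rw [(hp i).1, hgP' i])
    have e2 : (g * t) • f = (t * g') • f := hag _ _ (fun x hx => by
      show g (t x) = t (g' x)
      rw [htA x hx, ← h x hx, htA _ (hgA x hx)]) (fun i => by
      show g (t (P i)) = t (g' (P i))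
      rw [hW.map, (hp i).2, hgP' i, hW.map])
    rw [e1, e2]
  · have e1 : g • f = (t * g') • f := hag _ _ (fun x hx => by
      show g x = t (g' x)
      rw [← h x hx, htA _ (hgA x hx)]) (fun i => by
      show g (P i) = t (g' (P i))
      rw [(hp i).1, hgP' i, hW.map])
    have e2 : (g * t) • f = g' • f := hag _ _ (fun x hx => by
      show g (t x) = g' x
      rw [htA x hx, h x hx]) (fun i => by
      show g (t (P i)) = g' (P i)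
      rw [hW.map, (hp i).2, hgP' i])
    rw [e1, e2, mul_comm]

end

end Pool.Agent.TBR

end

section


namespace Pool.Agent.TBR

open Pool.Agent.TQU

universe u

section

variable {k Ω : Type u} [Field k] [Field Ω] [Algebra k Ω] [IsAlgClosed Ω]
variable {A : IntermediateField k Ω} {z : Ω} {P Q : Fin 2 → Ω} {L : Set Ω} {t : Ω ≃ₐ[k] Ω}

theorem nm_coc (hZ : SitZ A z P) (hW : Swap A z P Q L t)
    (a : (Ω ≃ₐ[k] Ω) → (Ω ≃ₐ[k] Ω) → Ωˣ) (ha : Lc2 (A : Set Ω) a)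
    (hfix : ∀ σ τ, ∀ s ∈ Fx k ((A : Set Ω) ∪ Set.range P), s • a σ τ = a σ τ)
    (hc : Coc (Ge k ({z} ∪ Set.range P)) a) : Coc (Ge k L) (fun σ τ => a σ τ * t • a σ τ) := by
  obtain ⟨S, hS, hSa⟩ := ha
  have hz : ∀ σ ∈ Ge k L, σ ∈ Fx k {z} := fun σ hσ x hx => by
    rw [Set.mem_singleton_iff] at hx
    rw [hx]
    exact hσ.1 z hW.mem
  have hlift : ∀ σ ∈ Ge k L, ∃ σ' ∈ Ge k ({z} ∪ Set.range P), Ag (A : Set Ω) σ σ' := by
    intro σ hσ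
    obtain ⟨σ', h1, h2⟩ := hZ.lift σ (hz σ hσ)
    refine ⟨σ', ⟨h1, fun x hx => ?_⟩, h2⟩
    rw [← h2 x (hZ.alg x hx)]
    exact hσ.2 x hx
  intro σ hσ τ hτ ρ hρ
  obtain ⟨σ', hσ', eσ⟩ := hlift σ hσ
  obtain ⟨τ', hτ', eτ⟩ := hlift τ hτ
  obtain ⟨ρ', hρ', eρ⟩ := hlift ρ hρ
  have hA : ∀ g ∈ Ge k ({z} ∪ Set.range P), ∀ x ∈ (A : Set Ω), g x ∈ (A : Set Ω) := by
    intro g hg x hx
    refine (hZ.stab g (fun y hy => hg.1 y (Or.inl hy)) x).2 hx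
  have hA' : ∀ g ∈ Ge k L, ∀ x ∈ (A : Set Ω), g x ∈ (A : Set Ω) := by
    intro g hg x hx
    exact (hZ.stab g (hz g hg) x).2 hx
  have e1 : a σ τ = a σ' τ' := hSa _ _ _ _ (eσ.mono hS) (eτ.mono hS)
  have e2 : a (σ * τ) ρ = a (σ' * τ') ρ' :=
    hSa _ _ _ _ ((eσ.mul eτ (hA' τ hτ)).mono hS) (eρ.mono hS)
  have e3 : a σ (τ * ρ) = a σ' (τ' * ρ') :=
    hSa _ _ _ _ (eσ.mono hS) ((eτ.mul eρ (hA' ρ hρ)).mono hS)
  have e4 : a τ ρ = a τ' ρ' := hSa _ _ _ _ (eτ.mono hS) (eρ.mono hS)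
  have h1 := hc σ' hσ' τ' hτ' ρ' hρ'
  have h2 := swap_smul hZ hW σ σ' hσ.1 hσ'.1 eσ (a τ ρ) (hfix τ ρ)
  show a σ τ * t • a σ τ * (a (σ * τ) ρ * t • a (σ * τ) ρ) =
    σ • (a τ ρ * t • a τ ρ) * (a σ (τ * ρ) * t • a σ (τ * ρ))
  rw [h2, mul_mul_mul_comm, mul_mul_mul_comm (σ' • a τ ρ), ← smul_mul', ← smul_mul', e1, e2, e3, e4,
    h1]

end

end Pool.Agent.TBR

end

section


namespace Pool.Agent.TBR

open Pool.Agent.TQU

universe u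

section

variable {k Ω : Type u} [Field k] [Field Ω] [Algebra k Ω] [IsAlgClosed Ω]
variable {A : IntermediateField k Ω} {z : Ω} {P Q : Fin 2 → Ω} {L : Set Ω} {t : Ω ≃ₐ[k] Ω}

theorem nm_cob_lift (hZ : SitZ A z P) (hW : Swap A z P Q L t) {σ : Ω ≃ₐ[k] Ω} (hσ : σ ∈ Ge k L) :
    ∃ σ' ∈ Ge k ({z} ∪ Set.range P), Ag (A : Set Ω) σ σ' := by
  rw [mem_Ge] at hσ
  obtain ⟨σ', h1, h2⟩ := hZ.lift σ (by
    intro x hx
    rw [Set.mem_singleton_iff.1 hx]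
    exact hσ.1 z hW.mem)
  refine ⟨σ', ⟨h1, fun x hx => ?_⟩, h2⟩
  rw [← h2 x (hZ.alg x hx)]
  exact hσ.2 x hx

theorem nm_cob (hZ : SitZ A z P) (hW : Swap A z P Q L t)
    (a : (Ω ≃ₐ[k] Ω) → (Ω ≃ₐ[k] Ω) → Ωˣ) (ha : Lc2 (A : Set Ω) a) (b : (Ω ≃ₐ[k] Ω) → Ωˣ)
    (hb : Lc1 (A : Set Ω) b)
    (hfix : ∀ σ, ∀ s ∈ Fx k ((A : Set Ω) ∪ Set.range P), s • b σ = b σ)
    (hc : Cob (Ge k ({z} ∪ Set.range P)) a b) :
    Cob (Ge k L) (fun σ τ => a σ τ * t • a σ τ) (fun σ => b σ * t • b σ) := by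
  intro σ hσ τ hτ
  obtain ⟨σ', hσ', h1⟩ := nm_cob_lift hZ hW hσ
  obtain ⟨τ', hτ', h2⟩ := nm_cob_lift hZ hW hτ
  have hτz : τ ∈ Fx k {z} := by
    intro x hx
    rw [Set.mem_singleton_iff.1 hx]
    exact hτ.1 z hW.mem
  have h3 : Ag (A : Set Ω) (σ * τ) (σ' * τ') :=
    h1.mul h2 (fun x hx => (hZ.stab τ hτz x).2 hx)
  have ea : a σ τ = a σ' τ' := by
    obtain ⟨S, hS1, hS2⟩ := ha
    exact hS2 _ _ _ _ (h1.mono hS1) (h2.mono hS1)
  obtain ⟨S, hS1, hS2⟩ := hb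
  have e1 : b σ = b σ' := hS2 _ _ (h1.mono hS1)
  have e2 : b τ = b τ' := hS2 _ _ (h2.mono hS1)
  have e3 : b (σ * τ) = b (σ' * τ') := hS2 _ _ (h3.mono hS1)
  have key : a σ τ * b (σ * τ) = b σ * σ' • b τ := by
    rw [ea, e1, e2, e3]
    exact hc σ' hσ' τ' hτ'
  show a σ τ * t • a σ τ * (b (σ * τ) * t • b (σ * τ)) = b σ * t • b σ * σ • (b τ * t • b τ)
  rw [swap_smul hZ hW σ σ' hσ.1 hσ'.1 h1 (b τ) (hfix τ), mul_mul_mul_comm, ← smul_mul', key,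
    smul_mul', mul_mul_mul_comm]

end

end Pool.Agent.TBR

end

section


namespace Pool.Agent.TBR

open Pool.Agent.TQU

universe u

section

variable {k Ω : Type u} [Field k] [Field Ω] [Algebra k Ω] [IsAlgClosed Ω]
variable {A : IntermediateField k Ω} {z : Ω} {P Q : Fin 2 → Ω} {L : Set Ω} {t : Ω ≃ₐ[k] Ω}

theorem nm_inv (hZ : SitZ A z P) (hW : Swap A z P Q L t)
    (a : (Ω ≃ₐ[k] Ω) → (Ω ≃ₐ[k] Ω) → Ωˣ) (ha : Lc2 (A : Set Ω) a)
    (hfix : ∀ σ τ, ∀ s ∈ Fx k ((A : Set Ω) ∪ Set.range P), s • a σ τ = a σ τ)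
    (h1 : ∀ σ, a 1 σ = 1 ∧ a σ 1 = 1)
    (hinv : ∀ g ∈ Fx k ({z} ∪ Set.range P), Tri (Ge k ({z} ∪ Set.range P))
      (fun σ τ => g • a (g⁻¹ * σ * g) (g⁻¹ * τ * g) * (a σ τ)⁻¹))
    (g : Ω ≃ₐ[k] Ω) (hg : g ∈ Fx k L) :
    Tri (Ge k L) (fun σ τ => g • (a (g⁻¹ * σ * g) (g⁻¹ * τ * g) *
      t • a (g⁻¹ * σ * g) (g⁻¹ * τ * g)) * (a σ τ * t • a σ τ)⁻¹) := by
  have hFz : ∀ σ ∈ Fx k L, σ ∈ Fx k {z} := by
    intro σ hσ x hx
    rw [Set.mem_singleton_iff.1 hx]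
    exact hσ z hW.mem
  have hst : ∀ σ ∈ Fx k {z}, ∀ x ∈ (A : Set Ω), σ x ∈ (A : Set Ω) :=
    fun σ hσ x hx => (hZ.stab σ hσ x).2 hx
  obtain ⟨g', hg', hgg⟩ := hZ.lift g (hFz g hg)
  have hg'z : g' ∈ Fx k {z} := Fx_mono Set.subset_union_left hg'
  have hNz : ∀ σ ∈ Ge k ({z} ∪ Set.range P), σ ∈ Fx k {z} :=
    fun σ hσ => Fx_mono Set.subset_union_left hσ.1
  obtain ⟨X, hX⟩ : ∃ X : (Ω ≃ₐ[k] Ω) → (Ω ≃ₐ[k] Ω) → Ωˣ, X = fun σ τ =>
      g' • a (g'⁻¹ * σ * g') (g'⁻¹ * τ * g') * (a σ τ)⁻¹ := ⟨_, rfl⟩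
  have hXlc : Lc2 (A : Set Ω) X := by
    rw [hX]
    exact ((ha.conj g' (hst g' hg'z)).smul g').mul ha.inv
  have hX1 : ∀ σ, X 1 σ = 1 ∧ X σ 1 = 1 := by
    intro σ
    rw [hX]
    have e : g'⁻¹ * 1 * g' = 1 := by group
    constructor
    · show g' • a (g'⁻¹ * 1 * g') (g'⁻¹ * σ * g') * (a 1 σ)⁻¹ = 1
      rw [e, (h1 _).1, (h1 _).1, smul_one, inv_one, mul_one]
    · show g' • a (g'⁻¹ * σ * g') (g'⁻¹ * 1 * g') * (a σ 1)⁻¹ = 1
      rw [e, (h1 _).2, (h1 _).2, smul_one, inv_one, mul_one]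
  have hXtri : Tri (Ge k ({z} ∪ Set.range P)) X := by
    rw [hX]
    exact hinv g' hg'
  obtain ⟨b, hb1, hb2, hb3⟩ := injA A (Ge k ({z} ∪ Set.range P))
    (fun σ hσ x hx => hst σ (hNz σ hσ) x hx) hZ.orb hZ.clo X hXlc hX1 hXtri
  have hfixb : ∀ σ, ∀ s ∈ Fx k ((A : Set Ω) ∪ Set.range P), s • b σ = b σ := by
    intro σ s hs
    refine hb2 σ s ⟨⟨?_, ?_⟩, ?_⟩
    · rintro x (hx | hx)
      · rw [Set.mem_singleton_iff.1 hx]
        exact hs z (Or.inl hZ.mem)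
      · exact hs x (Or.inr hx)
    · intro x hx
      exact hs x (Or.inl (hZ.alg x hx))
    · exact fun x hx => hs x (Or.inl hx)
  have hcob := nm_cob hZ hW X hXlc b hb1 hfixb hb3
  refine ⟨fun σ => b σ * t • b σ, (hb1.mul (hb1.smul t)).mono (Set.subset_univ _), ?_⟩
  refine hcob.congr ?_
  intro σ hσ τ hτ
  have hinvag : Ag (A : Set Ω) g⁻¹ g'⁻¹ :=
    hgg.inv (hst g⁻¹ ((Fx k {z}).inv_mem (hFz g hg)))
  have hconj : ∀ σ ∈ Ge k L, Ag (A : Set Ω) (g⁻¹ * σ * g) (g'⁻¹ * σ * g') := by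
    intro σ hσ
    refine (hinvag.mul (Ag.refl _ σ) (hst σ (hFz σ hσ.1))).mul hgg (hst g (hFz g hg))
  have ef : a (g⁻¹ * σ * g) (g⁻¹ * τ * g) = a (g'⁻¹ * σ * g') (g'⁻¹ * τ * g') := by
    obtain ⟨S, hS1, hS2⟩ := ha
    exact hS2 _ _ _ _ ((hconj σ hσ).mono hS1) ((hconj τ hτ).mono hS1)
  rw [ef, swap_smul hZ hW g g' hg hg' hgg _ (hfix _ _), hX]
  show g' • a (g'⁻¹ * σ * g') (g'⁻¹ * τ * g') * (a σ τ)⁻¹ *
    t • (g' • a (g'⁻¹ * σ * g') (g'⁻¹ * τ * g') * (a σ τ)⁻¹) = _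
  rw [smul_mul', mul_mul_mul_comm, smul_inv', ← mul_inv]

end

end Pool.Agent.TBR

end

section


namespace Pool.Agent.TBR

open Pool.Agent.TQU

universe u

section

variable {k Ω : Type u} [Field k] [Field Ω] [Algebra k Ω] [IsAlgClosed Ω]
variable {A : IntermediateField k Ω} {z : Ω} {P Q : Fin 2 → Ω} {L : Set Ω} {t : Ω ≃ₐ[k] Ω}

private theorem nm_unr_gen {S : Set Ω} (f : Ωˣ) (hf : ∀ s ∈ Fx k S, s • f = f) (g h : Ω ≃ₐ[k] Ω)
    (hgh : ∀ x ∈ S, g x = h x) : g • f = h • f := by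
  have h1 : h⁻¹ * g ∈ Fx k S := by
    intro x hx
    rw [AlgEquiv.mul_apply, hgh x hx]
    exact h.symm_apply_apply x
  have h2 : g = h * (h⁻¹ * g) := by group
  calc g • f = (h * (h⁻¹ * g)) • f := by rw [← h2]
    _ = h • f := by rw [mul_smul, hf _ h1]

private theorem nm_unr_smul (hZ : SitZ A z P) (hW : Swap A z P Q L t) (g g' : Ω ≃ₐ[k] Ω)
    (hg : g ∈ Fx k L)
    (hg' : g' ∈ Fx k ({z} ∪ Set.range P)) (h : Ag (A : Set Ω) g g') (f : Ωˣ)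
    (hf : ∀ s ∈ Fx k ((A : Set Ω) ∪ Set.range P), s • f = f) :
    ((∀ i, g (P i) = P i ∧ g (Q i) = Q i) → g • f = g' • f ∧ g • t • f = t • g' • f) ∧
    ((∀ i, g (P i) = Q i ∧ g (Q i) = P i) → g • f = t • g' • f ∧ g • t • f = g' • f) := by
  have hgz : g ∈ Fx k {z} := by
    intro x hx
    rw [Set.mem_singleton_iff] at hx
    rw [hx]; exact hg z hW.mem
  have hgA : ∀ x ∈ A, g x ∈ A := fun x hx => (hZ.stab g hgz x).2 hx
  have htA : ∀ x ∈ A, t x = x := fun x hx => hW.fix x hx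
  have hg'P : ∀ i, g' (P i) = P i := fun i => hg' (P i) (Or.inr ⟨i, rfl⟩)
  constructor
  · intro hfx
    constructor
    · refine nm_unr_gen f hf g g' ?_
      rintro x (hx | ⟨i, rfl⟩)
      · exact h x hx
      · rw [(hfx i).1, hg'P]
    · rw [← mul_smul, ← mul_smul]
      refine nm_unr_gen f hf _ _ ?_
      rintro x (hx | ⟨i, rfl⟩)
      · rw [AlgEquiv.mul_apply, AlgEquiv.mul_apply, htA x hx, ← h x hx, htA _ (hgA x hx)]
      · rw [AlgEquiv.mul_apply, AlgEquiv.mul_apply, hW.map, hg'P, hW.map, (hfx i).2]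
  · intro hsw
    constructor
    · rw [← mul_smul]
      refine nm_unr_gen f hf _ _ ?_
      rintro x (hx | ⟨i, rfl⟩)
      · rw [AlgEquiv.mul_apply, ← h x hx, htA _ (hgA x hx)]
      · rw [AlgEquiv.mul_apply, hg'P, hW.map, (hsw i).1]
    · rw [← mul_smul]
      refine nm_unr_gen f hf _ _ ?_
      rintro x (hx | ⟨i, rfl⟩)
      · rw [AlgEquiv.mul_apply, htA x hx, h x hx]
      · rw [AlgEquiv.mul_apply, hg'P, hW.map, (hsw i).2]

private theorem nm_unr_lift (hZ : SitZ A z P) (hW : Swap A z P Q L t) (g : Ω ≃ₐ[k] Ω)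
    (hg : g ∈ Ge k L) : ∃ g' ∈ Ge k ({z} ∪ Set.range P), Ag (A : Set Ω) g g' := by
  have hgz : g ∈ Fx k {z} := by
    intro x hx
    rw [Set.mem_singleton_iff] at hx
    rw [hx]; exact hg.1 z hW.mem
  obtain ⟨g', h1, h2⟩ := hZ.lift g hgz
  refine ⟨g', ⟨h1, ?_⟩, h2⟩
  intro x hx
  rw [← h2 x (hZ.alg x hx)]
  exact hg.2 x hx

private theorem nm_unr_stabA (hZ : SitZ A z P) (g : Ω ≃ₐ[k] Ω)
    (hg : g ∈ Ge k ({z} ∪ Set.range P)) (x : Ω) (hx : x ∈ (A : Set Ω)) : g x ∈ (A : Set Ω) := by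
  refine (hZ.stab g ?_ x).2 hx
  intro y hy
  exact hg.1 y (Or.inl hy)

private theorem nm_unr_lc2 {a : (Ω ≃ₐ[k] Ω) → (Ω ≃ₐ[k] Ω) → Ωˣ} (ha : Lc2 (A : Set Ω) a)
    {σ σ' τ τ' : Ω ≃ₐ[k] Ω} (h : Ag (A : Set Ω) σ σ') (h' : Ag (A : Set Ω) τ τ') :
    a σ τ = a σ' τ' := by
  obtain ⟨S, h1, h2⟩ := ha
  exact h2 σ σ' τ τ' (h.mono h1) (h'.mono h1)

/-- the cocycle identity for elements of `Ge k L` in terms of a lift -/
private theorem nm_unr_coc (hZ : SitZ A z P) (hW : Swap A z P Q L t)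
    (a : (Ω ≃ₐ[k] Ω) → (Ω ≃ₐ[k] Ω) → Ωˣ) (ha : Lc2 (A : Set Ω) a)
    (hc : Coc (Ge k ({z} ∪ Set.range P)) a) (σ τ ρ : Ω ≃ₐ[k] Ω) (hσ : σ ∈ Ge k L)
    (hτ : τ ∈ Ge k L) (hρ : ρ ∈ Ge k L) :
    ∃ σ' ∈ Ge k ({z} ∪ Set.range P), Ag (A : Set Ω) σ σ' ∧
      a σ τ * a (σ * τ) ρ = σ' • a τ ρ * a σ (τ * ρ) := by
  obtain ⟨σ', hσ', h1⟩ := nm_unr_lift hZ hW σ hσ
  obtain ⟨τ', hτ', h2⟩ := nm_unr_lift hZ hW τ hτ
  obtain ⟨ρ', hρ', h3⟩ := nm_unr_lift hZ hW ρ hρ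
  refine ⟨σ', hσ', h1, ?_⟩
  have hz : ∀ g ∈ Ge k L, ∀ x ∈ (A : Set Ω), g x ∈ (A : Set Ω) := by
    intro g hg x hx
    refine (hZ.stab g ?_ x).2 hx
    intro y hy
    rw [Set.mem_singleton_iff] at hy
    rw [hy]; exact hg.1 z hW.mem
  have h12 : Ag (A : Set Ω) (σ * τ) (σ' * τ') := h1.mul h2 (hz τ hτ)
  have h23 : Ag (A : Set Ω) (τ * ρ) (τ' * ρ') := h2.mul h3 (hz ρ hρ)
  rw [nm_unr_lc2 ha h1 h2, nm_unr_lc2 ha h12 h3, nm_unr_lc2 ha h2 h3, nm_unr_lc2 ha h1 h23]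
  exact hc σ' hσ' τ' hτ' ρ' hρ'

private theorem nm_unr_tr {b : (Ω ≃ₐ[k] Ω) → Ωˣ} (hb : Lc1 Set.univ b) (g h : Ω ≃ₐ[k] Ω) :
    Lc1 Set.univ (fun σ => b (g * σ * h)) := by
  classical
  obtain ⟨S, -, h2⟩ := hb
  refine ⟨S.image h, Set.subset_univ _, fun σ σ' hag => h2 _ _ fun x hx => ?_⟩
  have := hag (h x) (by rw [Finset.coe_image]; exact ⟨x, hx, rfl⟩)
  show g (σ (h x)) = g (σ' (h x))
  rw [this]

private theorem nm_unr_lcl {a : (Ω ≃ₐ[k] Ω) → (Ω ≃ₐ[k] Ω) → Ωˣ} {T : Set Ω} (ha : Lc2 T a)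
    (c : Ω ≃ₐ[k] Ω) : Lc1 Set.univ (fun σ => a σ c) := by
  obtain ⟨S, -, h2⟩ := ha
  exact ⟨S, Set.subset_univ _, fun σ σ' h => h2 σ σ' c c h (Ag.refl _ _)⟩

private theorem nm_unr_lcr {a : (Ω ≃ₐ[k] Ω) → (Ω ≃ₐ[k] Ω) → Ωˣ} {T : Set Ω} (ha : Lc2 T a)
    (c : Ω ≃ₐ[k] Ω) : Lc1 Set.univ (fun σ => a c σ) := by
  obtain ⟨S, -, h2⟩ := ha
  exact ⟨S, Set.subset_univ _, fun σ σ' h => h2 c c σ σ' (Ag.refl _ _) h⟩

theorem nm_unr (hZ : SitZ A z P) (hW : Swap A z P Q L t)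
    (a : (Ω ≃ₐ[k] Ω) → (Ω ≃ₐ[k] Ω) → Ωˣ) (ha : Lc2 (A : Set Ω) a)
    (hfix : ∀ σ τ, ∀ s ∈ Fx k ((A : Set Ω) ∪ Set.range P), s • a σ τ = a σ τ)
    (hc : Coc (Ge k ({z} ∪ Set.range P)) a)
    (hunr : ∀ V : ValuationSubring Ω, (∀ x : k, algebraMap k Ω x ∈ V) → V ≠ ⊤ →
      Tri (Ge k ({z} ∪ Set.range P) ⊓ St k V) a)
    (V : ValuationSubring Ω) (hV : ∀ x : k, algebraMap k Ω x ∈ V) (hV' : V ≠ ⊤) :
    Tri (Ge k L ⊓ St k V) (fun σ τ => a σ τ * t • a σ τ) := by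
  classical
  obtain ⟨b₀, hb₀, hcob⟩ := hunr V hV hV'
  have hDfix : ∀ g ∈ Ge k L ⊓ St k V, (∀ i, g (P i) = P i) →
      g ∈ Ge k ({z} ∪ Set.range P) ⊓ St k V := by
    intro g hg hfx
    refine ⟨⟨?_, hg.1.2⟩, hg.2⟩
    rintro x (hx | ⟨i, rfl⟩)
    · rw [Set.mem_singleton_iff] at hx
      rw [hx]; exact hg.1.1 z hW.mem
    · exact hfx i
  by_cases hsw : ∃ w ∈ Ge k L ⊓ St k V, ∀ i, w (P i) = Q i ∧ w (Q i) = P i
  · -- some element exchanges the two points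
    obtain ⟨w, hwD, hw⟩ := hsw
    have hdich : ∀ g : ↥(Ge k L ⊓ St k V), (∀ i, (g : Ω ≃ₐ[k] Ω) (P i) = P i ∧ (g : Ω ≃ₐ[k] Ω) (Q i) = Q i) ∨
        (∀ i, (g : Ω ≃ₐ[k] Ω) (P i) = Q i ∧ (g : Ω ≃ₐ[k] Ω) (Q i) = P i) :=
      fun g => hW.perm g g.2.1.1
    have hsm : ∀ (g : ↥(Ge k L ⊓ St k V)) (R : Fin 2 → Ω), g • R = fun i => (g : Ω ≃ₐ[k] Ω) (R i) :=
      fun g R => rfl
    have hPQ := hW.ne
    -- the action of the inverse on the two points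
    have hinv1 : ∀ g : ↥(Ge k L ⊓ St k V), (∀ i, (g : Ω ≃ₐ[k] Ω) (P i) = P i ∧ (g : Ω ≃ₐ[k] Ω) (Q i) = Q i) →
        g⁻¹ • P = P ∧ g⁻¹ • Q = Q := by
      intro g hg
      constructor
      · rw [inv_smul_eq_iff, hsm]; funext i; exact (hg i).1.symm
      · rw [inv_smul_eq_iff, hsm]; funext i; exact (hg i).2.symm
    have hinv2 : ∀ g : ↥(Ge k L ⊓ St k V), (∀ i, (g : Ω ≃ₐ[k] Ω) (P i) = Q i ∧ (g : Ω ≃ₐ[k] Ω) (Q i) = P i) →
        g⁻¹ • P = Q ∧ g⁻¹ • Q = P := by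
      intro g hg
      constructor
      · rw [inv_smul_eq_iff, hsm]; funext i; exact (hg i).2.symm
      · rw [inv_smul_eq_iff, hsm]; funext i; exact (hg i).1.symm
    let x : ↥(Ge k L ⊓ St k V) → ↥(Ge k L ⊓ St k V) → (Fin 2 → Ω) → Ωˣ :=
      fun σ τ R => if R = P then a σ τ else if R = Q then t • a σ τ else 1
    have hxP : ∀ σ τ, x σ τ P = a σ τ := fun σ τ => if_pos rfl
    have hxQ : ∀ σ τ, x σ τ Q = t • a σ τ := fun σ τ => by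
      show (if Q = P then a σ τ else if Q = Q then t • a σ τ else 1) = t • a σ τ
      rw [if_neg (Ne.symm hPQ), if_pos rfl]
    have hxR : ∀ σ τ R, R ≠ P → R ≠ Q → x σ τ R = 1 := fun σ τ R h1 h2 => by
      show (if R = P then a σ τ else if R = Q then t • a σ τ else 1) = 1
      rw [if_neg h1, if_neg h2]
    have hx : ∀ σ τ ρ R, x σ τ R * x (σ * τ) ρ R = σ • x τ ρ (σ⁻¹ • R) * x σ (τ * ρ) R := by
      intro σ τ ρ R
      obtain ⟨σ', hσ', hag, hid⟩ := nm_unr_coc hZ hW a ha hc σ τ ρ σ.2.1 τ.2.1 ρ.2.1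
      obtain ⟨hs1, hs2⟩ := nm_unr_smul hZ hW σ σ' σ.2.1.1 hσ'.1 hag (a τ ρ) (hfix _ _)
      have hcoe1 : ((σ * τ : ↥(Ge k L ⊓ St k V)) : Ω ≃ₐ[k] Ω) = (σ : Ω ≃ₐ[k] Ω) * τ := rfl
      have hcoe2 : ((τ * ρ : ↥(Ge k L ⊓ St k V)) : Ω ≃ₐ[k] Ω) = (τ : Ω ≃ₐ[k] Ω) * ρ := rfl
      by_cases hRP : R = P
      · subst hRP
        rcases hdich σ with hd | hd
        · rw [(hinv1 σ hd).1, hxP, hxP, hxP, hxP, hcoe1, hcoe2, hid, ← (hs1 hd).1]
          rfl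
        · rw [(hinv2 σ hd).1, hxP, hxP, hxQ, hxP, hcoe1, hcoe2, hid, ← (hs2 hd).2]
          rfl
      · by_cases hRQ : R = Q
        · subst hRQ
          rcases hdich σ with hd | hd
          · rw [(hinv1 σ hd).2, hxQ, hxQ, hxQ, hxQ, hcoe1, hcoe2, ← smul_mul', hid, smul_mul',
              ← (hs1 hd).2]
            rfl
          · rw [(hinv2 σ hd).2, hxQ, hxQ, hxP, hxQ, hcoe1, hcoe2, ← smul_mul', hid, smul_mul',
              ← (hs2 hd).1]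
            rfl
        · have h1 : σ⁻¹ • R ≠ P := by
            intro h
            rw [inv_smul_eq_iff] at h
            rcases hdich σ with hd | hd
            · apply hRP; rw [h, hsm]; funext i; exact (hd i).1
            · apply hRQ; rw [h, hsm]; funext i; exact (hd i).1
          have h2 : σ⁻¹ • R ≠ Q := by
            intro h
            rw [inv_smul_eq_iff] at h
            rcases hdich σ with hd | hd
            · apply hRQ; rw [h, hsm]; funext i; exact (hd i).2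
            · apply hRP; rw [h, hsm]; funext i; exact (hd i).2
          rw [hxR _ _ _ hRP hRQ, hxR _ _ _ hRP hRQ, hxR _ _ _ hRP hRQ, hxR _ _ _ h1 h2, smul_one]
    let w' : ↥(Ge k L ⊓ St k V) := ⟨w, hwD⟩
    let r : (Fin 2 → Ω) → ↥(Ge k L ⊓ St k V) := fun R => if R = Q then w' else 1
    have hrP : r P = 1 := if_neg hPQ
    have hrQ : r Q = w' := if_pos rfl
    have hsh := shap (D := ↥(Ge k L ⊓ St k V)) (M := Ωˣ) (X := Fin 2 → Ω) (fun _ => ⊥)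
      (by
        intro σ R m hm
        rw [Subgroup.mem_bot] at hm ⊢
        rw [hm, smul_one]) x hx P (fun σ => b₀ σ) (by
        intro s t' hs ht
        have hs' : ∀ i, (s : Ω ≃ₐ[k] Ω) (P i) = P i := fun i => congrFun hs i
        have ht' : ∀ i, (t' : Ω ≃ₐ[k] Ω) (P i) = P i := fun i => congrFun ht i
        have h1 := hcob s (hDfix s s.2 hs') t' (hDfix t' t'.2 ht')
        rw [Subgroup.mem_bot, hxP, mul_inv_eq_one]
        exact h1) r (by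
        rintro R ⟨g, rfl⟩
        show r (g • P) • P = g • P
        rcases hdich g with hd | hd
        · have h1 : g • P = P := by rw [hsm]; funext i; exact (hd i).1
          rw [h1, hrP, one_smul]
        · have h1 : g • P = Q := by rw [hsm]; funext i; exact (hd i).1
          rw [h1, hrQ, hsm]
          funext i; exact (hw i).1)
    have horbP : P ∈ MulAction.orbit ↥(Ge k L ⊓ St k V) P := MulAction.mem_orbit_self P
    have horbQ : Q ∈ MulAction.orbit ↥(Ge k L ⊓ St k V) P := ⟨w', by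
      show w' • P = Q
      rw [hsm]; funext i; exact (hw i).1⟩
    set y := shY x (fun σ : ↥(Ge k L ⊓ St k V) => b₀ σ) r with hy
    -- the values of `y`
    let F₁ : (Ω ≃ₐ[k] Ω) → Ωˣ := fun σ =>
      (a σ 1 * (a 1 (1⁻¹ * σ * 1))⁻¹ * b₀ (1⁻¹ * σ * 1)) *
      (t • a σ w * (t • a w (w⁻¹ * σ * w))⁻¹ * w • b₀ (w⁻¹ * σ * w))
    let F₂ : (Ω ≃ₐ[k] Ω) → Ωˣ := fun σ =>
      (a σ w * (a 1 (1⁻¹ * σ * w))⁻¹ * b₀ (1⁻¹ * σ * w)) *
      (t • a σ 1 * (t • a w (w⁻¹ * σ * 1))⁻¹ * w • b₀ (w⁻¹ * σ * 1))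
    have hF₁ : Lc1 Set.univ F₁ :=
      (((nm_unr_lcl ha 1).mul (nm_unr_tr (nm_unr_lcr ha 1) 1⁻¹ 1).inv).mul
        (nm_unr_tr hb₀ 1⁻¹ 1)).mul
      ((((nm_unr_lcl ha w).smul t).mul
        ((nm_unr_tr (nm_unr_lcr ha w) w⁻¹ w).smul t).inv).mul ((nm_unr_tr hb₀ w⁻¹ w).smul w))
    have hF₂ : Lc1 Set.univ F₂ :=
      (((nm_unr_lcl ha w).mul (nm_unr_tr (nm_unr_lcr ha 1) 1⁻¹ w).inv).mul
        (nm_unr_tr hb₀ 1⁻¹ w)).mul
      ((((nm_unr_lcl ha 1).smul t).mul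
        ((nm_unr_tr (nm_unr_lcr ha w) w⁻¹ 1).smul t).inv).mul ((nm_unr_tr hb₀ w⁻¹ 1).smul w))
    let B : (Ω ≃ₐ[k] Ω) → Ωˣ := fun σ => if ∀ i, σ (P i) = P i then F₁ σ else F₂ σ
    have hB : Lc1 Set.univ B := by
      obtain ⟨S₁, -, h1⟩ := hF₁
      obtain ⟨S₂, -, h2⟩ := hF₂
      refine ⟨S₁ ∪ S₂ ∪ Finset.univ.image P, Set.subset_univ _, ?_⟩
      intro σ σ' hag
      have e1 : F₁ σ = F₁ σ' := h1 σ σ' (hag.mono (by
        intro x hx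
        simp only [Finset.coe_union, Set.mem_union]
        exact Or.inl (Or.inl hx)))
      have e2 : F₂ σ = F₂ σ' := h2 σ σ' (hag.mono (by
        intro x hx
        simp only [Finset.coe_union, Set.mem_union]
        exact Or.inl (Or.inr hx)))
      have e3 : (∀ i, σ (P i) = P i) ↔ ∀ i, σ' (P i) = P i := by
        have h3 : ∀ i, σ (P i) = σ' (P i) := fun i => hag (P i) (by
          simp only [Finset.coe_union, Set.mem_union, Finset.coe_image, Finset.coe_univ]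
          exact Or.inr ⟨i, trivial, rfl⟩)
        constructor
        · intro h i; rw [← h3]; exact h i
        · intro h i; rw [h3]; exact h i
      show (if ∀ i, σ (P i) = P i then F₁ σ else F₂ σ) =
        (if ∀ i, σ' (P i) = P i then F₁ σ' else F₂ σ')
      by_cases h4 : ∀ i, σ (P i) = P i
      · rw [if_pos h4, if_pos (e3.1 h4), e1]
      · rw [if_neg h4, if_neg (fun h => h4 (e3.2 h)), e2]
    have hBy : ∀ σ : ↥(Ge k L ⊓ St k V), B σ = y σ P * y σ Q := by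
      intro σ
      rcases hdich σ with hd | hd
      · have h1 : B σ = F₁ σ := if_pos (fun i => (hd i).1)
        rw [h1, hy]
        simp only [shY]
        rw [(hinv1 σ hd).1, (hinv1 σ hd).2, hrP, hrQ, hxP, hxP, hxQ, hxQ, one_smul]
        rfl
      · have h1 : B σ = F₂ σ := if_neg (fun h => hPQ (by
          funext i; rw [← h i]; exact (hd i).1))
        rw [h1, hy]
        simp only [shY]
        rw [(hinv2 σ hd).1, (hinv2 σ hd).2, hrP, hrQ, hxP, hxP, hxQ, hxQ, one_smul]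
        rfl
    refine ⟨B, hB, ?_⟩
    intro σ₀ hσ₀ τ₀ hτ₀
    let σ : ↥(Ge k L ⊓ St k V) := ⟨σ₀, hσ₀⟩
    let τ : ↥(Ge k L ⊓ St k V) := ⟨τ₀, hτ₀⟩
    have hP := hsh σ τ P horbP
    have hQ := hsh σ τ Q horbQ
    rw [Subgroup.mem_bot, mul_inv_eq_one, hxP] at hP
    rw [Subgroup.mem_bot, mul_inv_eq_one, hxQ] at hQ
    have h1 : B σ₀ = y σ P * y σ Q := hBy σ
    have h2 : B τ₀ = y τ P * y τ Q := hBy τ
    have h3 : B (σ₀ * τ₀) = y (σ * τ) P * y (σ * τ) Q := hBy (σ * τ)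
    have h4 : σ₀ • B τ₀ = σ • y τ (σ⁻¹ • P) * σ • y τ (σ⁻¹ • Q) := by
      rw [h2, smul_mul']
      rcases hdich σ with hd | hd
      · rw [(hinv1 σ hd).1, (hinv1 σ hd).2]; rfl
      · rw [(hinv2 σ hd).1, (hinv2 σ hd).2, mul_comm]; rfl
    show a σ₀ τ₀ * t • a σ₀ τ₀ * B (σ₀ * τ₀) = B σ₀ * σ₀ • B τ₀
    rw [h4, h3, h1, mul_mul_mul_comm (y σ P)]
    rw [← show a (σ : Ω ≃ₐ[k] Ω) (τ : Ω ≃ₐ[k] Ω) * y (σ * τ) P = y σ P * σ • y τ (σ⁻¹ • P) from hP,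
      ← show t • a (σ : Ω ≃ₐ[k] Ω) (τ : Ω ≃ₐ[k] Ω) * y (σ * τ) Q = y σ Q * σ • y τ (σ⁻¹ • Q) from hQ]
    rw [mul_mul_mul_comm]
  · -- all elements fix the two points
    have hfx : ∀ g ∈ Ge k L ⊓ St k V, ∀ i, g (P i) = P i ∧ g (Q i) = Q i := by
      intro g hg
      rcases hW.perm g hg.1.1 with h | h
      · exact h
      · exact absurd ⟨g, hg, h⟩ hsw
    have h1 : Tri (Ge k L ⊓ St k V) a :=
      ⟨b₀, hb₀, hcob.mono (fun g hg => hDfix g hg (fun i => (hfx g hg i).1))⟩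
    have hVt : ∀ x : k, algebraMap k Ω x ∈ V.comap (t : Ω →+* Ω) := by
      intro x
      rw [ValuationSubring.mem_comap]
      have : (t : Ω →+* Ω) (algebraMap k Ω x) = algebraMap k Ω x := t.commutes x
      rw [this]; exact hV x
    have hVt' : V.comap (t : Ω →+* Ω) ≠ ⊤ := by
      intro htop
      apply hV'
      rw [eq_top_iff]
      intro x _
      have h1 : t⁻¹ x ∈ V.comap (t : Ω →+* Ω) := by rw [htop]; trivial
      rw [ValuationSubring.mem_comap] at h1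
      have : (t : Ω →+* Ω) (t⁻¹ x) = x := t.apply_symm_apply x
      rwa [this] at h1
    obtain ⟨b', hb', hcob'⟩ := hunr _ hVt hVt'
    have htA : ∀ x ∈ (A : Set Ω), t x = x := fun x hx => hW.fix x hx
    have htA' : ∀ x ∈ (A : Set Ω), t⁻¹ x = x := by
      intro x hx
      have h2 := t.symm_apply_apply x
      rw [htA x hx] at h2
      exact h2
    have htt : ∀ x, t (t⁻¹ x) = x := fun x => t.apply_symm_apply x
    have htt' : ∀ x, t⁻¹ (t x) = x := fun x => t.symm_apply_apply x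
    have hgA : ∀ g ∈ Ge k L, ∀ x ∈ (A : Set Ω), g x ∈ (A : Set Ω) := by
      intro g hg x hx
      refine (hZ.stab g ?_ x).2 hx
      intro y hy
      rw [Set.mem_singleton_iff] at hy
      rw [hy]; exact hg.1 z hW.mem
    have hconj : ∀ g ∈ Ge k L ⊓ St k V, t⁻¹ * g * t ∈
        Ge k ({z} ∪ Set.range P) ⊓ St k (V.comap (t : Ω →+* Ω)) ∧
        Ag (A : Set Ω) g (t⁻¹ * g * t) := by
      intro g hg
      refine ⟨⟨⟨?_, ?_⟩, ?_⟩, ?_⟩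
      · rintro x (hx | ⟨i, rfl⟩)
        · rw [Set.mem_singleton_iff] at hx
          rw [hx, AlgEquiv.mul_apply, AlgEquiv.mul_apply, htA z hZ.mem]
          rw [hg.1.1 z hW.mem, htA' z hZ.mem]
        · rw [AlgEquiv.mul_apply, AlgEquiv.mul_apply, hW.map, (hfx g hg i).2, ← hW.map i, htt']
      · intro x hx
        have hxA : x ∈ (A : Set Ω) := hZ.alg x hx
        rw [AlgEquiv.mul_apply, AlgEquiv.mul_apply, htA x hxA, hg.1.2 x hx, htA' x hxA]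
      · intro x
        rw [ValuationSubring.mem_comap, ValuationSubring.mem_comap]
        show t ((t⁻¹ * g * t) x) ∈ V ↔ t x ∈ V
        rw [AlgEquiv.mul_apply, AlgEquiv.mul_apply, htt]
        exact hg.2 (t x)
      · intro x hx
        rw [AlgEquiv.mul_apply, AlgEquiv.mul_apply, htA x hx, htA' _ (hgA g hg.1 x hx)]
    have h2 : Tri (Ge k L ⊓ St k V) (fun σ τ => t • a σ τ) := by
      refine ⟨fun σ => t • b' (t⁻¹ * σ * t), (nm_unr_tr hb' t⁻¹ t).smul t, ?_⟩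
      intro σ hσ τ hτ
      obtain ⟨h3, h4⟩ := hconj σ hσ
      obtain ⟨h5, h6⟩ := hconj τ hτ
      have h7 := hcob' _ h3 _ h5
      rw [← nm_unr_lc2 ha h4 h6] at h7
      have h8 : t⁻¹ * σ * t * (t⁻¹ * τ * t) = t⁻¹ * (σ * τ) * t := by group
      rw [h8] at h7
      show t • a σ τ * t • b' (t⁻¹ * (σ * τ) * t) =
        t • b' (t⁻¹ * σ * t) * σ • t • b' (t⁻¹ * τ * t)
      rw [← smul_mul', h7, smul_mul', ← mul_smul, ← mul_smul]
      congr 2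
      group
    exact h1.mul h2

end

end Pool.Agent.TBR

end

section


namespace Pool.Agent.TBR

open Pool.Agent.TQU

universe u

section

variable {k Ω : Type u} [Field k] [Field Ω] [Algebra k Ω] [IsAlgClosed Ω]
variable {A : IntermediateField k Ω} {z : Ω} {P Q : Fin 2 → Ω} {L : Set Ω} {t : Ω ≃ₐ[k] Ω}

theorem nm_sys (hZ : SitZ A z P) (hW : Swap A z P Q L t) (ℓ : ℕ)
    (a : ℕ → (Ω ≃ₐ[k] Ω) → (Ω ≃ₐ[k] Ω) → Ωˣ) (ha : SysA A z P ℓ a) :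
    SysU L ℓ (fun n σ τ => a n σ τ * t • a n σ τ) := by
  have hNA : ∀ σ ∈ Ge k ({z} ∪ Set.range P), ∀ x ∈ A, σ x ∈ A := by
    intro σ hσ x hx
    refine (hZ.stab σ ?_ x).2 hx
    intro y hy
    exact hσ.1 y (Or.inl hy)
  have hle : Fx k ((A : Set Ω) ∪ Set.range P) ≤ Ge k ({z} ∪ Set.range P) ⊓ Fx k (A : Set Ω) := by
    intro s hs
    refine ⟨⟨?_, ?_⟩, ?_⟩
    · rintro x (hx | hx)
      · rw [Set.mem_singleton_iff] at hx
        rw [hx]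
        exact hs z (Or.inl hZ.mem)
      · exact hs x (Or.inr hx)
    · intro x hx
      exact hs x (Or.inl (hZ.alg x hx))
    · intro x hx
      exact hs x (Or.inl hx)
  have key : ∀ X : (Ω ≃ₐ[k] Ω) → (Ω ≃ₐ[k] Ω) → Ωˣ, Lc2 (A : Set Ω) X →
      (∀ σ, X 1 σ = 1 ∧ X σ 1 = 1) → Tri (Ge k ({z} ∪ Set.range P)) X →
      Tri (Ge k L) (fun σ τ => X σ τ * t • X σ τ) := by
    intro X hX h1 htri
    obtain ⟨b, hb, hbfix, hcob⟩ := injA A (Ge k ({z} ∪ Set.range P)) hNA hZ.orb hZ.clo X hX h1 htri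
    have h2 := nm_cob hZ hW X hX b hb (fun σ s hs => hbfix σ s (hle hs)) hcob
    refine ⟨fun σ => b σ * t • b σ, ?_, h2⟩
    exact (hb.mono (Set.subset_univ _)).mul ((hb.mono (Set.subset_univ _)).smul t)
  constructor
  · intro n
    exact ((ha.lc n).mono (Set.subset_univ _)).mul (((ha.lc n).mono (Set.subset_univ _)).smul t)
  · intro n
    exact nm_coc hZ hW (a n) (ha.lc n) (ha.fix n) (ha.sys.coc n)
  · exact key (a 0) (ha.lc 0) (ha.one 0) ha.sys.zero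
  · intro n
    have h1 := key (fun σ τ => a (n + 1) σ τ ^ ℓ * (a n σ τ)⁻¹)
      (((ha.lc (n + 1)).pow ℓ).mul (ha.lc n).inv)
      (fun σ => by
        rw [(ha.one (n + 1) σ).1, (ha.one (n + 1) σ).2, (ha.one n σ).1, (ha.one n σ).2]
        simp)
      (ha.sys.step n)
    refine h1.congr ?_
    intro σ _ τ _
    show a (n + 1) σ τ ^ ℓ * (a n σ τ)⁻¹ * t • (a (n + 1) σ τ ^ ℓ * (a n σ τ)⁻¹) =
      (a (n + 1) σ τ * t • a (n + 1) σ τ) ^ ℓ * (a n σ τ * t • a n σ τ)⁻¹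
    rw [smul_mul', smul_inv', smul_pow', mul_pow, mul_inv, mul_mul_mul_comm]
  · intro n g hg
    exact nm_inv hZ hW (a n) (ha.lc n) (ha.fix n) (ha.one n) (ha.sys.inv n) g hg
  · intro n V hV hV'
    exact nm_unr hZ hW (a n) (ha.lc n) (ha.fix n) (ha.sys.coc n) (ha.sys.unr n) V hV hV'

end

end Pool.Agent.TBR

end
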