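import Pool.Agent.TBM.Base
import Pool.Agent.TQC.Loc

/-!
# Functions on a plane curve
-/

set_option autoImplicit false

section


namespace Pool.Agent.TBR

open Pool.Agent.TQU

universe u

variable {k Ω : Type u} [Field k] [Field Ω] [Algebra k Ω]

open Classical in
/-- `v R f` is the order at the point `R` of the function `f ∈ A(P)` on the curve `F = 0` -/
structure IsOrd (A : IntermediateField k Ω) (F : MvPolynomial (Fin 2) Ω) (P : Fin 2 → Ω)
    (v : (Fin 2 → Ω) → Ωˣ → ℤ) : Prop where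
  fin : ∀ f : Ωˣ, (f : Ω) ∈ AA A (Set.range P) → {R | v R f ≠ 0}.Finite
  supp : ∀ R f, v R f ≠ 0 → (∀ i, R i ∈ A) ∧ MvPolynomial.eval R F = 0
  mul : ∀ R, ∀ f g : Ωˣ, (f : Ω) ∈ AA A (Set.range P) → (g : Ω) ∈ AA A (Set.range P) →
    v R (f * g) = v R f + v R g
  equiv : ∀ σ : Ω ≃ₐ[k] Ω, (∀ x : Ω, σ x ∈ A ↔ x ∈ A) → (∀ i, σ (P i) = P i) →
    MvPolynomial.map (σ : Ω →+* Ω) F = F → ∀ R, ∀ f : Ωˣ, (f : Ω) ∈ AA A (Set.range P) →
      v (fun i => σ (R i)) (σ • f) = v R f
  unit : ∀ R : Fin 2 → Ω, (∀ i, R i ∈ A) → MvPolynomial.eval R F = 0 →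
    ∀ V : ValuationSubring Ω, (∀ x ∈ A, x ∈ V) → (∀ i, P i - R i ∈ V.nonunits) →
      ∀ f : Ωˣ, (f : Ω) ∈ AA A (Set.range P) → (f ∈ V.unitGroup ↔ v R f = 0)
  rep : ∀ f : Ωˣ, (f : Ω) ∈ AA A (Set.range P) →
    ∃ (u w : MvPolynomial (Fin 2) Ω) (M N : Multiset (Fin 2 → Ω)),
      Cf (A : Set Ω) u ∧ Cf (A : Set Ω) w ∧ ¬ F ∣ u ∧ ¬ F ∣ w ∧
      (f : Ω) * MvPolynomial.eval P w = MvPolynomial.eval P u ∧
      Ideal.span {Ideal.Quotient.mk (Ideal.span {F}) u} = (M.map (ptIdeal F)).prod ∧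
      Ideal.span {Ideal.Quotient.mk (Ideal.span {F}) w} = (N.map (ptIdeal F)).prod ∧
      (∀ R ∈ M, (∀ i, R i ∈ A) ∧ MvPolynomial.eval R F = 0) ∧
      (∀ R ∈ N, (∀ i, R i ∈ A) ∧ MvPolynomial.eval R F = 0) ∧
      ∀ R, v R f = (M.count R : ℤ) - (N.count R : ℤ)

end Pool.Agent.TBR

end

section


namespace Pool.Agent.TBR

universe u

section

variable {k Ω : Type u} [Field k] [Field Ω] [Algebra k Ω]

theorem center (A : IntermediateField k Ω) (P R : Fin 2 → Ω) (hR : ∀ i, R i ∈ A)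
    (h : ∀ u : MvPolynomial (Fin 2) Ω, Cf (A : Set Ω) u → MvPolynomial.eval P u = 0 →
      MvPolynomial.eval R u = 0) :
    ∃ V : ValuationSubring Ω, (∀ x ∈ A, x ∈ V) ∧ ∀ i, P i - R i ∈ V.nonunits := by
  classical
  have hf : Function.Surjective (MvPolynomial.aeval P :
      MvPolynomial (Fin 2) A →ₐ[A] Ω).toRingHom.rangeRestrict :=
    RingHom.rangeRestrict_surjective _
  have hev : ∀ (Q : Fin 2 → Ω) (v : MvPolynomial (Fin 2) A),
      MvPolynomial.eval Q (MvPolynomial.map (algebraMap A Ω) v) = MvPolynomial.aeval Q v := by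
    intro Q v
    rw [MvPolynomial.eval_map, MvPolynomial.aeval_def]
  have h' : ∀ v : MvPolynomial (Fin 2) A, MvPolynomial.aeval P v = 0 →
      MvPolynomial.aeval R v = 0 := by
    intro v hv
    rw [← hev] at hv ⊢
    refine h _ (fun m => ?_) hv
    rw [MvPolynomial.coeff_map]
    exact (MvPolynomial.coeff m v).2
  obtain ⟨V, hV1, hV2⟩ := Ideal.image_subset_nonunits_valuationSubring
    (Ideal.map (MvPolynomial.aeval P : MvPolynomial (Fin 2) A →ₐ[A] Ω).toRingHom.rangeRestrict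
      (RingHom.ker (MvPolynomial.aeval R : MvPolynomial (Fin 2) A →ₐ[A] Ω).toRingHom)) (by
    rw [Ne, Ideal.eq_top_iff_one, Ideal.mem_map_iff_of_surjective _ hf]
    rintro ⟨v, hv1, hv2⟩
    have h1 : MvPolynomial.aeval R v = 0 := hv1
    have h2 : MvPolynomial.aeval P v = 1 := congrArg Subtype.val hv2
    have h3 : MvPolynomial.aeval R (v - 1) = 0 := h' _ (by rw [map_sub, h2, map_one, sub_self])
    rw [map_sub, h1, map_one, zero_sub, neg_eq_zero] at h3
    exact one_ne_zero h3)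
  refine ⟨V, fun x hx => hV1 ⟨MvPolynomial.C ⟨x, hx⟩, ?_⟩, fun i => hV2 ?_⟩
  · show MvPolynomial.aeval P (MvPolynomial.C (⟨x, hx⟩ : A)) = x
    rw [MvPolynomial.aeval_C]
    rfl
  · refine ⟨(MvPolynomial.aeval P : MvPolynomial (Fin 2) A →ₐ[A] Ω).toRingHom.rangeRestrict
      (MvPolynomial.X i - MvPolynomial.C ⟨R i, hR i⟩), Ideal.mem_map_of_mem _ ?_, ?_⟩
    · show MvPolynomial.aeval R (MvPolynomial.X i - MvPolynomial.C (⟨R i, hR i⟩ : A)) = 0
      rw [map_sub, MvPolynomial.aeval_X, MvPolynomial.aeval_C]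
      exact sub_self _
    · show MvPolynomial.aeval P (MvPolynomial.X i - MvPolynomial.C (⟨R i, hR i⟩ : A)) = _
      rw [map_sub, MvPolynomial.aeval_X, MvPolynomial.aeval_C]
      rfl

end

end Pool.Agent.TBR

end

section


namespace Pool.Agent.TBR

universe u

section

variable {k Ω : Type u} [Field k] [Field Ω] [Algebra k Ω]

private theorem mem_aa_cf (A : IntermediateField k Ω) (u : MvPolynomial (Fin 2) Ω)
    (h : Cf (A : Set Ω) u) : ∃ v : MvPolynomial (Fin 2) A,
      MvPolynomial.map (algebraMap A Ω) v = u := by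
  have h1 : u ∈ Set.range (MvPolynomial.map (σ := Fin 2) (algebraMap A Ω)) := by
    rw [MvPolynomial.mem_range_map_iff_coeffs_subset]
    intro c hc
    rw [Finset.mem_coe, MvPolynomial.mem_coeffs_iff] at hc
    obtain ⟨m, _, rfl⟩ := hc
    exact ⟨⟨_, h m⟩, rfl⟩
  exact h1

private theorem mem_aa_cf' (A : IntermediateField k Ω) (v : MvPolynomial (Fin 2) A) :
    Cf (A : Set Ω) (MvPolynomial.map (algebraMap A Ω) v) := by
  intro m
  rw [MvPolynomial.coeff_map]
  exact (MvPolynomial.coeff m v).2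

private theorem mem_aa_ev (A : IntermediateField k Ω) (P : Fin 2 → Ω)
    (v : MvPolynomial (Fin 2) A) :
    MvPolynomial.eval P (MvPolynomial.map (algebraMap A Ω) v) = MvPolynomial.aeval P v := by
  rw [MvPolynomial.eval_map, MvPolynomial.aeval_def]

/-- the field of all quotients -/
private def mem_aa_F (A : IntermediateField k Ω) (P : Fin 2 → Ω) : IntermediateField k Ω where
  carrier := {x | ∃ v w : MvPolynomial (Fin 2) A, MvPolynomial.aeval P w ≠ 0 ∧
    x * MvPolynomial.aeval P w = MvPolynomial.aeval P v}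
  mul_mem' := by
    rintro x y ⟨v, w, h1, h2⟩ ⟨v', w', h1', h2'⟩
    refine ⟨v * v', w * w', ?_, ?_⟩
    · rw [map_mul]; exact mul_ne_zero h1 h1'
    · rw [map_mul, map_mul, ← h2, ← h2']; ring
  one_mem' := ⟨1, 1, by rw [map_one]; exact one_ne_zero, by rw [map_one, one_mul]⟩
  add_mem' := by
    rintro x y ⟨v, w, h1, h2⟩ ⟨v', w', h1', h2'⟩
    refine ⟨v * w' + v' * w, w * w', ?_, ?_⟩
    · rw [map_mul]; exact mul_ne_zero h1 h1'
    · rw [map_mul, map_add, map_mul, map_mul, ← h2, ← h2']; ring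
  zero_mem' := ⟨0, 1, by rw [map_one]; exact one_ne_zero, by rw [map_zero, zero_mul]⟩
  algebraMap_mem' c := ⟨MvPolynomial.C (algebraMap k A c), 1, by rw [map_one]; exact one_ne_zero,
    by rw [map_one, mul_one, MvPolynomial.aeval_C]; rfl⟩
  inv_mem' := by
    rintro x ⟨v, w, h1, h2⟩
    by_cases hx : x = 0
    · refine ⟨0, 1, by rw [map_one]; exact one_ne_zero, by rw [hx, inv_zero, map_zero, zero_mul]⟩
    · refine ⟨w, v, ?_, ?_⟩
      · rw [← h2]; exact mul_ne_zero hx h1
      · rw [← h2, inv_mul_cancel_left₀ hx]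

private theorem mem_aa_le (A : IntermediateField k Ω) (P : Fin 2 → Ω) :
    AA A (Set.range P) ≤ mem_aa_F A P := by
  refine sup_le ?_ ?_
  · intro a ha
    exact ⟨MvPolynomial.C ⟨a, ha⟩, 1, by rw [map_one]; exact one_ne_zero,
      by rw [map_one, mul_one, MvPolynomial.aeval_C]; rfl⟩
  · rw [IntermediateField.adjoin_le_iff]
    rintro _ ⟨i, rfl⟩
    exact ⟨MvPolynomial.X i, 1, by rw [map_one]; exact one_ne_zero,
      by rw [map_one, mul_one, MvPolynomial.aeval_X]⟩

private theorem mem_aa_mem (A : IntermediateField k Ω) (P : Fin 2 → Ω)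
    (v : MvPolynomial (Fin 2) A) : MvPolynomial.aeval P v ∈ AA A (Set.range P) := by
  induction v using MvPolynomial.induction_on with
  | C a =>
    rw [MvPolynomial.aeval_C]
    exact (le_sup_left : A ≤ AA A (Set.range P)) a.2
  | add p q hp hq =>
    rw [map_add]; exact add_mem hp hq
  | mul_X p i hp =>
    rw [map_mul, MvPolynomial.aeval_X]
    refine mul_mem hp ?_
    exact (le_sup_right : IntermediateField.adjoin k (Set.range P) ≤ AA A (Set.range P))
      (IntermediateField.subset_adjoin _ _ ⟨i, rfl⟩)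

theorem mem_aa (A : IntermediateField k Ω) (P : Fin 2 → Ω) (x : Ω) :
    x ∈ AA A (Set.range P) ↔ ∃ u w : MvPolynomial (Fin 2) Ω, Cf (A : Set Ω) u ∧ Cf (A : Set Ω) w ∧
      MvPolynomial.eval P w ≠ 0 ∧ x * MvPolynomial.eval P w = MvPolynomial.eval P u := by
  constructor
  · intro hx
    obtain ⟨v, w, h1, h2⟩ := mem_aa_le A P hx
    exact ⟨_, _, mem_aa_cf' A v, mem_aa_cf' A w, by rw [mem_aa_ev]; exact h1,
      by rw [mem_aa_ev, mem_aa_ev]; exact h2⟩
  · rintro ⟨u, w, hu, hw, h1, h2⟩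
    obtain ⟨u', rfl⟩ := mem_aa_cf A u hu
    obtain ⟨w', rfl⟩ := mem_aa_cf A w hw
    rw [mem_aa_ev] at h1
    rw [mem_aa_ev, mem_aa_ev] at h2
    rw [eq_div_of_mul_eq h1 h2]
    exact div_mem (mem_aa_mem A P u') (mem_aa_mem A P w')

end

end Pool.Agent.TBR

end

section


namespace Pool.Agent.TBR

universe u

section

variable {k Ω : Type u} [Field k] [Field Ω] [Algebra k Ω]

theorem coef (A : IntermediateField k Ω) (P : Fin 2 → Ω) (x : Ω) (hx : x ∈ AA A (Set.range P)) :
    ∃ S : Finset Ω, (S : Set Ω) ⊆ A ∧ ∀ σ ∈ Fx k (Set.range P), ∀ τ ∈ Fx k (Set.range P),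
      Ag (S : Set Ω) σ τ → σ x = τ x := by
  classical
  obtain ⟨u, w, hu, hw, hw0, hxw⟩ := (mem_aa A P x).1 hx
  refine ⟨u.support.image (fun m => MvPolynomial.coeff m u) ∪
    w.support.image (fun m => MvPolynomial.coeff m w), ?_, fun σ hσ τ hτ hag => ?_⟩
  · intro y hy
    rw [Finset.coe_union, Finset.coe_image, Finset.coe_image] at hy
    rcases hy with ⟨m, -, rfl⟩ | ⟨m, -, rfl⟩
    · exact hu m
    · exact hw m
  · have key : ∀ q : MvPolynomial (Fin 2) Ω, (∀ m ∈ q.support,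
        σ (MvPolynomial.coeff m q) = τ (MvPolynomial.coeff m q)) →
        σ (MvPolynomial.eval P q) = τ (MvPolynomial.eval P q) := by
      intro q hq
      rw [MvPolynomial.eval_eq, map_sum, map_sum]
      refine Finset.sum_congr rfl fun m hm => ?_
      rw [map_mul, map_mul, hq m hm, map_prod, map_prod]
      congr 1
      refine Finset.prod_congr rfl fun i _ => ?_
      rw [map_pow, map_pow, hσ _ ⟨i, rfl⟩, hτ _ ⟨i, rfl⟩]
    have h1 := key u (fun m hm => hag _ (by
      rw [Finset.coe_union, Finset.coe_image, Finset.coe_image]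
      exact Or.inl ⟨m, hm, rfl⟩))
    have h2 := key w (fun m hm => hag _ (by
      rw [Finset.coe_union, Finset.coe_image, Finset.coe_image]
      exact Or.inr ⟨m, hm, rfl⟩))
    have h3 := congrArg σ hxw
    have h4 := congrArg τ hxw
    rw [map_mul] at h3 h4
    rw [h1, ← h4, h2] at h3
    exact mul_right_cancel₀ (by
      intro h0
      exact hw0 (τ.injective (by rw [h0, map_zero]))) h3

end

end Pool.Agent.TBR

end

section


namespace Pool.Agent.TBR

open Pool.Agent.TQU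

universe u

section

variable {k Ω : Type u} [Field k] [Field Ω] [Algebra k Ω] [IsAlgClosed Ω]

private theorem gen_iff_prime {L : Type u} [Field L] {F : MvPolynomial (Fin 2) L}
    (h : Irreducible F) : Prime F := UniqueFactorizationMonoid.irreducible_iff_prime.1 h

theorem gen_iff (A : IntermediateField k Ω) [IsAlgClosed A] (F : MvPolynomial (Fin 2) Ω)
    (hF : Cf (A : Set Ω) F) (hirr : Irreducible F) (Q : Fin 2 → Ω)
    (hQ : MvPolynomial.eval Q F = 0) (hQA : ¬ ∀ i, Q i ∈ A) (u : MvPolynomial (Fin 2) Ω)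
    (hu : Cf (A : Set Ω) u) : MvPolynomial.eval Q u = 0 ↔ F ∣ u := by
  classical
  constructor
  swap
  · rintro ⟨w, rfl⟩
    rw [map_mul, hQ, zero_mul]
  intro huQ
  have hlift : ∀ v : MvPolynomial (Fin 2) Ω, Cf (A : Set Ω) v →
      ∃ v₀ : MvPolynomial (Fin 2) A, MvPolynomial.map (algebraMap A Ω) v₀ = v := by
    intro v hv
    have h1 : v ∈ Set.range (MvPolynomial.map (σ := Fin 2) (algebraMap A Ω)) := by
      rw [MvPolynomial.mem_range_map_iff_coeffs_subset]
      intro x hx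
      rw [Finset.mem_coe, MvPolynomial.mem_coeffs_iff] at hx
      obtain ⟨m, -, rfl⟩ := hx
      exact ⟨⟨_, hv m⟩, rfl⟩
    exact h1
  obtain ⟨F₀, rfl⟩ := hlift F hF
  obtain ⟨u₀, rfl⟩ := hlift u hu
  have hinj : Function.Injective (algebraMap A Ω) := (algebraMap A Ω).injective
  have hunit : ∀ v : MvPolynomial (Fin 2) A,
      IsUnit (MvPolynomial.map (algebraMap A Ω) v) → IsUnit v := by
    intro v hv
    rw [MvPolynomial.isUnit_iff] at hv ⊢
    simp only [MvPolynomial.coeff_map, isUnit_iff_ne_zero, isNilpotent_iff_eq_zero] at hv ⊢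
    refine ⟨fun h0 => hv.1 (by rw [h0, map_zero]), fun i hi => hinj ?_⟩
    rw [hv.2 i hi, map_zero]
  have hirr0 : Irreducible F₀ := by
    refine ⟨fun h => hirr.not_isUnit (h.map _), fun a b hab => ?_⟩
    rcases hirr.isUnit_or_isUnit (a := MvPolynomial.map (algebraMap A Ω) a)
      (b := MvPolynomial.map (algebraMap A Ω) b) (by rw [hab, map_mul]) with h | h
    · exact Or.inl (hunit _ h)
    · exact Or.inr (hunit _ h)
  by_contra hdvd
  have hdvd0 : ¬ F₀ ∣ u₀ := by
    rintro ⟨c, rfl⟩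
    exact hdvd ⟨MvPolynomial.map (algebraMap A Ω) c, map_mul _ _ _⟩
  -- the kernel of evaluation
  let φ : MvPolynomial (Fin 2) A →+* Ω := (MvPolynomial.eval Q).comp
    (MvPolynomial.map (algebraMap A Ω))
  have hprime : (RingHom.ker φ).IsPrime := RingHom.ker_isPrime φ
  have hFk : F₀ ∈ RingHom.ker φ := hQ
  have huk : u₀ ∈ RingHom.ker φ := huQ
  have hFp : (Ideal.span {F₀}).IsPrime :=
    (Ideal.span_singleton_prime hirr0.ne_zero).2 (gen_iff_prime hirr0)
  have hmax : (RingHom.ker φ).IsMaximal := by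
    by_contra hnm
    obtain ⟨m, hm, hle⟩ := Ideal.exists_le_maximal (RingHom.ker φ) hprime.ne_top
    have hlt : RingHom.ker φ < m := lt_of_le_of_ne hle (fun h => hnm (h ▸ hm))
    have hbp : (⊥ : Ideal (MvPolynomial (Fin 2) A)).IsPrime := Ideal.isPrime_bot
    have h01 : (⊥ : Ideal (MvPolynomial (Fin 2) A)) < Ideal.span {F₀} := by
      rw [bot_lt_iff_ne_bot, Ne, Ideal.span_singleton_eq_bot]
      exact hirr0.ne_zero
    have h12 : Ideal.span {F₀} < RingHom.ker φ := by
      refine lt_of_le_of_ne ?_ ?_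
      · rw [Ideal.span_singleton_le_iff_mem]
        exact hFk
      · intro h
        rw [← h, Ideal.mem_span_singleton] at huk
        exact hdvd0 huk
    let p0 : PrimeSpectrum (MvPolynomial (Fin 2) A) := ⟨⊥, hbp⟩
    let p1 : PrimeSpectrum (MvPolynomial (Fin 2) A) := ⟨_, hFp⟩
    let p2 : PrimeSpectrum (MvPolynomial (Fin 2) A) := ⟨_, hprime⟩
    let p3 : PrimeSpectrum (MvPolynomial (Fin 2) A) := ⟨m, hm.isPrime⟩
    let l : LTSeries (PrimeSpectrum (MvPolynomial (Fin 2) A)) :=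
      { length := 3
        toFun := ![p0, p1, p2, p3]
        step := by
          intro i
          fin_cases i
          · exact h01
          · exact h12
          · exact hlt }
    have h3 := Order.LTSeries.length_le_krullDim l
    have h4 : Order.krullDim (PrimeSpectrum (MvPolynomial (Fin 2) A)) = (2 : ℕ) := by
      have h5 := MvPolynomial.ringKrullDim_of_isNoetherianRing (R := A) (ι := Fin 2)
      rw [ringKrullDim_eq_zero_of_field, zero_add, Nat.card_eq_fintype_card, Fintype.card_fin] at h5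
      exact h5
    rw [h4] at h3
    have h6 : (3 : ℕ) ≤ 2 := by exact_mod_cast h3
    omega
  obtain ⟨R, hR⟩ := MvPolynomial.isMaximal_iff_eq_vanishingIdeal_singleton.1 hmax
  apply hQA
  intro i
  have h7 : MvPolynomial.X i - MvPolynomial.C (R i) ∈ RingHom.ker φ := by
    rw [hR, MvPolynomial.mem_vanishingIdeal_singleton_iff]
    simp
  have h8 : φ (MvPolynomial.X i - MvPolynomial.C (R i)) = 0 := h7
  have h9 : Q i - (algebraMap A Ω) (R i) = 0 := by
    rw [← h8]
    show _ = MvPolynomial.eval Q (MvPolynomial.map (algebraMap A Ω) _)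
    simp
  rw [sub_eq_zero] at h9
  rw [h9]
  exact (R i).2

end

end Pool.Agent.TBR

end

section


namespace Pool.Agent.TBR

open Pool.Agent.TQU

universe u

section

variable {k Ω : Type u} [Field k] [Field Ω] [Algebra k Ω]

private theorem ext_aut_cf (A : IntermediateField k Ω) (u : MvPolynomial (Fin 2) Ω) :
    Cf (A : Set Ω) u ↔ u ∈ (MvPolynomial.map (algebraMap A Ω) :
      MvPolynomial (Fin 2) A →+* MvPolynomial (Fin 2) Ω).range := by
  rw [RingHom.mem_range]
  constructor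
  · intro h
    have h1 : u ∈ Set.range (MvPolynomial.map (σ := Fin 2) (algebraMap A Ω)) := by
      rw [MvPolynomial.mem_range_map_iff_coeffs_subset]
      intro x hx
      rw [Finset.mem_coe, MvPolynomial.mem_coeffs_iff] at hx
      obtain ⟨m, -, rfl⟩ := hx
      exact ⟨⟨_, h m⟩, rfl⟩
    exact h1
  · rintro ⟨v, rfl⟩ m
    rw [MvPolynomial.coeff_map]
    exact (MvPolynomial.coeff m v).2

private theorem ext_aut_map (A : IntermediateField k Ω) (σ : Ω ≃ₐ[k] Ω)
    (hσ : ∀ x ∈ A, σ x ∈ A) {u : MvPolynomial (Fin 2) Ω} (hu : Cf (A : Set Ω) u) :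
    Cf (A : Set Ω) (MvPolynomial.map (σ : Ω →+* Ω) u) := by
  intro m
  rw [MvPolynomial.coeff_map]
  exact hσ _ (hu m)

private theorem ext_aut_hom (A : IntermediateField k Ω) (σ : Ω ≃ₐ[k] Ω)
    (hσ : ∀ x ∈ A, σ x ∈ A) (P Q : Fin 2 → Ω)
    (h : ∀ u : MvPolynomial (Fin 2) Ω, Cf (A : Set Ω) u →
      (MvPolynomial.eval P u = 0 ↔
        MvPolynomial.eval Q (MvPolynomial.map (σ : Ω →+* Ω) u) = 0)) :
    ∃ f : AA A (Set.range P) →+* AA A (Set.range Q), ∀ (x : AA A (Set.range P))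
      (u w : MvPolynomial (Fin 2) Ω), Cf (A : Set Ω) u → Cf (A : Set Ω) w →
      MvPolynomial.eval P w ≠ 0 → (x : Ω) * MvPolynomial.eval P w = MvPolynomial.eval P u →
      (f x : Ω) * MvPolynomial.eval Q (MvPolynomial.map (σ : Ω →+* Ω) w) =
        MvPolynomial.eval Q (MvPolynomial.map (σ : Ω →+* Ω) u) := by
  have hch : ∀ x : AA A (Set.range P), ∃ u w : MvPolynomial (Fin 2) Ω, Cf (A : Set Ω) u ∧
      Cf (A : Set Ω) w ∧ MvPolynomial.eval P w ≠ 0 ∧
      (x : Ω) * MvPolynomial.eval P w = MvPolynomial.eval P u := fun x => (mem_aa A P x).1 x.2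
  choose u w hu hw hw0 hxw using hch
  have hne : ∀ v : MvPolynomial (Fin 2) Ω, Cf (A : Set Ω) v → MvPolynomial.eval P v ≠ 0 →
      MvPolynomial.eval Q (MvPolynomial.map (σ : Ω →+* Ω) v) ≠ 0 := fun v hv h0 h1 =>
    h0 ((h v hv).2 h1)
  obtain ⟨F, hF⟩ : ∃ F : AA A (Set.range P) → Ω, ∀ x, F x =
      MvPolynomial.eval Q (MvPolynomial.map (σ : Ω →+* Ω) (u x)) /
        MvPolynomial.eval Q (MvPolynomial.map (σ : Ω →+* Ω) (w x)) := ⟨_, fun _ => rfl⟩
  have cfmul : ∀ {a b : MvPolynomial (Fin 2) Ω}, Cf (A : Set Ω) a → Cf (A : Set Ω) b →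
      Cf (A : Set Ω) (a * b) := fun {a b} ha hb => by
    rw [ext_aut_cf] at ha hb ⊢
    exact mul_mem ha hb
  have cfadd : ∀ {a b : MvPolynomial (Fin 2) Ω}, Cf (A : Set Ω) a → Cf (A : Set Ω) b →
      Cf (A : Set Ω) (a + b) := fun {a b} ha hb => by
    rw [ext_aut_cf] at ha hb ⊢
    exact add_mem ha hb
  have cfsub : ∀ {a b : MvPolynomial (Fin 2) Ω}, Cf (A : Set Ω) a → Cf (A : Set Ω) b →
      Cf (A : Set Ω) (a - b) := fun {a b} ha hb => by
    rw [ext_aut_cf] at ha hb ⊢
    exact sub_mem ha hb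
  have cfone : Cf (A : Set Ω) (1 : MvPolynomial (Fin 2) Ω) := by
    rw [ext_aut_cf]; exact one_mem _
  have cfzero : Cf (A : Set Ω) (0 : MvPolynomial (Fin 2) Ω) := by
    rw [ext_aut_cf]; exact zero_mem _
  have key : ∀ (x : AA A (Set.range P)) (a b : MvPolynomial (Fin 2) Ω), Cf (A : Set Ω) a →
      Cf (A : Set Ω) b → MvPolynomial.eval P b ≠ 0 →
      (x : Ω) * MvPolynomial.eval P b = MvPolynomial.eval P a →
      F x * MvPolynomial.eval Q (MvPolynomial.map (σ : Ω →+* Ω) b) =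
        MvPolynomial.eval Q (MvPolynomial.map (σ : Ω →+* Ω) a) := by
    intro x a b ha hb hb0 hxb
    have h1 : MvPolynomial.eval P (u x * b - a * w x) = 0 := by
      rw [map_sub, map_mul, map_mul, ← hxw x, ← hxb]
      ring
    have h2 := (h _ (cfsub (cfmul (hu x) hb) (cfmul ha (hw x)))).1 h1
    simp only [map_sub, map_mul] at h2
    have h3 := hne _ (hw x) (hw0 x)
    rw [hF, div_mul_eq_mul_div, div_eq_iff h3]
    exact sub_eq_zero.1 h2
  have hmem : ∀ x, F x ∈ AA A (Set.range Q) := fun x => by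
    rw [mem_aa]
    exact ⟨_, _, ext_aut_map A σ hσ (hu x), ext_aut_map A σ hσ (hw x), hne _ (hw x) (hw0 x),
      key x _ _ (hu x) (hw x) (hw0 x) (hxw x)⟩
  have h1 : F 1 = 1 := by
    have := key 1 1 1 cfone cfone (by simp) (by simp)
    simpa using this
  have h0 : F 0 = 0 := by
    have := key 0 0 1 cfzero cfone (by simp) (by simp)
    simpa using this
  have hmul : ∀ x y, F (x * y) = F x * F y := by
    intro x y
    have e1 := key (x * y) (u x * u y) (w x * w y) (cfmul (hu x) (hu y)) (cfmul (hw x) (hw y))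
      (by rw [map_mul]; exact mul_ne_zero (hw0 x) (hw0 y)) (by
        rw [map_mul, map_mul, ← hxw x, ← hxw y]
        show (x : Ω) * (y : Ω) * _ = _
        ring)
    have e2 := key x _ _ (hu x) (hw x) (hw0 x) (hxw x)
    have e3 := key y _ _ (hu y) (hw y) (hw0 y) (hxw y)
    simp only [map_mul] at e1
    rw [← e2, ← e3] at e1
    have e4 := hne _ (hw x) (hw0 x)
    have e5 := hne _ (hw y) (hw0 y)
    refine mul_right_cancel₀ (mul_ne_zero e4 e5) ?_
    rw [e1]
    ring
  have hadd : ∀ x y, F (x + y) = F x + F y := by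
    intro x y
    have e1 := key (x + y) (u x * w y + u y * w x) (w x * w y)
      (cfadd (cfmul (hu x) (hw y)) (cfmul (hu y) (hw x))) (cfmul (hw x) (hw y))
      (by rw [map_mul]; exact mul_ne_zero (hw0 x) (hw0 y)) (by
        rw [map_mul, map_add, map_mul, map_mul, ← hxw x, ← hxw y]
        show ((x : Ω) + (y : Ω)) * _ = _
        ring)
    have e2 := key x _ _ (hu x) (hw x) (hw0 x) (hxw x)
    have e3 := key y _ _ (hu y) (hw y) (hw0 y) (hxw y)
    simp only [map_mul, map_add] at e1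
    rw [← e2, ← e3] at e1
    have e4 := hne _ (hw x) (hw0 x)
    have e5 := hne _ (hw y) (hw0 y)
    refine mul_right_cancel₀ (mul_ne_zero e4 e5) ?_
    rw [e1]
    ring
  exact ⟨{ toFun := fun x => ⟨F x, hmem x⟩
           map_one' := Subtype.ext h1
           map_mul' := fun x y => Subtype.ext (hmul x y)
           map_zero' := Subtype.ext h0
           map_add' := fun x y => Subtype.ext (hadd x y) }, key⟩

end

section

variable {k Ω : Type u} [Field k] [Field Ω] [Algebra k Ω] [IsAlgClosed Ω]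

private theorem ext_aut_tau {E₁ E₂ L : Type u} [Field E₁] [Field E₂] [Field L] [IsAlgClosed L]
    [Algebra E₁ L] [Algebra E₂ L] (h1 : ∀ x : L, IsAlgebraic E₁ x)
    (h2 : ∀ x : L, IsAlgebraic E₂ x) (e : E₁ ≃+* E₂) :
    ∃ τ : L ≃+* L, ∀ x : E₁, τ (algebraMap E₁ L x) = algebraMap E₂ L (e x) := by
  have i1 : IsAlgClosure E₁ L := ⟨inferInstance, ⟨h1⟩⟩
  have i2 : IsAlgClosure E₂ L := ⟨inferInstance, ⟨h2⟩⟩
  exact ⟨IsAlgClosure.equivOfEquiv L L e, fun x =>
    IsAlgClosure.equivOfEquiv_algebraMap L L e x⟩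

theorem ext_aut (A : IntermediateField k Ω) (σ : Ω ≃ₐ[k] Ω) (hσ : ∀ x : Ω, σ x ∈ A ↔ x ∈ A)
    (P Q : Fin 2 → Ω) (hP : ∀ x : Ω, IsAlgebraic (AA A (Set.range P)) x)
    (hQ : ∀ x : Ω, IsAlgebraic (AA A (Set.range Q)) x)
    (h : ∀ u : MvPolynomial (Fin 2) Ω, Cf (A : Set Ω) u →
      (MvPolynomial.eval P u = 0 ↔
        MvPolynomial.eval Q (MvPolynomial.map (σ : Ω →+* Ω) u) = 0)) :
    ∃ τ : Ω ≃ₐ[k] Ω, (∀ x ∈ A, τ x = σ x) ∧ ∀ i, τ (P i) = Q i := by
  have hσ1 : ∀ x ∈ A, σ x ∈ A := fun x hx => (hσ x).2 hx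
  have hσ2 : ∀ x ∈ A, σ.symm x ∈ A := fun x hx => (hσ _).1 (by
    rw [AlgEquiv.apply_symm_apply]; exact hx)
  have hmm : ∀ u : MvPolynomial (Fin 2) Ω, MvPolynomial.map (σ.symm : Ω →+* Ω)
      (MvPolynomial.map (σ : Ω →+* Ω) u) = u := by
    intro u
    ext m
    rw [MvPolynomial.coeff_map, MvPolynomial.coeff_map]
    exact σ.symm_apply_apply _
  have hmm' : ∀ u : MvPolynomial (Fin 2) Ω, MvPolynomial.map (σ : Ω →+* Ω)
      (MvPolynomial.map (σ.symm : Ω →+* Ω) u) = u := by
    intro u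
    ext m
    rw [MvPolynomial.coeff_map, MvPolynomial.coeff_map]
    exact σ.apply_symm_apply _
  have h' : ∀ u : MvPolynomial (Fin 2) Ω, Cf (A : Set Ω) u →
      (MvPolynomial.eval Q u = 0 ↔
        MvPolynomial.eval P (MvPolynomial.map (σ.symm : Ω →+* Ω) u) = 0) := by
    intro u hu
    rw [h _ (ext_aut_map A σ.symm hσ2 hu), hmm']
  obtain ⟨f, hf⟩ := ext_aut_hom A σ hσ1 P Q h
  obtain ⟨g, hg⟩ := ext_aut_hom A σ.symm hσ2 Q P h'
  have hgf : ∀ x, g (f x) = x := by
    intro x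
    obtain ⟨u, w, hu, hw, hw0, hxw⟩ := (mem_aa A P x).1 x.2
    have e1 := hf x u w hu hw hw0 hxw
    have e2 := hg (f x) _ _ (ext_aut_map A σ hσ1 hu) (ext_aut_map A σ hσ1 hw)
      (fun h0 => hw0 ((h w hw).2 h0)) e1
    rw [hmm, hmm, ← hxw] at e2
    exact Subtype.ext (mul_right_cancel₀ hw0 e2)
  have hfg : ∀ x, f (g x) = x := by
    intro x
    obtain ⟨u, w, hu, hw, hw0, hxw⟩ := (mem_aa A Q x).1 x.2
    have e1 := hg x u w hu hw hw0 hxw
    have e2 := hf (g x) _ _ (ext_aut_map A σ.symm hσ2 hu) (ext_aut_map A σ.symm hσ2 hw)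
      (fun h0 => hw0 ((h' w hw).2 h0)) e1
    rw [hmm', hmm', ← hxw] at e2
    exact Subtype.ext (mul_right_cancel₀ hw0 e2)
  let e : AA A (Set.range P) ≃+* AA A (Set.range Q) :=
    { f with invFun := g, left_inv := hgf, right_inv := hfg }
  obtain ⟨τ, hτ⟩ := ext_aut_tau hP hQ e
  have hτ0 : ∀ x : AA A (Set.range P), τ (x : Ω) = (f x : Ω) := hτ
  have hA : ∀ x ∈ A, τ x = σ x := by
    intro x hx
    have hxP : x ∈ AA A (Set.range P) := (le_sup_left : A ≤ AA A (Set.range P)) hx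
    have e1 := hf ⟨x, hxP⟩ (MvPolynomial.C x) 1 (by
      rw [ext_aut_cf]
      exact ⟨MvPolynomial.C ⟨x, hx⟩, by rw [MvPolynomial.map_C]; rfl⟩) (by
      rw [ext_aut_cf]; exact one_mem _) (by simp) (by simp)
    have e2 := hτ0 ⟨x, hxP⟩
    rw [map_one, map_one, mul_one, MvPolynomial.map_C, MvPolynomial.eval_C] at e1
    rw [e2, e1]
    rfl
  refine ⟨AlgEquiv.ofRingEquiv (f := τ) (fun r => ?_),
    fun x hx => hA x hx, fun i => ?_⟩
  · rw [hA _ (A.algebraMap_mem r), AlgEquiv.commutes]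
  · have hPi : P i ∈ AA A (Set.range P) := (le_sup_right : _ ≤ AA A (Set.range P))
      (IntermediateField.subset_adjoin _ _ ⟨i, rfl⟩)
    have e1 := hf ⟨P i, hPi⟩ (MvPolynomial.X i) 1 (by
      rw [ext_aut_cf]
      exact ⟨MvPolynomial.X i, MvPolynomial.map_X _ _⟩) (by
      rw [ext_aut_cf]; exact one_mem _) (by simp) (by simp)
    rw [map_one, map_one, mul_one, MvPolynomial.map_X, MvPolynomial.eval_X] at e1
    exact (hτ0 ⟨P i, hPi⟩).trans e1

end

end Pool.Agent.TBR

end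

section


namespace Pool.Agent.TBR

open Pool.Agent.TQU

universe u

section

variable {k Ω : Type u} [Field k] [Field Ω] [Algebra k Ω] [IsAlgClosed Ω]

omit [IsAlgClosed Ω] in
private theorem fac_A_ne (F : MvPolynomial (Fin 2) Ω) [IsDedekindDomain (CR F)] : F ≠ 0 := by
  intro h0
  let φ0 : MvPolynomial (Fin 2) Ω →+* Polynomial Ω :=
    (MvPolynomial.aeval (fun i : Fin 2 => if i = 0 then (0 : Polynomial Ω) else Polynomial.X)
      : MvPolynomial (Fin 2) Ω →ₐ[Ω] Polynomial Ω)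
  have hφ0 : ∀ a ∈ Ideal.span {F}, φ0 a = 0 := by
    intro a ha
    rw [h0, Ideal.mem_span_singleton] at ha
    rw [zero_dvd_iff.1 ha, map_zero]
  let φ : CR F →+* Polynomial Ω := Ideal.Quotient.lift (Ideal.span {F}) φ0 hφ0
  have h1 : φ (Ideal.Quotient.mk (Ideal.span {F}) (MvPolynomial.X 0)) = 0 := by
    change φ0 (MvPolynomial.X 0) = 0
    simp [φ0]
  have h2 : φ (Ideal.Quotient.mk (Ideal.span {F}) (MvPolynomial.X 1)) = Polynomial.X := by
    change φ0 (MvPolynomial.X 1) = Polynomial.X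
    simp [φ0]
  have h3 : Ideal.Quotient.mk (Ideal.span {F}) (MvPolynomial.X 0) ≠ 0 := by
    rw [Ne, Ideal.Quotient.eq_zero_iff_mem, h0, Ideal.mem_span_singleton, zero_dvd_iff]
    exact MvPolynomial.X_ne_zero 0
  have hprime : (RingHom.ker φ).IsPrime := RingHom.ker_isPrime φ
  have hne : RingHom.ker φ ≠ ⊥ := by
    intro h4
    exact h3 ((Ideal.mem_bot).1 (h4 ▸ (RingHom.mem_ker).2 h1))
  have hmax : (RingHom.ker φ).IsMaximal := hprime.isMaximal hne
  have hle : RingHom.ker φ ≤ (Ideal.span {(Polynomial.X : Polynomial Ω)}).comap φ := by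
    intro a ha
    rw [Ideal.mem_comap, (RingHom.mem_ker).1 ha]
    exact Ideal.zero_mem _
  have hnt : (Ideal.span {(Polynomial.X : Polynomial Ω)}).comap φ ≠ ⊤ := by
    intro h4
    have h5 : (1 : CR F) ∈ (Ideal.span {(Polynomial.X : Polynomial Ω)}).comap φ := by
      rw [h4]
      exact Submodule.mem_top
    rw [Ideal.mem_comap, map_one, Ideal.mem_span_singleton] at h5
    exact Polynomial.not_isUnit_X (isUnit_of_dvd_one h5)
  have heq := hmax.eq_of_le hnt hle
  have h6 : Ideal.Quotient.mk (Ideal.span {F}) (MvPolynomial.X 1) ∈ RingHom.ker φ := by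
    rw [heq, Ideal.mem_comap, h2]
    exact Ideal.subset_span rfl
  rw [RingHom.mem_ker, h2] at h6
  exact Polynomial.X_ne_zero h6

omit [IsAlgClosed Ω] in
private theorem fac_A_irr (F : MvPolynomial (Fin 2) Ω) [IsDedekindDomain (CR F)] :
    Irreducible F := by
  have h1 : (Ideal.span {F}).IsPrime := by
    rw [← Ideal.Quotient.isDomain_iff_prime]
    infer_instance
  exact ((Ideal.span_singleton_prime (fac_A_ne F)).1 h1).irreducible

theorem fac_A (A : IntermediateField k Ω) [IsAlgClosed A] (F : MvPolynomial (Fin 2) Ω)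
    (hF : Cf (A : Set Ω) F) [IsDedekindDomain (CR F)] (u : MvPolynomial (Fin 2) Ω)
    (hu : Cf (A : Set Ω) u) (hFu : ¬ F ∣ u) :
    ∃ M : Multiset (Fin 2 → Ω),
      Ideal.span {Ideal.Quotient.mk (Ideal.span {F}) u} = (M.map (ptIdeal F)).prod ∧
      ∀ R ∈ M, (∀ i, R i ∈ A) ∧ MvPolynomial.eval R F = 0 := by
  obtain ⟨M, hM, hprod⟩ := factor_pts F u hFu
  refine ⟨M, hprod, fun R hR => ⟨?_, (hM R hR).1⟩⟩
  by_contra hRA
  exact hFu ((gen_iff A F hF (fac_A_irr F) R (hM R hR).1 hRA u hu).1 (hM R hR).2)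

end

end Pool.Agent.TBR

end

section


namespace Pool.Agent.TBR

open Pool.Agent.TQU

universe u

section

variable {k Ω : Type u} [Field k] [Field Ω] [Algebra k Ω] [IsAlgClosed Ω]

theorem mult_uniq (F : MvPolynomial (Fin 2) Ω) [IsDedekindDomain (CR F)]
    (M N : Multiset (Fin 2 → Ω)) (hM : ∀ R ∈ M, MvPolynomial.eval R F = 0)
    (hN : ∀ R ∈ N, MvPolynomial.eval R F = 0)
    (h : (M.map (ptIdeal F)).prod = (N.map (ptIdeal F)).prod) : M = N := by
  induction M using Multiset.induction_on generalizing N with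
  | empty =>
    rw [Multiset.map_zero, Multiset.prod_zero] at h
    rcases Multiset.empty_or_exists_mem N with h0 | ⟨Q, hQ⟩
    · exact h0.symm
    · exfalso
      obtain ⟨N', rfl⟩ := Multiset.exists_cons_of_mem hQ
      rw [Multiset.map_cons, Multiset.prod_cons] at h
      have h1 : (1 : Ideal (CR F)) ≤ ptIdeal F Q := by
        rw [h]
        exact Ideal.mul_le_left
      rw [Ideal.one_eq_top, top_le_iff] at h1
      exact (pt_max F Q (hN Q hQ)).ne_top h1
  | cons P M' ih =>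
    have hP := hM P (Multiset.mem_cons_self P M')
    have h1 : (ptIdeal F P) ^ 1 ∣ (N.map (ptIdeal F)).prod := by
      rw [← h, Multiset.map_cons, Multiset.prod_cons, pow_one]
      exact dvd_mul_right _ _
    obtain ⟨N', rfl⟩ := extract F P hP 1 N hN h1
    rw [Multiset.replicate_one, Multiset.singleton_add] at h hN ⊢
    rw [Multiset.map_cons, Multiset.prod_cons, Multiset.map_cons, Multiset.prod_cons] at h
    rw [ih N' (fun R hR => hM R (Multiset.mem_cons_of_mem hR))
      (fun R hR => hN R (Multiset.mem_cons_of_mem hR)) (mul_left_cancel₀ (pt_ne_bot F P hP) h)]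

end

end Pool.Agent.TBR

end

section


namespace Pool.Agent.TBR

open Pool.Agent.TQU

universe u

section

variable {k Ω : Type u} [Field k] [Field Ω] [Algebra k Ω] [IsAlgClosed Ω]

omit [IsAlgClosed Ω] in
theorem loc_unif_Cf (A : IntermediateField k Ω) (f : MvPolynomial (Fin 2) Ω) :
    Cf (A : Set Ω) f ↔ ∃ f' : MvPolynomial (Fin 2) A, MvPolynomial.map (algebraMap A Ω) f' = f := by
  constructor
  · intro hf
    refine ⟨∑ m ∈ f.support, MvPolynomial.monomial m ⟨MvPolynomial.coeff m f, hf m⟩, ?_⟩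
    rw [map_sum]
    conv_rhs => rw [MvPolynomial.as_sum f]
    refine Finset.sum_congr rfl fun m _ => ?_
    rw [MvPolynomial.map_monomial]
    rfl
  · rintro ⟨f', rfl⟩ m
    rw [MvPolynomial.coeff_map]
    exact (MvPolynomial.coeff m f').2

omit [IsAlgClosed Ω] in
theorem loc_unif_taylor (A : IntermediateField k Ω) (f : MvPolynomial (Fin 2) Ω)
    (hf : Cf (A : Set Ω) f) (R : Fin 2 → Ω) (hR : ∀ i, R i ∈ A) (i j : Fin 2) (hij : i ≠ j) :
    ∃ f0 f1 : MvPolynomial (Fin 2) Ω, Cf (A : Set Ω) f0 ∧ Cf (A : Set Ω) f1 ∧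
      f = MvPolynomial.C (MvPolynomial.eval R f) +
        (MvPolynomial.X i - MvPolynomial.C (R i)) * f0 +
        (MvPolynomial.X j - MvPolynomial.C (R j)) * f1 := by
  obtain ⟨f', hf'⟩ := (loc_unif_Cf A f).1 hf
  obtain ⟨R', hR'⟩ : ∃ R' : Fin 2 → A, ∀ i, algebraMap A Ω (R' i) = R i :=
    ⟨fun i => ⟨R i, hR i⟩, fun i => rfl⟩
  have h1 := RF_sub_mem R' f'
  rw [Ideal.mem_span_range_iff_exists_fun] at h1
  obtain ⟨c, hc⟩ := h1
  have h2 : f' = MvPolynomial.C (MvPolynomial.eval R' f') +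
      (MvPolynomial.X i - MvPolynomial.C (R' i)) * c i +
      (MvPolynomial.X j - MvPolynomial.C (R' j)) * c j := by
    have h3 : ∑ l : Fin 2, c l * (MvPolynomial.X l - MvPolynomial.C (R' l)) =
        c i * (MvPolynomial.X i - MvPolynomial.C (R' i)) +
        c j * (MvPolynomial.X j - MvPolynomial.C (R' j)) := by
      rw [Fin.sum_univ_two]
      fin_cases i <;> fin_cases j
      · exact absurd rfl hij
      · rfl
      · exact add_comm _ _
      · exact absurd rfl hij
    rw [h3] at hc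
    linear_combination -hc
  have h4 : f = MvPolynomial.C (algebraMap A Ω (MvPolynomial.eval R' f')) +
      (MvPolynomial.X i - MvPolynomial.C (R i)) * MvPolynomial.map (algebraMap A Ω) (c i) +
      (MvPolynomial.X j - MvPolynomial.C (R j)) * MvPolynomial.map (algebraMap A Ω) (c j) := by
    have h5 := congrArg (MvPolynomial.map (algebraMap A Ω)) h2
    rw [hf', map_add, map_add, map_mul, map_mul, map_sub, map_sub, MvPolynomial.map_C,
      MvPolynomial.map_X, MvPolynomial.map_X, MvPolynomial.map_C, MvPolynomial.map_C, hR', hR'] at h5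
    exact h5
  have h6 : MvPolynomial.eval R f = algebraMap A Ω (MvPolynomial.eval R' f') := by
    have h7 := congrArg (MvPolynomial.eval R) h4
    rw [map_add, map_add, map_mul, map_mul, map_sub, map_sub, MvPolynomial.eval_C,
      MvPolynomial.eval_X, MvPolynomial.eval_X, MvPolynomial.eval_C, MvPolynomial.eval_C, sub_self,
      sub_self, zero_mul, zero_mul, add_zero, add_zero] at h7
    exact h7
  refine ⟨_, _, (loc_unif_Cf A _).2 ⟨c i, rfl⟩, (loc_unif_Cf A _).2 ⟨c j, rfl⟩, ?_⟩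
  rw [h6]
  exact h4

omit [IsAlgClosed Ω] in
theorem loc_unif_mul {A : IntermediateField k Ω} {f g : MvPolynomial (Fin 2) Ω}
    (hf : Cf (A : Set Ω) f) (hg : Cf (A : Set Ω) g) : Cf (A : Set Ω) (f * g) := by
  obtain ⟨f', rfl⟩ := (loc_unif_Cf A f).1 hf
  obtain ⟨g', rfl⟩ := (loc_unif_Cf A g).1 hg
  exact (loc_unif_Cf A _).2 ⟨f' * g', map_mul _ _ _⟩

omit [IsAlgClosed Ω] in
theorem loc_unif_sub {A : IntermediateField k Ω} {f g : MvPolynomial (Fin 2) Ω}
    (hf : Cf (A : Set Ω) f) (hg : Cf (A : Set Ω) g) : Cf (A : Set Ω) (f - g) := by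
  obtain ⟨f', rfl⟩ := (loc_unif_Cf A f).1 hf
  obtain ⟨g', rfl⟩ := (loc_unif_Cf A g).1 hg
  exact (loc_unif_Cf A _).2 ⟨f' - g', map_sub _ _ _⟩

omit [IsAlgClosed Ω] in
theorem loc_unif_pow {A : IntermediateField k Ω} {f : MvPolynomial (Fin 2) Ω}
    (hf : Cf (A : Set Ω) f) (n : ℕ) : Cf (A : Set Ω) (f ^ n) := by
  obtain ⟨f', rfl⟩ := (loc_unif_Cf A f).1 hf
  exact (loc_unif_Cf A _).2 ⟨f' ^ n, map_pow _ _ _⟩

open Classical in
theorem loc_unif_aux (A : IntermediateField k Ω) (F : MvPolynomial (Fin 2) Ω)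
    (hF : Cf (A : Set Ω) F) [IsDedekindDomain (CR F)] (R : Fin 2 → Ω) (hR : ∀ i, R i ∈ A)
    (hRF : MvPolynomial.eval R F = 0) (i j : Fin 2) (hij : i ≠ j)
    (hd : MvPolynomial.eval R (MvPolynomial.pderiv j F) ≠ 0) :
    ∃ π : MvPolynomial (Fin 2) Ω, Cf (A : Set Ω) π ∧ MvPolynomial.eval R π = 0 ∧ ¬ F ∣ π ∧
      ∀ u : MvPolynomial (Fin 2) Ω, Cf (A : Set Ω) u → ¬ F ∣ u → ∀ M : Multiset (Fin 2 → Ω),
        Ideal.span {Ideal.Quotient.mk (Ideal.span {F}) u} = (M.map (ptIdeal F)).prod →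
        (∀ S ∈ M, MvPolynomial.eval S F = 0) →
        ∃ s t : MvPolynomial (Fin 2) Ω, Cf (A : Set Ω) s ∧ Cf (A : Set Ω) t ∧
          MvPolynomial.eval R s ≠ 0 ∧ MvPolynomial.eval R t ≠ 0 ∧
          F ∣ s * u - π ^ M.count R * t := by
  obtain ⟨α, β, hα, hβ, hαβ⟩ := loc_unif_taylor A F hF R hR i j hij
  rw [hRF, MvPolynomial.C_0, zero_add] at hαβ
  obtain ⟨π, hπ⟩ : ∃ π : MvPolynomial (Fin 2) Ω, π = MvPolynomial.X i - MvPolynomial.C (R i) :=
    ⟨_, rfl⟩
  obtain ⟨ξ, hξ⟩ : ∃ ξ : MvPolynomial (Fin 2) Ω, ξ = MvPolynomial.X j - MvPolynomial.C (R j) :=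
    ⟨_, rfl⟩
  rw [← hπ, ← hξ] at hαβ
  have hπR : MvPolynomial.eval R π = 0 := by
    rw [hπ, map_sub, MvPolynomial.eval_X, MvPolynomial.eval_C, sub_self]
  have hξR : MvPolynomial.eval R ξ = 0 := by
    rw [hξ, map_sub, MvPolynomial.eval_X, MvPolynomial.eval_C, sub_self]
  have dπj : MvPolynomial.pderiv j π = 0 := by
    rw [hπ, map_sub, MvPolynomial.pderiv_C, MvPolynomial.pderiv_X_of_ne hij, sub_zero]
  have dπi : MvPolynomial.pderiv i π = 1 := by
    rw [hπ, map_sub, MvPolynomial.pderiv_C, MvPolynomial.pderiv_X_self, sub_zero]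
  have dξj : MvPolynomial.pderiv j ξ = 1 := by
    rw [hξ, map_sub, MvPolynomial.pderiv_C, MvPolynomial.pderiv_X_self, sub_zero]
  have hβR : MvPolynomial.eval R β ≠ 0 := by
    intro h0
    apply hd
    rw [hαβ, map_add, MvPolynomial.pderiv_mul, MvPolynomial.pderiv_mul, dπj, dξj, map_add, map_add,
      map_add, map_mul, map_mul, map_mul, map_mul, hπR, hξR, h0, map_zero]
    ring
  have hπA : Cf (A : Set Ω) π := by
    refine (loc_unif_Cf A π).2 ⟨MvPolynomial.X i - MvPolynomial.C ⟨R i, hR i⟩, ?_⟩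
    rw [map_sub, MvPolynomial.map_X, MvPolynomial.map_C, hπ]
    rfl
  have hFπ : ¬ F ∣ π := by
    rintro ⟨g, hg⟩
    have h1 : MvPolynomial.eval R (MvPolynomial.pderiv i π) =
        MvPolynomial.eval R (MvPolynomial.pderiv i (F * g)) := by rw [← hg]
    have h2 : MvPolynomial.eval R (MvPolynomial.pderiv j π) =
        MvPolynomial.eval R (MvPolynomial.pderiv j (F * g)) := by rw [← hg]
    rw [dπi, MvPolynomial.pderiv_mul, map_add, map_mul, map_mul, hRF, zero_mul, add_zero,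
      map_one] at h1
    rw [dπj, MvPolynomial.pderiv_mul, map_add, map_mul, map_mul, hRF, zero_mul, add_zero,
      map_zero] at h2
    rcases mul_eq_zero.1 h2.symm with h3 | h3
    · exact hd h3
    · rw [h3, mul_zero] at h1
      exact one_ne_zero h1
  refine ⟨π, hπA, hπR, hFπ, ?_⟩
  intro u hu hFu M hM hMF
  -- the maximal ideal
  have hmax := pt_max F R hRF
  have hne := pt_ne_bot F R hRF
  obtain ⟨m, hm⟩ : ∃ m, m = ptIdeal F R := ⟨_, rfl⟩
  rw [← hm] at hmax hne
  have hp : Prime m := Ideal.prime_of_isPrime hne hmax.isPrime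
  obtain ⟨mk, hmk⟩ : ∃ mk : MvPolynomial (Fin 2) Ω →+* CR F,
    mk = Ideal.Quotient.mk (Ideal.span {F}) := ⟨_, rfl⟩
  rw [← hmk] at hM
  have hmem : ∀ g : MvPolynomial (Fin 2) Ω, mk g ∈ m ↔ MvPolynomial.eval R g = 0 := by
    intro g
    rw [hmk, hm]
    exact mem_pt F R hRF g
  have hmk0 : ∀ g g' : MvPolynomial (Fin 2) Ω, F ∣ g - g' → mk g = mk g' := by
    intro g g' h
    rw [hmk, Ideal.Quotient.eq, Ideal.mem_span_singleton]
    exact h
  have hmk1 : mk F = 0 := by
    rw [hmk, Ideal.Quotient.eq_zero_iff_mem]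
    exact Ideal.mem_span_singleton_self F
  have e0 : ∀ g : MvPolynomial (Fin 2) Ω, MvPolynomial.eval R g ≠ 0 →
      emultiplicity m (Ideal.span {mk g}) = 0 := by
    intro g hg
    rw [emultiplicity_eq_zero, Ideal.dvd_span_singleton, hmem]
    exact hg
  -- `π` is a uniformizer
  have hπ1 : m ∣ Ideal.span {mk π} := by
    rw [Ideal.dvd_span_singleton, hmem]
    exact hπR
  have hπ2 : ¬ m ^ 2 ∣ Ideal.span {mk π} := by
    intro h
    have h1 : m ^ 2 ∣ Ideal.span {mk β} * Ideal.span {mk ξ} := by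
      have h2 : mk β * mk ξ = - mk α * mk π := by
        have h3 := congrArg mk hαβ
        rw [hmk1, map_add, map_mul, map_mul] at h3
        linear_combination -h3
      rw [Ideal.span_singleton_mul_span_singleton, h2, ← Ideal.span_singleton_mul_span_singleton]
      obtain ⟨J, hJ⟩ := h
      rw [hJ]
      exact ⟨Ideal.span {-mk α} * J, by ring⟩
    have h2 : m ^ 2 ∣ Ideal.span {mk ξ} := by
      refine hp.pow_dvd_of_dvd_mul_left 2 ?_ h1
      rw [Ideal.dvd_span_singleton, hmem]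
      exact hβR
    refine RL_sq m hmax.isPrime hne ?_
    conv_lhs => rw [hm]
    unfold ptIdeal
    rw [Ideal.map_span, ← Set.range_comp, Ideal.span_le]
    rintro _ ⟨l, rfl⟩
    rw [SetLike.mem_coe, Function.comp_apply, ← hmk]
    have h4 : l = i ∨ l = j := by
      fin_cases i <;> fin_cases j <;> fin_cases l <;> simp at hij ⊢
    rcases h4 with h4 | h4
    · rw [h4, ← hπ]
      exact Ideal.dvd_span_singleton.1 h
    · rw [h4, ← hξ]
      exact Ideal.dvd_span_singleton.1 h2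
  have eπ : emultiplicity m (Ideal.span {mk π}) = 1 := by
    have h1 := (emultiplicity_eq_coe (a := m) (b := Ideal.span {mk π}) (n := 1)).2
      ⟨by rw [pow_one]; exact hπ1, hπ2⟩
    exact h1
  -- the multiplicity of `u`
  have eM : ∀ N : Multiset (Fin 2 → Ω), (∀ S ∈ N, MvPolynomial.eval S F = 0) →
      emultiplicity m (N.map (ptIdeal F)).prod = (N.count R : ℕ∞) := by
    intro N
    induction N using Multiset.induction_on with
    | empty =>
      intro _
      rw [Multiset.map_zero, Multiset.prod_zero, emultiplicity_of_one_right hp.not_isUnit,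
        Multiset.count_zero]
      rfl
    | cons S N ih =>
      intro hN
      rw [Multiset.map_cons, Multiset.prod_cons, emultiplicity_mul hp,
        ih fun S' hS' => hN S' (Multiset.mem_cons_of_mem hS')]
      have hSF := hN S (Multiset.mem_cons_self S N)
      by_cases hS : R = S
      · rw [← hS, Multiset.count_cons_self, ← hm]
        have h1 := emultiplicity_pow_self hp.ne_zero hp.not_isUnit 1
        rw [pow_one] at h1
        rw [h1]
        push_cast
        ring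
      · rw [Multiset.count_cons_of_ne hS]
        have h1 : emultiplicity m (ptIdeal F S) = 0 := by
          rw [emultiplicity_eq_zero]
          intro h2
          have h3 : ptIdeal F S ≤ m := Ideal.dvd_iff_le.1 h2
          have h4 : ptIdeal F S = m := (pt_max F S hSF).eq_of_le hmax.ne_top h3
          rw [hm] at h4
          exact hS (pt_inj F S R hSF hRF h4).symm
        rw [h1, zero_add]
  have eu : emultiplicity m (Ideal.span {mk u}) = (M.count R : ℕ∞) := by
    rw [hM]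
    exact eM M hMF
  -- the multiplicity of both sides of a congruence
  have key : ∀ (n : ℕ) (t : MvPolynomial (Fin 2) Ω), F ∣ β ^ n * u - π ^ n * t →
      (M.count R : ℕ∞) = n + emultiplicity m (Ideal.span {mk t}) := by
    intro n t h
    have h1 := hmk0 _ _ h
    rw [map_mul, map_mul, map_pow, map_pow] at h1
    have h2 : emultiplicity m (Ideal.span {mk β ^ n * mk u}) =
        emultiplicity m (Ideal.span {mk π ^ n * mk t}) := by rw [h1]
    rw [← Ideal.span_singleton_mul_span_singleton, ← Ideal.span_singleton_mul_span_singleton,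
      ← Ideal.span_singleton_pow, ← Ideal.span_singleton_pow, emultiplicity_mul hp,
      emultiplicity_mul hp, emultiplicity_pow hp, emultiplicity_pow hp, e0 β hβR, eπ, eu,
      mul_zero, zero_add, mul_one] at h2
    exact h2
  -- the iteration
  have iter : ∀ n : ℕ, (∃ n', ∃ t, Cf (A : Set Ω) t ∧ MvPolynomial.eval R t ≠ 0 ∧
      F ∣ β ^ n' * u - π ^ n' * t) ∨ (∃ t, Cf (A : Set Ω) t ∧ F ∣ β ^ n * u - π ^ n * t) := by
    intro n
    induction n with
    | zero =>
      refine Or.inr ⟨u, hu, ?_⟩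
      rw [pow_zero, pow_zero, sub_self]
      exact dvd_zero F
    | succ n ih =>
      rcases ih with h1 | ⟨t, ht, h1⟩
      · exact Or.inl h1
      · by_cases h2 : MvPolynomial.eval R t = 0
        · right
          obtain ⟨t0, t1, ht0, ht1, h3⟩ := loc_unif_taylor A t ht R hR i j hij
          rw [h2, MvPolynomial.C_0, zero_add, ← hπ, ← hξ] at h3
          refine ⟨β * t0 - α * t1, loc_unif_sub (loc_unif_mul hβ ht0) (loc_unif_mul hα ht1), ?_⟩
          have h4 : β ^ (n + 1) * u - π ^ (n + 1) * (β * t0 - α * t1) =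
              β * (β ^ n * u - π ^ n * t) + F * (π ^ n * t1) := by
            conv_rhs => rw [h3]
            conv_rhs => rw [hαβ]
            ring
          rw [h4]
          exact (h1.mul_left β).add (Dvd.intro _ rfl)
        · exact Or.inl ⟨n, t, ht, h2, h1⟩
  have hfirst : ∃ n', ∃ t, Cf (A : Set Ω) t ∧ MvPolynomial.eval R t ≠ 0 ∧
      F ∣ β ^ n' * u - π ^ n' * t := by
    rcases iter (M.count R + 1) with h1 | ⟨t, _, h1⟩
    · exact h1
    · exfalso
      have h2 := key _ _ h1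
      have h3 : ((M.count R + 1 : ℕ) : ℕ∞) ≤ (M.count R : ℕ∞) := by
        rw [h2]
        exact le_self_add
      have h4 : M.count R + 1 ≤ M.count R := by exact_mod_cast h3
      omega
  obtain ⟨n', t, ht, htR, h1⟩ := hfirst
  have h2 := key _ _ h1
  rw [e0 t htR, add_zero] at h2
  have h3 : M.count R = n' := by exact_mod_cast h2
  rw [← h3] at h1
  refine ⟨β ^ M.count R, t, loc_unif_pow hβ _, ht, ?_, htR, h1⟩
  rw [map_pow]
  exact pow_ne_zero _ hβR

open Classical in
theorem loc_unif (A : IntermediateField k Ω) (F : MvPolynomial (Fin 2) Ω)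
    (hF : Cf (A : Set Ω) F) [IsDedekindDomain (CR F)] (R : Fin 2 → Ω) (hR : ∀ i, R i ∈ A)
    (hRF : MvPolynomial.eval R F = 0) :
    ∃ π : MvPolynomial (Fin 2) Ω, Cf (A : Set Ω) π ∧ MvPolynomial.eval R π = 0 ∧ ¬ F ∣ π ∧
      ∀ u : MvPolynomial (Fin 2) Ω, Cf (A : Set Ω) u → ¬ F ∣ u → ∀ M : Multiset (Fin 2 → Ω),
        Ideal.span {Ideal.Quotient.mk (Ideal.span {F}) u} = (M.map (ptIdeal F)).prod →
        (∀ S ∈ M, MvPolynomial.eval S F = 0) →
        ∃ s t : MvPolynomial (Fin 2) Ω, Cf (A : Set Ω) s ∧ Cf (A : Set Ω) t ∧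
          MvPolynomial.eval R s ≠ 0 ∧ MvPolynomial.eval R t ≠ 0 ∧
          F ∣ s * u - π ^ M.count R * t := by
  rcases TQC.smooth_pt F R hRF with h | h
  · exact loc_unif_aux A F hF R hR hRF 1 0 (by decide) h
  · exact loc_unif_aux A F hF R hR hRF 0 1 (by decide) h

end

end Pool.Agent.TBR

end

section


namespace Pool.Agent.TBR

open Pool.Agent.TQU

universe u

section

variable {k Ω : Type u} [Field k] [Field Ω] [Algebra k Ω]

private theorem exists_ord_cf_mul (A : IntermediateField k Ω) {u w : MvPolynomial (Fin 2) Ω}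
    (hu : Cf (A : Set Ω) u) (hw : Cf (A : Set Ω) w) : Cf (A : Set Ω) (u * w) := by
  classical
  intro m
  rw [MvPolynomial.coeff_mul]
  exact A.sum_mem fun x _ => A.mul_mem (hu _) (hw _)

private theorem exists_ord_cf_sub (A : IntermediateField k Ω) {u w : MvPolynomial (Fin 2) Ω}
    (hu : Cf (A : Set Ω) u) (hw : Cf (A : Set Ω) w) : Cf (A : Set Ω) (u - w) := by
  intro m
  rw [MvPolynomial.coeff_sub]
  exact A.sub_mem (hu _) (hw _)

private theorem exists_ord_prime (F : MvPolynomial (Fin 2) Ω) [IsDedekindDomain (CR F)]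
    (P : Fin 2 → Ω) (hP : MvPolynomial.eval P F = 0) : Prime F := by
  have hF0 : F ≠ 0 := by
    rintro rfl
    rcases Pool.Agent.TQC.smooth_pt (0 : MvPolynomial (Fin 2) Ω) P hP with h | h
    · exact h (by rw [map_zero, map_zero])
    · exact h (by rw [map_zero, map_zero])
  rw [← Ideal.span_singleton_prime hF0]
  exact (Ideal.Quotient.isDomain_iff_prime _).1 inferInstance

/-- `f = u(P)/w(P)`, and `M`, `N` are the divisors of `u` and `w` -/
private def ExOrd (A : IntermediateField k Ω) (F : MvPolynomial (Fin 2) Ω) (P : Fin 2 → Ω) (f : Ω)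
    (u w : MvPolynomial (Fin 2) Ω) (M N : Multiset (Fin 2 → Ω)) : Prop :=
  Cf (A : Set Ω) u ∧ Cf (A : Set Ω) w ∧ ¬ F ∣ u ∧ ¬ F ∣ w ∧
      f * MvPolynomial.eval P w = MvPolynomial.eval P u ∧
      Ideal.span {Ideal.Quotient.mk (Ideal.span {F}) u} = (M.map (ptIdeal F)).prod ∧
      Ideal.span {Ideal.Quotient.mk (Ideal.span {F}) w} = (N.map (ptIdeal F)).prod ∧
      (∀ R ∈ M, (∀ i, R i ∈ A) ∧ MvPolynomial.eval R F = 0) ∧
      (∀ R ∈ N, (∀ i, R i ∈ A) ∧ MvPolynomial.eval R F = 0)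

private theorem exists_ord_mul (A : IntermediateField k Ω) (F : MvPolynomial (Fin 2) Ω)
    (P : Fin 2 → Ω) (hpr : Prime F) {f g : Ω} {u w u' w' : MvPolynomial (Fin 2) Ω}
    {M N M' N' : Multiset (Fin 2 → Ω)} (h : ExOrd A F P f u w M N)
    (h' : ExOrd A F P g u' w' M' N') :
    ExOrd A F P (f * g) (u * u') (w * w') (M + M') (N + N') := by
  obtain ⟨h1, h2, h3, h4, h5, h6, h7, h8, h9⟩ := h
  obtain ⟨g1, g2, g3, g4, g5, g6, g7, g8, g9⟩ := h'
  refine ⟨exists_ord_cf_mul A h1 g1, exists_ord_cf_mul A h2 g2, ?_, ?_, ?_, ?_, ?_, ?_, ?_⟩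
  · intro hd
    rcases hpr.dvd_or_dvd hd with h | h
    · exact h3 h
    · exact g3 h
  · intro hd
    rcases hpr.dvd_or_dvd hd with h | h
    · exact h4 h
    · exact g4 h
  · rw [map_mul, map_mul, ← h5, ← g5]
    ring
  · rw [map_mul, ← Ideal.span_singleton_mul_span_singleton, h6, g6, Multiset.map_add,
      Multiset.prod_add]
  · rw [map_mul, ← Ideal.span_singleton_mul_span_singleton, h7, g7, Multiset.map_add,
      Multiset.prod_add]
  · intro R hR
    rcases Multiset.mem_add.1 hR with h | h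
    · exact h8 R h
    · exact g8 R h
  · intro R hR
    rcases Multiset.mem_add.1 hR with h | h
    · exact h9 R h
    · exact g9 R h

private theorem exists_ord_pow {Γ : Type*} [LinearOrderedCommGroupWithZero Γ] (v : Valuation Ω Γ)
    (x y : Ω) (hx : v x ≤ 1) (hy : v y ≤ 1) (hxy : v (x - y) < 1) (n : ℕ) :
    v (x ^ n - y ^ n) < 1 := by
  induction n with
  | zero =>
    rw [pow_zero, pow_zero, sub_self, map_zero]
    exact zero_lt_one
  | succ n ih =>
    have e : x ^ (n + 1) - y ^ (n + 1) = x * (x ^ n - y ^ n) + (x - y) * y ^ n := by ring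
    rw [e]
    apply Valuation.map_add_lt
    · rw [map_mul]
      exact mul_lt_one_of_nonneg_of_lt_one_right hx zero_le ih
    · rw [map_mul, map_pow]
      exact mul_lt_one_of_nonneg_of_lt_one_left zero_le hxy (pow_le_one' hy n)

private theorem exists_ord_res (A : IntermediateField k Ω) (P R : Fin 2 → Ω) (hR : ∀ i, R i ∈ A)
    (V : ValuationSubring Ω) (hV : ∀ x ∈ A, x ∈ V) (hPR : ∀ i, P i - R i ∈ V.nonunits)
    (s : MvPolynomial (Fin 2) Ω) (hs : Cf (A : Set Ω) s) :
    V.valuation (MvPolynomial.eval P s - MvPolynomial.eval R s) < 1 := by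
  have hRv : ∀ i, V.valuation (R i) ≤ 1 := fun i =>
    (V.valuation_le_one_iff _).2 (hV _ (hR i))
  have hPRv : ∀ i, V.valuation (P i - R i) < 1 := fun i => V.mem_nonunits_iff.1 (hPR i)
  have hPv : ∀ i, V.valuation (P i) ≤ 1 := by
    intro i
    have e : P i = (P i - R i) + R i := by ring
    rw [e]
    exact Valuation.map_add_le _ (hPRv i).le (hRv i)
  rw [MvPolynomial.eval_eq', MvPolynomial.eval_eq', ← Finset.sum_sub_distrib]
  apply Valuation.map_sum_lt _ one_ne_zero
  intro d _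
  rw [← mul_sub, map_mul, Fin.prod_univ_two, Fin.prod_univ_two]
  have hc : V.valuation (MvPolynomial.coeff d s) ≤ 1 :=
    (V.valuation_le_one_iff _).2 (hV _ (hs d))
  have e : P 0 ^ d 0 * P 1 ^ d 1 - R 0 ^ d 0 * R 1 ^ d 1 =
      P 0 ^ d 0 * (P 1 ^ d 1 - R 1 ^ d 1) + (P 0 ^ d 0 - R 0 ^ d 0) * R 1 ^ d 1 := by ring
  apply mul_lt_one_of_nonneg_of_lt_one_right hc zero_le
  rw [e]
  apply Valuation.map_add_lt
  · rw [map_mul, map_pow]
    exact mul_lt_one_of_nonneg_of_lt_one_right (pow_le_one' (hPv 0) _) zero_le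
      (exists_ord_pow _ _ _ (hPv 1) (hRv 1) (hPRv 1) _)
  · rw [map_mul, map_pow]
    exact mul_lt_one_of_nonneg_of_lt_one_left zero_le
      (exists_ord_pow _ _ _ (hPv 0) (hRv 0) (hPRv 0) _) (pow_le_one' (hRv 1) _)

private theorem exists_ord_val (A : IntermediateField k Ω) (P R : Fin 2 → Ω) (hR : ∀ i, R i ∈ A)
    (V : ValuationSubring Ω) (hV : ∀ x ∈ A, x ∈ V) (hPR : ∀ i, P i - R i ∈ V.nonunits)
    (s : MvPolynomial (Fin 2) Ω) (hs : Cf (A : Set Ω) s) :
    (MvPolynomial.eval R s ≠ 0 → V.valuation (MvPolynomial.eval P s) = 1) ∧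
    (MvPolynomial.eval R s = 0 → V.valuation (MvPolynomial.eval P s) < 1) := by
  have h := exists_ord_res A P R hR V hV hPR s hs
  constructor
  · intro hne
    have hmem : MvPolynomial.eval R s ∈ A := by
      rw [MvPolynomial.eval_eq']
      exact A.sum_mem fun d _ => A.mul_mem (hs d) (A.prod_mem fun i _ => pow_mem (hR i) _)
    have h1 : V.valuation (MvPolynomial.eval R s) = 1 := by
      apply le_antisymm
      · exact (V.valuation_le_one_iff _).2 (hV _ hmem)
      · have h2 := (V.valuation_le_one_iff _).2 (hV _ (A.inv_mem hmem))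
        rw [map_inv₀] at h2
        exact (inv_le_one₀ ((Valuation.pos_iff _).2 hne)).1 h2
    have e : MvPolynomial.eval P s = MvPolynomial.eval R s +
      (MvPolynomial.eval P s - MvPolynomial.eval R s) := by ring
    rw [e, Valuation.map_add_eq_of_lt_left _ (by rw [h1]; exact h), h1]
  · intro h0
    rw [h0, sub_zero] at h
    exact h

private theorem exists_ord_map (A : IntermediateField k Ω) (F : MvPolynomial (Fin 2) Ω)
    (P : Fin 2 → Ω) (σ : Ω ≃ₐ[k] Ω) (hσ : ∀ x : Ω, σ x ∈ A ↔ x ∈ A)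
    (hσP : ∀ i, σ (P i) = P i) (hσF : MvPolynomial.map (σ : Ω →+* Ω) F = F) {f : Ω}
    {u w : MvPolynomial (Fin 2) Ω} {M N : Multiset (Fin 2 → Ω)} (h : ExOrd A F P f u w M N) :
    ExOrd A F P (σ f) (MvPolynomial.map (σ : Ω →+* Ω) u) (MvPolynomial.map (σ : Ω →+* Ω) w)
      (M.map fun R i => σ (R i)) (N.map fun R i => σ (R i)) := by
  obtain ⟨h1, h2, h3, h4, h5, h6, h7, h8, h9⟩ := h
  have hcf : ∀ g : MvPolynomial (Fin 2) Ω, Cf (A : Set Ω) g →
      Cf (A : Set Ω) (MvPolynomial.map (σ : Ω →+* Ω) g) := by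
    intro g hg m
    rw [MvPolynomial.coeff_map]
    exact (hσ _).2 (hg m)
  have hinv : ∀ g : MvPolynomial (Fin 2) Ω,
      MvPolynomial.map (σ.symm : Ω →+* Ω) (MvPolynomial.map (σ : Ω →+* Ω) g) = g := by
    intro g
    rw [MvPolynomial.map_map]
    have e : (σ.symm : Ω →+* Ω).comp (σ : Ω →+* Ω) = RingHom.id Ω := by
      ext x
      exact σ.symm_apply_apply x
    rw [e, MvPolynomial.map_id]
  have hdv : ∀ g : MvPolynomial (Fin 2) Ω, ¬ F ∣ g → ¬ F ∣ MvPolynomial.map (σ : Ω →+* Ω) g := by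
    rintro g hg ⟨c, hc⟩
    apply hg
    refine ⟨MvPolynomial.map (σ.symm : Ω →+* Ω) c, ?_⟩
    have e := congrArg (MvPolynomial.map (σ.symm : Ω →+* Ω)) hc
    rw [hinv, map_mul] at e
    rw [e]
    congr 1
    conv_lhs => rw [← hσF]
    exact hinv F
  have hev : ∀ (g : MvPolynomial (Fin 2) Ω) (R : Fin 2 → Ω),
      MvPolynomial.eval (fun i => σ (R i)) (MvPolynomial.map (σ : Ω →+* Ω) g) =
        σ (MvPolynomial.eval R g) := fun g R => (MvPolynomial.map_eval (σ : Ω →+* Ω) R g).symm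
  have hPP : (fun i => σ (P i)) = P := funext hσP
  obtain ⟨φ, hφ⟩ : ∃ φ : CR F →+* CR F, ∀ g : MvPolynomial (Fin 2) Ω,
      φ (Ideal.Quotient.mk (Ideal.span {F}) g) =
        Ideal.Quotient.mk (Ideal.span {F}) (MvPolynomial.map (σ : Ω →+* Ω) g) := by
    refine ⟨Ideal.Quotient.lift (Ideal.span {F})
      ((Ideal.Quotient.mk (Ideal.span {F})).comp (MvPolynomial.map (σ : Ω →+* Ω))) ?_,
      fun g => by rw [Ideal.Quotient.lift_mk, RingHom.comp_apply]⟩
    intro a ha
    obtain ⟨c, rfl⟩ := Ideal.mem_span_singleton.1 ha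
    rw [RingHom.comp_apply, map_mul, hσF, map_mul,
      Ideal.Quotient.eq_zero_iff_mem.2 (Ideal.mem_span_singleton_self F), zero_mul]
  have hpt : ∀ R : Fin 2 → Ω, (ptIdeal F R).map φ = ptIdeal F (fun i => σ (R i)) := by
    intro R
    unfold ptIdeal
    rw [Ideal.map_map, Ideal.map_span, Ideal.map_span, ← Set.range_comp, ← Set.range_comp]
    congr 2
    funext i
    rw [Function.comp_apply, Function.comp_apply, RingHom.comp_apply, hφ, map_sub,
      MvPolynomial.map_X, MvPolynomial.map_C]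
    rfl
  have hprod : ∀ M : Multiset (Fin 2 → Ω), ((M.map (ptIdeal F)).prod).map φ =
      ((M.map fun R i => σ (R i)).map (ptIdeal F)).prod := by
    intro M
    induction M using Multiset.induction_on with
    | empty =>
      rw [Multiset.map_zero, Multiset.map_zero, Multiset.map_zero, Multiset.prod_zero,
        Ideal.one_eq_top, Ideal.map_top]
    | cons R M ih =>
      rw [Multiset.map_cons, Multiset.map_cons, Multiset.map_cons, Multiset.prod_cons,
        Multiset.prod_cons, Ideal.map_mul, ih, hpt]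
  have hid : ∀ (g : MvPolynomial (Fin 2) Ω) (M : Multiset (Fin 2 → Ω)),
      Ideal.span {Ideal.Quotient.mk (Ideal.span {F}) g} = (M.map (ptIdeal F)).prod →
      Ideal.span {Ideal.Quotient.mk (Ideal.span {F}) (MvPolynomial.map (σ : Ω →+* Ω) g)} =
        ((M.map fun R i => σ (R i)).map (ptIdeal F)).prod := by
    intro g M hg
    rw [← hprod, ← hg, Ideal.map_span, Set.image_singleton, hφ]
  have hmem : ∀ M : Multiset (Fin 2 → Ω),
      (∀ R ∈ M, (∀ i, R i ∈ A) ∧ MvPolynomial.eval R F = 0) →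
      ∀ R ∈ (M.map fun R i => σ (R i)), (∀ i, R i ∈ A) ∧ MvPolynomial.eval R F = 0 := by
    intro M hM R hR
    obtain ⟨R', hR', rfl⟩ := Multiset.mem_map.1 hR
    refine ⟨fun i => (hσ _).2 ((hM R' hR').1 i), ?_⟩
    have e := hev F R'
    rw [hσF, (hM R' hR').2, map_zero] at e
    exact e
  refine ⟨hcf u h1, hcf w h2, hdv u h3, hdv w h4, ?_, hid u M h6, hid w N h7, hmem M h8,
    hmem N h9⟩
  have e1 := hev u P
  have e2 := hev w P
  rw [hPP] at e1 e2
  rw [e1, e2, ← map_mul, h5]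

end

section

variable {k Ω : Type u} [Field k] [Field Ω] [Algebra k Ω] [IsAlgClosed Ω]

private theorem exists_ord_ex (A : IntermediateField k Ω) [IsAlgClosed A]
    (F : MvPolynomial (Fin 2) Ω) (hF : Cf (A : Set Ω) F) [IsDedekindDomain (CR F)]
    (P : Fin 2 → Ω) (hP : MvPolynomial.eval P F = 0) (f : Ω) (hf0 : f ≠ 0)
    (hf : f ∈ AA A (Set.range P)) : ∃ u w M N, ExOrd A F P f u w M N := by
  obtain ⟨u, w, hu, hw, hw0, hfu⟩ := (mem_aa A P f).1 hf
  have hd : ∀ g : MvPolynomial (Fin 2) Ω, MvPolynomial.eval P g ≠ 0 → ¬ F ∣ g := by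
    rintro g hg ⟨c, rfl⟩
    exact hg (by rw [map_mul, hP, zero_mul])
  have hu0 : MvPolynomial.eval P u ≠ 0 := by
    rw [← hfu]
    exact mul_ne_zero hf0 hw0
  obtain ⟨M, hM, hM'⟩ := fac_A A F hF u hu (hd u hu0)
  obtain ⟨N, hN, hN'⟩ := fac_A A F hF w hw (hd w hw0)
  exact ⟨u, w, M, N, hu, hw, hd u hu0, hd w hw0, hfu, hM, hN, hM', hN'⟩

private theorem exists_ord_uniq (A : IntermediateField k Ω) [IsAlgClosed A]
    (F : MvPolynomial (Fin 2) Ω) (hF : Cf (A : Set Ω) F) [IsDedekindDomain (CR F)]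
    (P : Fin 2 → Ω) (hP : MvPolynomial.eval P F = 0) (hPA : ¬ ∀ i, P i ∈ A) {f : Ω}
    {u w u' w' : MvPolynomial (Fin 2) Ω} {M N M' N' : Multiset (Fin 2 → Ω)}
    (h : ExOrd A F P f u w M N) (h' : ExOrd A F P f u' w' M' N') : M + N' = M' + N := by
  obtain ⟨h1, h2, h3, h4, h5, h6, h7, h8, h9⟩ := h
  obtain ⟨g1, g2, g3, g4, g5, g6, g7, g8, g9⟩ := h'
  have hd : F ∣ u * w' - u' * w := by
    rw [← gen_iff A F hF (exists_ord_prime F P hP).irreducible P hP hPA _
      (exists_ord_cf_sub A (exists_ord_cf_mul A h1 g2) (exists_ord_cf_mul A g1 h2))]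
    rw [map_sub, map_mul, map_mul, ← h5, ← g5]
    ring
  have he : Ideal.Quotient.mk (Ideal.span {F}) (u * w') =
      Ideal.Quotient.mk (Ideal.span {F}) (u' * w) := by
    rw [Ideal.Quotient.eq, Ideal.mem_span_singleton]
    exact hd
  apply mult_uniq F
  · intro R hR
    rcases Multiset.mem_add.1 hR with h | h
    · exact (h8 R h).2
    · exact (g9 R h).2
  · intro R hR
    rcases Multiset.mem_add.1 hR with h | h
    · exact (g8 R h).2
    · exact (h9 R h).2
  · rw [Multiset.map_add, Multiset.map_add, Multiset.prod_add, Multiset.prod_add, ← h6, ← g7,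
      ← g6, ← h7, Ideal.span_singleton_mul_span_singleton, Ideal.span_singleton_mul_span_singleton,
      ← map_mul, ← map_mul, he]

theorem exists_ord (A : IntermediateField k Ω) [IsAlgClosed A]
    (F : MvPolynomial (Fin 2) Ω) (hF : Cf (A : Set Ω) F) [IsDedekindDomain (CR F)]
    (P : Fin 2 → Ω) (hP : MvPolynomial.eval P F = 0) (hPA : ¬ ∀ i, P i ∈ A) :
    ∃ v : (Fin 2 → Ω) → Ωˣ → ℤ, IsOrd A F P v := by
  classical
  have hpr := exists_ord_prime F P hP
  obtain ⟨v, hv, hv0⟩ : ∃ v : (Fin 2 → Ω) → Ωˣ → ℤ, (∀ (f : Ωˣ) (u w : MvPolynomial (Fin 2) Ω)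
      (M N : Multiset (Fin 2 → Ω)), ExOrd A F P (f : Ω) u w M N →
        ∀ R, v R f = (M.count R : ℤ) - (N.count R : ℤ)) ∧
      ∀ f : Ωˣ, (¬ ∃ u w M N, ExOrd A F P (f : Ω) u w M N) → ∀ R, v R f = 0 := by
    refine ⟨fun R f => if h : ∃ u w M N, ExOrd A F P (f : Ω) u w M N then
      ((h.choose_spec.choose_spec.choose.count R : ℤ) -
        (h.choose_spec.choose_spec.choose_spec.choose.count R : ℤ)) else 0, ?_, ?_⟩
    · intro f u w M N h R
      have h' : ∃ u w M N, ExOrd A F P (f : Ω) u w M N := ⟨u, w, M, N, h⟩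
      simp only [dif_pos h']
      have e := exists_ord_uniq A F hF P hP hPA h'.choose_spec.choose_spec.choose_spec.choose_spec h
      have e2 := congrArg (Multiset.count R) e
      rw [Multiset.count_add, Multiset.count_add] at e2
      have e3 := congrArg (Nat.cast : ℕ → ℤ) e2
      push_cast at e3
      linarith
    · intro f h R
      exact dif_neg h
  have hex : ∀ f : Ωˣ, (f : Ω) ∈ AA A (Set.range P) → ∃ u w M N, ExOrd A F P (f : Ω) u w M N :=
    fun f hf => exists_ord_ex A F hF P hP f f.ne_zero hf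
  refine ⟨v, ?_, ?_, ?_, ?_, ?_, ?_⟩
  · intro f hf
    obtain ⟨u, w, M, N, h⟩ := hex f hf
    apply Set.Finite.subset ((M.toFinset ∪ N.toFinset).finite_toSet)
    intro R hR
    rw [Set.mem_ofPred_eq, hv f u w M N h R] at hR
    rw [Finset.mem_coe, Finset.mem_union, Multiset.mem_toFinset, Multiset.mem_toFinset]
    by_contra hc
    rw [not_or] at hc
    apply hR
    rw [Multiset.count_eq_zero_of_notMem hc.1, Multiset.count_eq_zero_of_notMem hc.2]
    simp
  · intro R f hR
    by_cases hx : ∃ u w M N, ExOrd A F P (f : Ω) u w M N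
    · obtain ⟨u, w, M, N, h⟩ := hx
      rw [hv f u w M N h R] at hR
      by_cases h1 : R ∈ M
      · exact h.2.2.2.2.2.2.2.1 R h1
      · by_cases h2 : R ∈ N
        · exact h.2.2.2.2.2.2.2.2 R h2
        · exfalso
          apply hR
          rw [Multiset.count_eq_zero_of_notMem h1, Multiset.count_eq_zero_of_notMem h2]
          simp
    · exact absurd (hv0 f hx R) hR
  · intro R f g hf hg
    obtain ⟨u, w, M, N, h⟩ := hex f hf
    obtain ⟨u', w', M', N', h'⟩ := hex g hg
    have h2 := exists_ord_mul A F P hpr h h'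
    rw [hv f u w M N h R, hv g u' w' M' N' h' R, hv (f * g) _ _ _ _ h2 R, Multiset.count_add,
      Multiset.count_add]
    push_cast
    ring
  · intro σ hσ hσP hσF R f hf
    obtain ⟨u, w, M, N, h⟩ := hex f hf
    have h2 := exists_ord_map A F P σ hσ hσP hσF h
    have h3 : ((σ • f : Ωˣ) : Ω) = σ (f : Ω) := rfl
    rw [hv f u w M N h R, hv (σ • f) _ _ _ _ (h3 ▸ h2) _]
    have hinj : Function.Injective (fun (R : Fin 2 → Ω) i => σ (R i)) := by
      intro R R' h
      funext i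
      exact σ.injective (congrFun h i)
    rw [Multiset.count_map_eq_count' _ M hinj R, Multiset.count_map_eq_count' _ N hinj R]
  · intro R hR hRF V hV hPR f hf
    obtain ⟨u, w, M, N, h⟩ := hex f hf
    rw [hv f u w M N h R, ValuationSubring.mem_unitGroup_iff]
    obtain ⟨h1, h2, h3, h4, h5, h6, h7, h8, h9⟩ := h
    obtain ⟨π, hπ, hπ0, hπF, hloc⟩ := loc_unif A F hF R hR hRF
    obtain ⟨s, t, hs, ht, hs0, ht0, hst⟩ := hloc u h1 h3 M h6 (fun S hS => (h8 S hS).2)
    obtain ⟨s', t', hs', ht', hs0', ht0', hst'⟩ := hloc w h2 h4 N h7 (fun S hS => (h9 S hS).2)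
    have key : ∀ (s t u : MvPolynomial (Fin 2) Ω) (n : ℕ), Cf (A : Set Ω) s →
        Cf (A : Set Ω) t → MvPolynomial.eval R s ≠ 0 → MvPolynomial.eval R t ≠ 0 →
        F ∣ s * u - π ^ n * t →
        V.valuation (MvPolynomial.eval P u) = V.valuation (MvPolynomial.eval P π) ^ n := by
      intro s t u n hs ht hs0 ht0 hd
      obtain ⟨c, hc⟩ := hd
      have e := congrArg (MvPolynomial.eval P) hc
      rw [map_mul (MvPolynomial.eval P) F, hP, zero_mul, map_sub, sub_eq_zero, map_mul, map_mul,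
        map_pow] at e
      have e2 := congrArg V.valuation e
      rw [map_mul, map_mul, map_pow, (exists_ord_val A P R hR V hV hPR s hs).1 hs0,
        (exists_ord_val A P R hR V hV hPR t ht).1 ht0, one_mul, mul_one] at e2
      exact e2
    have k1 := key s t u _ hs ht hs0 ht0 hst
    have k2 := key s' t' w _ hs' ht' hs0' ht0' hst'
    have hπ1 := (exists_ord_val A P R hR V hV hPR π hπ).2 hπ0
    have hπ2 : MvPolynomial.eval P π ≠ 0 := by
      intro h0
      exact hπF ((gen_iff A F hF hpr.irreducible P hP hPA π hπ).1 h0)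
    have hπ3 : 0 < V.valuation (MvPolynomial.eval P π) := (Valuation.pos_iff _).2 hπ2
    have e5 := congrArg V.valuation h5
    rw [map_mul, k1, k2] at e5
    constructor
    · intro h1
      rw [h1, one_mul] at e5
      have e6 := pow_right_injective₀ hπ3 hπ1.ne e5
      rw [e6]
      simp
    · intro h1
      have e6 : M.count R = N.count R := by
        have := sub_eq_zero.1 h1
        exact_mod_cast this
      have e7 : V.valuation (f : Ω) * V.valuation (MvPolynomial.eval P π) ^ N.count R =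
          1 * V.valuation (MvPolynomial.eval P π) ^ N.count R := by
        rw [one_mul, e5]
        exact congrArg _ e6
      exact mul_right_cancel₀ (pow_ne_zero _ hπ3.ne') e7
  · intro f hf
    obtain ⟨u, w, M, N, h⟩ := hex f hf
    obtain ⟨h1, h2, h3, h4, h5, h6, h7, h8, h9⟩ := id h
    exact ⟨u, w, M, N, h1, h2, h3, h4, h5, h6, h7, h8, h9, hv f u w M N h⟩

end

end Pool.Agent.TBR

end
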