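import Pool.Agent.TBM.Base

set_option maxSynthPendingDepth 3

private theorem val_tf_field (K L : Type*) [Field K] [Field L] [Algebra K L] :
    Module.IsTorsionFree K L := inferInstance

private theorem val_fs_field (K L : Type*) [Field K] [Field L] [Algebra K L] :
    FaithfulSMul K L := inferInstance

attribute [local instance 5000] val_tf_field val_fs_field


/-!
# Valuation rings of an algebraically closed field
-/

set_option autoImplicit false

section


namespace Pool.Agent.TBR.V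

/-- for `x` algebraic over `K` there are `b`, `c = - b x`, lying in every valuation ring over
`V ∩ K`, and `b` is a unit of `V` if `x` is in `V` -/
theorem exists_bc {K L : Type*} [Field K] [Field L] [Algebra K L] (V : ValuationSubring L) (x : L)
    (hx : IsAlgebraic K x) (hxV : x ∈ V) :
    ∃ b : L, V.valuation b = 1 ∧ ∀ W : ValuationSubring L,
      (∀ y : K, algebraMap K L y ∈ V → algebraMap K L y ∈ W) → b ∈ W ∧ b * x ∈ W := by
  classical
  obtain ⟨f, hf0, hf⟩ := hx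
  -- normalise
  have hsupp : f.support.Nonempty := Polynomial.support_nonempty.mpr hf0
  obtain ⟨i₀, hi₀, hmax⟩ := Finset.exists_max_image f.support
    (fun i => V.valuation (algebraMap K L (f.coeff i))) hsupp
  have hc0 : f.coeff i₀ ≠ 0 := Polynomial.mem_support_iff.mp hi₀
  have hc0' : algebraMap K L (f.coeff i₀) ≠ 0 := (map_ne_zero _).mpr hc0
  set a : ℕ → K := fun i => f.coeff i / f.coeff i₀ with ha
  have hv : ∀ i, V.valuation (algebraMap K L (a i)) ≤ 1 := by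
    intro i
    by_cases hi : i ∈ f.support
    · have h := hmax i hi
      rw [ha]
      simp only [map_div₀]
      exact (div_le_one₀ (zero_lt_iff.mpr ((map_ne_zero _).mpr hc0'))).mpr h
    · rw [Polynomial.notMem_support_iff] at hi
      simp [ha, hi]
  have hv1 : V.valuation (algebraMap K L (a i₀)) = 1 := by simp [ha, div_self hc0]
  have hzero : ∀ i, f.natDegree < i → a i = 0 := fun i hi => by
    simp [ha, Polynomial.coeff_eq_zero_of_natDegree_lt hi]
  set n := f.natDegree with hn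
  have hsum : ∑ i ∈ Finset.range (n + 1), algebraMap K L (a i) * x ^ i = 0 := by
    have h1 : ∑ i ∈ Finset.range (n + 1), algebraMap K L (a i) * x ^ i
        = (algebraMap K L (f.coeff i₀))⁻¹ * ∑ i ∈ Finset.range (n + 1),
          algebraMap K L (f.coeff i) * x ^ i := by
      rw [Finset.mul_sum]
      refine Finset.sum_congr rfl fun i _ => ?_
      rw [ha]
      simp only [map_div₀]
      ring
    have h2 : ∑ i ∈ Finset.range (n + 1), algebraMap K L (f.coeff i) * x ^ i = 0 := by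
      rw [← hf, Polynomial.aeval_eq_sum_range]
      exact Finset.sum_congr rfl fun i _ => (Algebra.smul_def _ _).symm
    rw [h1, h2, mul_zero]
  -- largest index with a unit
  set T := (Finset.range (n + 1)).filter fun i => V.valuation (algebraMap K L (a i)) = 1 with hT
  have hTne : T.Nonempty := by
    refine ⟨i₀, Finset.mem_filter.mpr ⟨Finset.mem_range.mpr ?_, hv1⟩⟩
    exact Nat.lt_succ_of_le (Polynomial.le_natDegree_of_mem_supp _ hi₀)
  set j := T.max' hTne with hj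
  have hjT : j ∈ T := Finset.max'_mem _ _
  have hjn : j ≤ n := Nat.lt_succ_iff.mp (Finset.mem_range.mp (Finset.mem_filter.mp hjT).1)
  have hj1 : V.valuation (algebraMap K L (a j)) = 1 := (Finset.mem_filter.mp hjT).2
  have hjlt : ∀ i, j < i → V.valuation (algebraMap K L (a i)) < 1 := by
    intro i hi
    by_cases hin : i < n + 1
    · refine lt_of_le_of_ne (hv i) fun h => ?_
      exact absurd (Finset.le_max' T i (Finset.mem_filter.mpr ⟨Finset.mem_range.mpr hin, h⟩))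
        (not_le.mpr hi)
    · rw [hzero i (by omega)]
      simp
  have haW : ∀ W : ValuationSubring L,
      (∀ y : K, algebraMap K L y ∈ V → algebraMap K L y ∈ W) → ∀ i, algebraMap K L (a i) ∈ W :=
    fun W hW i => hW _ ((V.valuation_le_one_iff _).mp (hv i))
  set b : L := ∑ i ∈ Finset.range (n + 1 - j), algebraMap K L (a (j + i)) * x ^ i with hb
  have hsplit : (∑ i ∈ Finset.range j, algebraMap K L (a i) * x ^ i) + x ^ j * b = 0 := by
    rw [← hsum, hb, Finset.mul_sum]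
    have hn' : n + 1 = j + (n + 1 - j) := by omega
    conv_rhs => rw [hn', Finset.sum_range_add]
    refine congrArg (fun z : L => (∑ i ∈ Finset.range j, algebraMap K L (a i) * x ^ i) + z) ?_
    refine Finset.sum_congr rfl fun i _ => ?_
    rw [pow_add]; ring
  have hb1 : V.valuation b = 1 := by
    have h1 : b = algebraMap K L (a j) +
        ∑ i ∈ Finset.range (n - j), algebraMap K L (a (j + (i + 1))) * x ^ (i + 1) := by
      rw [hb, show n + 1 - j = (n - j) + 1 by omega, Finset.sum_range_succ']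
      simp [add_comm]
    have h2 : V.valuation (∑ i ∈ Finset.range (n - j),
        algebraMap K L (a (j + (i + 1))) * x ^ (i + 1)) < 1 := by
      refine Valuation.map_sum_lt _ one_ne_zero fun i _ => ?_
      rw [map_mul, map_pow]
      have h3 : V.valuation x ^ (i + 1) ≤ 1 :=
        pow_le_one₀ zero_le ((V.valuation_le_one_iff x).mpr hxV)
      calc _ ≤ V.valuation (algebraMap K L (a (j + (i + 1)))) * 1 := by gcongr
        _ < 1 := by rw [mul_one]; exact hjlt _ (by omega)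
    rw [h1, Valuation.map_add_eq_of_lt_left _ (by rw [hj1]; exact h2), hj1]
  refine ⟨b, hb1, fun W hW => ?_⟩
  have haW' := haW W hW
  by_cases hxW : x ∈ W
  · have : b ∈ W := by
      rw [hb]
      exact sum_mem fun i _ => mul_mem (haW' _) (pow_mem hxW i)
    exact ⟨this, mul_mem this hxW⟩
  · have hx0 : x ≠ 0 := fun h => hxW (h ▸ W.zero_mem)
    have hxi : x⁻¹ ∈ W := (W.mem_or_inv_mem x).resolve_left hxW
    have hb0 : b ≠ 0 := fun h => by simp [h] at hb1
    have hj0 : j ≠ 0 := by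
      intro h
      rw [h] at hsplit
      simp at hsplit
      exact hb0 hsplit
    have hbx : b * x = - ∑ i ∈ Finset.range j, algebraMap K L (a i) * x⁻¹ ^ (j - 1 - i) := by
      have h1 : x ^ (j - 1) * (b * x) = - ∑ i ∈ Finset.range j, algebraMap K L (a i) * x ^ i := by
        have : x ^ j = x ^ (j - 1) * x := by
          rw [← pow_succ, Nat.sub_add_cancel (Nat.one_le_iff_ne_zero.mpr hj0)]
        rw [this] at hsplit
        linear_combination hsplit
      have hxp : x ^ (j - 1) ≠ 0 := pow_ne_zero _ hx0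
      apply mul_left_cancel₀ hxp
      rw [h1, mul_neg, Finset.mul_sum]
      refine congrArg Neg.neg (Finset.sum_congr rfl fun i hi => ?_)
      have hi' : i ≤ j - 1 := by have := Finset.mem_range.mp hi; omega
      have hji : j - 1 = i + (j - 1 - i) := by omega
      have : x ^ (j - 1) = x ^ i * x ^ (j - 1 - i) := by
        rw [← pow_add, ← hji]
      rw [this, inv_pow]
      field_simp
    have hbxW : b * x ∈ W := by
      rw [hbx]
      exact neg_mem (sum_mem fun i _ => mul_mem (haW' _) (pow_mem hxi _))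
    refine ⟨?_, hbxW⟩
    have : b = b * x * x⁻¹ := by field_simp
    rw [this]
    exact mul_mem hbxW hxi

end Pool.Agent.TBR.V

end

section


namespace Pool.Agent.TBR.V

/-- an element of all valuation rings over `V₀` is integral over `V₀` -/
theorem isIntegral_of_forall {K L : Type*} [Field K] [Field L] [Algebra K L]
    (V₀ : ValuationSubring K) (b : L)
    (h : ∀ W : ValuationSubring L, (∀ y ∈ V₀, algebraMap K L y ∈ W) → b ∈ W) :
    IsIntegral V₀ b := by
  set s : Set L := (algebraMap K L) '' (V₀ : Set K) with hs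
  have h1 : b ∈ (integralClosure (Subring.closure s) L).toSubring := by
    rw [← iInf_valuationSubring_superset, Subring.mem_iInf]
    rintro ⟨W, hW⟩
    refine h W fun y hy => hW ⟨y, hy, rfl⟩
  have h2 : IsIntegral (Subring.closure s) b := h1
  let f : V₀ →+* Subring.closure s :=
    { toFun := fun y => ⟨algebraMap K L y, Subring.subset_closure ⟨y, y.2, rfl⟩⟩
      map_one' := by ext; simp
      map_mul' := fun x y => by ext; simp
      map_zero' := by ext; simp
      map_add' := fun x y => by ext; simp }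
  have hf : Function.Surjective f := by
    rintro ⟨z, hz⟩
    have : Subring.closure s ≤ V₀.toSubring.map (algebraMap K L) := by
      rw [Subring.closure_le]
      rintro _ ⟨y, hy, rfl⟩
      exact ⟨y, hy, rfl⟩
    obtain ⟨y, hy, rfl⟩ := this hz
    exact ⟨⟨y, hy⟩, rfl⟩
  let _ : Algebra V₀ (Subring.closure s) := f.toAlgebra
  have _ : IsScalarTower V₀ (Subring.closure s) L := IsScalarTower.of_algebraMap_eq fun y => rfl
  have _ : Algebra.IsIntegral V₀ (Subring.closure s) :=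
    Algebra.IsIntegral.of_surjective (Algebra.ofId V₀ (Subring.closure s)) hf
  exact isIntegral_trans b h2

theorem mem_of_isIntegral {K L : Type*} [Field K] [Field L] [Algebra K L]
    (V₀ : ValuationSubring K) (V : ValuationSubring L)
    (h : ∀ y ∈ V₀, algebraMap K L y ∈ V) (b : L) (hb : IsIntegral V₀ b) : b ∈ V := by
  let g : V₀ →+* V :=
    { toFun := fun y => ⟨algebraMap K L y, h y y.2⟩
      map_one' := by ext; simp
      map_mul' := fun x y => by ext; simp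
      map_zero' := by ext; simp
      map_add' := fun x y => by ext; simp }
  have h1 : IsIntegral V (RingHom.id L b) :=
    IsIntegral.map_of_comp_eq g (RingHom.id L) (by ext y; rfl) hb
  obtain ⟨y, hy⟩ := IsIntegrallyClosed.algebraMap_eq_of_integral (R := V) (K := L) h1
  have : b = y := hy.symm
  rw [this]
  exact y.2

theorem trans_mem {K L : Type*} [Field K] [Field L] [Algebra K L] [Algebra.IsAlgebraic K L]
    (V V' : ValuationSubring L) (h : ∀ y : K, algebraMap K L y ∈ V ↔ algebraMap K L y ∈ V')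
    (σ : L ≃ₐ[K] L)
    (hσ : ∀ b : L, IsIntegral (V.comap (algebraMap K L)) b → V.valuation b = 1 →
      V'.valuation (σ b) = 1) (x : L) (hx : x ∈ V) : σ x ∈ V' := by
  obtain ⟨b, hb1, hb⟩ := exists_bc V x (Algebra.IsAlgebraic.isAlgebraic (R := K) x) hx
  have hbi : IsIntegral (V.comap (algebraMap K L)) b :=
    isIntegral_of_forall _ b fun W hW => (hb W fun y hy => hW y hy).1
  have hbxi : IsIntegral (V.comap (algebraMap K L)) (b * x) :=
    isIntegral_of_forall _ _ fun W hW => (hb W fun y hy => hW y hy).2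
  have h1 := hσ b hbi hb1
  have h2 : σ (b * x) ∈ V' := by
    refine mem_of_isIntegral (V.comap (algebraMap K L)) V' (fun y hy => (h y).mp hy) _ ?_
    exact IsIntegral.map_of_comp_eq (RingHom.id _) (σ : L →+* L)
      (by ext y; exact (σ.commutes (y : K)).symm) hbxi
  have hb0 : σ b ≠ 0 := fun h0 => by simp [h0] at h1
  have h3 : σ x = σ (b * x) * (σ b)⁻¹ := by rw [map_mul]; field_simp
  rw [h3, ← V'.valuation_le_one_iff, map_mul, map_inv₀, h1, inv_one, mul_one]
  exact (V'.valuation_le_one_iff _).mpr h2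

theorem conj_val {K L : Type*} [Field K] [Field L] [Algebra K L] [IsGalois K L]
    (V V' : ValuationSubring L) (h : ∀ y : K, algebraMap K L y ∈ V ↔ algebraMap K L y ∈ V') :
    ∃ σ : L ≃ₐ[K] L, ∀ x, x ∈ V ↔ σ x ∈ V' := by
  set V₀ := V.comap (algebraMap K L) with hV₀
  have hc : SMulCommClass (L ≃ₐ[K] L) V₀ L :=
    ⟨fun g r x => by
      have h1 : ∀ z : L, r • z = algebraMap K L (r : K) * z := fun z => Algebra.smul_def (r : K) z
      rw [h1, h1, AlgEquiv.smul_def, AlgEquiv.smul_def, map_mul, g.commutes]⟩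
  have hBV : ∀ W : ValuationSubring L, (∀ y : K, algebraMap K L y ∈ V ↔ algebraMap K L y ∈ W) →
      ∀ b : integralClosure V₀ L, (b : L) ∈ W := fun W hW b =>
    mem_of_isIntegral V₀ W (fun y hy => (hW y).mp hy) _ b.2
  let I : ∀ W : ValuationSubring L, (∀ y : K, algebraMap K L y ∈ V ↔ algebraMap K L y ∈ W) →
      Ideal (integralClosure V₀ L) := fun W hW =>
    (IsLocalRing.maximalIdeal W).comap
      ((algebraMap (integralClosure V₀ L) L).codRestrict W.toSubring (hBV W hW))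
  have hIm : ∀ (W : ValuationSubring L)
      (hW : ∀ y : K, algebraMap K L y ∈ V ↔ algebraMap K L y ∈ W) (b : integralClosure V₀ L),
      b ∈ I W hW ↔ W.valuation (b : L) < 1 := fun W hW b =>
    W.valuation_lt_one_iff ⟨(b : L), hBV W hW b⟩
  have hIp : ∀ (W : ValuationSubring L)
      (hW : ∀ y : K, algebraMap K L y ∈ V ↔ algebraMap K L y ∈ W), (I W hW).IsPrime :=
    fun W hW => Ideal.comap_isPrime _ _
  have hinv : Algebra.IsInvariant V₀ (integralClosure V₀ L) (L ≃ₐ[K] L) := by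
    refine ⟨fun b hb => ?_⟩
    have h1 : (b : L) ∈ Set.range (algebraMap K L) := by
      rw [InfiniteGalois.mem_range_algebraMap_iff_fixed]
      intro g
      exact congrArg Subtype.val (hb g)
    obtain ⟨y, hy⟩ := h1
    have h2 : IsIntegral V₀ y := by
      have h3 : IsIntegral V₀ (algebraMap K L y) := by rw [hy]; exact b.2
      exact (isIntegral_algebraMap_iff (algebraMap K L).injective).mp h3
    obtain ⟨z, hz⟩ := IsIntegrallyClosed.algebraMap_eq_of_integral (R := V₀) (K := K) h2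
    refine ⟨z, Subtype.ext ?_⟩
    rw [← hy, ← hz]
    rfl
  let _ : TopologicalSpace (integralClosure V₀ L) := ⊥
  have : DiscreteTopology (integralClosure V₀ L) := ⟨rfl⟩
  have : ContinuousSMul (L ≃ₐ[K] L) (integralClosure V₀ L) := by
    rw [continuousSMul_iff_stabilizer_isOpen]
    intro b
    convert stabilizer_isOpen_of_isIntegral (K := K) (b : L) using 1
    ext g
    simp [MulAction.mem_stabilizer_iff, Subtype.ext_iff]
  have hP := hIp V fun _ => Iff.rfl
  have hQ := hIp V' h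
  obtain ⟨σ, hσ⟩ := Algebra.IsInvariant.exists_smul_of_under_eq_of_profinite (A := V₀)
    (G := L ≃ₐ[K] L) (I V fun _ => Iff.rfl) (I V' h) (by
      ext y
      simp only [Ideal.under, Ideal.mem_comap, hIm]
      change V.valuation (algebraMap K L (y : K)) < 1 ↔ V'.valuation (algebraMap K L (y : K)) < 1
      rw [← V.mem_nonunits_iff, ← V'.mem_nonunits_iff, V.mem_nonunits_iff_or,
        V'.mem_nonunits_iff_or, ← map_inv₀, h])
  have hσ' : ∀ b : integralClosure V₀ L, V'.valuation (b : L) < 1 ↔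
      V.valuation (σ⁻¹ (b : L)) < 1 := by
    intro b
    rw [← hIm V' h b, hσ, Ideal.mem_pointwise_smul_iff_inv_smul_mem, hIm V fun _ => Iff.rfl]
    rfl
  refine ⟨σ, fun x => ⟨fun hx => ?_, fun hx => ?_⟩⟩
  · refine trans_mem V V' h σ (fun b hb hb1 => ?_) x hx
    have h1 : IsIntegral V₀ (σ b) :=
      IsIntegral.map_of_comp_eq (RingHom.id _) (σ : L →+* L)
        (by ext y; exact (σ.commutes (y : K)).symm) hb
    have h2 : σ b ∈ V' := mem_of_isIntegral V₀ V' (fun y hy => (h y).mp hy) _ h1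
    refine le_antisymm ((V'.valuation_le_one_iff _).mpr h2) (not_lt.mp fun h3 => ?_)
    have h4 := (hσ' ⟨σ b, h1⟩).mp h3
    have h5 : σ⁻¹ (σ b) = b := σ.symm_apply_apply b
    simp only [h5] at h4
    exact absurd hb1 h4.ne
  · have h6 := trans_mem V' V (fun y => (h y).symm) σ⁻¹ (fun b hb hb1 => ?_) (σ x) hx
    · have h5 : σ⁻¹ (σ x) = x := σ.symm_apply_apply x
      rwa [h5] at h6
    have hV₀' : V'.comap (algebraMap K L) = V₀ := by
      ext y
      exact (h y).symm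
    rw [hV₀'] at hb
    have h1 : IsIntegral V₀ (σ⁻¹ b) :=
      IsIntegral.map_of_comp_eq (RingHom.id _) ((σ⁻¹ : L ≃ₐ[K] L) : L →+* L)
        (by ext y; exact ((σ⁻¹).commutes (y : K)).symm) hb
    have h2 : σ⁻¹ b ∈ V := mem_of_isIntegral V₀ V (fun y hy => hy) _ h1
    refine le_antisymm ((V.valuation_le_one_iff _).mpr h2) (not_lt.mp fun h3 => ?_)
    have h4 := (hσ' ⟨b, hb⟩).mpr h3
    exact absurd hb1 h4.ne

end Pool.Agent.TBR.V

end

section


namespace Pool.Agent.TBR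

universe u

namespace V

theorem pow_mem_iff {L : Type*} [Field L] (V : ValuationSubring L) (x : L) (n : ℕ) (hn : n ≠ 0) :
    x ^ n ∈ V ↔ x ∈ V := by
  rw [← V.valuation_le_one_iff, ← V.valuation_le_one_iff, map_pow]
  exact pow_le_one_iff_of_nonneg zero_le hn

theorem transit {k Ω : Type u} [Field k] [Field Ω] [Algebra k Ω] [IsAlgClosed Ω]
    (E₀ : IntermediateField k Ω) (halg : ∀ x : Ω, IsAlgebraic E₀ x)
    (V V' : ValuationSubring Ω) (h : ∀ x ∈ E₀, x ∈ V ↔ x ∈ V') :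
    ∃ δ ∈ Fx k (E₀ : Set Ω), ∀ x : Ω, x ∈ V ↔ δ x ∈ V' := by
  have hA : Algebra.IsAlgebraic E₀ Ω := ⟨halg⟩
  set K₁ := perfectClosure E₀ Ω with hK₁
  have hA1 : Algebra.IsAlgebraic K₁ Ω := Algebra.IsAlgebraic.tower_top (K := E₀) K₁
  have hG : IsGalois K₁ Ω := by
    have : IsAlgClosure K₁ Ω := ⟨inferInstance, hA1⟩
    have : Normal K₁ Ω := IsAlgClosure.normal K₁ Ω
    have : Algebra.IsSeparable K₁ Ω := inferInstance
    exact ⟨⟩
  have hVV : ∀ y : K₁, algebraMap K₁ Ω y ∈ V ↔ algebraMap K₁ Ω y ∈ V' := by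
    intro y
    obtain ⟨n, z, hz⟩ := (mem_perfectClosure_iff (F := E₀) (E := Ω)).mp y.2
    have hp : ringExpChar E₀ ^ n ≠ 0 := pow_ne_zero _ (expChar_pos E₀ (ringExpChar E₀)).ne'
    change (y : Ω) ∈ V ↔ (y : Ω) ∈ V'
    rw [← Pool.Agent.TBR.V.pow_mem_iff V (y : Ω) _ hp, ← Pool.Agent.TBR.V.pow_mem_iff V' (y : Ω) _ hp, ← hz]
    exact h z z.2
  obtain ⟨σ, hσ⟩ := Pool.Agent.TBR.V.conj_val (K := K₁) (L := Ω) V V' hVV
  have hσE : ∀ x ∈ E₀, σ x = x := by
    intro x hx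
    have h1 : x = algebraMap K₁ Ω (algebraMap E₀ K₁ ⟨x, hx⟩) := rfl
    conv_lhs => rw [h1]
    rw [σ.commutes]
    rfl
  refine ⟨AlgEquiv.ofRingEquiv (f := σ.toRingEquiv) fun c => hσE _ (E₀.algebraMap_mem c),
    fun x hx => hσE x hx, fun x => hσ x⟩

end V

end Pool.Agent.TBR

end

section


namespace Pool.Agent.TBR

universe u

namespace V

variable {k Ω : Type u} [Field k] [Field Ω] [Algebra k Ω]

theorem mem_of_isAlgebraic (V : ValuationSubring Ω) (E : IntermediateField k Ω)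
    (hE : ∀ x ∈ E, x ∈ V) (x : Ω) (hx : IsAlgebraic E x) : x ∈ V := by
  let g : E →+* V :=
    { toFun := fun y => ⟨y, hE y y.2⟩
      map_one' := rfl
      map_mul' := fun x y => rfl
      map_zero' := rfl
      map_add' := fun x y => rfl }
  have h1 : IsIntegral V (RingHom.id Ω x) :=
    IsIntegral.map_of_comp_eq g (RingHom.id Ω) (by ext y; rfl) hx.isIntegral
  obtain ⟨y, hy⟩ := IsIntegrallyClosed.algebraMap_eq_of_integral (R := V) (K := Ω) h1
  have : x = y := hy.symm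
  rw [this]
  exact y.2

theorem eq_top (V : ValuationSubring Ω) (E : IntermediateField k Ω)
    (hE : ∀ x ∈ E, x ∈ V) (halg : ∀ x : Ω, IsAlgebraic E x) : V = ⊤ := by
  ext x
  exact ⟨fun _ => trivial, fun _ => mem_of_isAlgebraic V E hE x (halg x)⟩

theorem mem_AA (A : IntermediateField k Ω) (t x : Ω) :
    x ∈ AA A {t} ↔ ∃ r s : Polynomial A, x = Polynomial.aeval t r / Polynomial.aeval t s := by
  have h : AA A {t} = IntermediateField.restrictScalars k (IntermediateField.adjoin A {t}) := by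
    rw [IntermediateField.restrictScalars_adjoin, IntermediateField.adjoin_union,
      IntermediateField.adjoin_self]
    rfl
  rw [h, IntermediateField.mem_restrictScalars, IntermediateField.mem_adjoin_simple_iff]

variable (A : IntermediateField k Ω)

theorem val_A (V : ValuationSubring Ω) (hV : ∀ x ∈ A, x ∈ V) (a : A) (ha : a ≠ 0) :
    V.valuation (a : Ω) = 1 := by
  have h1 : V.valuation (a : Ω) ≤ 1 := (V.valuation_le_one_iff _).mpr (hV _ a.2)
  have h2 : V.valuation ((a : Ω)⁻¹) ≤ 1 :=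
    (V.valuation_le_one_iff _).mpr (hV _ (inv_mem a.2))
  have ha' : (a : Ω) ≠ 0 := fun h => ha (Subtype.ext h)
  rw [map_inv₀, inv_le_one₀ (zero_lt_iff.mpr ((map_ne_zero _).mpr ha'))] at h2
  exact le_antisymm h1 h2

theorem ord_poly (a : Ω) :
    ∀ (n : ℕ) (r : Polynomial A), r.natDegree = n → r ≠ 0 →
      ∃ m : ℕ, ∀ V : ValuationSubring Ω, (∀ x ∈ A, x ∈ V) → V.valuation a < 1 →
        V.valuation (Polynomial.aeval a r) = V.valuation a ^ m := by
  intro n
  induction n using Nat.strong_induction_on with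
  | _ n ih =>
    intro r hr hr0
    have hdec := r.divX_mul_X_add
    have hle : ∀ V : ValuationSubring Ω, (∀ x ∈ A, x ∈ V) → V.valuation a < 1 →
        V.valuation (Polynomial.aeval a r.divX) ≤ 1 := by
      intro V hV ha
      rw [V.valuation_le_one_iff, Polynomial.aeval_eq_sum_range]
      refine sum_mem fun i _ => ?_
      rw [Algebra.smul_def]
      exact mul_mem (hV _ (r.divX.coeff i).2)
        (pow_mem ((V.valuation_le_one_iff a).mp ha.le) i)
    by_cases h0 : r.coeff 0 = 0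
    · rw [h0, map_zero, add_zero] at hdec
      have hd0 : r.divX ≠ 0 := fun h => hr0 (by rw [← hdec, h, zero_mul])
      have hdeg : r.divX.natDegree < n := by
        have h1 : r.natDegree = r.divX.natDegree + 1 := by
          conv_lhs => rw [← hdec]
          rw [Polynomial.natDegree_mul_X hd0]
        omega
      obtain ⟨m, hm⟩ := ih _ hdeg r.divX rfl hd0
      refine ⟨m + 1, fun V hV ha => ?_⟩
      conv_lhs => rw [← hdec]
      rw [map_mul, Polynomial.aeval_X, map_mul, hm V hV ha, pow_succ]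
    · refine ⟨0, fun V hV ha => ?_⟩
      conv_lhs => rw [← hdec]
      rw [pow_zero, map_add, map_mul, Polynomial.aeval_X, Polynomial.aeval_C]
      have h1 : V.valuation (algebraMap A Ω (r.coeff 0)) = 1 := val_A A V hV _ h0
      have h2 : V.valuation (Polynomial.aeval a r.divX * a) < 1 := by
        rw [map_mul]
        calc _ ≤ 1 * V.valuation a := mul_le_mul_left (hle V hV ha) _
          _ < 1 := by rwa [one_mul]
      rw [Valuation.map_add_eq_of_lt_right _ (by rw [h1]; exact h2), h1]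

theorem ord_AA (a : Ω) (ha0 : a ≠ 0) (x : Ω) (hx : x ∈ AA A {a}) (hx0 : x ≠ 0) :
    ∃ m : ℤ, ∀ V : ValuationSubring Ω, (∀ x ∈ A, x ∈ V) → V.valuation a < 1 →
      V.valuation x = V.valuation a ^ m := by
  obtain ⟨r, s, rfl⟩ := (mem_AA A a x).mp hx
  have hr : r ≠ 0 := by rintro rfl; simp at hx0
  have hs : s ≠ 0 := by rintro rfl; simp at hx0
  obtain ⟨m, hm⟩ := ord_poly A a _ r rfl hr
  obtain ⟨n, hn⟩ := ord_poly A a _ s rfl hs
  refine ⟨(m : ℤ) - n, fun V hV ha => ?_⟩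
  have hva0 : V.valuation a ≠ 0 := (map_ne_zero _).mpr ha0
  rw [map_div₀, hm V hV ha, hn V hV ha, zpow_sub₀ hva0, zpow_natCast, zpow_natCast]

variable (hA1 : ∀ t : Ω, t ∉ A → ∀ x : Ω, IsAlgebraic (AA A {t}) x)

include hA1 in
/-- the valuation has rank one -/
theorem rank_one (V : ValuationSubring Ω) (hV : ∀ x ∈ A, x ∈ V) (a : Ω) (ha : V.valuation a < 1)
    (ha0 : a ≠ 0) (b : Ω) : ∃ n : ℕ, V.valuation (a ^ n * b) < 1 := by
  by_contra! hcon
  have hva0 : V.valuation a ≠ 0 := (map_ne_zero _).mpr ha0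
  have hva : 0 < V.valuation a := zero_lt_iff.mpr hva0
  have haA : a ∉ A := fun h => by
    have := val_A A V hV ⟨a, h⟩ (fun h' => ha0 (congrArg Subtype.val h'))
    rw [this] at ha
    exact lt_irrefl _ ha
  have hb0 : b ≠ 0 := by
    rintro rfl
    have := hcon 0
    simp at this
  have hβ : ∀ n : ℕ, V.valuation b⁻¹ ≤ V.valuation a ^ n := by
    intro n
    have h := hcon n
    rw [map_mul, map_pow] at h
    rw [map_inv₀]
    have hvb : 0 < V.valuation b := zero_lt_iff.mpr ((map_ne_zero _).mpr hb0)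
    rw [inv_le_iff_one_le_mul₀ hvb]
    exact h
  have hβ0 : b⁻¹ ≠ 0 := inv_ne_zero hb0
  set β := b⁻¹ with hβdef
  have hint : IsIntegral (AA A {a}) β := (hA1 a haA β).isIntegral
  set f := minpoly (AA A {a}) β with hf
  have hf0 : f.coeff 0 ≠ 0 := minpoly.coeff_zero_ne_zero hint hβ0
  have hfβ : Polynomial.aeval β f = 0 := minpoly.aeval _ _
  -- bound for the coefficients
  have hbd : ∀ x ∈ AA A {a}, ∃ N : ℕ, V.valuation x * V.valuation a ^ N ≤ 1 := by
    intro x hx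
    by_cases hx0 : x = 0
    · exact ⟨0, by simp [hx0]⟩
    · obtain ⟨m, hm'⟩ := ord_AA A a ha0 x hx hx0
      have hm := hm' V hV ha
      refine ⟨m.natAbs, ?_⟩
      rw [hm, ← zpow_natCast, ← zpow_add₀ hva0]
      have h1 : 0 ≤ m + (m.natAbs : ℤ) := by omega
      obtain ⟨j, hj⟩ := Int.eq_ofNat_of_zero_le h1
      rw [hj, zpow_natCast]
      exact pow_le_one₀ hva.le ha.le
  choose! N hN using hbd
  set M := ∑ i ∈ Finset.range (f.natDegree + 1), N (f.coeff i : Ω) with hM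
  have hbd2 : ∀ i ∈ Finset.range (f.natDegree + 1),
      V.valuation (f.coeff i : Ω) * V.valuation a ^ M ≤ 1 := by
    intro i hi
    have h1 : N (f.coeff i : Ω) ≤ M :=
      Finset.single_le_sum (f := fun i => N (f.coeff i : Ω)) (fun _ _ => Nat.zero_le _) hi
    calc _ ≤ V.valuation (f.coeff i : Ω) * V.valuation a ^ (N (f.coeff i : Ω)) :=
          mul_le_mul_right (pow_le_pow_of_le_one hva.le ha.le h1) _
      _ ≤ 1 := hN _ (f.coeff i).2
  obtain ⟨m₀, hm₀'⟩ := ord_AA A a ha0 (f.coeff 0 : Ω) (f.coeff 0).2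
    (fun h => hf0 (Subtype.ext h))
  have hm₀ := hm₀' V hV ha
  have hβ1 : V.valuation β ≤ 1 := by simpa using hβ 0
  have hkey : V.valuation (f.coeff 0 : Ω) * V.valuation a ^ M ≤ V.valuation β := by
    have h1 : (f.coeff 0 : Ω) = - ∑ i ∈ Finset.range f.natDegree,
        (f.coeff (i + 1) : Ω) * β ^ (i + 1) := by
      rw [Polynomial.aeval_eq_sum_range, Finset.sum_range_succ'] at hfβ
      simp only [Algebra.smul_def, pow_zero, mul_one, IntermediateField.algebraMap_apply] at hfβ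
      linear_combination hfβ
    have h2 : V.valuation ((f.coeff 0 : Ω) * a ^ M) ≤ V.valuation β := by
      rw [h1, neg_mul, Valuation.map_neg, Finset.sum_mul]
      refine Valuation.map_sum_le _ fun i hi => ?_
      have h3 := hbd2 (i + 1) (Finset.mem_range.mpr (by have := Finset.mem_range.mp hi; omega))
      rw [map_mul, map_mul, map_pow, map_pow, pow_succ]
      have h4 : V.valuation β ^ i ≤ 1 := pow_le_one₀ zero_le hβ1
      calc V.valuation (f.coeff (i + 1) : Ω) * (V.valuation β ^ i * V.valuation β)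
            * V.valuation a ^ M
          = (V.valuation (f.coeff (i + 1) : Ω) * V.valuation a ^ M) * V.valuation β ^ i
            * V.valuation β := by ac_rfl
        _ ≤ 1 * 1 * V.valuation β := by gcongr
        _ = V.valuation β := by rw [one_mul, one_mul]
    rwa [map_mul, map_pow] at h2
  -- contradiction
  have h5 := hkey.trans (hβ (M + m₀.natAbs + 1))
  rw [hm₀, ← zpow_natCast, ← zpow_natCast, ← zpow_add₀ hva0] at h5
  have h6 : m₀ + (M : ℤ) < ((M + m₀.natAbs + 1 : ℕ) : ℤ) := by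
    rw [Nat.cast_add, Nat.cast_add, Nat.cast_one]; omega
  exact absurd (zpow_right_strictAnti₀ hva ha h6) (not_lt.mpr h5)

theorem residue {k Ω : Type u} [Field k] [Field Ω] [Algebra k Ω]
    (A : IntermediateField k Ω) [IsAlgClosed A]
    (hA1 : ∀ t : Ω, t ∉ A → ∀ x : Ω, IsAlgebraic (AA A {t}) x)
    (V : ValuationSubring Ω) (hV : ∀ x ∈ A, x ∈ V) (hV' : V ≠ ⊤) (t : Ω) (ht : t ∈ V) :
    ∃ α ∈ A, t - α ∈ V.nonunits := by
  by_contra! hcon
  have htA : t ∉ A := fun h => hcon t h (by simp)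
  have h1 : ∀ α ∈ A, V.valuation (t - α) = 1 := by
    intro α hα
    refine le_antisymm ((V.valuation_le_one_iff _).mpr (sub_mem ht (hV _ hα))) (not_lt.mp ?_)
    intro h
    exact hcon α hα (V.mem_nonunits_iff.mpr h)
  have h2 : ∀ r : Polynomial A, r ≠ 0 → V.valuation (Polynomial.aeval t r) = 1 := by
    intro r hr
    have hs : r.Splits := IsAlgClosed.splits r
    rw [hs.eq_prod_roots, map_mul, Polynomial.aeval_C, map_mul]
    have h3 : V.valuation (algebraMap A Ω r.leadingCoeff) = 1 :=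
      Pool.Agent.TBR.V.val_A A V hV _ (Polynomial.leadingCoeff_ne_zero.mpr hr)
    rw [h3, one_mul, map_multiset_prod, map_multiset_prod, Multiset.map_map, Multiset.map_map]
    refine Multiset.prod_eq_one fun y hy => ?_
    obtain ⟨α, -, rfl⟩ := Multiset.mem_map.mp hy
    simp only [Function.comp_apply, map_sub, Polynomial.aeval_X, Polynomial.aeval_C]
    exact h1 _ α.2
  refine hV' (Pool.Agent.TBR.V.eq_top V (AA A {t}) (fun x hx => ?_) (hA1 t htA))
  obtain ⟨r, s, rfl⟩ := (Pool.Agent.TBR.V.mem_AA A t x).mp hx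
  by_cases hr : r = 0
  · rw [hr, map_zero, zero_div]; exact V.zero_mem
  by_cases hs : s = 0
  · rw [hs, map_zero, div_zero]; exact V.zero_mem
  rw [← V.valuation_le_one_iff, map_div₀, h2 r hr, h2 s hs, div_one]

end V

end Pool.Agent.TBR

end

section


namespace Pool.Agent.TBR

universe u

namespace V

variable {k Ω : Type u} [Field k] [Field Ω] [Algebra k Ω]
variable (A : IntermediateField k Ω)
variable (hA1 : ∀ t : Ω, t ∉ A → ∀ x : Ω, IsAlgebraic (AA A {t}) x)

include hA1 in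
theorem rank_one' (V : ValuationSubring Ω) (hV : ∀ x ∈ A, x ∈ V) (a : Ω) (ha : V.valuation a < 1)
    (ha0 : a ≠ 0) (b : Ω) : ∃ n₀ : ℕ, ∀ n, n₀ ≤ n → V.valuation (a ^ n * b) < 1 := by
  obtain ⟨n₀, h⟩ := rank_one A hA1 V hV a ha ha0 b
  refine ⟨n₀, fun n hn => ?_⟩
  rw [map_mul, map_pow] at h ⊢
  calc _ ≤ V.valuation a ^ n₀ * V.valuation b :=
        mul_le_mul_left (pow_le_pow_of_le_one zero_le ha.le hn) _
    _ < 1 := h

/-- an element of `F` outside `V` -/
theorem exists_notMem (F : IntermediateField k Ω) (halg : ∀ x : Ω, IsAlgebraic F x)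
    (V : ValuationSubring Ω) (hV' : V ≠ ⊤) : ∃ a ∈ F, a ∉ V := by
  by_contra! h
  exact hV' (eq_top V F h halg)

include hA1 in
/-- separation of two places -/
theorem exists_sep (F : IntermediateField k Ω) (halg : ∀ x : Ω, IsAlgebraic F x)
    (V W : ValuationSubring Ω) (hV : ∀ x ∈ A, x ∈ V) (hV' : V ≠ ⊤)
    (hW : ∀ x ∈ A, x ∈ W) (hW' : W ≠ ⊤) (hne : ∃ x ∈ F, ¬ (x ∈ V ↔ x ∈ W)) :
    ∃ z ∈ F, 1 < V.valuation z ∧ W.valuation z < 1 := by
  -- a one-sided element gives the other one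
  have key : ∀ V W : ValuationSubring Ω, (∀ x ∈ A, x ∈ V) → V ≠ ⊤ → (∀ x ∈ A, x ∈ W) → W ≠ ⊤ →
      (∃ x ∈ F, x ∈ V ∧ x ∉ W) → ∃ y ∈ F, y ∉ V ∧ y ∈ W := by
    rintro V W hV hV' hW hW' ⟨x, hxF, hxV, hxW⟩
    obtain ⟨a, haF, haV⟩ := exists_notMem F halg V hV'
    by_cases haW : a ∈ W
    · exact ⟨a, haF, haV, haW⟩
    · have hx1 : 1 < W.valuation x := not_le.mp fun h => hxW ((W.valuation_le_one_iff x).mp h)
      have hx0 : x ≠ 0 := fun h => hxW (h ▸ W.zero_mem)
      have hxi : W.valuation x⁻¹ < 1 := by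
        rw [map_inv₀]; exact inv_lt_one_of_one_lt₀ hx1
      obtain ⟨n, hn⟩ := rank_one A hA1 W hW x⁻¹ hxi (inv_ne_zero hx0) a
      refine ⟨x⁻¹ ^ n * a, mul_mem (pow_mem (inv_mem hxF) n) haF, fun h => haV ?_,
        (W.valuation_le_one_iff _).mp hn.le⟩
      have : a = x ^ n * (x⁻¹ ^ n * a) := by
        rw [← mul_assoc, ← mul_pow, mul_inv_cancel₀ hx0, one_pow, one_mul]
      rw [this]
      exact mul_mem (pow_mem hxV n) h
  obtain ⟨x, hxF, hx⟩ := hne
  have h12 : (∃ x ∈ F, x ∈ V ∧ x ∉ W) ∧ (∃ y ∈ F, y ∉ V ∧ y ∈ W) := by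
    by_cases hxV : x ∈ V
    · have hxW : x ∉ W := fun h => hx ⟨fun _ => h, fun _ => hxV⟩
      exact ⟨⟨x, hxF, hxV, hxW⟩, key V W hV hV' hW hW' ⟨x, hxF, hxV, hxW⟩⟩
    · have hxW : x ∈ W := by
        by_contra h
        exact hx ⟨fun h' => absurd h' hxV, fun h' => absurd h' h⟩
      obtain ⟨y, hyF, hyW, hyV⟩ := key W V hW hW' hV hV' ⟨x, hxF, hxW, hxV⟩
      exact ⟨⟨y, hyF, hyV, hyW⟩, ⟨x, hxF, hxV, hxW⟩⟩
  obtain ⟨⟨x, hxF, hxV, hxW⟩, ⟨y, hyF, hyV, hyW⟩⟩ := h12
  have hx0 : x ≠ 0 := fun h => hxW (h ▸ W.zero_mem)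
  have hx1 : 1 < W.valuation x := not_le.mp fun h => hxW ((W.valuation_le_one_iff x).mp h)
  have hy1 : 1 < V.valuation y := not_le.mp fun h => hyV ((V.valuation_le_one_iff y).mp h)
  have hxV1 : V.valuation x ≤ 1 := (V.valuation_le_one_iff x).mpr hxV
  have hyW1 : W.valuation y ≤ 1 := (W.valuation_le_one_iff y).mpr hyW
  have hvx : 0 < V.valuation x := zero_lt_iff.mpr ((map_ne_zero _).mpr hx0)
  have hwx : 0 < W.valuation x := zero_lt_iff.mpr ((map_ne_zero _).mpr hx0)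
  refine ⟨y / x, div_mem hyF hxF, ?_, ?_⟩
  · rw [map_div₀, one_lt_div₀ hvx]
    exact hxV1.trans_lt hy1
  · rw [map_div₀, div_lt_one₀ hwx]
    exact hyW1.trans_lt hx1

theorem val_one_add (V : ValuationSubring Ω) (z : Ω) (hz : 1 < V.valuation z) :
    V.valuation (1 + z) = V.valuation z :=
  Valuation.map_add_eq_of_lt_right _ (by rwa [map_one])

theorem val_one_add' (V : ValuationSubring Ω) (z : Ω) (hz : V.valuation z < 1) :
    V.valuation (1 + z) = 1 := by
  rw [Valuation.map_add_eq_of_lt_left _ (by rwa [map_one]), map_one]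

include hA1 in
theorem exists_sep' (F : IntermediateField k Ω) (halg : ∀ x : Ω, IsAlgebraic F x)
    (V : ValuationSubring Ω) (hV : ∀ x ∈ A, x ∈ V) (hV' : V ≠ ⊤)
    (S : Finset (ValuationSubring Ω)) (hS : ∀ W ∈ S, (∀ x ∈ A, x ∈ W) ∧ W ≠ ⊤ ∧
      ∃ x ∈ F, ¬ (x ∈ V ↔ x ∈ W)) :
    ∃ z ∈ F, 1 < V.valuation z ∧ ∀ W ∈ S, W.valuation z < 1 := by
  classical
  induction S using Finset.induction_on with
  | empty =>
    obtain ⟨a, haF, haV⟩ := exists_notMem F halg V hV'
    exact ⟨a, haF, not_le.mp fun h => haV ((V.valuation_le_one_iff a).mp h), by simp⟩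
  | insert W' S hW'S ih =>
    obtain ⟨z, hzF, hzV, hzS⟩ := ih fun W hW => hS W (Finset.mem_insert_of_mem hW)
    obtain ⟨hW'A, hW't, hW'ne⟩ := hS W' (Finset.mem_insert_self _ _)
    obtain ⟨y, hyF, hyV, hyW'⟩ := exists_sep A hA1 F halg V W' hV hV' hW'A hW't hW'ne
    have hz0 : z ≠ 0 := by rintro rfl; simp at hzV
    -- large exponent for all W in S
    have hn : ∃ n₀ : ℕ, ∀ n, n₀ ≤ n → ∀ W ∈ S, W.valuation (z ^ n * y) < 1 := by
      have h1 : ∀ W ∈ S, ∃ n₀ : ℕ, ∀ n, n₀ ≤ n → W.valuation (z ^ n * y) < 1 := fun W hW =>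
        rank_one' A hA1 W (hS W (Finset.mem_insert_of_mem hW)).1 z (hzS W hW) hz0 y
      choose! N hN using h1
      exact ⟨S.sup N, fun n hn W hW => hN W hW n ((Finset.le_sup hW).trans hn)⟩
    obtain ⟨n₀, hn₀⟩ := hn
    set n := n₀ + 1 with hndef
    have hn1 : n ≠ 0 := by omega
    have hVn : 1 < V.valuation (z ^ n) := by
      rw [map_pow]; exact one_lt_pow₀ hzV hn1
    have hSn : ∀ W ∈ S, W.valuation (z ^ n) < 1 := fun W hW => by
      rw [map_pow]; exact pow_lt_one₀ zero_le (hzS W hW) hn1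
    by_cases hzW' : W'.valuation z ≤ 1
    · refine ⟨z ^ n * y, mul_mem (pow_mem hzF n) hyF, ?_, ?_⟩
      · rw [map_mul]; exact one_lt_mul'' hVn hyV
      · intro W hW
        rcases Finset.mem_insert.mp hW with rfl | hW
        · rw [map_mul, map_pow]
          calc _ ≤ 1 * W.valuation y := mul_le_mul_left (pow_le_one₀ zero_le hzW') _
            _ < 1 := by rwa [one_mul]
        · exact hn₀ n (by omega) W hW
    · have hzW1 : 1 < W'.valuation z := not_le.mp hzW'
      have hW'n : 1 < W'.valuation (z ^ n) := by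
        rw [map_pow]; exact one_lt_pow₀ hzW1 hn1
      refine ⟨z ^ n / (1 + z ^ n) * y, mul_mem (div_mem (pow_mem hzF n)
        (add_mem (one_mem _) (pow_mem hzF n))) hyF, ?_, ?_⟩
      · rw [map_mul, map_div₀, val_one_add V _ hVn, div_self (zero_lt_one.trans hVn).ne', one_mul]
        exact hyV
      · intro W hW
        rcases Finset.mem_insert.mp hW with rfl | hW
        · rw [map_mul, map_div₀, val_one_add W _ hW'n, div_self (zero_lt_one.trans hW'n).ne',
            one_mul]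
          exact hyW'
        · rw [map_mul, map_div₀, val_one_add' W _ (hSn W hW), div_one, ← map_mul]
          exact hn₀ n (by omega) W hW

end V

end Pool.Agent.TBR

end

section


namespace Pool.Agent.TBR

universe u

namespace V

variable {k Ω : Type u} [Field k] [Field Ω] [Algebra k Ω]
variable (A : IntermediateField k Ω)
variable (hA1 : ∀ t : Ω, t ∉ A → ∀ x : Ω, IsAlgebraic (AA A {t}) x)

include hA1 in
theorem approx (F : IntermediateField k Ω) (halg : ∀ x : Ω, IsAlgebraic F x)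
    (𝒱 : Finset (ValuationSubring Ω)) (hV : ∀ V ∈ 𝒱, (∀ x ∈ A, x ∈ V) ∧ V ≠ ⊤)
    (hne : ∀ V ∈ 𝒱, ∀ V' ∈ 𝒱, V ≠ V' → ∃ x ∈ F, ¬ (x ∈ V ↔ x ∈ V'))
    (f : ValuationSubring Ω → Ωˣ) (hf : ∀ V ∈ 𝒱, (f V : Ω) ∈ F) :
    ∃ g : Ωˣ, (g : Ω) ∈ F ∧ ∀ V ∈ 𝒱, g * (f V)⁻¹ ∈ V.unitGroup := by
  classical
  have hz : ∀ V ∈ 𝒱, ∃ z ∈ F, 1 < V.valuation z ∧ ∀ W ∈ 𝒱.erase V, W.valuation z < 1 := by
    intro V hVm
    refine exists_sep' A hA1 F halg V (hV V hVm).1 (hV V hVm).2 _ fun W hW => ?_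
    have hWm := Finset.mem_of_mem_erase hW
    exact ⟨(hV W hWm).1, (hV W hWm).2, hne V hVm W hWm (Finset.ne_of_mem_erase hW).symm⟩
  choose! z hzF hzV hzW using hz
  have hn : ∀ V ∈ 𝒱, ∃ n₀ : ℕ, ∀ n, n₀ ≤ n → ∀ W ∈ 𝒱.erase V,
      W.valuation (z V ^ n * ((f V : Ω) * (f W : Ω)⁻¹)) < 1 := by
    intro V hVm
    have hz0 : z V ≠ 0 := by
      intro h
      have := hzV V hVm
      rw [h, map_zero] at this
      exact absurd this (not_lt.mpr zero_le)
    have h1 : ∀ W ∈ 𝒱.erase V, ∃ n₀ : ℕ, ∀ n, n₀ ≤ n →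
        W.valuation (z V ^ n * ((f V : Ω) * (f W : Ω)⁻¹)) < 1 := fun W hW =>
      rank_one' A hA1 W (hV W (Finset.mem_of_mem_erase hW)).1 (z V) (hzW V hVm W hW) hz0 _
    choose! N hN using h1
    exact ⟨(𝒱.erase V).sup N, fun n hn W hW => hN W hW n ((Finset.le_sup hW).trans hn)⟩
  choose! N hN using hn
  set n := 𝒱.sup N + 1 with hndef
  have hn1 : n ≠ 0 := by omega
  set e : ValuationSubring Ω → Ω := fun V => z V ^ n / (1 + z V ^ n) with he
  have heF : ∀ V ∈ 𝒱, e V ∈ F := fun V hVm => div_mem (pow_mem (hzF V hVm) n)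
    (add_mem (one_mem _) (pow_mem (hzF V hVm) n))
  have heV : ∀ V ∈ 𝒱, V.valuation (e V) = 1 := by
    intro V hVm
    have h1 : 1 < V.valuation (z V ^ n) := by rw [map_pow]; exact one_lt_pow₀ (hzV V hVm) hn1
    rw [he]
    simp only
    rw [map_div₀, val_one_add V _ h1, div_self (zero_lt_one.trans h1).ne']
  have heW : ∀ V ∈ 𝒱, ∀ W ∈ 𝒱.erase V,
      W.valuation ((f V : Ω) * e V) < W.valuation (f W : Ω) := by
    intro V hVm W hW
    have h1 : W.valuation (z V ^ n) < 1 := by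
      rw [map_pow]; exact pow_lt_one₀ zero_le (hzW V hVm W hW) hn1
    have h2 := hN V hVm n (by
      have := Finset.le_sup (f := N) hVm
      omega) W hW
    have hfW : 0 < W.valuation (f W : Ω) :=
      zero_lt_iff.mpr ((map_ne_zero _).mpr (f W).ne_zero)
    rw [he]
    simp only
    rw [map_mul, map_div₀, val_one_add' W _ h1, div_one]
    rw [map_mul, map_mul, map_inv₀, ← mul_assoc, ← div_eq_mul_inv, div_lt_one₀ hfW] at h2
    rwa [mul_comm] at h2
  set g : Ω := ∑ V ∈ 𝒱, (f V : Ω) * e V with hg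
  have hgF : g ∈ F := sum_mem fun V hVm => mul_mem (hf V hVm) (heF V hVm)
  have hgV : ∀ V ∈ 𝒱, V.valuation g = V.valuation (f V : Ω) := by
    intro V hVm
    have hfV : V.valuation (f V : Ω) ≠ 0 := (map_ne_zero _).mpr (f V).ne_zero
    have h1 : V.valuation ((f V : Ω) * e V) = V.valuation (f V : Ω) := by
      rw [map_mul, heV V hVm, mul_one]
    have h2 : V.valuation (∑ W ∈ 𝒱.erase V, (f W : Ω) * e W) < V.valuation (f V : Ω) := by
      refine Valuation.map_sum_lt _ hfV fun W hW => ?_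
      exact heW W (Finset.mem_of_mem_erase hW) V
        (Finset.mem_erase.mpr ⟨(Finset.ne_of_mem_erase hW).symm, hVm⟩)
    rw [hg, ← Finset.add_sum_erase _ _ hVm,
      Valuation.map_add_eq_of_lt_left _ (by rw [h1]; exact h2), h1]
  by_cases hE : 𝒱.Nonempty
  · obtain ⟨V₀, hV₀⟩ := hE
    have hg0 : g ≠ 0 := by
      intro h
      have h1 := hgV V₀ hV₀
      rw [h, map_zero] at h1
      exact (map_ne_zero V₀.valuation).mpr (f V₀).ne_zero h1.symm
    refine ⟨Units.mk0 g hg0, hgF, fun V hVm => ?_⟩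
    rw [ValuationSubring.mem_unitGroup_iff]
    push_cast
    rw [map_mul, Units.val_mk0, hgV V hVm, ← map_mul, mul_inv_cancel₀ (f V).ne_zero, map_one]
  · refine ⟨1, one_mem F, fun V hVm => absurd ⟨V, hVm⟩ hE⟩

end V

end Pool.Agent.TBR

end

section


namespace Pool.Agent.TBR

universe u

namespace V

variable {k Ω : Type u} [Field k] [Field Ω] [Algebra k Ω]

/-- the field where two automorphisms agree -/
def eqF (δ δ' : Ω ≃ₐ[k] Ω) : IntermediateField k Ω where
  carrier := {x | δ x = δ' x}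
  mul_mem' {a b} ha hb := by
    rw [Set.mem_setOf_eq] at *
    rw [map_mul, map_mul, ha, hb]
  add_mem' {a b} ha hb := by
    rw [Set.mem_setOf_eq] at *
    rw [map_add, map_add, ha, hb]
  algebraMap_mem' c := by simp
  inv_mem' a ha := by
    rw [Set.mem_setOf_eq] at *
    rw [map_inv₀, map_inv₀, ha]

theorem agree_AA (A : IntermediateField k Ω) (S : Set Ω) (δ δ' : Ω ≃ₐ[k] Ω)
    (hA : ∀ x ∈ A, δ x = δ' x) (hS : ∀ x ∈ S, δ x = δ' x) : ∀ x ∈ AA A S, δ x = δ' x := by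
  have h : AA A S ≤ eqF δ δ' :=
    sup_le (fun x hx => hA x hx) (IntermediateField.adjoin_le_iff.mpr fun x hx => hS x hx)
  exact fun x hx => h hx

theorem le_AA (A : IntermediateField k Ω) (S : Set Ω) : A ≤ AA A S := le_sup_left

theorem sub_AA (A : IntermediateField k Ω) (S : Set Ω) : S ⊆ AA A S :=
  (IntermediateField.subset_adjoin k S).trans (le_sup_right : _ ≤ AA A S)

/-- finitely many conjugates -/
theorem finite_conj (E : IntermediateField k Ω) (b : Ω) (hb : IsAlgebraic E b) :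
    {y : Ω | ∃ σ ∈ Fx k (E : Set Ω), σ b = y}.Finite := by
  have hm : minpoly E b ≠ 0 := minpoly.ne_zero hb.isIntegral
  refine Set.Finite.subset (Polynomial.rootSet_finite (minpoly E b) Ω) ?_
  rintro y ⟨σ, hσ, rfl⟩
  rw [Polynomial.mem_rootSet]
  refine ⟨hm, ?_⟩
  have h1 : Polynomial.aeval (σ b) (minpoly E b) = σ (Polynomial.aeval b (minpoly E b)) := by
    rw [Polynomial.aeval_eq_sum_range, Polynomial.aeval_eq_sum_range, map_sum]
    refine Finset.sum_congr rfl fun i _ => ?_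
    rw [Algebra.smul_def, Algebra.smul_def, map_mul, map_pow]
    congr 1
    exact (hσ _ ((minpoly E b).coeff i).2).symm
  rw [h1, minpoly.aeval, map_zero]

variable (A : IntermediateField k Ω)
variable (hA1 : ∀ t : Ω, t ∉ A → ∀ x : Ω, IsAlgebraic (AA A {t}) x)

theorem same_AA (a : Ω) (ha0 : a ≠ 0) (V V' : ValuationSubring Ω) (hV : ∀ x ∈ A, x ∈ V)
    (hV' : ∀ x ∈ A, x ∈ V') (ha : V.valuation a < 1) (ha' : V'.valuation a < 1) :
    ∀ x ∈ AA A {a}, x ∈ V ↔ x ∈ V' := by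
  intro x hx
  by_cases hx0 : x = 0
  · simp [hx0]
  obtain ⟨m, hm⟩ := ord_AA A a ha0 x hx hx0
  have key : ∀ W : ValuationSubring Ω, (∀ x ∈ A, x ∈ W) → W.valuation a < 1 →
      (x ∈ W ↔ 0 ≤ m) := by
    intro W hW hWa
    have hwa : 0 < W.valuation a := zero_lt_iff.mpr ((map_ne_zero _).mpr ha0)
    rw [← W.valuation_le_one_iff, hm W hW hWa]
    constructor
    · intro h
      by_contra hneg
      push Not at hneg
      have h1 := zpow_right_strictAnti₀ hwa hWa hneg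
      simp only [zpow_zero] at h1
      exact absurd h (not_le.mpr h1)
    · intro h
      obtain ⟨j, rfl⟩ := Int.eq_ofNat_of_zero_le h
      rw [zpow_natCast]
      exact pow_le_one₀ zero_le hWa.le
  rw [key V hV ha, key V' hV' ha']

include hA1 in
theorem fin_places_one [IsAlgClosed Ω] (F : IntermediateField k Ω) (B : Finset Ω)
    (hF : F = AA A (B : Set Ω)) (a : Ω) (haA : a ∉ A) :
    ∃ 𝒱 : Finset (ValuationSubring Ω), (∀ V ∈ 𝒱, (∀ x ∈ A, x ∈ V) ∧ V ≠ ⊤) ∧
      ∀ V : ValuationSubring Ω, (∀ x ∈ A, x ∈ V) → V.valuation a < 1 →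
        ∃ V' ∈ 𝒱, ∀ x ∈ F, x ∈ V ↔ x ∈ V' := by
  classical
  have ha0 : a ≠ 0 := fun h => haA (h ▸ zero_mem A)
  set 𝒮 : Set (ValuationSubring Ω) := {V | (∀ x ∈ A, x ∈ V) ∧ V.valuation a < 1} with h𝒮
  have htop : ∀ V ∈ 𝒮, V ≠ ⊤ := by
    rintro V ⟨hVA, hVa⟩ rfl
    have h1 : a⁻¹ ∈ (⊤ : ValuationSubring Ω) := trivial
    rw [← ValuationSubring.valuation_le_one_iff, map_inv₀] at h1
    have h2 : 0 < (⊤ : ValuationSubring Ω).valuation a :=
      zero_lt_iff.mpr ((map_ne_zero _).mpr ha0)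
    exact absurd ((inv_le_one₀ h2).mp h1) (not_le.mpr hVa)
  by_cases hne : 𝒮.Nonempty
  swap
  · exact ⟨∅, by simp, fun V hV ha => absurd ⟨V, hV, ha⟩ hne⟩
  obtain ⟨V₁, hV₁⟩ := hne
  have hδ : ∀ V ∈ 𝒮, ∃ δ ∈ Fx k (AA A {a} : Set Ω), ∀ x : Ω, x ∈ V ↔ δ x ∈ V₁ := fun V hV =>
    transit (AA A {a}) (hA1 a haA) V V₁ (same_AA A a ha0 V V₁ hV.1 hV₁.1 hV.2 hV₁.2)
  choose! δ hδF hδV using hδ
  let Φ : ValuationSubring Ω → (B → Ω) := fun V b => δ V b
  have hfin : (Φ '' 𝒮).Finite := by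
    refine Set.Finite.subset (Set.Finite.pi' (fun b : B =>
      finite_conj (AA A {a}) (b : Ω) (hA1 a haA b))) ?_
    rintro _ ⟨V, hV, rfl⟩ b
    exact ⟨δ V, hδF V hV, rfl⟩
  obtain ⟨𝒱, h𝒱sub, h𝒱fin, h𝒱⟩ := Set.exists_subset_image_finite_and.mp
    ⟨Φ '' 𝒮, subset_rfl, hfin, rfl⟩
  refine ⟨h𝒱fin.toFinset, fun V hV => ?_, fun V hV hVa => ?_⟩
  · have h1 := h𝒱sub (h𝒱fin.mem_toFinset.mp hV)
    exact ⟨h1.1, htop V h1⟩
  · have hVS : V ∈ 𝒮 := ⟨hV, hVa⟩
    have h1 : Φ V ∈ Φ '' 𝒱 := by rw [← h𝒱]; exact ⟨V, hVS, rfl⟩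
    obtain ⟨V', hV', hΦ⟩ := h1
    refine ⟨V', h𝒱fin.mem_toFinset.mpr hV', fun x hx => ?_⟩
    have h2 : δ V' x = δ V x := by
      refine agree_AA A (B : Set Ω) (δ V') (δ V) (fun y hy => ?_) (fun y hy => ?_) x (hF ▸ hx)
      · rw [hδF V' (h𝒱sub hV') y (le_AA A {a} hy), hδF V hVS y (le_AA A {a} hy)]
      · exact congrFun hΦ ⟨y, hy⟩
    rw [hδV V hVS x, hδV V' (h𝒱sub hV') x, h2]

include hA1 in
theorem fin_places [IsAlgClosed Ω] (F : IntermediateField k Ω) (B : Finset Ω)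
    (hF : F = AA A (B : Set Ω)) (t : Ω) (htA : t ∉ A) :
    ∃ 𝒱 : Finset (ValuationSubring Ω), (∀ V ∈ 𝒱, (∀ x ∈ A, x ∈ V) ∧ V ≠ ⊤) ∧
      ∀ V : ValuationSubring Ω, (∀ x ∈ A, x ∈ V) → V ≠ ⊤ → (t ∉ V ∨ t⁻¹ ∉ V) →
        ∃ V' ∈ 𝒱, ∀ x ∈ F, x ∈ V ↔ x ∈ V' := by
  classical
  have htiA : t⁻¹ ∉ A := fun h => htA (by simpa using inv_mem h)
  obtain ⟨𝒱₁, h11, h12⟩ := fin_places_one A hA1 F B hF t htA
  obtain ⟨𝒱₂, h21, h22⟩ := fin_places_one A hA1 F B hF t⁻¹ htiA
  refine ⟨𝒱₁ ∪ 𝒱₂, fun V hV => ?_, fun V hV hV' hor => ?_⟩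
  · rcases Finset.mem_union.mp hV with h | h
    · exact h11 V h
    · exact h21 V h
  · rcases hor with h | h
    · have h1 : V.valuation t⁻¹ < 1 := by
        rw [map_inv₀]
        exact inv_lt_one_of_one_lt₀ (not_le.mp fun h' => h ((V.valuation_le_one_iff t).mp h'))
      obtain ⟨V', hV', hx⟩ := h22 V hV h1
      exact ⟨V', Finset.mem_union_right _ hV', hx⟩
    · have h1 : V.valuation t < 1 := by
        have h2 : 1 < V.valuation t⁻¹ :=
          not_le.mp fun h' => h ((V.valuation_le_one_iff t⁻¹).mp h')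
        have h3 := inv_lt_one_of_one_lt₀ h2
        rwa [← map_inv₀, inv_inv] at h3
      obtain ⟨V', hV', hx⟩ := h12 V hV h1
      exact ⟨V', Finset.mem_union_left _ hV', hx⟩

end V

end Pool.Agent.TBR

end

section


namespace Pool.Agent.TBR

universe u

namespace V

variable {k Ω : Type u} [Field k] [Field Ω] [Algebra k Ω]

/-- an element fixed by all automorphisms over `F` is purely inseparable over `F` -/
theorem pow_mem_of_fixed [IsAlgClosed Ω] (p : ℕ) [ExpChar Ω p] (F : IntermediateField k Ω)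
    (halg : ∀ x : Ω, IsAlgebraic F x) (N : Ω) (hN : ∀ σ ∈ Fx k (F : Set Ω), σ N = N) :
    ∃ r : ℕ, N ^ p ^ r ∈ F := by
  have hA : Algebra.IsAlgebraic F Ω := ⟨halg⟩
  have hp : ExpChar F p := (algebraMap F Ω).expChar (algebraMap F Ω).injective p
  set K₁ := perfectClosure F Ω with hK₁
  have hA1 : Algebra.IsAlgebraic K₁ Ω := Algebra.IsAlgebraic.tower_top (K := F) K₁
  have hG : IsGalois K₁ Ω := by
    have : IsAlgClosure K₁ Ω := ⟨inferInstance, hA1⟩
    have : Normal K₁ Ω := IsAlgClosure.normal K₁ Ω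
    have : Algebra.IsSeparable K₁ Ω := inferInstance
    exact ⟨⟩
  have h1 : N ∈ Set.range (algebraMap K₁ Ω) := by
    rw [InfiniteGalois.mem_range_algebraMap_iff_fixed]
    intro σ
    have hσE : ∀ x ∈ F, σ x = x := by
      intro x hx
      have h1 : x = algebraMap K₁ Ω (algebraMap F K₁ ⟨x, hx⟩) := rfl
      conv_lhs => rw [h1]
      rw [σ.commutes]
      rfl
    exact hN (AlgEquiv.ofRingEquiv (f := σ.toRingEquiv) fun c => hσE _ (F.algebraMap_mem c))
      fun x hx => hσE x hx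
  obtain ⟨y, rfl⟩ := h1
  obtain ⟨n, z, hz⟩ := (mem_perfectClosure_iff_pow_mem (F := F) (E := Ω) p).mp y.2
  refine ⟨n, ?_⟩
  have h2 : (algebraMap K₁ Ω y) ^ p ^ n = (z : Ω) := hz.symm
  rw [h2]
  exact z.2

variable (A : IntermediateField k Ω)
variable (hA1 : ∀ t : Ω, t ∉ A → ∀ x : Ω, IsAlgebraic (AA A {t}) x)

include hA1 in
theorem approx_one (F : IntermediateField k Ω) (halg : ∀ x : Ω, IsAlgebraic F x)
    (V : ValuationSubring Ω) (hV : ∀ x ∈ A, x ∈ V) (hV' : V ≠ ⊤)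
    (S : Finset (ValuationSubring Ω)) (hS : ∀ W ∈ S, (∀ x ∈ A, x ∈ W) ∧ W ≠ ⊤ ∧
      ∃ x ∈ F, ¬ (x ∈ V ↔ x ∈ W)) (x : Ω) (hxF : x ∈ F) (hx0 : x ≠ 0) :
    ∃ g ∈ F, V.valuation g = V.valuation x ∧ ∀ W ∈ S, W.valuation g = 1 := by
  obtain ⟨z, hzF, hzV, hzS⟩ := exists_sep' A hA1 F halg V hV hV' S hS
  have hz0 : z ≠ 0 := by rintro rfl; simp at hzV
  have hzi : V.valuation z⁻¹ < 1 := by
    rw [map_inv₀]; exact inv_lt_one_of_one_lt₀ hzV
  obtain ⟨n₁, hn₁⟩ := rank_one' A hA1 V hV z⁻¹ hzi (inv_ne_zero hz0) x⁻¹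
  have hn : ∃ n₀ : ℕ, ∀ n, n₀ ≤ n → ∀ W ∈ S, W.valuation (z ^ n * x) < 1 := by
    have h1 : ∀ W ∈ S, ∃ n₀ : ℕ, ∀ n, n₀ ≤ n → W.valuation (z ^ n * x) < 1 := fun W hW =>
      rank_one' A hA1 W (hS W hW).1 z (hzS W hW) hz0 x
    choose! N hN using h1
    exact ⟨S.sup N, fun n hn W hW => hN W hW n ((Finset.le_sup hW).trans hn)⟩
  obtain ⟨n₂, hn₂⟩ := hn
  set n := n₁ + n₂ + 1 with hndef
  have hn0 : n ≠ 0 := by omega
  have hvx : 0 < V.valuation x := zero_lt_iff.mpr ((map_ne_zero _).mpr hx0)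
  have hVn : 1 < V.valuation (z ^ n) := by
    rw [map_pow]; exact one_lt_pow₀ hzV hn0
  have hVx : 1 < V.valuation (z ^ n * x) := by
    have h1 := hn₁ n (by omega)
    have h2 : z⁻¹ ^ n * x⁻¹ = (z ^ n * x)⁻¹ := by rw [mul_inv, inv_pow]
    rw [h2, map_inv₀] at h1
    have h3 : 0 < V.valuation (z ^ n * x) :=
      zero_lt_iff.mpr ((map_ne_zero _).mpr (mul_ne_zero (pow_ne_zero _ hz0) hx0))
    exact (inv_lt_one₀ h3).mp h1
  refine ⟨(1 + z ^ n * x) / (1 + z ^ n), div_mem (add_mem (one_mem _)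
    (mul_mem (pow_mem hzF n) hxF)) (add_mem (one_mem _) (pow_mem hzF n)), ?_, fun W hW => ?_⟩
  · rw [map_div₀, val_one_add V _ hVn, val_one_add V _ hVx, map_mul,
      mul_div_cancel_left₀ _ (zero_lt_one.trans hVn).ne']
  · have h1 : W.valuation (z ^ n) < 1 := by
      rw [map_pow]; exact pow_lt_one₀ zero_le (hzS W hW) hn0
    rw [map_div₀, val_one_add' W _ h1, val_one_add' W _ (hn₂ n (by omega) W hW), div_one]

theorem val_eq_one_iff (V : ValuationSubring Ω) (x : Ω) (hx : x ≠ 0) :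
    V.valuation x = 1 ↔ x ∈ V ∧ x⁻¹ ∈ V := by
  have hvx : 0 < V.valuation x := zero_lt_iff.mpr ((map_ne_zero _).mpr hx)
  rw [← V.valuation_le_one_iff, ← V.valuation_le_one_iff, map_inv₀, inv_le_one₀ hvx]
  exact ⟨fun h => ⟨h.le, h.ge⟩, fun h => le_antisymm h.1 h.2⟩

include hA1 in
theorem vgr [IsAlgClosed Ω] (p : ℕ) [ExpChar Ω p] (F : IntermediateField k Ω) (hAF : A ≤ F)
    (halg : ∀ x : Ω, IsAlgebraic F x) (V : ValuationSubring Ω) (hV : ∀ x ∈ A, x ∈ V) (hV' : V ≠ ⊤)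
    (x : Ωˣ) (hx : ∀ σ ∈ Fx k (F : Set Ω) ⊓ St k V, σ (x : Ω) = x) :
    ∃ r : ℕ, ∃ f : Ωˣ, (f : Ω) ∈ F ∧ x ^ p ^ r * f⁻¹ ∈ V.unitGroup := by
  classical
  set F' : IntermediateField k Ω := AA F {(x : Ω)} with hF'
  have hFF' : F ≤ F' := le_AA F _
  have hxF' : (x : Ω) ∈ F' := sub_AA F _ (Set.mem_singleton _)
  have halg' : ∀ y : Ω, IsAlgebraic F' y := by
    intro y
    let _ : Algebra F F' := (IntermediateField.inclusion hFF').toRingHom.toAlgebra
    have : IsScalarTower F F' Ω := IsScalarTower.of_algebraMap_eq fun _ => rfl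
    exact (halg y).tower_top F'
  have hfin := finite_conj F (x : Ω) (halg x)
  set O : Finset Ω := hfin.toFinset with hO
  have hOm : ∀ y, y ∈ O ↔ ∃ σ ∈ Fx k (F : Set Ω), σ (x : Ω) = y := by
    intro y
    rw [hO, Set.Finite.mem_toFinset]
    rfl
  have hs : ∀ y ∈ O, ∃ σ ∈ Fx k (F : Set Ω), σ (x : Ω) = y := fun y hy => (hOm y).mp hy
  choose! s hsF hsx using hs
  have hxO : (x : Ω) ∈ O := (hOm _).mpr ⟨1, one_mem _, rfl⟩
  let W : Ω → ValuationSubring Ω := fun y => V.comap (s y : Ω →+* Ω)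
  have hWm : ∀ y z, z ∈ W y ↔ s y z ∈ V := fun y z => Iff.rfl
  have hWA : ∀ y ∈ O, ∀ z ∈ A, z ∈ W y := by
    intro y hy z hz
    rw [hWm, hsF y hy z (hAF hz)]
    exact hV z hz
  have hWt : ∀ y, W y ≠ ⊤ := by
    intro y h
    refine hV' ?_
    ext z
    refine ⟨fun _ => trivial, fun _ => ?_⟩
    have h1 : (s y).symm z ∈ W y := by rw [h]; trivial
    rw [hWm, AlgEquiv.apply_symm_apply] at h1
    exact h1
  have hWne : ∀ y ∈ O, y ≠ x → ∃ z ∈ F', ¬ (z ∈ V ↔ z ∈ W y) := by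
    intro y hy hyx
    by_contra! hcon
    obtain ⟨δ, hδF, hδ⟩ := transit F' halg' V (W y) hcon
    refine hyx ?_
    have h1 := hx (s y * δ) ⟨?_, ?_⟩
    · rw [AlgEquiv.mul_apply, hδF _ hxF', hsx y hy] at h1
      exact h1
    · intro z hz
      rw [AlgEquiv.mul_apply, hδF z (hFF' hz), hsF y hy z hz]
    · intro z
      rw [AlgEquiv.mul_apply, hδ z, hWm]
  obtain ⟨g, hgF', hgV, hgW⟩ := approx_one A hA1 F' halg' V hV hV'
    ((O.erase (x : Ω)).image W) (by
      intro W' hW'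
      obtain ⟨y, hy, rfl⟩ := Finset.mem_image.mp hW'
      have hyO := Finset.mem_of_mem_erase hy
      exact ⟨hWA y hyO, hWt y, hWne y hyO (Finset.ne_of_mem_erase hy)⟩) (x : Ω) hxF' x.ne_zero
  have hg0 : g ≠ 0 := by
    intro h
    rw [h, map_zero] at hgV
    exact (map_ne_zero V.valuation).mpr x.ne_zero hgV.symm
  set N : Ω := ∏ y ∈ O, s y g with hN
  have hN0 : N ≠ 0 := Finset.prod_ne_zero_iff.mpr fun y _ => by
    rw [Ne, map_eq_zero]; exact hg0
  have hagree : ∀ σ ∈ Fx k (F : Set Ω), ∀ y ∈ O, (σ (x : Ω) = y) → σ g = s y g := by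
    intro σ hσ y hy hσy
    refine agree_AA F {(x : Ω)} σ (s y) (fun z hz => ?_) (fun z hz => ?_) g hgF'
    · rw [hσ z hz, hsF y hy z hz]
    · rw [Set.mem_singleton_iff] at hz
      rw [hz, hσy, hsx y hy]
  have hNx : V.valuation N = V.valuation (x : Ω) := by
    rw [hN, ← Finset.mul_prod_erase _ _ hxO, map_mul,
      ← hagree 1 (one_mem _) (x : Ω) hxO rfl, map_prod, Finset.prod_eq_one, mul_one]
    · exact hgV
    · intro y hy
      have h1 := hgW (W y) (Finset.mem_image_of_mem W hy)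
      rw [val_eq_one_iff _ _ hg0, hWm, hWm, map_inv₀] at h1
      rw [val_eq_one_iff _ _ (by rw [Ne, map_eq_zero]; exact hg0)]
      exact h1
  have hNfix : ∀ τ ∈ Fx k (F : Set Ω), τ N = N := by
    intro τ hτ
    have hτO : ∀ y ∈ O, τ y ∈ O := fun y hy =>
      (hOm _).mpr ⟨τ * s y, mul_mem hτ (hsF y hy), by rw [AlgEquiv.mul_apply, hsx y hy]⟩
    have hτO' : ∀ y ∈ O, τ⁻¹ y ∈ O := fun y hy =>
      (hOm _).mpr ⟨τ⁻¹ * s y, mul_mem (inv_mem hτ) (hsF y hy), by
        rw [AlgEquiv.mul_apply, hsx y hy]⟩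
    rw [hN, map_prod]
    refine Finset.prod_bij (fun y _ => τ y) hτO (fun a _ b _ h => τ.injective h)
      (fun y hy => ⟨τ⁻¹ y, hτO' y hy, τ.apply_symm_apply y⟩) fun y hy => ?_
    have h1 := hagree (τ * s y) (mul_mem hτ (hsF y hy)) (τ y) (hτO y hy)
      (by rw [AlgEquiv.mul_apply, hsx y hy])
    rw [AlgEquiv.mul_apply] at h1
    exact h1
  obtain ⟨r, hr⟩ := pow_mem_of_fixed p F halg N hNfix
  refine ⟨r, Units.mk0 (N ^ p ^ r) (pow_ne_zero _ hN0), hr, ?_⟩
  rw [ValuationSubring.mem_unitGroup_iff]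
  push_cast
  rw [map_mul, Units.val_mk0, map_inv₀, map_pow, map_pow, hNx]
  exact mul_inv_cancel₀ (pow_ne_zero _ ((map_ne_zero _).mpr x.ne_zero))

end V

end Pool.Agent.TBR

end

section


namespace Pool.Agent.TBR

universe u

section V

variable {k Ω : Type u} [Field k] [Field Ω] [Algebra k Ω] [IsAlgClosed Ω]

theorem transit (E₀ : IntermediateField k Ω) (halg : ∀ x : Ω, IsAlgebraic E₀ x)
    (V V' : ValuationSubring Ω) (h : ∀ x ∈ E₀, x ∈ V ↔ x ∈ V') :
    ∃ δ ∈ Fx k (E₀ : Set Ω), ∀ x : Ω, x ∈ V ↔ δ x ∈ V' :=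
  Pool.Agent.TBR.V.transit E₀ halg V V' h

variable (A : IntermediateField k Ω) [IsAlgClosed A]
  (hA1 : ∀ t : Ω, t ∉ A → ∀ x : Ω, IsAlgebraic (AA A {t}) x)

include hA1 in
theorem residue (V : ValuationSubring Ω) (hV : ∀ x ∈ A, x ∈ V) (hV' : V ≠ ⊤) (t : Ω) (ht : t ∈ V) :
    ∃ α ∈ A, t - α ∈ V.nonunits :=
  Pool.Agent.TBR.V.residue A hA1 V hV hV' t ht

include hA1 in
theorem vgr (p : ℕ) [ExpChar Ω p] (F : IntermediateField k Ω) (hAF : A ≤ F)
    (halg : ∀ x : Ω, IsAlgebraic F x) (V : ValuationSubring Ω) (hV : ∀ x ∈ A, x ∈ V) (hV' : V ≠ ⊤)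
    (x : Ωˣ) (hx : ∀ σ ∈ Fx k (F : Set Ω) ⊓ St k V, σ (x : Ω) = x) :
    ∃ r : ℕ, ∃ f : Ωˣ, (f : Ω) ∈ F ∧ x ^ p ^ r * f⁻¹ ∈ V.unitGroup :=
  Pool.Agent.TBR.V.vgr A hA1 p F hAF halg V hV hV' x hx

include hA1 in
theorem fin_places (F : IntermediateField k Ω) (B : Finset Ω)
    (hF : F = AA A (B : Set Ω)) (t : Ω) (ht : t ∈ F) (htA : t ∉ A) :
    ∃ 𝒱 : Finset (ValuationSubring Ω), (∀ V ∈ 𝒱, (∀ x ∈ A, x ∈ V) ∧ V ≠ ⊤) ∧
      ∀ V : ValuationSubring Ω, (∀ x ∈ A, x ∈ V) → V ≠ ⊤ → (t ∉ V ∨ t⁻¹ ∉ V) →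
        ∃ V' ∈ 𝒱, ∀ x ∈ F, x ∈ V ↔ x ∈ V' :=
  Pool.Agent.TBR.V.fin_places A hA1 F B hF t htA

include hA1 in
theorem approx (F : IntermediateField k Ω) (hAF : A ≤ F) (halg : ∀ x : Ω, IsAlgebraic F x)
    (𝒱 : Finset (ValuationSubring Ω)) (hV : ∀ V ∈ 𝒱, (∀ x ∈ A, x ∈ V) ∧ V ≠ ⊤)
    (hne : ∀ V ∈ 𝒱, ∀ V' ∈ 𝒱, V ≠ V' → ∃ x ∈ F, ¬ (x ∈ V ↔ x ∈ V'))
    (f : ValuationSubring Ω → Ωˣ) (hf : ∀ V ∈ 𝒱, (f V : Ω) ∈ F) :
    ∃ g : Ωˣ, (g : Ω) ∈ F ∧ ∀ V ∈ 𝒱, g * (f V)⁻¹ ∈ V.unitGroup :=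
  Pool.Agent.TBR.V.approx A hA1 F halg 𝒱 hV hne f hf

end V

end Pool.Agent.TBR

end
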