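import Pool.Agent.TQU.RF
import Pool.Agent.TBM.Base
import Pool.Agent.TBM.Val
import Pool.Agent.TBM.Crv
import Pool.Agent.TBM.Sit

set_option maxSynthPendingDepth 3

private theorem weil_tf_field (K L : Type*) [Field K] [Field L] [Algebra K L] :
    Module.IsTorsionFree K L := inferInstance

private theorem weil_fs_field (K L : Type*) [Field K] [Field L] [Algebra K L] :
    FaithfulSMul K L := inferInstance

attribute [local instance 5000] weil_tf_field weil_fs_field


/-!
# Weil reciprocity
-/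

set_option autoImplicit false

section


namespace Pool.Agent.TBR.W

open Module

section

variable {Ω S : Type*} [Field Ω] [CommRing S] [IsDedekindDomain S] [Algebra Ω S]

/-- The step: `I / I m` is one-dimensional. -/
theorem step (I : Ideal S) (hI : I ≠ ⊥) (ev : S →ₐ[Ω] Ω) [Module.Finite Ω (S ⧸ I)]
    (J : Ideal S) (hJ : J = I * RingHom.ker ev) :
    Module.Finite Ω (S ⧸ J) ∧ finrank Ω (S ⧸ J) = finrank Ω (S ⧸ I) + 1 ∧
      ∀ u : S, LinearMap.det (LinearMap.mulLeft Ω (Ideal.Quotient.mk J u)) =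
        ev u * LinearMap.det (LinearMap.mulLeft Ω (Ideal.Quotient.mk I u)) := by
  set m : Ideal S := RingHom.ker ev with hm
  have hmax : m.IsMaximal := by
    apply RingHom.ker_isMaximal_of_surjective
    intro z
    exact ⟨algebraMap Ω S z, by simp⟩
  have hJI : J ≤ I := hJ ▸ Ideal.mul_le_left
  let g : (S ⧸ J) →ₐ[Ω] (S ⧸ I) := Ideal.Quotient.factorₐ Ω hJI
  have hg : ∀ x : S, g (Ideal.Quotient.mk J x) = Ideal.Quotient.mk I x := fun x => rfl
  have hgs : Function.Surjective g.toLinearMap := by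
    intro z
    obtain ⟨x, rfl⟩ := Ideal.Quotient.mk_surjective z
    exact ⟨Ideal.Quotient.mk J x, rfl⟩
  set W : Submodule Ω (S ⧸ J) := LinearMap.ker g.toLinearMap with hW
  have hWmem : ∀ x : S, Ideal.Quotient.mk J x ∈ W ↔ x ∈ I := by
    intro x
    rw [hW, LinearMap.mem_ker]
    change Ideal.Quotient.mk I x = 0 ↔ _
    exact Ideal.Quotient.eq_zero_iff_mem
  -- scalars act through `ev`
  have hsc : ∀ s x : S, x ∈ I → Ideal.Quotient.mk J (s * x) = ev s • Ideal.Quotient.mk J x := by
    intro s x hx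
    have h0 : algebraMap Ω (S ⧸ J) (ev s) = Ideal.Quotient.mk J (algebraMap Ω S (ev s)) := rfl
    rw [Algebra.smul_def, h0, ← map_mul, Ideal.Quotient.eq, ← sub_mul, hJ,
      mul_comm (s - algebraMap Ω S (ev s)) x]
    exact Ideal.mul_mem_mul hx (by rw [hm, RingHom.mem_ker]; simp)
  -- an element of `I` outside `I m`
  have hne : J ≠ I := by
    intro h
    have h1 : I * m = I * ⊤ := by rw [← hJ, h, Ideal.mul_top]
    exact hmax.ne_top (mul_left_cancel₀ hI h1)
  obtain ⟨x0, hx0I, hx0J⟩ : ∃ x ∈ I, x ∉ J := by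
    by_contra hcon
    push Not at hcon
    exact hne (le_antisymm hJI hcon)
  have hspan : Ideal.span {x0} ⊔ J = I := by
    have h1 : Ideal.span {x0} ⊔ J ≤ I :=
      sup_le ((Ideal.span_singleton_le_iff_mem I).2 hx0I) hJI
    obtain ⟨K, hK⟩ := Ideal.dvd_iff_le.2 h1
    have h2 : m ≤ K := by
      have h3 : I * m ≤ I * K := by
        rw [← hK, ← hJ]
        exact le_sup_right
      exact Ideal.dvd_iff_le.1 ((mul_dvd_mul_iff_left hI).1 (Ideal.dvd_iff_le.2 h3))
    rcases eq_or_ne K ⊤ with h3 | h3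
    · rw [hK, h3, Ideal.mul_top]
    · exfalso
      apply hx0J
      have h4 : Ideal.span {x0} ⊔ J = J := by rw [hK, ← hmax.eq_of_le h3 h2, hJ]
      rw [← h4]
      exact Ideal.mem_sup_left (Ideal.mem_span_singleton_self x0)
  have hone : finrank Ω W = 1 := by
    refine finrank_eq_one (⟨Ideal.Quotient.mk J x0, (hWmem x0).2 hx0I⟩ : W) ?_ ?_
    · intro h
      have h1 := congrArg Subtype.val h
      exact hx0J (Ideal.Quotient.eq_zero_iff_mem.1 h1)
    · rintro ⟨w, hw⟩
      obtain ⟨x, rfl⟩ := Ideal.Quotient.mk_surjective w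
      have hx := (hWmem x).1 hw
      rw [← hspan, Ideal.mem_span_singleton_sup] at hx
      obtain ⟨s, b, hb, hsb⟩ := hx
      refine ⟨ev s, Subtype.ext ?_⟩
      change ev s • Ideal.Quotient.mk J x0 = Ideal.Quotient.mk J x
      rw [← hsc s x0 hx0I, ← hsb, map_add, Ideal.Quotient.eq_zero_iff_mem.2 hb, add_zero]
  have : Module.Finite Ω W := Module.finite_of_finrank_eq_succ (n := 0) hone
  let E : ((S ⧸ J) ⧸ W) ≃ₗ[Ω] (S ⧸ I) := LinearMap.quotKerEquivOfSurjective g.toLinearMap hgs
  have : Module.Finite Ω ((S ⧸ J) ⧸ W) := Module.Finite.equiv E.symm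
  have hfin : Module.Finite Ω (S ⧸ J) := Module.Finite.of_submodule_quotient W
  refine ⟨hfin, ?_, fun u => ?_⟩
  · have h1 := Submodule.finrank_quotient_add_finrank W
    rw [hone, E.finrank_eq] at h1
    exact h1.symm
  · set e : (S ⧸ J) →ₗ[Ω] (S ⧸ J) := LinearMap.mulLeft Ω (Ideal.Quotient.mk J u) with he
    have hle : W ≤ W.comap e := by
      intro w hw
      obtain ⟨x, rfl⟩ := Ideal.Quotient.mk_surjective w
      rw [Submodule.mem_comap, he, LinearMap.mulLeft_apply, ← map_mul, hWmem]
      exact I.mul_mem_left u ((hWmem x).1 hw)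
    rw [LinearMap.det_eq_det_mul_det W e hle]
    congr 1
    · have h1 : LinearMap.restrict e (p := W) (q := W) hle = ev u • LinearMap.id := by
        ext ⟨w, hw⟩
        obtain ⟨x, rfl⟩ := Ideal.Quotient.mk_surjective w
        change Ideal.Quotient.mk J u * Ideal.Quotient.mk J x = ev u • Ideal.Quotient.mk J x
        rw [← map_mul, hsc u x ((hWmem x).1 hw)]
      rw [h1, LinearMap.det_smul, hone, LinearMap.det_id, pow_one, mul_one]
    · have hE : ∀ v : S ⧸ J, E (Submodule.Quotient.mk v) = g v := fun v => rfl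
      rw [← LinearMap.det_conj (W.mapQ W e hle) E]
      congr 1
      refine LinearMap.ext fun z => ?_
      obtain ⟨w, rfl⟩ := E.surjective z
      obtain ⟨v, rfl⟩ := Submodule.Quotient.mk_surjective W w
      rw [LinearMap.comp_apply, LinearMap.comp_apply, LinearEquiv.coe_coe, LinearEquiv.coe_coe,
        LinearEquiv.symm_apply_apply, Submodule.mapQ_apply, hE, hE, he, LinearMap.mulLeft_apply,
        LinearMap.mulLeft_apply, map_mul, hg]

/-- Determinants on the quotient by a product of maximal ideals of degree one. -/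
theorem filt {ι : Type*} (m : ι → Ideal S) (ev : ι → S →ₐ[Ω] Ω) (hne : ∀ i, m i ≠ ⊥)
    (Z : Multiset ι) (hm : ∀ i ∈ Z, m i = RingHom.ker (ev i)) :
    Module.Finite Ω (S ⧸ (Z.map m).prod) ∧ finrank Ω (S ⧸ (Z.map m).prod) = Z.card ∧
      ∀ u : S, LinearMap.det (LinearMap.mulLeft Ω (Ideal.Quotient.mk (Z.map m).prod u)) =
        (Z.map fun i => ev i u).prod := by
  classical
  induction Z using Multiset.induction with
  | empty =>
    have h : ((0 : Multiset ι).map m).prod = ⊤ := by simp
    have hs : Subsingleton (S ⧸ ((0 : Multiset ι).map m).prod) := by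
      rw [h]
      exact Ideal.Quotient.subsingleton_iff.2 rfl
    refine ⟨inferInstance, ?_, fun u => ?_⟩
    · rw [finrank_zero_of_subsingleton, Multiset.card_zero]
    · rw [LinearMap.det_eq_one_of_subsingleton, Multiset.map_zero, Multiset.prod_zero]
  | cons a Z ih =>
    obtain ⟨h1, h2, h3⟩ := ih fun i hi => hm i (Multiset.mem_cons_of_mem hi)
    have := h1
    have hne' : (Z.map m).prod ≠ ⊥ := by
      rw [Ne, ← Submodule.zero_eq_bot, Multiset.prod_eq_zero_iff, Multiset.mem_map]
      rintro ⟨i, _, hi⟩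
      exact hne i (by rw [hi]; rfl)
    have hJ : ((a ::ₘ Z).map m).prod = (Z.map m).prod * RingHom.ker (ev a) := by
      rw [Multiset.map_cons, Multiset.prod_cons, hm a (Multiset.mem_cons_self a Z), mul_comm]
    obtain ⟨k1, k2, k3⟩ := step (Z.map m).prod hne' (ev a) _ hJ
    refine ⟨k1, ?_, fun u => ?_⟩
    · rw [k2, h2, Multiset.card_cons]
    · rw [k3 u, h3 u, Multiset.map_cons, Multiset.prod_cons]

end

end Pool.Agent.TBR.W

end

section


namespace Pool.Agent.TBR.W

open Module Polynomial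

section

variable {κ S : Type*} [Field κ] [CommRing S] [IsDedekindDomain S] [Algebra κ S] [Algebra κ[X] S]
  [IsScalarTower κ κ[X] S] [Module.Finite κ[X] S] [Module.IsTorsionFree κ[X] S]

omit [IsDedekindDomain S] [Module.Finite κ[X] S] [Module.IsTorsionFree κ[X] S] in
theorem smul_mk (p : κ[X]) (s : S) :
    Ideal.Quotient.mk (Ideal.span {algebraMap κ[X] S X}) (p • s) =
      p.eval 0 • Ideal.Quotient.mk (Ideal.span {algebraMap κ[X] S X}) s := by
  set J : Ideal S := Ideal.span {algebraMap κ[X] S X} with hJ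
  have h0 : ∀ c : κ, algebraMap κ (S ⧸ J) c = Ideal.Quotient.mk J (algebraMap κ S c) :=
    fun c => rfl
  rw [Algebra.smul_def, Algebra.smul_def, h0, ← map_mul, Ideal.Quotient.eq, ← sub_mul]
  refine J.mul_mem_right _ ?_
  rw [hJ, Ideal.mem_span_singleton, IsScalarTower.algebraMap_apply κ κ[X] S,
    Polynomial.algebraMap_eq, ← map_sub]
  have h1 : (X : κ[X]) ∣ p - C (p.eval 0) := by
    have h2 := Polynomial.X_sub_C_dvd_sub_C_eval (a := (0 : κ)) (p := p)
    rwa [C_0, sub_zero] at h2
  exact map_dvd (algebraMap κ[X] S) h1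

/-- The value of the norm at `0`. -/
theorem norm_eval_zero (u : S) : (Algebra.norm κ[X] u).eval 0 =
    LinearMap.det (LinearMap.mulLeft κ
      (Ideal.Quotient.mk (Ideal.span {algebraMap κ[X] S X}) u)) := by
  classical
  have : Module.Free κ[X] S := Module.free_of_finite_type_torsion_free'
  set J : Ideal S := Ideal.span {algebraMap κ[X] S X} with hJ
  let ι := Module.Free.ChooseBasisIndex κ[X] S
  let b : Basis ι κ[X] S := Module.Free.chooseBasis κ[X] S
  have hli : LinearIndependent κ fun i => Ideal.Quotient.mk J (b i) := by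
    rw [Fintype.linearIndependent_iff]
    intro c hc i
    have h1 : Ideal.Quotient.mk J (∑ i, C (c i) • b i) = 0 := by
      rw [map_sum, ← hc]
      refine Finset.sum_congr rfl fun j _ => ?_
      rw [smul_mk, eval_C]
    rw [Ideal.Quotient.eq_zero_iff_mem, hJ, Ideal.mem_span_singleton] at h1
    obtain ⟨s, hs⟩ := h1
    have h2 := congrArg (fun z => b.repr z i) hs
    rw [← Algebra.smul_def, map_smul, Finsupp.smul_apply, smul_eq_mul, Basis.repr_sum_self] at h2
    have h3 := congrArg (Polynomial.eval 0) h2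
    rw [eval_mul, eval_C, eval_X, zero_mul] at h3
    exact h3
  have hsp : ⊤ ≤ Submodule.span κ (Set.range fun i => Ideal.Quotient.mk J (b i)) := by
    rintro z -
    obtain ⟨s, rfl⟩ := Ideal.Quotient.mk_surjective z
    rw [← b.sum_repr s, map_sum]
    refine Submodule.sum_mem _ fun i _ => ?_
    rw [smul_mk]
    exact Submodule.smul_mem _ _ (Submodule.subset_span ⟨i, rfl⟩)
  let b' : Basis ι κ (S ⧸ J) := Basis.mk hli hsp
  have hb' : ∀ i, b' i = Ideal.Quotient.mk J (b i) := fun i => Basis.mk_apply hli hsp i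
  rw [Algebra.norm_eq_matrix_det b, ← LinearMap.det_toMatrix b', ← Polynomial.coe_evalRingHom,
    RingHom.map_det]
  congr 1
  ext i j
  rw [LinearMap.toMatrix_apply, RingHom.mapMatrix_apply, Matrix.map_apply, coe_evalRingHom,
    LinearMap.mulLeft_apply, hb', ← map_mul]
  have h1 : u * b j = ∑ k, Algebra.leftMulMatrix b u k j • b k := by
    rw [← b.sum_repr (u * b j)]
    refine Finset.sum_congr rfl fun k _ => ?_
    rw [Algebra.leftMulMatrix_eq_repr_mul]
  rw [h1, map_sum]
  have h2 : ∑ k, Ideal.Quotient.mk J (Algebra.leftMulMatrix b u k j • b k) =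
      ∑ k, (Algebra.leftMulMatrix b u k j).eval 0 • b' k :=
    Finset.sum_congr rfl fun k _ => by rw [smul_mk, hb']
  rw [h2, Basis.repr_sum_self]

omit [IsDedekindDomain S] [Module.Finite κ[X] S] [Module.IsTorsionFree κ[X] S] in
theorem ev_alg (e : S →ₐ[κ] κ) (p : κ[X]) :
    e (algebraMap κ[X] S p) = p.eval (e (algebraMap κ[X] S X)) := by
  have h1 : (e.comp (IsScalarTower.toAlgHom κ κ[X] S)) =
      Polynomial.aeval (e (algebraMap κ[X] S X)) := by
    apply Polynomial.algHom_ext
    simp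
  have h2 := congrArg (fun f => f p) h1
  simp only [AlgHom.comp_apply, IsScalarTower.coe_toAlgHom'] at h2
  rw [h2, Polynomial.aeval_def, Polynomial.eval₂_eq_eval_map, Algebra.algebraMap_self,
    Polynomial.map_id]

theorem ker_ne_bot (e : S →ₐ[κ] κ) : RingHom.ker e ≠ ⊥ := by
  intro h
  have h1 : algebraMap κ[X] S (X - C (e (algebraMap κ[X] S X))) ∈ RingHom.ker e := by
    rw [RingHom.mem_ker, ev_alg]
    simp
  rw [h, Ideal.mem_bot, FaithfulSMul.algebraMap_eq_zero_iff] at h1
  exact X_sub_C_ne_zero _ h1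

theorem relNorm_ker (e : S →ₐ[κ] κ) : ∃ s : ℕ, 1 ≤ s ∧
    Ideal.relNorm κ[X] (RingHom.ker e) = Ideal.span {X - C (e (algebraMap κ[X] S X))} ^ s := by
  set p : Ideal κ[X] := Ideal.span {X - C (e (algebraMap κ[X] S X))} with hp
  have hmax : (RingHom.ker e).IsMaximal := by
    apply RingHom.ker_isMaximal_of_surjective
    intro z
    exact ⟨algebraMap κ S z, by simp⟩
  have hcomap : p = Ideal.comap (algebraMap κ[X] S) (RingHom.ker e) := by
    ext q
    rw [hp, Ideal.mem_span_singleton, Polynomial.dvd_iff_isRoot, Ideal.mem_comap, RingHom.mem_ker,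
      ev_alg e q, Polynomial.IsRoot]
  have : (RingHom.ker e).LiesOver p := ⟨hcomap⟩
  have hpp : p.IsPrime := by
    rw [hcomap]
    exact Ideal.comap_isPrime _ _
  obtain ⟨s, hs⟩ := Ideal.exists_relNorm_eq_pow_of_isPrime (RingHom.ker e) p
  refine ⟨s, ?_, hs⟩
  by_contra h
  have h0 : s = 0 := by omega
  subst h0
  rw [pow_zero, Ideal.one_eq_top] at hs
  have h1 := Ideal.relNorm_le_comap κ[X] (RingHom.ker e)
  rw [hs, ← hcomap, top_le_iff] at h1
  exact hpp.ne_top h1

/-- The norm of an element in terms of its divisor. -/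
theorem norm_prod (M : Multiset (S →ₐ[κ] κ)) (u : S) (hu : u ≠ 0)
    (hM : Ideal.span {u} = (M.map fun e => RingHom.ker e).prod) :
    Algebra.norm κ[X] u = C (Algebra.norm κ[X] u).leadingCoeff *
      (M.map fun e => X - C (e (algebraMap κ[X] S X))).prod := by
  classical
  have : Module.Free κ[X] S := Module.free_of_finite_type_torsion_free'
  choose s hs1 hs using relNorm_ker (κ := κ) (S := S)
  have hN0 : Algebra.norm κ[X] u ≠ 0 := by
    rw [Ne, Algebra.norm_eq_zero_iff]
    exact hu
  set P : κ[X] := (M.map fun e => (X - C (e (algebraMap κ[X] S X))) ^ s e).prod with hP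
  have hspan : Ideal.span {Algebra.norm κ[X] u} = Ideal.span {P} := by
    have h1 : Ideal.relNorm κ[X] (Ideal.span {u}) = Ideal.span {Algebra.norm κ[X] u} := by
      rw [Ideal.relNorm_singleton, Algebra.intNorm_eq_norm]
    rw [← h1, hM, map_multiset_prod, Multiset.map_map, hP]
    have h2 : ∀ M' : Multiset (S →ₐ[κ] κ),
        (M'.map ((Ideal.relNorm κ[X]) ∘ fun e => RingHom.ker e)).prod =
          Ideal.span {(M'.map fun e => (X - C (e (algebraMap κ[X] S X))) ^ s e).prod} := by
      intro M'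
      induction M' using Multiset.induction with
      | empty => simp [Ideal.one_eq_top]
      | cons a M' ih =>
        rw [Multiset.map_cons, Multiset.prod_cons, ih, Multiset.map_cons, Multiset.prod_cons,
          ← Ideal.span_singleton_mul_span_singleton, ← Ideal.span_singleton_pow]
        congr 1
        exact hs a
    exact h2 M
  have hmonic : ∀ M' : Multiset (S →ₐ[κ] κ),
      (M'.map fun e : S →ₐ[κ] κ => (X - C (e (algebraMap κ[X] S X))) ^ s e).prod.Monic := by
    intro M'
    apply monic_multiset_prod_of_monic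
    intro e _
    exact (monic_X_sub_C _).pow _
  have hassoc : Associated (Algebra.norm κ[X] u) P := Ideal.span_singleton_eq_span_singleton.1 hspan
  have heq : Algebra.norm κ[X] u = C (Algebra.norm κ[X] u).leadingCoeff * P := by
    obtain ⟨v, hv⟩ := hassoc.symm
    obtain ⟨c, hc, hcv⟩ := Polynomial.isUnit_iff.1 v.isUnit
    rw [← hcv] at hv
    have h3 : (Algebra.norm κ[X] u).leadingCoeff = c := by
      rw [← hv, leadingCoeff_mul, (hmonic M).leadingCoeff, leadingCoeff_C, one_mul]
    rw [h3, ← hv, mul_comm]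
  -- degrees
  have hfin := (filt (Ω := κ) (fun e : S →ₐ[κ] κ => RingHom.ker e) (fun e => e)
    (fun e => ker_ne_bot e) M fun e _ => rfl).2.1
  rw [← hM] at hfin
  have hdeg : (Algebra.norm κ[X] u).natDegree = M.card := by
    rw [← finrank_quotient_span_eq_natDegree_norm (Module.Free.chooseBasis κ[X] S) hu, hfin]
  have hdegP : ∀ M' : Multiset (S →ₐ[κ] κ),
      (M'.map fun e : S →ₐ[κ] κ => (X - C (e (algebraMap κ[X] S X))) ^ s e).prod.natDegree =
        (M'.map s).sum := by
    intro M'
    induction M' using Multiset.induction with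
    | empty => simp
    | cons a M' ih =>
      rw [Multiset.map_cons, Multiset.prod_cons, Multiset.map_cons, Multiset.sum_cons,
        ((monic_X_sub_C _).pow _).natDegree_mul (hmonic M'), ih, natDegree_pow, natDegree_X_sub_C,
        mul_one]
  have hsum : (M.map s).sum = M.card := by
    rw [← hdeg, ← hdegP M, heq, natDegree_C_mul (leadingCoeff_ne_zero.2 hN0)]
  have hone : ∀ M' : Multiset (S →ₐ[κ] κ), (M'.map s).sum = M'.card → ∀ e ∈ M', s e = 1 := by
    intro M'
    have hge : ∀ M'' : Multiset (S →ₐ[κ] κ), M''.card ≤ (M''.map s).sum := by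
      intro M''
      induction M'' using Multiset.induction with
      | empty => simp
      | cons a M'' ih =>
        rw [Multiset.map_cons, Multiset.sum_cons, Multiset.card_cons]
        have := hs1 a
        omega
    induction M' using Multiset.induction with
    | empty => simp
    | cons a M' ih =>
      intro h e he
      rw [Multiset.map_cons, Multiset.sum_cons, Multiset.card_cons] at h
      have h4 := hs1 a
      have h5 := hge M'
      rcases Multiset.mem_cons.1 he with rfl | he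
      · omega
      · exact ih (by omega) e he
  rw [heq]
  congr 1
  · rw [leadingCoeff_mul, leadingCoeff_C, (hmonic M).leadingCoeff, mul_one]
  · rw [hP]
    refine congrArg Multiset.prod (Multiset.map_congr rfl fun e he => ?_)
    rw [hone M hsum e he, pow_one]

/-- The value at `0` of the norm as a product over the zeros of `X`. -/
theorem norm_zeros (Z : Multiset (S →ₐ[κ] κ))
    (hZ : Ideal.span {algebraMap κ[X] S X} = (Z.map fun e => RingHom.ker e).prod) (u : S) :
    (Algebra.norm κ[X] u).eval 0 = (Z.map fun e => e u).prod := by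
  have h := (filt (Ω := κ) (fun e : S →ₐ[κ] κ => RingHom.ker e) (fun e => e)
    (fun e => ker_ne_bot e) Z fun e _ => rfl).2.2 u
  rw [← h, norm_eval_zero, hZ]

end

end Pool.Agent.TBR.W

end

section


namespace Pool.Agent.TBR.W

open Polynomial Pool.Agent.TQU

universe u

section

variable {Ω : Type u} [Field Ω]

/-- the function `H` as a map from the polynomial ring -/
noncomputable abbrev phi (F H : MvPolynomial (Fin 2) Ω) : (Polynomial Ω) →ₐ[Ω] CR F :=
  Polynomial.aeval (Ideal.Quotient.mk (Ideal.span {F}) H)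

theorem aeval_frac (F : MvPolynomial (Fin 2) Ω) [IsDomain (CR F)] (g : MvPolynomial (Fin 2) Ω) :
    MvPolynomial.aeval (fun i => algebraMap (CR F) (FractionRing (CR F))
      (Ideal.Quotient.mk (Ideal.span {F}) (MvPolynomial.X i))) g =
    algebraMap (CR F) (FractionRing (CR F)) (Ideal.Quotient.mk (Ideal.span {F}) g) := by
  have h : (MvPolynomial.aeval (fun i => algebraMap (CR F) (FractionRing (CR F))
      (Ideal.Quotient.mk (Ideal.span {F}) (MvPolynomial.X i))) :
        MvPolynomial (Fin 2) Ω →ₐ[Ω] FractionRing (CR F)) =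
      (IsScalarTower.toAlgHom Ω (CR F) (FractionRing (CR F))).comp
        (Ideal.Quotient.mkₐ Ω (Ideal.span {F})) := by
    apply MvPolynomial.algHom_ext
    intro i
    simp
  have h1 := congrArg (fun f => f g) h
  simpa using h1

/-- the coordinate functions are integral over the polynomial ring -/
theorem int_X (F H : MvPolynomial (Fin 2) Ω) [IsDomain (CR F)]
    (hint : ∀ (M : Type u) [Field M] [Algebra Ω M] (W : ValuationSubring M) (x : Fin 2 → M),
      (∀ a : Ω, algebraMap Ω M a ∈ W) → MvPolynomial.aeval x F = 0 →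
        MvPolynomial.aeval x H ∈ W → ∀ i, x i ∈ W) (i : Fin 2) :
    (phi F H).toRingHom.IsIntegralElem (Ideal.Quotient.mk (Ideal.span {F}) (MvPolynomial.X i)) := by
  set K := FractionRing (CR F) with hK
  set x : Fin 2 → K := fun i => algebraMap (CR F) K
      (Ideal.Quotient.mk (Ideal.span {F}) (MvPolynomial.X i)) with hx
  have hax : ∀ g : MvPolynomial (Fin 2) Ω, MvPolynomial.aeval x g =
      algebraMap (CR F) K (Ideal.Quotient.mk (Ideal.span {F}) g) := aeval_frac F
  set ψ : (Polynomial Ω) →+* K := (algebraMap (CR F) K).comp (phi F H).toRingHom with hψ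
  have h1 : x i ∈ (integralClosure (Subring.closure (Set.range ψ)) K).toSubring := by
    rw [← iInf_valuationSubring_superset]
    rw [Subring.mem_iInf]
    rintro ⟨V, hV⟩
    apply hint K V x
    · intro a
      apply hV
      refine ⟨C a, ?_⟩
      rw [hψ, RingHom.comp_apply]
      change algebraMap (CR F) K ((phi F H) (C a)) = _
      rw [Polynomial.aeval_C, ← IsScalarTower.algebraMap_apply]
    · rw [hax, Ideal.Quotient.eq_zero_iff_mem.2 (Ideal.mem_span_singleton_self F), map_zero]
    · apply hV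
      refine ⟨X, ?_⟩
      rw [hψ, RingHom.comp_apply, hax]
      change algebraMap (CR F) K ((phi F H) X) = _
      rw [Polynomial.aeval_X]
  have h2 : IsIntegral (Subring.closure (Set.range ψ)) (x i) := h1
  obtain ⟨p, hp, hpx⟩ := h2
  have hcl : Subring.closure (Set.range ψ) = ψ.range := by
    rw [← RingHom.coe_range, Subring.closure_eq]
  -- lift the polynomial
  have hsurj : ∀ z : Subring.closure (Set.range ψ), ∃ q : (Polynomial Ω), ψ q = (z : K) := by
    rintro ⟨z, hz⟩
    rw [hcl] at hz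
    exact hz
  choose q hq using hsurj
  have hq1 : ∀ z w : Subring.closure (Set.range ψ), True := fun _ _ => trivial
  have : p.map (algebraMap (Subring.closure (Set.range ψ)) K) ∈ Polynomial.lifts ψ := by
    rw [Polynomial.lifts_iff_coeff_lifts]
    intro n
    rw [Polynomial.coeff_map]
    exact ⟨q (p.coeff n), hq _⟩
  obtain ⟨r, hr, hr1, hr2⟩ := Polynomial.lifts_and_natDegree_eq_and_monic this (hp.map _)
  refine ⟨r, hr2, ?_⟩
  apply IsFractionRing.injective (CR F) K
  rw [map_zero, Polynomial.hom_eval₂]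
  change Polynomial.eval₂ ψ (x i) r = 0
  rw [Polynomial.eval₂_eq_eval_map, hr, Polynomial.eval_map]
  exact hpx

theorem int_phi (F H : MvPolynomial (Fin 2) Ω) [IsDomain (CR F)]
    (hint : ∀ (M : Type u) [Field M] [Algebra Ω M] (W : ValuationSubring M) (x : Fin 2 → M),
      (∀ a : Ω, algebraMap Ω M a ∈ W) → MvPolynomial.aeval x F = 0 →
        MvPolynomial.aeval x H ∈ W → ∀ i, x i ∈ W) :
    (phi F H).toRingHom.IsIntegral := by
  intro r
  obtain ⟨g, rfl⟩ := Ideal.Quotient.mk_surjective r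
  induction g using MvPolynomial.induction_on with
  | C a =>
    have h : Ideal.Quotient.mk (Ideal.span {F}) (MvPolynomial.C a) = (phi F H).toRingHom (C a) := by
      change _ = (phi F H) (C a)
      rw [Polynomial.aeval_C]
      rfl
    rw [h]
    exact RingHom.isIntegralElem_map _
  | add p q hp hq =>
    rw [map_add]
    exact hp.add _ hq
  | mul_X p n hp =>
    rw [map_mul]
    exact hp.mul _ (int_X F H hint n)

theorem fin_phi (F H : MvPolynomial (Fin 2) Ω) [IsDomain (CR F)]
    (hint : ∀ (M : Type u) [Field M] [Algebra Ω M] (W : ValuationSubring M) (x : Fin 2 → M),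
      (∀ a : Ω, algebraMap Ω M a ∈ W) → MvPolynomial.aeval x F = 0 →
        MvPolynomial.aeval x H ∈ W → ∀ i, x i ∈ W) :
    (phi F H).toRingHom.Finite := by
  apply RingHom.IsIntegral.to_finite (int_phi F H hint)
  apply RingHom.FiniteType.of_comp_finiteType (f := (Polynomial.C : Ω →+* (Polynomial Ω)))
  have h : (phi F H).toRingHom.comp (Polynomial.C : Ω →+* (Polynomial Ω)) =
      algebraMap Ω (CR F) := by
    ext a
    change (phi F H) (C a) = _
    rw [Polynomial.aeval_C]
  rw [h]
  exact RingHom.finiteType_algebraMap.2 inferInstance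

theorem inj_phi (F H : MvPolynomial (Fin 2) Ω) [IsDomain (CR F)]
    (hint : ∀ (M : Type u) [Field M] [Algebra Ω M] (W : ValuationSubring M) (x : Fin 2 → M),
      (∀ a : Ω, algebraMap Ω M a ∈ W) → MvPolynomial.aeval x F = 0 →
        MvPolynomial.aeval x H ∈ W → ∀ i, x i ∈ W)
    (P : Fin 2 → Ω) (hP : MvPolynomial.eval P F = 0) :
    Function.Injective (phi F H) := by
  by_contra hcon
  set φ : (Polynomial Ω) →+* CR F := (phi F H).toRingHom with hφ
  have hker : RingHom.ker φ ≠ ⊥ := by
    intro h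
    exact hcon ((RingHom.injective_iff_ker_eq_bot φ).2 h)
  have hprime : (RingHom.ker φ).IsPrime := RingHom.ker_isPrime φ
  have hmax : (RingHom.ker φ).IsMaximal := hprime.isMaximal hker
  let _ : Field ((Polynomial Ω) ⧸ RingHom.ker φ) := Ideal.Quotient.field _
  let _ : Algebra ((Polynomial Ω) ⧸ RingHom.ker φ) (CR F) := (RingHom.kerLift φ).toAlgebra
  have hi : Algebra.IsIntegral ((Polynomial Ω) ⧸ RingHom.ker φ) (CR F) := by
    constructor
    intro r
    obtain ⟨p, hp, hpr⟩ := int_phi F H hint r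
    refine ⟨p.map (Ideal.Quotient.mk _), hp.map _, ?_⟩
    rw [Polynomial.eval₂_map]
    exact hpr
  have hfield : IsField (CR F) := isField_of_isIntegral_of_isField'
    (R := (Polynomial Ω) ⧸ RingHom.ker φ) (Field.toIsField _)
  let _ : Field (CR F) := hfield.toField
  have hm := pt_max F P hP
  rcases (Ideal.eq_bot_or_top (ptIdeal F P)) with h | h
  · exact pt_ne_bot F P hP h
  · exact hm.ne_top h

end

end Pool.Agent.TBR.W

end

section


namespace Pool.Agent.TBR.W

open Module Polynomial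

universe u

theorem prod_congr_nonunits {L : Type*} [Field L] (W : ValuationSubring L) (A : Submonoid L)
    (hA : ∀ a ∈ A, a ∈ W) (s : Multiset L) (h : ∀ y ∈ s, ∃ a ∈ A, y - a ∈ W.nonunits) :
    ∃ a ∈ A, s.prod - a ∈ W.nonunits := by
  induction s using Multiset.induction with
  | empty =>
    refine ⟨1, A.one_mem, ?_⟩
    rw [Multiset.prod_zero, sub_self, ValuationSubring.mem_nonunits_iff, map_zero]
    exact zero_lt_one
  | cons y s ih =>
    obtain ⟨a, ha, hay⟩ := h y (Multiset.mem_cons_self y s)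
    obtain ⟨b, hb, hbs⟩ := ih fun z hz => h z (Multiset.mem_cons_of_mem hz)
    refine ⟨a * b, A.mul_mem ha hb, ?_⟩
    rw [Multiset.prod_cons]
    rw [ValuationSubring.mem_nonunits_iff] at hay hbs ⊢
    have h1 : y * s.prod - a * b = (y - a) * (s.prod - b) + a * (s.prod - b) + b * (y - a) := by
      ring
    have ha1 : W.valuation a ≤ 1 := (W.valuation_le_one_iff a).2 (hA a ha)
    have hb1 : W.valuation b ≤ 1 := (W.valuation_le_one_iff b).2 (hA b hb)
    rw [h1]
    refine W.valuation.map_add_lt (W.valuation.map_add_lt ?_ ?_) ?_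
    · rw [map_mul]
      exact mul_lt_one_of_lt_of_le hay hbs.le
    · rw [map_mul]
      exact (mul_le_mul' ha1 le_rfl).trans_lt (by rwa [one_mul])
    · rw [map_mul]
      exact (mul_le_mul' hb1 le_rfl).trans_lt (by rwa [one_mul])

/-- valuation rings not containing a transcendental element -/
theorem exists_W {κ L : Type*} [Field κ] [Field L] [Algebra κ L] (T : L)
    (hT : Transcendental κ T) :
    ∃ W : ValuationSubring L, (∀ a : κ, algebraMap κ L a ∈ W) ∧ T ∉ W := by
  by_contra hcon
  push Not at hcon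
  have h1 : T ∈ (integralClosure (Subring.closure (Set.range (algebraMap κ L))) L).toSubring := by
    rw [← iInf_valuationSubring_superset, Subring.mem_iInf]
    rintro ⟨V, hV⟩
    exact hcon V fun a => hV ⟨a, rfl⟩
  obtain ⟨p, hp, hpx⟩ : IsIntegral (Subring.closure (Set.range (algebraMap κ L))) T := h1
  have hcl : Subring.closure (Set.range (algebraMap κ L)) = (algebraMap κ L).range := by
    rw [← RingHom.coe_range, Subring.closure_eq]
  have hsurj : ∀ z : Subring.closure (Set.range (algebraMap κ L)),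
      ∃ q : κ, algebraMap κ L q = (z : L) := by
    rintro ⟨z, hz⟩
    rw [hcl] at hz
    exact hz
  choose q hq using hsurj
  have : p.map (algebraMap (Subring.closure (Set.range (algebraMap κ L))) L) ∈
      Polynomial.lifts (algebraMap κ L) := by
    rw [Polynomial.lifts_iff_coeff_lifts]
    intro n
    rw [Polynomial.coeff_map]
    exact ⟨q (p.coeff n), hq _⟩
  obtain ⟨r, hr, hr1, hr2⟩ := Polynomial.lifts_and_natDegree_eq_and_monic this (hp.map _)
  apply hT
  refine ⟨r, hr2.ne_zero, ?_⟩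
  rw [Polynomial.aeval_def, Polynomial.eval₂_eq_eval_map, hr, Polynomial.eval_map]
  exact hpx

/-- comparison of leading coefficients at infinity -/
theorem lc_congr {κ L : Type*} [Field κ] [Field L] [Algebra κ L] (W : ValuationSubring L)
    (hW : ∀ a : κ, algebraMap κ L a ∈ W) (T : L) (hT : T ∉ W) (p q : κ[X]) (hq : q ≠ 0) (α : κ)
    (hα : α ≠ 0) (h : aeval T p / aeval T q - algebraMap κ L α ∈ W.nonunits) :
    p.leadingCoeff = α * q.leadingCoeff := by
  have htriv : W.valuation.IsTrivialOn κ := by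
    constructor
    intro a ha
    have h1 : W.valuation (algebraMap κ L a) ≤ 1 := (W.valuation_le_one_iff _).2 (hW a)
    have h2 : W.valuation (algebraMap κ L a⁻¹) ≤ 1 := (W.valuation_le_one_iff _).2 (hW _)
    apply le_antisymm h1
    rw [map_inv₀, map_inv₀] at h2
    have h3 : W.valuation (algebraMap κ L a) ≠ 0 := by
      rw [Valuation.ne_zero_iff]
      simpa using ha
    exact (inv_le_one₀ (zero_lt_iff.2 h3)).1 h2
  have hT1 : 1 < W.valuation T := by
    rw [← not_le, W.valuation_le_one_iff]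
    exact hT
  have hval : ∀ r : κ[X], r ≠ 0 → W.valuation (aeval T r) = W.valuation T ^ r.natDegree :=
    fun r hr => valuation_aeval_eq_valuation_X_pow_natDegree_of_one_lt_valuation_X T hT1 hr
  have hqT : aeval T q ≠ 0 := by
    intro h0
    have h1 := hval q hq
    rw [h0, map_zero] at h1
    exact (pow_ne_zero _ (zero_lt_one.trans hT1).ne') h1.symm
  set D : κ[X] := p - C α * q with hD
  have hDv : W.valuation (aeval T D) < W.valuation T ^ q.natDegree := by
    have h1 : aeval T D = (aeval T p / aeval T q - algebraMap κ L α) * aeval T q := by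
      rw [hD, map_sub, map_mul, aeval_C]
      field_simp
    rw [ValuationSubring.mem_nonunits_iff] at h
    rw [h1, map_mul, hval q hq]
    exact mul_lt_of_lt_one_left (pow_pos (zero_lt_one.trans hT1) _) h
  have hdeg : D.degree < (C α * q).degree := by
    rw [degree_C_mul hα]
    by_cases hD0 : D = 0
    · rw [hD0, degree_zero]
      exact bot_lt_iff_ne_bot.2 (fun h => hq (degree_eq_bot.1 h))
    · rw [hval D hD0] at hDv
      have h2 := (pow_lt_pow_iff_right₀ hT1).1 hDv
      rw [degree_eq_natDegree hD0, degree_eq_natDegree hq]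
      exact_mod_cast h2
  have hp : p = D + C α * q := by rw [hD]; ring
  rw [hp, leadingCoeff_add_of_degree_lt hdeg, leadingCoeff_mul, leadingCoeff_C]

attribute [local instance] FractionRing.liftAlgebra FractionRing.isScalarTower_liftAlgebra

/-- Leading coefficients of norms of elements which are congruent to constants at infinity. -/
theorem norm_congr {κ S : Type u} [Field κ] [CommRing S] [IsDedekindDomain S] [Algebra κ S]
    [Algebra κ[X] S] [IsScalarTower κ κ[X] S] [Module.Finite κ[X] S] [Module.IsTorsionFree κ[X] S]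
    (A : Submonoid κ) (hA0 : ∀ a ∈ A, a ≠ 0) (u w : S) (hw : w ≠ 0)
    (key : ∀ (L : Type u) [Field L] [IsAlgClosed L] [Algebra κ L] (W : ValuationSubring L)
      (ψ : S →ₐ[κ] L), Function.Injective ψ → (∀ a : κ, algebraMap κ L a ∈ W) →
        ψ (algebraMap κ[X] S X) ∉ W → ∃ a ∈ A, ψ u / ψ w - algebraMap κ L a ∈ W.nonunits) :
    ∃ α ∈ A, (Algebra.norm κ[X] u).leadingCoeff = α * (Algebra.norm κ[X] w).leadingCoeff := by
  classical
  have : Module.Free κ[X] S := Module.free_of_finite_type_torsion_free'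
  set K := FractionRing S with hK
  set QT := FractionRing κ[X] with hQT
  set L := AlgebraicClosure K with hL
  let algQL : Algebra QT L := inferInstance
  have hfd : FiniteDimensional QT K := inferInstance
  set T : L := algebraMap K L (algebraMap S K (algebraMap κ[X] S X)) with hT
  have hinjS : Function.Injective (algebraMap S L) := by
    rw [IsScalarTower.algebraMap_eq S K L]
    exact (algebraMap K L).injective.comp (IsFractionRing.injective S K)
  have hinjX : Function.Injective (algebraMap κ[X] S) := FaithfulSMul.algebraMap_injective _ _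
  have hTp : ∀ p : κ[X], aeval T p = algebraMap S L (algebraMap κ[X] S p) := by
    have h1 : (aeval T : κ[X] →ₐ[κ] L) =
        (IsScalarTower.toAlgHom κ S L).comp (IsScalarTower.toAlgHom κ κ[X] S) := by
      apply Polynomial.algHom_ext
      rw [aeval_X]
      rfl
    intro p
    rw [h1]
    rfl
  have hTtr : Transcendental κ T := by
    rintro ⟨p, hp, hp0⟩
    rw [hTp] at hp0
    exact hp (hinjX (hinjS (by rw [hp0, map_zero, map_zero])))
  obtain ⟨W, hW, hTW⟩ := exists_W (κ := κ) T hTtr
  set x : K := algebraMap S K u / algebraMap S K w with hx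
  have hnx := Algebra.norm_eq_prod_roots (K := QT) (L := K) L (x := x) (IsAlgClosed.splits _)
  have hQL : ∀ p : κ[X], algebraMap QT L (algebraMap κ[X] QT p) = aeval T p := by
    intro p
    rw [hTp, ← IsScalarTower.algebraMap_apply κ[X] S L, ← IsScalarTower.algebraMap_apply κ[X] QT L]
  -- the norm of `x`
  have hnorm : ∀ y : S, Algebra.norm QT (algebraMap S K y) =
      algebraMap κ[X] QT (Algebra.norm κ[X] y) := by
    intro y
    rw [← Algebra.algebraMap_intNorm_fractionRing, Algebra.intNorm_eq_norm]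
  have hnx2 : algebraMap QT L (Algebra.norm QT x) =
      aeval T (Algebra.norm κ[X] u) / aeval T (Algebra.norm κ[X] w) := by
    have hw0 : algebraMap S K w ≠ 0 := by
      intro h0
      exact hw (IsFractionRing.injective S K (by rw [h0, map_zero]))
    have h1 : Algebra.norm QT x * Algebra.norm QT (algebraMap S K w) =
        Algebra.norm QT (algebraMap S K u) := by
      rw [← map_mul, hx, div_mul_cancel₀ _ hw0]
    rw [hnorm, hnorm] at h1
    have h2 := congrArg (algebraMap QT L) h1
    rw [map_mul, hQL, hQL] at h2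
    rw [eq_div_iff, h2]
    rw [hTp]
    intro h0
    apply hw
    rw [← Algebra.norm_eq_zero_iff (R := κ[X])]
    exact hinjX (hinjS (by rw [h0, map_zero, map_zero]))
  -- the roots
  have hroots : ∀ y ∈ (minpoly QT x).aroots L, ∃ a ∈ A.map (algebraMap κ L : κ →* L),
      y - a ∈ W.nonunits := by
    intro y hy
    have hy1 : y ∈ (minpoly QT x).rootSet L := by
      rw [Polynomial.rootSet, Finset.mem_coe, Multiset.mem_toFinset]
      exact hy
    rw [← Algebra.IsAlgebraic.range_eval_eq_rootSet_minpoly L x] at hy1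
    obtain ⟨ψ, hψ⟩ := hy1
    let ψ' : S →ₐ[κ] L := (ψ.restrictScalars κ).comp (IsScalarTower.toAlgHom κ S K)
    have hψ' : ∀ z : S, ψ' z = ψ (algebraMap S K z) := fun z => rfl
    have hinj : Function.Injective ψ' := by
      intro z z' hz
      rw [hψ', hψ'] at hz
      exact IsFractionRing.injective S K (ψ.injective hz)
    have hψT : ψ' (algebraMap κ[X] S X) = T := by
      rw [hψ']
      have h1 : algebraMap S K (algebraMap κ[X] S X) = algebraMap QT K (algebraMap κ[X] QT X) := by
        rw [← IsScalarTower.algebraMap_apply κ[X] S K, ← IsScalarTower.algebraMap_apply κ[X] QT K]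
      rw [h1, ψ.commutes, hQL, aeval_X]
    obtain ⟨a, ha, hau⟩ := key L W ψ' hinj hW (by rw [hψT]; exact hTW)
    refine ⟨algebraMap κ L a, ⟨a, ha, rfl⟩, ?_⟩
    have h2 : ψ' u / ψ' w = y := by
      rw [hψ', hψ', ← map_div₀, ← hx]
      exact hψ
    rw [← h2]
    exact hau
  obtain ⟨a, ha, haw⟩ := prod_congr_nonunits W (A.map (algebraMap κ L : κ →* L)) (by
    rintro _ ⟨a, _, rfl⟩
    exact hW a) (Multiset.replicate (finrank (IntermediateField.adjoin QT {x}) K)
      ((minpoly QT x).aroots L).prod) (by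
    intro y hy
    rw [Multiset.eq_of_mem_replicate hy]
    exact prod_congr_nonunits W _ (by
      rintro _ ⟨a, _, rfl⟩
      exact hW a) _ hroots)
  rw [Multiset.prod_replicate, ← hnx, hnx2] at haw
  obtain ⟨α, hα, rfl⟩ := ha
  refine ⟨α, hα, lc_congr W hW T hTW _ _ ?_ α (hA0 α hα) haw⟩
  rw [Ne, Algebra.norm_eq_zero_iff]
  exact hw

end Pool.Agent.TBR.W

end

section


namespace Pool.Agent.TBR.W

open Polynomial

universe u

theorem eval_map_A {k Ω : Type u} [Field k] [Field Ω] [Algebra k Ω] {L : Type u} [Field L]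
    (A : IntermediateField k Ω) (g Φ : Ω →+* L) (hΦ : ∀ a ∈ A, Φ a = g a) (P : Fin 2 → Ω)
    (x' : Fin 2 → L) (hx : ∀ i, Φ (P i) = x' i) (u : MvPolynomial (Fin 2) Ω)
    (hu : Cf (A : Set Ω) u) :
    MvPolynomial.eval₂ g x' u = Φ (MvPolynomial.eval P u) := by
  have h1 : MvPolynomial.eval₂ g x' u = MvPolynomial.eval₂ Φ x' u := by
    rw [MvPolynomial.eval₂_eq, MvPolynomial.eval₂_eq]
    refine Finset.sum_congr rfl fun m _ => ?_
    rw [hΦ _ (hu m)]
  rw [h1, MvPolynomial.eval, MvPolynomial.coe_eval₂Hom, MvPolynomial.eval₂_eq,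
    MvPolynomial.eval₂_eq, map_sum]
  refine Finset.sum_congr rfl fun m _ => ?_
  rw [map_mul, map_prod]
  simp only [map_pow, hx, RingHom.id_apply]

attribute [local instance] FractionRing.liftAlgebra FractionRing.isScalarTower_liftAlgebra

theorem lift_abs {R Ω L : Type u} [CommRing R] [Field Ω] [Field L] [IsAlgClosed L]
    (j₁ : R →+* Ω) (j₂ : R →+* L) (hj₁ : Function.Injective j₁) (hj₂ : Function.Injective j₂)
    (halg : ∀ x : Ω, ∃ p : Polynomial Ω, p ≠ 0 ∧
      (∀ n, p.coeff n ∈ Subfield.closure (Set.range j₁)) ∧ p.eval x = 0) :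
    ∃ Φ : Ω →+* L, ∀ r, Φ (j₁ r) = j₂ r := by
  have hdom : IsDomain R := hj₁.isDomain
  let _ : Algebra R Ω := j₁.toAlgebra
  let _ : Algebra R L := j₂.toAlgebra
  have ht₁ : Module.IsTorsionFree R Ω := Module.isTorsionFree_iff_algebraMap_injective.2 hj₁
  have ht₂ : Module.IsTorsionFree R L := Module.isTorsionFree_iff_algebraMap_injective.2 hj₂
  set j : FractionRing R →+* Ω := algebraMap (FractionRing R) Ω with hj
  have hjr : ∀ r, j (algebraMap _ _ r) = j₁ r := by
    intro r
    rw [hj, ← IsScalarTower.algebraMap_apply]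
    rfl
  have hle : Subfield.closure (Set.range j₁) ≤ j.fieldRange := by
    rw [Subfield.closure_le]
    rintro _ ⟨r, rfl⟩
    exact ⟨_, hjr r⟩
  have halg' : Algebra.IsAlgebraic R Ω := by
    constructor
    intro x
    rw [IsFractionRing.isAlgebraic_iff R (FractionRing R) Ω]
    obtain ⟨p, hp, hpc, hpx⟩ := halg x
    have h1 : p ∈ Polynomial.lifts j := by
      rw [Polynomial.lifts_iff_coeff_lifts]
      intro n
      exact hle (hpc n)
    obtain ⟨q, hq⟩ := h1
    rw [Polynomial.coe_mapRingHom] at hq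
    refine ⟨q, ?_, ?_⟩
    · rintro rfl
      rw [Polynomial.map_zero] at hq
      exact hp hq.symm
    · rw [Polynomial.aeval_def, Polynomial.eval₂_eq_eval_map, hq]
      exact hpx
  let Φ : Ω →ₐ[R] L := IsAlgClosed.lift
  exact ⟨Φ, fun r => Φ.commutes r⟩

theorem lift_gen {k Ω L : Type u} [Field k] [Field Ω] [Algebra k Ω] [Field L] [IsAlgClosed L]
    (A : IntermediateField k Ω) (P : Fin 2 → Ω) (x' : Fin 2 → L) (g : Ω →+* L)
    (halg : ∀ x : Ω, IsAlgebraic (AA A (Set.range P)) x)
    (h : ∀ u : MvPolynomial (Fin 2) Ω, Cf (A : Set Ω) u →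
      (MvPolynomial.eval P u = 0 ↔ MvPolynomial.eval₂ g x' u = 0)) :
    ∃ Φ : Ω →+* L, (∀ a ∈ A, Φ a = g a) ∧ ∀ i, Φ (P i) = x' i := by
  set e₁ : MvPolynomial (Fin 2) A →+* Ω := MvPolynomial.eval₂Hom (algebraMap A Ω) P with he₁
  set e₂ : MvPolynomial (Fin 2) A →+* L :=
    MvPolynomial.eval₂Hom (g.comp (algebraMap A Ω)) x' with he₂
  have hker : ∀ r, e₁ r = 0 ↔ e₂ r = 0 := by
    intro r
    have h1 := h (MvPolynomial.map (algebraMap A Ω) r) (fun m => by
      rw [MvPolynomial.coeff_map]
      exact (MvPolynomial.coeff m r).2)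
    rw [MvPolynomial.eval_map, MvPolynomial.eval₂_map] at h1
    exact h1
  let j₁ : (e₁.prod e₂).range →+* Ω := (RingHom.fst Ω L).comp (e₁.prod e₂).range.subtype
  let j₂ : (e₁.prod e₂).range →+* L := (RingHom.snd Ω L).comp (e₁.prod e₂).range.subtype
  have hj₁m : ∀ r, j₁ ((e₁.prod e₂).rangeRestrict r) = e₁ r := fun r => rfl
  have hj₂m : ∀ r, j₂ ((e₁.prod e₂).rangeRestrict r) = e₂ r := fun r => rfl
  have hj₁ : Function.Injective j₁ := by
    rw [injective_iff_map_eq_zero]
    intro z hz
    obtain ⟨r, rfl⟩ := (e₁.prod e₂).rangeRestrict_surjective z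
    rw [hj₁m] at hz
    apply Subtype.ext
    exact Prod.ext hz ((hker r).1 hz)
  have hj₂ : Function.Injective j₂ := by
    rw [injective_iff_map_eq_zero]
    intro z hz
    obtain ⟨r, rfl⟩ := (e₁.prod e₂).rangeRestrict_surjective z
    rw [hj₂m] at hz
    apply Subtype.ext
    exact Prod.ext ((hker r).2 hz) hz
  have hA : ∀ a ∈ A, a ∈ Subfield.closure (Set.range j₁) := by
    intro a ha
    apply Subfield.subset_closure
    refine ⟨(e₁.prod e₂).rangeRestrict (MvPolynomial.C ⟨a, ha⟩), ?_⟩
    rw [hj₁m, he₁, MvPolynomial.eval₂Hom_C]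
    rfl
  have hP : ∀ i, P i ∈ Subfield.closure (Set.range j₁) := by
    intro i
    apply Subfield.subset_closure
    refine ⟨(e₁.prod e₂).rangeRestrict (MvPolynomial.X i), ?_⟩
    rw [hj₁m, he₁, MvPolynomial.eval₂Hom_X']
  have hle : AA A (Set.range P) ≤ (Subfield.closure (Set.range j₁)).toIntermediateField (K := k)
      (fun c => hA _ (A.algebraMap_mem c)) := by
    refine sup_le hA ?_
    rw [IntermediateField.adjoin_le_iff]
    rintro _ ⟨i, rfl⟩
    exact hP i
  obtain ⟨Φ, hΦ⟩ := lift_abs j₁ j₂ hj₁ hj₂ (by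
    intro x
    obtain ⟨p, hp, hpx⟩ := halg x
    refine ⟨p.map (algebraMap (AA A (Set.range P)) Ω), ?_, ?_, ?_⟩
    · rwa [Ne, Polynomial.map_eq_zero]
    · intro n
      rw [Polynomial.coeff_map]
      exact hle (p.coeff n).2
    · rw [Polynomial.eval_map, ← Polynomial.aeval_def]
      exact hpx)
  refine ⟨Φ, fun a ha => ?_, fun i => ?_⟩
  · have h1 := hΦ ((e₁.prod e₂).rangeRestrict (MvPolynomial.C ⟨a, ha⟩))
    rw [hj₁m, hj₂m, he₁, he₂, MvPolynomial.eval₂Hom_C, MvPolynomial.eval₂Hom_C] at h1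
    exact h1
  · have h1 := hΦ ((e₁.prod e₂).rangeRestrict (MvPolynomial.X i))
    rw [hj₁m, hj₂m, he₁, he₂, MvPolynomial.eval₂Hom_X', MvPolynomial.eval₂Hom_X'] at h1
    exact h1

end Pool.Agent.TBR.W

end

section


namespace Pool.Agent.TBR.W

open Pool.Agent.TQU

universe u

theorem irred_F {Ω : Type u} [Field Ω] (F : MvPolynomial (Fin 2) Ω) [IsDedekindDomain (CR F)]
    (P : Fin 2 → Ω) (hP : MvPolynomial.eval P F = 0) : Irreducible F := by
  have hprime : (Ideal.span {F}).IsPrime := by
    rw [← Ideal.Quotient.isDomain_iff_prime]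
    infer_instance
  have hF0 : F ≠ 0 := by
    rintro rfl
    -- the ring is the polynomial ring
    let f : CR (0 : MvPolynomial (Fin 2) Ω) →+* Polynomial Ω :=
      Ideal.Quotient.lift _ (MvPolynomial.eval₂Hom (Polynomial.C : Ω →+* Polynomial Ω)
        ![Polynomial.C 0, Polynomial.X]) (by
          intro a ha
          rw [Ideal.mem_span_singleton, zero_dvd_iff] at ha
          rw [ha, map_zero])
    have hf : ∀ g, f (Ideal.Quotient.mk _ g) = MvPolynomial.eval₂Hom
      (Polynomial.C : Ω →+* Polynomial Ω) ![Polynomial.C 0, Polynomial.X] g := fun g => rfl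
    have hsurj : Function.Surjective f := by
      intro p
      refine ⟨Ideal.Quotient.mk _ (Polynomial.aeval (MvPolynomial.X 1) p), ?_⟩
      rw [hf]
      induction p using Polynomial.induction_on' with
      | add p q hp hq => rw [map_add, map_add, hp, hq]
      | monomial n a =>
        rw [Polynomial.aeval_monomial, map_mul, map_pow, MvPolynomial.eval₂Hom_X',
          MvPolynomial.algebraMap_eq, MvPolynomial.eval₂Hom_C]
        simp [Polynomial.C_mul_X_pow_eq_monomial]
    have hker : RingHom.ker f ≠ ⊥ := by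
      intro h
      have h1 : Ideal.Quotient.mk (Ideal.span {(0 : MvPolynomial (Fin 2) Ω)})
          (MvPolynomial.X 0) ∈ RingHom.ker f := by
        rw [RingHom.mem_ker, hf, MvPolynomial.eval₂Hom_X']
        simp
      rw [h, Ideal.mem_bot, Ideal.Quotient.eq_zero_iff_mem, Ideal.mem_span_singleton,
        zero_dvd_iff] at h1
      exact MvPolynomial.X_ne_zero 0 h1
    have hmax : (RingHom.ker f).IsMaximal := (RingHom.ker_isPrime f).isMaximal hker
    have hfield : IsField (CR (0 : MvPolynomial (Fin 2) Ω) ⧸ RingHom.ker f) :=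
      (Ideal.Quotient.maximal_ideal_iff_isField_quotient _).1 hmax
    exact Polynomial.not_isField Ω
      (MulEquiv.isField hfield (RingHom.quotientKerEquivOfSurjective hsurj).symm.toMulEquiv)
  exact ((Ideal.span_singleton_prime hF0).1 hprime).irreducible

theorem nonunits_comap {K L : Type*} [Field K] [Field L] (W : ValuationSubring L) (Φ : K →+* L)
    (x : K) : x ∈ (W.comap Φ).nonunits ↔ Φ x ∈ W.nonunits := by
  have h1 := (W.comap Φ).inv_mem_nonunits_iff (x := x⁻¹)
  have h2 := W.inv_mem_nonunits_iff (x := (Φ x)⁻¹)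
  rw [inv_inv] at h1 h2
  rw [h1, h2, ValuationSubring.mem_comap, map_inv₀, inv_eq_zero, inv_eq_zero, map_eq_zero]

theorem eval₂_mem {Ω L : Type*} [Field Ω] [Field L] (g : Ω →+* L) (W : ValuationSubring L)
    (hW : ∀ a : Ω, g a ∈ W) (x : Fin 2 → L) (hx : ∀ i, x i ∈ W) (p : MvPolynomial (Fin 2) Ω) :
    MvPolynomial.eval₂ g x p ∈ W := by
  rw [MvPolynomial.eval₂_eq]
  refine W.toSubring.sum_mem fun m _ => W.mul_mem _ _ (hW _) ?_
  exact W.toSubring.prod_mem fun i _ => W.toSubring.pow_mem (hx i) _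

section

variable {k Ω : Type u} [Field k] [Field Ω] [Algebra k Ω]

theorem alg_mono (E E' : IntermediateField k Ω) (h : E ≤ E') (x : Ω) (hx : IsAlgebraic E x) :
    IsAlgebraic E' x := by
  obtain ⟨p, hp, hpx⟩ := hx
  refine ⟨p.map (IntermediateField.inclusion h).toRingHom, ?_, ?_⟩
  · rwa [Ne, Polynomial.map_eq_zero]
  · have h1 : (algebraMap E' Ω).comp (IntermediateField.inclusion h).toRingHom =
        algebraMap E Ω := RingHom.ext fun _ => rfl
    rw [Polynomial.aeval_def, Polynomial.eval₂_map, h1, ← Polynomial.aeval_def]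
    exact hpx

theorem key_curve (A : IntermediateField k Ω)
    (hres : ∀ V : ValuationSubring Ω, (∀ x ∈ A, x ∈ V) → V ≠ ⊤ → ∀ t ∈ V,
      ∃ α ∈ A, t - α ∈ V.nonunits)
    (F H : MvPolynomial (Fin 2) Ω) (P : Fin 2 → Ω)
    (halg : ∀ x : Ω, IsAlgebraic (AA A (Set.range P)) x)
    (hgen : ∀ u : MvPolynomial (Fin 2) Ω, Cf (A : Set Ω) u →
      (MvPolynomial.eval P u = 0 ↔ F ∣ u))
    (u w : MvPolynomial (Fin 2) Ω) (hu : Cf (A : Set Ω) u) (hw : Cf (A : Set Ω) w)
    (hFu : ¬ F ∣ u) (hFw : ¬ F ∣ w)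
    (hinf : ∀ V : ValuationSubring Ω, (∀ x ∈ A, x ∈ V) → (¬ ∀ i, P i ∈ V) →
      MvPolynomial.eval P u / MvPolynomial.eval P w ∈ V ∧
        MvPolynomial.eval P w / MvPolynomial.eval P u ∈ V)
    (L : Type u) [Field L] [IsAlgClosed L] [Algebra Ω L] (W : ValuationSubring L)
    (ψ : CR F →ₐ[Ω] L) (hψ : Function.Injective ψ) (hW : ∀ a : Ω, algebraMap Ω L a ∈ W)
    (hT : ψ (Ideal.Quotient.mk (Ideal.span {F}) H) ∉ W) :
    ∃ a : Ω, (a ∈ A ∧ a ≠ 0) ∧ ψ (Ideal.Quotient.mk (Ideal.span {F}) u) /
      ψ (Ideal.Quotient.mk (Ideal.span {F}) w) - algebraMap Ω L a ∈ W.nonunits := by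
  set x' : Fin 2 → L := fun i => ψ (Ideal.Quotient.mk (Ideal.span {F}) (MvPolynomial.X i))
    with hx'
  have hev : ∀ g : MvPolynomial (Fin 2) Ω, MvPolynomial.eval₂ (algebraMap Ω L) x' g =
      ψ (Ideal.Quotient.mk (Ideal.span {F}) g) := by
    intro g
    have h1 : (MvPolynomial.aeval x' : MvPolynomial (Fin 2) Ω →ₐ[Ω] L) =
        ψ.comp (Ideal.Quotient.mkₐ Ω (Ideal.span {F})) := by
      apply MvPolynomial.algHom_ext
      intro i
      simp [hx']
    have h2 := congrArg (fun f => f g) h1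
    simpa [MvPolynomial.aeval_def] using h2
  obtain ⟨Φ, hΦA, hΦP⟩ := lift_gen A P x' (algebraMap Ω L) halg (by
    intro g hg
    rw [hgen g hg, hev, map_eq_zero_iff ψ hψ, Ideal.Quotient.eq_zero_iff_mem,
      Ideal.mem_span_singleton])
  have hΦ : ∀ g : MvPolynomial (Fin 2) Ω, Cf (A : Set Ω) g →
      ψ (Ideal.Quotient.mk (Ideal.span {F}) g) = Φ (MvPolynomial.eval P g) := by
    intro g hg
    rw [← hev]
    exact eval_map_A A (algebraMap Ω L) Φ hΦA P x' hΦP g hg
  set V := W.comap Φ with hV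
  have hVA : ∀ x ∈ A, x ∈ V := by
    intro x hx
    rw [hV, ValuationSubring.mem_comap, hΦA x hx]
    exact hW x
  have hPV : ¬ ∀ i, P i ∈ V := by
    intro h
    apply hT
    rw [← hev]
    apply eval₂_mem _ W hW
    intro i
    rw [← hΦP i]
    exact h i
  have hVtop : V ≠ ⊤ := by
    intro h
    apply hPV
    intro i
    rw [h]
    trivial
  obtain ⟨h1, h2⟩ := hinf V hVA hPV
  have hu0 : MvPolynomial.eval P u ≠ 0 := fun h => hFu ((hgen u hu).1 h)
  have hw0 : MvPolynomial.eval P w ≠ 0 := fun h => hFw ((hgen w hw).1 h)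
  obtain ⟨α, hα, hαV⟩ := hres V hVA hVtop _ h1
  refine ⟨α, ⟨hα, ?_⟩, ?_⟩
  · rintro rfl
    rw [sub_zero, ← inv_div, ValuationSubring.inv_mem_nonunits_iff] at hαV
    rcases hαV with h3 | h3
    · exact div_ne_zero hw0 hu0 h3
    · exact h3 h2
  · rw [hΦ u hu, hΦ w hw, ← hΦA α hα, ← map_div₀, ← map_sub, ← nonunits_comap]
    exact hαV

/-- Weil reciprocity for a function defined over `A` and the function `H` -/
theorem weil_core (A : IntermediateField k Ω)
    (halg : ∀ t : Ω, t ∉ A → ∀ x : Ω, IsAlgebraic (AA A {t}) x)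
    (hres : ∀ V : ValuationSubring Ω, (∀ x ∈ A, x ∈ V) → V ≠ ⊤ → ∀ t ∈ V,
      ∃ α ∈ A, t - α ∈ V.nonunits)
    (F H : MvPolynomial (Fin 2) Ω) [IsDedekindDomain (CR F)]
    (hint : ∀ (M : Type u) [Field M] [Algebra Ω M] (W : ValuationSubring M) (x : Fin 2 → M),
      (∀ a : Ω, algebraMap Ω M a ∈ W) → MvPolynomial.aeval x F = 0 →
        MvPolynomial.aeval x H ∈ W → ∀ i, x i ∈ W)
    (P : Fin 2 → Ω) (hP : MvPolynomial.eval P F = 0) (hPA : ¬ ∀ i, P i ∈ A)
    (hgen : ∀ u : MvPolynomial (Fin 2) Ω, Cf (A : Set Ω) u →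
      (MvPolynomial.eval P u = 0 ↔ F ∣ u))
    (Z : Multiset (Fin 2 → Ω))
    (hZ : Ideal.span {Ideal.Quotient.mk (Ideal.span {F}) H} = (Z.map (ptIdeal F)).prod)
    (hZF : ∀ R ∈ Z, MvPolynomial.eval R F = 0)
    (u w : MvPolynomial (Fin 2) Ω) (hu : Cf (A : Set Ω) u) (hw : Cf (A : Set Ω) w)
    (hFu : ¬ F ∣ u) (hFw : ¬ F ∣ w) (M N : Multiset (Fin 2 → Ω))
    (hM : Ideal.span {Ideal.Quotient.mk (Ideal.span {F}) u} = (M.map (ptIdeal F)).prod)
    (hMF : ∀ R ∈ M, MvPolynomial.eval R F = 0)
    (hN : Ideal.span {Ideal.Quotient.mk (Ideal.span {F}) w} = (N.map (ptIdeal F)).prod)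
    (hNF : ∀ R ∈ N, MvPolynomial.eval R F = 0)
    (hinf : ∀ V : ValuationSubring Ω, (∀ x ∈ A, x ∈ V) → (¬ ∀ i, P i ∈ V) →
      MvPolynomial.eval P u / MvPolynomial.eval P w ∈ V ∧
        MvPolynomial.eval P w / MvPolynomial.eval P u ∈ V) :
    ∃ α ∈ A, α ≠ 0 ∧
      (Z.map fun R => MvPolynomial.eval R u).prod * (N.map fun R => - MvPolynomial.eval R H).prod
      = α * ((Z.map fun R => MvPolynomial.eval R w).prod
        * (M.map fun R => - MvPolynomial.eval R H).prod) := by
  classical
  -- the algebra structure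
  let _ : Algebra (Polynomial Ω) (CR F) := (phi F H).toRingHom.toAlgebra
  have hX : ∀ p : Polynomial Ω, algebraMap (Polynomial Ω) (CR F) p = phi F H p := fun p => rfl
  have hst : IsScalarTower Ω (Polynomial Ω) (CR F) := by
    apply IsScalarTower.of_algebraMap_eq
    intro a
    rw [hX, Polynomial.algebraMap_eq, Polynomial.aeval_C]
  have hfin : Module.Finite (Polynomial Ω) (CR F) := fin_phi F H hint
  have htf : Module.IsTorsionFree (Polynomial Ω) (CR F) :=
    Module.isTorsionFree_iff_algebraMap_injective.2 (inj_phi F H hint P hP)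
  have hXX : algebraMap (Polynomial Ω) (CR F) Polynomial.X =
      Ideal.Quotient.mk (Ideal.span {F}) H := by
    rw [hX, Polynomial.aeval_X]
  -- algebraicity
  have halg' : ∀ x : Ω, IsAlgebraic (AA A (Set.range P)) x := by
    intro x
    obtain ⟨i, hi⟩ := not_forall.1 hPA
    have hle : AA A {P i} ≤ AA A (Set.range P) := by
      refine sup_le_sup_left ?_ A
      apply IntermediateField.adjoin.mono
      rw [Set.singleton_subset_iff]
      exact ⟨i, rfl⟩
    exact alg_mono _ _ hle x (halg (P i) hi x)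
  let A' : Submonoid Ω :=
    { carrier := {a | a ∈ A ∧ a ≠ 0}
      one_mem' := ⟨A.one_mem, one_ne_zero⟩
      mul_mem' := fun ha hb => ⟨A.mul_mem ha.1 hb.1, mul_ne_zero ha.2 hb.2⟩ }
  have hw0 : Ideal.Quotient.mk (Ideal.span {F}) w ≠ 0 := by
    rw [Ne, Ideal.Quotient.eq_zero_iff_mem, Ideal.mem_span_singleton]
    exact hFw
  have hu0 : Ideal.Quotient.mk (Ideal.span {F}) u ≠ 0 := by
    rw [Ne, Ideal.Quotient.eq_zero_iff_mem, Ideal.mem_span_singleton]
    exact hFu
  obtain ⟨α, hα, hlc⟩ := norm_congr (κ := Ω) (S := CR F) A' (fun a ha => ha.2)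
    (Ideal.Quotient.mk (Ideal.span {F}) u) (Ideal.Quotient.mk (Ideal.span {F}) w) hw0 (by
      intro L _ _ _ W ψ hψ hW hT
      rw [hXX] at hT
      exact key_curve A hres F H P halg' hgen u w hu hw hFu hFw hinf L W ψ hψ hW hT)
  -- evaluations
  obtain ⟨ev, hev⟩ : ∃ ev : (Fin 2 → Ω) → (CR F →ₐ[Ω] Ω), ∀ R, MvPolynomial.eval R F = 0 →
      ∀ g, ev R (Ideal.Quotient.mk (Ideal.span {F}) g) = MvPolynomial.eval R g := by
    have h1 : ∀ R : Fin 2 → Ω, ∃ e : CR F →ₐ[Ω] Ω, MvPolynomial.eval R F = 0 →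
        ∀ g, e (Ideal.Quotient.mk (Ideal.span {F}) g) = MvPolynomial.eval R g := by
      intro R
      have h2 : ∀ R' : Fin 2 → Ω, MvPolynomial.eval R' F = 0 → ∀ a ∈ Ideal.span {F},
          MvPolynomial.aeval (R := Ω) R' a = 0 := by
        intro R' hR' a ha
        obtain ⟨c, rfl⟩ := Ideal.mem_span_singleton.1 ha
        rw [map_mul, MvPolynomial.aeval_eq_eval, hR', zero_mul]
      by_cases hR : MvPolynomial.eval R F = 0
      · refine ⟨Ideal.Quotient.liftₐ _ (MvPolynomial.aeval R) (h2 R hR), fun _ g => ?_⟩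
        rw [← MvPolynomial.aeval_eq_eval]
        rfl
      · exact ⟨Ideal.Quotient.liftₐ _ (MvPolynomial.aeval P) (h2 P hP), fun h => absurd h hR⟩
    choose ev hev using h1
    exact ⟨ev, hev⟩
  have hker : ∀ R, MvPolynomial.eval R F = 0 → RingHom.ker (ev R) = ptIdeal F R := by
    intro R hR
    ext r
    obtain ⟨g, rfl⟩ := Ideal.Quotient.mk_surjective r
    rw [mem_pt F R hR, RingHom.mem_ker, hev R hR]
  have hprod : ∀ (M' : Multiset (Fin 2 → Ω)), (∀ R ∈ M', MvPolynomial.eval R F = 0) →
      ((M'.map ev).map fun e => RingHom.ker e).prod = (M'.map (ptIdeal F)).prod := by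
    intro M' hM'
    rw [Multiset.map_map]
    refine congrArg Multiset.prod (Multiset.map_congr rfl fun R hR => ?_)
    exact hker R (hM' R hR)
  -- values at the zeros of `H`
  have hz : ∀ g : MvPolynomial (Fin 2) Ω,
      (Algebra.norm (Polynomial Ω) (Ideal.Quotient.mk (Ideal.span {F}) g)).eval 0 =
        (Z.map fun R => MvPolynomial.eval R g).prod := by
    intro g
    rw [norm_zeros (κ := Ω) (S := CR F) (Z.map ev) (by rw [hXX, hZ, hprod Z hZF]),
      Multiset.map_map]
    refine congrArg Multiset.prod (Multiset.map_congr rfl fun R hR => ?_)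
    exact hev R (hZF R hR) g
  have hp : ∀ (g : MvPolynomial (Fin 2) Ω) (M' : Multiset (Fin 2 → Ω)),
      Ideal.Quotient.mk (Ideal.span {F}) g ≠ 0 → (∀ R ∈ M', MvPolynomial.eval R F = 0) →
      Ideal.span {Ideal.Quotient.mk (Ideal.span {F}) g} = (M'.map (ptIdeal F)).prod →
      (Z.map fun R => MvPolynomial.eval R g).prod =
        (Algebra.norm (Polynomial Ω) (Ideal.Quotient.mk (Ideal.span {F}) g)).leadingCoeff *
          (M'.map fun R => - MvPolynomial.eval R H).prod := by
    intro g M' hg hM' hgM'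
    rw [← hz]
    conv_lhs => rw [norm_prod (κ := Ω) (S := CR F) (M'.map ev) _ hg (by rw [hgM', hprod M' hM'])]
    rw [Polynomial.eval_mul, Polynomial.eval_C, Polynomial.eval_multiset_prod, Multiset.map_map,
      Multiset.map_map]
    congr 1
    refine congrArg Multiset.prod (Multiset.map_congr rfl fun R hR => ?_)
    rw [Function.comp_apply, Function.comp_apply, hXX, hev R (hM' R hR)]
    simp
  refine ⟨α, hα.1, hα.2, ?_⟩
  rw [hp u M hu0 hMF hM, hp w N hw0 hNF hN, hlc]
  ring

end

end Pool.Agent.TBR.W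

end

section


namespace Pool.Agent.TBR
open Pool.Agent.TQU
universe u
variable {k Ω : Type u} [Field k] [Field Ω] [Algebra k Ω] [IsAlgClosed Ω]
theorem weil (A : IntermediateField k Ω) [IsAlgClosed A]
    (hA1 : ∀ t : Ω, t ∉ A → ∀ x : Ω, IsAlgebraic (AA A {t}) x)
    (F H : MvPolynomial (Fin 2) Ω) (hF : Cf (A : Set Ω) F) [IsDedekindDomain (CR F)]
    (hint : ∀ (M : Type u) [Field M] [Algebra Ω M] (W : ValuationSubring M) (x : Fin 2 → M),
      (∀ a : Ω, algebraMap Ω M a ∈ W) → MvPolynomial.aeval x F = 0 →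
        MvPolynomial.aeval x H ∈ W → ∀ i, x i ∈ W)
    (P : Fin 2 → Ω) (hP : MvPolynomial.eval P F = 0) (hPA : ¬ ∀ i, P i ∈ A)
    (Z : Multiset (Fin 2 → Ω))
    (hZ : Ideal.span {Ideal.Quotient.mk (Ideal.span {F}) H} = (Z.map (ptIdeal F)).prod)
    (hZF : ∀ R ∈ Z, MvPolynomial.eval R F = 0)
    (u w : MvPolynomial (Fin 2) Ω) (hu : Cf (A : Set Ω) u) (hw : Cf (A : Set Ω) w)
    (hFu : ¬ F ∣ u) (hFw : ¬ F ∣ w) (M N : Multiset (Fin 2 → Ω))
    (hM : Ideal.span {Ideal.Quotient.mk (Ideal.span {F}) u} = (M.map (ptIdeal F)).prod)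
    (hMF : ∀ R ∈ M, MvPolynomial.eval R F = 0)
    (hN : Ideal.span {Ideal.Quotient.mk (Ideal.span {F}) w} = (N.map (ptIdeal F)).prod)
    (hNF : ∀ R ∈ N, MvPolynomial.eval R F = 0)
    (hinf : ∀ V : ValuationSubring Ω, (∀ x ∈ A, x ∈ V) → (¬ ∀ i, P i ∈ V) →
      MvPolynomial.eval P u / MvPolynomial.eval P w ∈ V ∧
        MvPolynomial.eval P w / MvPolynomial.eval P u ∈ V) :
    ∃ α ∈ A, α ≠ 0 ∧
      (Z.map fun R => MvPolynomial.eval R u).prod * (N.map fun R => - MvPolynomial.eval R H).prod
      = α * ((Z.map fun R => MvPolynomial.eval R w).prod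
        * (M.map fun R => - MvPolynomial.eval R H).prod) :=
  W.weil_core A hA1 (fun V hV hV' t ht => residue A hA1 V hV hV' t ht) F H hint P hP hPA
    (fun u hu => gen_iff A F hF (W.irred_F F P hP) P hP hPA u hu)
    Z hZ hZF u w hu hw hFu hFw M N hM hMF hN hNF hinf

end Pool.Agent.TBR

end
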