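import Pool.Agent.TBM.Br
import Pool.Agent.TBM.Weil
import Pool.Agent.TBM.Norm

/-!
# The main theorem for plane curves
-/

set_option autoImplicit false

section


namespace Pool.Agent.TBR

open Pool.Agent.TQU

universe u

section

variable {k Ω : Type u} [Field k] [Field Ω] [Algebra k Ω]

theorem Fx_adjoin (S : Set Ω) :
    Fx k (IntermediateField.adjoin k S : Set Ω) = Fx k S := by
  refine le_antisymm (Fx_mono (IntermediateField.subset_adjoin k S)) (fun σ hσ x hx => ?_)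
  refine IntermediateField.adjoin_induction k (p := fun x _ => σ x = x) (fun x hx => hσ x hx)
    (fun x => σ.commutes x) (fun x y _ _ h1 h2 => ?_) (fun x _ h => ?_)
    (fun x y _ _ h1 h2 => ?_) hx
  · rw [map_add, h1, h2]
  · rw [map_inv₀, h]
  · rw [map_mul, h1, h2]

theorem Ge_adjoin (S : Set Ω) :
    Ge k (IntermediateField.adjoin k S : Set Ω) = Ge k S := by
  rw [Ge, Ge, Fx_adjoin]

theorem SysU.of_eq {S S' : Set Ω} (h : Fx k S = Fx k S') {ℓ : ℕ}
    {C : ℕ → (Ω ≃ₐ[k] Ω) → (Ω ≃ₐ[k] Ω) → Ωˣ} (hC : SysU S ℓ C) : SysU S' ℓ C := by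
  have hG : Ge k S = Ge k S' := by rw [Ge, Ge, h]
  refine ⟨hC.lc, ?_, ?_, ?_, ?_, ?_⟩
  · rw [← hG]; exact hC.coc
  · rw [← hG]; exact hC.zero
  · rw [← hG]; exact hC.step
  · rw [← hG, ← h]; exact hC.inv
  · rw [← hG]; exact hC.unr

theorem map_eq_of_cf {L : Set Ω} {G : MvPolynomial (Fin 2) Ω} (hG : Cf L G) {σ : Ω ≃ₐ[k] Ω}
    (hσ : σ ∈ Fx k L) : MvPolynomial.map (σ : Ω →+* Ω) G = G := by
  ext m
  rw [MvPolynomial.coeff_map]
  exact hσ _ (hG m)

theorem isAlg_mono {A B : IntermediateField k Ω} (h : A ≤ B) {x : Ω} (hx : IsAlgebraic A x) :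
    IsAlgebraic B x := by
  obtain ⟨p, hp0, hp⟩ := hx
  refine ⟨p.map (IntermediateField.inclusion h : A →+* B),
    (Polynomial.map_ne_zero_iff (IntermediateField.inclusion_injective h)).2 hp0, ?_⟩
  rw [Polynomial.aeval_def, Polynomial.eval₂_map]
  exact hp

theorem mem_Az {z x : Ω} : x ∈ Az k z ↔ IsAlgebraic (IntermediateField.adjoin k {z}) x :=
  mem_algebraicClosure_iff

theorem adjoin_le_Az (z : Ω) : IntermediateField.adjoin k {z} ≤ Az k z := fun x hx =>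
  mem_Az.2 (isAlgebraic_algebraMap (⟨x, hx⟩ : IntermediateField.adjoin k {z}))

end

/-- The zeros of `H` on the curve are the points of `Z`. -/
theorem eval_ne_of_fac {Ω : Type u} [Field Ω] (F H : MvPolynomial (Fin 2) Ω)
    [IsDedekindDomain (CR F)] (Z : Multiset (Fin 2 → Ω))
    (hfac : Ideal.span {Ideal.Quotient.mk (Ideal.span {F}) H} = (Z.map (ptIdeal F)).prod)
    (hZ : ∀ R ∈ Z, MvPolynomial.eval R F = 0) (R : Fin 2 → Ω) (hR : MvPolynomial.eval R F = 0)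
    (hRZ : R ∉ Z) : MvPolynomial.eval R H ≠ 0 := by
  intro h
  have hmax := pt_max F R hR
  have hprime : Prime (ptIdeal F R) := Ideal.prime_of_isPrime (pt_ne_bot F R hR) hmax.isPrime
  have h1 : ptIdeal F R ∣ (Z.map (ptIdeal F)).prod := by
    rw [← hfac, Ideal.dvd_span_singleton, mem_pt F R hR]
    exact h
  obtain ⟨Q, hQ, hdvd⟩ := hprime.exists_mem_multiset_map_dvd h1
  have hle := Ideal.dvd_iff_le.1 hdvd
  have h2 := (pt_max F Q (hZ Q hQ)).eq_of_le hmax.ne_top hle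
  have h3 := pt_inj F Q R (hZ Q hQ) hR h2
  rw [← h3] at hRZ
  exact hRZ hQ

/-- If the Tate conjecture for divisors holds for the fields `L Q` then it holds for `k(z,P)`. -/
theorem main_plane {k Ω : Type u} [Field k] [Field Ω] [Algebra k Ω] [IsAlgClosed Ω]
    (h2 : (2 : Ω) ≠ 0) (z : Ω) (P : Fin 2 → Ω) (F H : MvPolynomial (Fin 2) Ω)
    (s : Multiset (Fin 2 → Ω)) (hp : Pln k z P F H s)
    (hK : ∀ x : Ω, IsAlgebraic (IntermediateField.adjoin k ({z} ∪ Set.range P)) x)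
    (ℓ : ℕ) (hℓ : ℓ.Prime) (hℓk : (ℓ : k) ≠ 0) (L : (Fin 2 → Ω) → IntermediateField k Ω)
    (hfg : ∀ Q ∈ s, (L Q).FG) (hz : ∀ Q ∈ s, z ∈ L Q) (hs : ∀ Q ∈ s, ∀ i, P i + Q i ∈ L Q)
    (hm : ∀ Q ∈ s, ∀ i j, P i * Q j + P j * Q i ∈ L Q)
    (hT : ∀ Q ∈ s, T1B.T1 k (L Q) ℓ) :
    T1B.T1 k (IntermediateField.adjoin k ({z} ∪ Set.range P)) ℓ := by
  classical
  obtain ⟨K, hKdef⟩ : ∃ K, K = IntermediateField.adjoin k ({z} ∪ Set.range P) := ⟨_, rfl⟩
  rw [← hKdef]
  have hKa : ∀ x : Ω, IsAlgebraic K x := by rw [hKdef]; exact hK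
  have hKalg : Algebra.IsAlgebraic K Ω := ⟨hKa⟩
  by_cases hc : ∃ Q ∈ s, ∀ i, P i ∈ L Q
  · -- the field is contained in `L Q`
    obtain ⟨Q, hQ, hPQ⟩ := hc
    have hle : K ≤ L Q := by
      rw [hKdef, IntermediateField.adjoin_le_iff]
      rintro x (hx | ⟨i, rfl⟩)
      · rw [Set.mem_singleton_iff] at hx
        rw [hx]
        exact hz Q hQ
      · exact hPQ i
    let _ : Algebra K (L Q) := (IntermediateField.inclusion hle).toRingHom.toAlgebra
    have _ : IsScalarTower k K (L Q) :=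
      IsScalarTower.of_algebraMap_eq (fun x => ((IntermediateField.inclusion hle).commutes x).symm)
    have _ : IsScalarTower K (L Q) Ω := IsScalarTower.of_algebraMap_eq (fun x => rfl)
    have halg : Algebra.IsAlgebraic K (L Q) := Algebra.IsAlgebraic.of_injective
      (IsScalarTower.toAlgHom K (L Q) Ω) (algebraMap (L Q) Ω).injective
    have hess : Algebra.EssFiniteType k (L Q) := IntermediateField.essFiniteType_iff.2 (hfg Q hQ)
    have hess' : Algebra.EssFiniteType K (L Q) := Algebra.EssFiniteType.of_comp k K (L Q)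
    have hfin : FiniteDimensional K (L Q) := Algebra.finite_of_essFiniteType_of_isAlgebraic
    exact T1B.T1.descend hℓ (hT Q hQ)
  push Not at hc
  have hded := hp.ded
  have hirr : Irreducible F := W.irred_F F P hp.zero
  obtain ⟨A, hA⟩ : ∃ A, A = Az k z := ⟨_, rfl⟩
  have hAcl : IsAlgClosed A := by rw [hA]; exact az_closed z
  have hPA : ¬ ∀ i, P i ∈ A := by rw [hA]; exact hp.gen
  obtain ⟨hZ, hS⟩ : SitZ A z P ∧ Sit A (Ge k ({z} ∪ Set.range P)) P := by
    rw [hA]; exact sit_az z P F hp.cf hirr hp.zero hp.gen hK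
  have hzle : IntermediateField.adjoin k {z} ≤ A := by rw [hA]; exact adjoin_le_Az z
  have hcfA : Cf (A : Set Ω) F := fun m => hzle (hp.cf m)
  have hmemF : ∀ Q ∈ s, MvPolynomial.eval Q F = 0 := fun Q hQ => (hp.mem Q hQ).1
  -- the exchange of `P` and `Q`
  have hsw := fun Q (hQ : Q ∈ s) => swapd h2 z P Q (L Q) (hz Q hQ) (hs Q hQ) (hm Q hQ)
    (by push Not; exact hc Q hQ) hK
  have hQA : ∀ Q ∈ s, ¬ ∀ i, Q i ∈ A := by
    intro Q hQ h
    obtain ⟨-, -, ⟨w, hw, hwP⟩, -⟩ := hsw Q hQ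
    apply hPA
    intro i
    have hwz : w ∈ Fx k {z} := fun x hx => by
      rw [Set.mem_singleton_iff] at hx
      rw [hx]
      exact hw z (hz Q hQ)
    rw [← hZ.stab w hwz (P i), hwP i]
    exact h i
  obtain ⟨Z, hZdef⟩ : ∃ Z, Z = Multiset.replicate 3 P + s := ⟨_, rfl⟩
  have hZmem : ∀ R ∈ Z, R = P ∨ R ∈ s := by
    intro R hR
    rw [hZdef, Multiset.mem_add] at hR
    rcases hR with h | h
    · exact Or.inl (Multiset.eq_of_mem_replicate h)
    · exact Or.inr h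
  have hZF : ∀ R ∈ Z, MvPolynomial.eval R F = 0 := by
    intro R hR
    rcases hZmem R hR with rfl | h
    · exact hp.zero
    · exact hmemF R h
  have hZA : ∀ R ∈ Z, ¬ ∀ i, R i ∈ A := by
    intro R hR
    rcases hZmem R hR with rfl | h
    · exact hPA
    · exact hQA R h
  have hfac : Ideal.span {Ideal.Quotient.mk (Ideal.span {F}) H} = (Z.map (ptIdeal F)).prod := by
    rw [hp.fac, hZdef, Multiset.map_add, Multiset.prod_add, Multiset.map_replicate,
      Multiset.prod_replicate]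
  have htr : ∀ R ∈ Z, ∃ τ ∈ Fx k (A : Set Ω), ∀ i, τ (P i) = R i := fun R hR =>
    tgen A hS.trd F hcfA hirr P R hp.zero (hZF R hR) hPA (hZA R hR)
  choose! t ht1 ht2 using htr
  have hD : Dat A (Ge k ({z} ∪ Set.range P)) P F H Z t := by
    refine ⟨hcfA, fun m => ?_, fun σ hσ => ?_, fun σ hσ => ?_, hp.hint, hp.zero, hPA, hfac, hZF,
      fun R hRA hRF => ?_, fun R hR => ⟨ht1 R hR, ht2 R hR⟩⟩
    · have h3 : IntermediateField.adjoin k ({z} ∪ Set.range P) ≤ AA A (Set.range P) := by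
        rw [IntermediateField.adjoin_le_iff]
        rintro x (hx | hx)
        · rw [Set.mem_singleton_iff] at hx
          rw [hx]
          exact (le_sup_left : A ≤ AA A (Set.range P)) hZ.mem
        · exact (le_sup_right : IntermediateField.adjoin k (Set.range P) ≤ AA A (Set.range P))
            (IntermediateField.subset_adjoin k _ hx)
      exact h3 (hp.cfH m)
    · refine map_eq_of_cf hp.cf ?_
      rw [Fx_adjoin]
      exact Fx_mono Set.subset_union_left (mem_Ge.1 hσ).1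
    · refine map_eq_of_cf hp.cfH ?_
      rw [Fx_adjoin]
      exact (mem_Ge.1 hσ).1
    · refine eval_ne_of_fac F H Z hfac hZF R hRF (fun hR => hZA R hR hRA)
  -- constants
  obtain ⟨p, hpe⟩ := ExpChar.exists Ω
  have hpℓ : p.Coprime ℓ := by
    cases hpe with
    | zero => exact Nat.coprime_one_left ℓ
    | prime hpp =>
      rw [Nat.coprime_primes hpp hℓ]
      rintro rfl
      apply hℓk
      apply (algebraMap k Ω).injective
      rw [map_natCast, map_zero]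
      exact CharP.cast_eq_zero Ω p
  obtain ⟨κ, hκdef⟩ : ∃ κ, κ = algebraicClosure k Ω := ⟨_, rfl⟩
  have hκm : ∀ x : Ω, x ∈ κ ↔ IsAlgebraic k x := by
    intro x; rw [hκdef]; exact mem_algebraicClosure_iff
  have hκcl : IsAlgClosed κ := by
    rw [hκdef]
    exact (algebraicClosure.isAlgClosure k Ω).isAlgClosed
  have hκA : κ ≤ A := fun x hx => hZ.alg x ((hκm x).1 hx)
  have hκN : Ge k ({z} ∪ Set.range P) ≤ Fx k (κ : Set Ω) := fun σ hσ x hx =>
    (mem_Ge.1 hσ).2 x ((hκm x).1 hx)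
  have hκz : ∀ x ∈ A, IsAlgebraic (AA κ {z}) x := by
    intro x hx
    rw [hA, mem_Az] at hx
    exact isAlg_mono le_sup_right hx
  -- the finite extension
  choose! G hG using (fun Q (hQ : Q ∈ s) => (hfg Q hQ : ∃ S : Finset Ω, _))
  obtain ⟨S, hSdef⟩ : ∃ S : Finset Ω, S = s.toFinset.biUnion G := ⟨_, rfl⟩
  let E' : IntermediateField K Ω := IntermediateField.adjoin K (S : Set Ω)
  have hEfin : FiniteDimensional K E' :=
    IntermediateField.finiteDimensional_adjoin (fun x _ => (hKa x).isIntegral)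
  have hLE : ∀ Q ∈ s, ∀ x ∈ L Q, x ∈ E' := by
    intro Q hQ x hx
    have h3 : L Q ≤ E'.restrictScalars k := by
      rw [← hG Q hQ, IntermediateField.adjoin_le_iff]
      intro y hy
      refine IntermediateField.subset_adjoin K _ ?_
      rw [hSdef]
      exact Finset.mem_coe.2 (Finset.mem_biUnion.2 ⟨Q, Multiset.mem_toFinset.2 hQ, hy⟩)
    exact h3 hx
  obtain ⟨D, hDdef⟩ : ∃ D, D = Ge k ({z} ∪ Set.range P) ⊓ Fx k (E' : Set Ω) := ⟨_, rfl⟩
  have hDN : D ≤ Ge k ({z} ∪ Set.range P) := by rw [hDdef]; exact inf_le_left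
  have hDE : D ≤ Fx k (E' : Set Ω) := by rw [hDdef]; exact inf_le_right
  have hDL : ∀ Q ∈ s, D ≤ Ge k (L Q : Set Ω) := fun Q hQ σ hσ =>
    mem_Ge.2 ⟨fun x hx => hDE hσ x (hLE Q hQ x hx), (mem_Ge.1 (hDN hσ)).2⟩
  have hGK : Ge k (K : Set Ω) = Ge k ({z} ∪ Set.range P) := by rw [hKdef, Ge_adjoin]
  have hDK : D ≤ Fx k (K : Set Ω) := by
    refine hDN.trans ?_
    rw [← hGK]
    exact inf_le_left
  have hNor : Normal K Ω := by
    have hcl : IsAlgClosure K Ω := ⟨inferInstance, hKalg⟩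
    exact IsAlgClosure.normal K Ω
  rw [t1_iff k K Ω ℓ]
  intro c hc'
  obtain ⟨C, hC, hCc⟩ := sysK K hKa ℓ c hc'
  have hC' : SysU ({z} ∪ Set.range P) ℓ C := hC.of_eq (by rw [hKdef, Fx_adjoin])
  obtain ⟨a, ha, haC⟩ := mkA A z P hZ hS.trd hPA ℓ C hC'
  have hq : ∀ Q ∈ s, ∀ n, Tri (Ge k (L Q : Set Ω)) (fun σ τ => a n σ τ * t Q • a n σ τ) := by
    intro Q hQ
    obtain ⟨e1, e2, -, e3⟩ := hsw Q hQ
    have hQZ : Q ∈ Z := by rw [hZdef]; exact Multiset.mem_add.2 (Or.inr hQ)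
    have hW : Swap A z P Q (L Q : Set Ω) (t Q) :=
      ⟨e1, hz Q hQ, ht2 Q hQZ, ht1 Q hQZ, e2⟩
    have hLalg : Algebra.IsAlgebraic (L Q) Ω := ⟨e3⟩
    exact sysL (L Q) e3 ℓ _ (nm_sys hZ hW ℓ a ha) ((t1_iff k (L Q) Ω ℓ).1 (hT Q hQ))
  have hrel := fun n => relA hS hZ hD p κ hκA hκN hκz ℓ a ha n
  choose r hr using hrel
  have hPZ : P ∈ Z := by
    rw [hZdef]
    exact Multiset.mem_add.2 (Or.inl (Multiset.mem_replicate.2 ⟨by norm_num, rfl⟩))
  have hPt : ∀ n σ τ, t P • a n σ τ = a n σ τ := by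
    intro n σ τ
    refine ha.fix n σ τ (t P) ?_
    rintro x (hx | ⟨i, rfl⟩)
    · exact ht1 P hPZ x hx
    · exact ht2 P hPZ i
  have hcard := hp.card
  refine fin9 K hℓ c hc' E' (3 - (Multiset.card s : ℤ)) (by omega) p hpℓ r (fun n => ?_)
  have h5 := torsD (Ge k ({z} ∪ Set.range P)) D hDN P s t (fun Q => (L Q : Set Ω)) hDL (a n)
    (fun Q hQ => hq Q hQ n) (hPt n) (p ^ r n) (by rw [← hZdef]; exact hr n)
  have h6 : Tri D (fun σ τ => C n σ τ ^ ((3 - (Multiset.card s : ℤ)) * p ^ r n)) := by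
    refine (h5.mul (((haC n).mono hDN).zpow ((3 - (Multiset.card s : ℤ)) * p ^ r n)).inv).congr
      (fun σ _ τ _ => ?_)
    push_cast
    rw [mul_zpow, inv_zpow, mul_inv, inv_inv, ← mul_assoc, mul_inv_cancel, one_mul]
  rw [tri_iff K hKa D hDK] at h6
  have h7 : D.comap (rsh K) = T1B.geo k K Ω ⊓ E'.fixingSubgroup := by
    ext σ
    rw [Subgroup.mem_comap, Subgroup.mem_inf, hDdef, ← hGK, Subgroup.mem_inf,
      IntermediateField.mem_fixingSubgroup_iff]
    refine and_congr ⟨fun h => (mem_Ge.1 h).2, fun h => mem_Ge.2 ⟨fun x hx => ?_, h⟩⟩ Iff.rfl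
    exact σ.commutes ⟨x, hx⟩
  rw [h7] at h6
  refine h6.congr (fun σ _ τ _ => ?_)
  rw [hCc]

end Pool.Agent.TBR

end
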