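import Pool.Agent.UQ.Krull
import Pool.Agent.TBM.Base

set_option maxSynthPendingDepth 3

/-!
# Cohomology of fields of transcendence degree one
-/

set_option autoImplicit false

section


namespace Pool.Agent.TBR.T

universe u v

variable {G : Type u} {M : Type v} [Group G] [CommGroup M] [MulDistribMulAction G M]

/-- `c` is a 2-cocycle -/
def Coc2 (c : G → G → M) : Prop :=
  ∀ σ τ ρ : G, c σ τ * c (σ * τ) ρ = σ • c τ ρ * c σ (τ * ρ)

/-- `c` is a coboundary on `H` -/
def CobOn (H : Subgroup G) (c : G → G → M) : Prop :=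
  ∃ b : G → M, ∀ σ ∈ H, ∀ τ ∈ H, c σ τ * b (σ * τ) = b σ * σ • b τ

theorem Coc2.one_left {c : G → G → M} (hc : Coc2 c) (g : G) : c 1 g = c 1 1 := by
  have h := hc 1 1 g
  rw [one_mul, one_smul, one_mul] at h
  exact (mul_right_cancel h).symm

theorem Coc2.one_right {c : G → G → M} (hc : Coc2 c) (g : G) : c g 1 = g • c 1 1 := by
  have h := hc g 1 1
  rw [mul_one, mul_one] at h
  exact mul_right_cancel h

/-- the extension defined by the 2-cocycle `c` -/
structure Ext (c : G → G → M) where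
  m : M
  g : G

namespace Ext

variable {c : G → G → M}

omit [Group G] [CommGroup M] [MulDistribMulAction G M] in
theorem ext' {x y : Ext c} (h1 : x.m = y.m) (h2 : x.g = y.g) : x = y := by
  cases x; cases y; simp_all

instance : Mul (Ext c) := ⟨fun x y => ⟨x.m * x.g • y.m * c x.g y.g, x.g * y.g⟩⟩
instance : One (Ext c) := ⟨⟨(c 1 1)⁻¹, 1⟩⟩
instance : Inv (Ext c) := ⟨fun x => ⟨(x.g⁻¹ • x.m)⁻¹ * (c x.g⁻¹ x.g)⁻¹ * (c 1 1)⁻¹, x.g⁻¹⟩⟩

@[simp] theorem mul_m (x y : Ext c) : (x * y).m = x.m * x.g • y.m * c x.g y.g := rfl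
@[simp] theorem mul_g (x y : Ext c) : (x * y).g = x.g * y.g := rfl
omit [MulDistribMulAction G M] in
@[simp] theorem one_m : (1 : Ext c).m = (c 1 1)⁻¹ := rfl
omit [MulDistribMulAction G M] in
@[simp] theorem one_g : (1 : Ext c).g = 1 := rfl
@[simp] theorem inv_m (x : Ext c) :
    (x⁻¹).m = (x.g⁻¹ • x.m)⁻¹ * (c x.g⁻¹ x.g)⁻¹ * (c 1 1)⁻¹ := rfl
@[simp] theorem inv_g (x : Ext c) : (x⁻¹).g = x.g⁻¹ := rfl

/-- the group structure -/
@[reducible] def group (hc : Coc2 c) : Group (Ext c) :=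
  Group.ofLeftAxioms (by
    intro x y z
    apply ext'
    · simp only [mul_m, mul_g, smul_mul', mul_smul]
      have h := hc x.g y.g z.g
      have : x.g • c y.g z.g * c x.g (y.g * z.g) = c x.g y.g * c (x.g * y.g) z.g := h.symm
      calc x.m * x.g • y.m * c x.g y.g * x.g • y.g • z.m * c (x.g * y.g) z.g
          = x.m * x.g • y.m * x.g • y.g • z.m * (c x.g y.g * c (x.g * y.g) z.g) := by
            apply Additive.ofMul.injective
            simp only [ofMul_mul]
            abel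
        _ = x.m * (x.g • y.m * x.g • y.g • z.m * x.g • c y.g z.g) * c x.g (y.g * z.g) := by
            rw [← this]
            apply Additive.ofMul.injective
            simp only [ofMul_mul]
            abel
    · exact mul_assoc _ _ _) (by
    intro x
    apply ext'
    · simp only [mul_m, one_m, one_g, one_smul, hc.one_left]
      apply Additive.ofMul.injective
      simp only [ofMul_mul, ofMul_inv]
      abel
    · exact one_mul _) (by
    intro x
    apply ext'
    · simp only [mul_m, inv_m, inv_g, one_m]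
      apply Additive.ofMul.injective
      simp only [ofMul_mul, ofMul_inv]
      abel
    · exact inv_mul_cancel _)

instance [hc : Fact (Coc2 c)] : Group (Ext c) := group hc.out

variable [hc : Fact (Coc2 c)]

/-- the kernel of the extension -/
def iota (c : G → G → M) [hc : Fact (Coc2 c)] : M →* Ext c where
  toFun m := ⟨m * (c 1 1)⁻¹, 1⟩
  map_one' := ext' (one_mul _) rfl
  map_mul' m m' := by
    refine ext' ?_ (one_mul 1).symm
    show m * m' * (c 1 1)⁻¹ = m * (c 1 1)⁻¹ * (1 : G) • (m' * (c 1 1)⁻¹) * c 1 1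
    rw [one_smul]
    apply Additive.ofMul.injective
    simp only [ofMul_mul, ofMul_inv]
    abel

@[simp] theorem iota_g (m : M) : (iota c m).g = 1 := rfl

@[simp] theorem iota_m (m : M) : (iota c m).m = m * (c 1 1)⁻¹ := rfl

theorem iota_inj {m m' : M} (h : iota c m = iota c m') : m = m' :=
  mul_right_cancel (congrArg Ext.m h)

theorem eq_iota {x : Ext c} (h : x.g = 1) : x = iota c (x.m * c 1 1) :=
  ext' (by rw [iota_m, mul_inv_cancel_right]) h

theorem mul_iota (x : Ext c) (m : M) : x * iota c m = iota c (x.g • m) * x := by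
  refine ext' ?_ ?_
  · show x.m * x.g • (m * (c 1 1)⁻¹) * c x.g 1 = x.g • m * (c 1 1)⁻¹ * (1 : G) • x.m * c 1 x.g
    rw [hc.out.one_left x.g, hc.out.one_right x.g, smul_mul', smul_inv', one_smul]
    apply Additive.ofMul.injective
    simp only [ofMul_mul, ofMul_inv]
    abel
  · show x.g * 1 = 1 * x.g
    rw [mul_one, one_mul]

theorem exists_iota {x y : Ext c} (h : x.g = y.g) : ∃ m, x = iota c m * y := by
  refine ⟨(x * y⁻¹).m * c 1 1, ?_⟩
  rw [← eq_iota, inv_mul_cancel_right]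
  show x.g * y.g⁻¹ = 1
  rw [h, mul_inv_cancel]

/-- the projection -/
def pr (c : G → G → M) [Fact (Coc2 c)] : Ext c →* G where
  toFun := Ext.g
  map_one' := rfl
  map_mul' _ _ := rfl

@[simp] theorem pr_apply (x : Ext c) : pr c x = x.g := rfl

theorem pow_g (x : Ext c) (n : ℕ) : (x ^ n).g = x.g ^ n := map_pow (pr c) x n

theorem zpow_g (x : Ext c) (n : ℤ) : (x ^ n).g = x.g ^ n := map_zpow (pr c) x n

end Ext

open Ext

/-- a complement over `H` -/
structure IsCompl' {c : G → G → M} [Fact (Coc2 c)] (H : Subgroup G) (T : Subgroup (Ext c)) :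
    Prop where
  mem : ∀ x ∈ T, x.g ∈ H
  surj : ∀ h ∈ H, ∃ x ∈ T, x.g = h
  inj : ∀ x ∈ T, x.g = 1 → x = 1

theorem IsCompl'.eq {c : G → G → M} [Fact (Coc2 c)] {H : Subgroup G} {T : Subgroup (Ext c)}
    (hT : IsCompl' H T) {x y : Ext c} (hx : x ∈ T) (hy : y ∈ T) (h : x.g = y.g) : x = y := by
  have h1 : x * y⁻¹ = 1 := hT.inj _ (T.mul_mem hx (T.inv_mem hy)) (by
    show x.g * y.g⁻¹ = 1
    rw [h, mul_inv_cancel])
  exact mul_inv_eq_one.1 h1

theorem isCompl_bot (c : G → G → M) [Fact (Coc2 c)] :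
    IsCompl' (⊥ : Subgroup G) (⊥ : Subgroup (Ext c)) where
  mem x hx := by
    rw [Subgroup.mem_bot] at hx
    rw [hx]
    exact Subgroup.mem_bot.2 rfl
  surj h hh := ⟨1, Subgroup.mem_bot.2 rfl, (Subgroup.mem_bot.1 hh).symm⟩
  inj x hx _ := Subgroup.mem_bot.1 hx

/-- a complement gives a trivialisation -/
theorem CobOn.of_compl {c : G → G → M} [Fact (Coc2 c)] {H : Subgroup G} {T : Subgroup (Ext c)}
    (hT : IsCompl' H T) : CobOn H c := by
  classical
  have h1 : ∀ h : H, ∃ x ∈ T, x.g = h := fun h => hT.surj h h.2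
  choose s hs hs' using h1
  refine ⟨fun g => if hg : g ∈ H then (s ⟨g, hg⟩).m⁻¹ else 1, fun σ hσ τ hτ => ?_⟩
  have hστ := H.mul_mem hσ hτ
  simp only [dif_pos hσ, dif_pos hτ, dif_pos hστ]
  have h2 : s ⟨σ, hσ⟩ * s ⟨τ, hτ⟩ = s ⟨σ * τ, hστ⟩ :=
    hT.eq (T.mul_mem (hs _) (hs _)) (hs _) (by
      show (s ⟨σ, hσ⟩).g * (s ⟨τ, hτ⟩).g = _
      rw [hs', hs', hs'])
  rw [← h2, mul_m, hs', hs', smul_inv']
  apply Additive.ofMul.injective
  simp only [ofMul_mul, ofMul_inv]
  abel

/-- The step from a normal subgroup `H'` of `H` with cyclic quotient of order `p`. -/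
theorem compl_step {c : G → G → M} [Fact (Coc2 c)] {H' H : Subgroup G} (hle : H' ≤ H)
    (g : G) (hg : g ∈ H) (p : ℕ) (hn : ∀ h ∈ H', g * h * g⁻¹ ∈ H')
    (hn' : ∀ h ∈ H', g⁻¹ * h * g ∈ H') (hp : g ^ p ∈ H')
    (hpi : ∀ i : ℤ, g ^ i ∈ H' → (p : ℤ) ∣ i) (hgen : ∀ h ∈ H, ∃ h' ∈ H', ∃ i : ℤ, h = h' * g ^ i)
    (H90 : ∀ z : G → M, (∀ σ ∈ H', ∀ τ ∈ H', z (σ * τ) = z σ * σ • z τ) →
      ∃ y : M, ∀ σ ∈ H', z σ = σ • y * y⁻¹)
    (NS : ∀ x : M, (∀ σ ∈ H', σ • x = x) → g • x = x →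
      ∃ y : M, (∀ σ ∈ H', σ • y = y) ∧ ∏ i ∈ Finset.range p, g ^ i • y = x)
    {T' : Subgroup (Ext c)} (hT' : IsCompl' H' T') :
    ∃ T : Subgroup (Ext c), IsCompl' H T := by
  classical
  -- a lift of `g`
  set g0 : Ext c := ⟨1, g⟩ with hg0
  have hg0g : g0.g = g := rfl
  -- the comparison of the two complements
  have hs1 : ∀ h : H', ∃ x ∈ T', x.g = h := fun h => hT'.surj h h.2
  choose s hs hs' using hs1
  have hsmul : ∀ a b : H', s (a * b) = s a * s b := fun a b =>
    hT'.eq (hs _) (T'.mul_mem (hs _) (hs _)) (by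
      show _ = (s a).g * (s b).g
      rw [hs', hs', hs']
      rfl)
  have hcj : ∀ h : H', ∃ m : M, g0 * s ⟨g⁻¹ * h * g, hn' h h.2⟩ * g0⁻¹ = iota c m * s h := by
    intro h
    refine exists_iota ?_
    show g0.g * (s _).g * g0.g⁻¹ = _
    rw [hs', hs', hg0g]
    show g * (g⁻¹ * (h : G) * g) * g⁻¹ = h
    group
  choose z hz using hcj
  have hzc : ∀ a b : H', z (a * b) = z a * (a : G) • z b := by
    intro a b
    have e1 := hz (a * b)
    have e2 : s ⟨g⁻¹ * ((a * b : H') : G) * g, hn' _ (a * b).2⟩ =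
        s ⟨g⁻¹ * a * g, hn' a a.2⟩ * s ⟨g⁻¹ * b * g, hn' b b.2⟩ := by
      rw [← hsmul]
      congr 1
      apply Subtype.ext
      show g⁻¹ * ((a : G) * b) * g = g⁻¹ * a * g * (g⁻¹ * b * g)
      group
    rw [e2] at e1
    have e3 : g0 * (s ⟨g⁻¹ * a * g, hn' a a.2⟩ * s ⟨g⁻¹ * b * g, hn' b b.2⟩) * g0⁻¹ =
        (g0 * s ⟨g⁻¹ * a * g, hn' a a.2⟩ * g0⁻¹) * (g0 * s ⟨g⁻¹ * b * g, hn' b b.2⟩ * g0⁻¹) := by
      group
    rw [e3, hz, hz, mul_assoc, ← mul_assoc (s a), mul_iota, hs', hsmul] at e1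
    apply iota_inj (c := c)
    rw [map_mul]
    apply mul_right_cancel (b := s a * s b)
    rw [← e1]
    simp only [mul_assoc]
  obtain ⟨y, hy⟩ := H90 (fun h => if hh : h ∈ H' then z ⟨h, hh⟩ else 1) (by
    intro σ hσ τ hτ
    simp only [dif_pos hσ, dif_pos hτ, dif_pos (H'.mul_mem hσ hτ)]
    exact hzc ⟨σ, hσ⟩ ⟨τ, hτ⟩)
  have hy' : ∀ h : H', z h = (h : G) • y * y⁻¹ := by
    intro h
    have := hy h h.2
    rwa [dif_pos h.2] at this
  -- the corrected lift
  set g1 : Ext c := iota c y * g0 with hg1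
  have hg1g : g1.g = g := by
    show 1 * g = g
    exact one_mul g
  have hcj1 : ∀ h : H', g1 * s ⟨g⁻¹ * h * g, hn' h h.2⟩ * g1⁻¹ = s h := by
    intro h
    have e : g1 * s ⟨g⁻¹ * h * g, hn' h h.2⟩ * g1⁻¹ =
        iota c y * (g0 * s ⟨g⁻¹ * h * g, hn' h h.2⟩ * g0⁻¹) * (iota c y)⁻¹ := by
      rw [hg1]
      group
    rw [e, hz, hy', mul_assoc, mul_assoc, ← map_inv, mul_iota, hs', ← mul_assoc, ← mul_assoc,
      ← map_mul, ← map_mul, smul_inv']
    have : y * ((h : G) • y * y⁻¹) * ((h : G) • y)⁻¹ = 1 := by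
      apply Additive.ofMul.injective
      simp only [ofMul_mul, ofMul_inv, ofMul_one]
      abel
    rw [this, map_one, one_mul]
  have hnorm : ∀ t ∈ T', g1 * t * g1⁻¹ ∈ T' := by
    intro t ht
    have h1 := hcj1 ⟨g * t.g * g⁻¹, hn _ (hT'.mem t ht)⟩
    have h2 : s ⟨g⁻¹ * (g * t.g * g⁻¹) * g, hn' _ (hn _ (hT'.mem t ht))⟩ = t :=
      hT'.eq (hs _) ht (by rw [hs']; group)
    rw [h2] at h1
    rw [h1]
    exact hs _
  have hnorm' : ∀ t ∈ T', g1⁻¹ * t * g1 ∈ T' := by
    intro t ht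
    have h1 := hcj1 ⟨t.g, hT'.mem t ht⟩
    have h2 : s ⟨t.g, hT'.mem t ht⟩ = t := hT'.eq (hs _) ht (hs' _)
    rw [h2] at h1
    have h3 : g1⁻¹ * (g1 * s ⟨g⁻¹ * t.g * g, hn' _ (hT'.mem t ht)⟩ * g1⁻¹) * g1 =
        s ⟨g⁻¹ * t.g * g, hn' _ (hT'.mem t ht)⟩ := by
      group
    rw [h1] at h3
    rw [h3]
    exact hs _
  -- the p-th power
  obtain ⟨u, huT, hu⟩ := hT'.surj _ hp
  obtain ⟨x, hx⟩ : ∃ x, g1 ^ p = iota c x * u := exists_iota (by rw [pow_g, hg1g, hu])
  have hgu : g1 * u * g1⁻¹ = u := by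
    refine hT'.eq (hnorm u huT) huT ?_
    show g1.g * u.g * g1.g⁻¹ = u.g
    rw [hg1g, hu, ← pow_succ', pow_succ, mul_inv_cancel_right]
  have hxg : g • x = x := by
    have e : g1 * g1 ^ p * g1⁻¹ = g1 ^ p := by rw [← pow_succ', pow_succ, mul_inv_cancel_right]
    rw [hx, ← mul_assoc, mul_iota, hg1g] at e
    have e2 : iota c (g • x) * g1 * u * g1⁻¹ = iota c (g • x) * (g1 * u * g1⁻¹) := by group
    rw [e2, hgu] at e
    exact iota_inj (mul_right_cancel e)
  have hpowT : ∀ t ∈ T', g1 ^ p * t * (g1 ^ p)⁻¹ ∈ T' := by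
    intro t ht
    have : ∀ n : ℕ, g1 ^ n * t * (g1 ^ n)⁻¹ ∈ T' := by
      intro n
      induction n with
      | zero => simpa using ht
      | succ n ih =>
        have := hnorm _ ih
        rw [pow_succ']
        convert this using 1
        group
    exact this p
  have hxH : ∀ σ ∈ H', σ • x = x := by
    intro σ hσ
    obtain ⟨t', ht', ht'g⟩ := hT'.surj σ hσ
    have h1 : u⁻¹ * t' * u ∈ T' := T'.mul_mem (T'.mul_mem (T'.inv_mem huT) ht') huT
    have h2 := hpowT _ h1
    have h3 : g1 ^ p * (u⁻¹ * t' * u) * (g1 ^ p)⁻¹ = t' := by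
      refine hT'.eq h2 ht' ?_
      show (g1 ^ p).g * (u.g⁻¹ * t'.g * u.g) * (g1 ^ p).g⁻¹ = t'.g
      rw [pow_g, hg1g, hu]
      group
    rw [hx] at h3
    have h4 : iota c x * u * (u⁻¹ * t' * u) * (iota c x * u)⁻¹ =
        iota c x * (t' * iota c x⁻¹) := by
      rw [map_inv]
      group
    rw [h4, mul_iota, ← mul_assoc, ← map_mul, ht'g] at h3
    have h5 : iota c (x * σ • x⁻¹) = iota c 1 := by
      rw [map_one]
      exact mul_eq_right.1 h3
    have h6 := iota_inj h5
    rw [smul_inv'] at h6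
    exact (mul_inv_eq_one.1 h6).symm
  obtain ⟨w, hwH, hwx⟩ := NS x hxH hxg
  -- the final lift
  set g2 : Ext c := (iota c w)⁻¹ * g1 with hg2
  have hg2g : g2.g = g := by
    rw [hg2, ← map_inv]
    show 1 * g1.g = g
    rw [hg1g, one_mul]
  have hwT : ∀ t ∈ T', t * iota c w = iota c w * t := by
    intro t ht
    rw [mul_iota, hwH _ (hT'.mem t ht)]
  have hwT' : ∀ t ∈ T', (iota c w)⁻¹ * t * iota c w = t := by
    intro t ht
    rw [mul_assoc, hwT t ht, inv_mul_cancel_left]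
  have hwT'' : ∀ t ∈ T', iota c w * t * (iota c w)⁻¹ = t := by
    intro t ht
    rw [← hwT t ht, mul_inv_cancel_right]
  have hn2 : ∀ t ∈ T', g2 * t * g2⁻¹ ∈ T' := by
    intro t ht
    have e : g2 * t * g2⁻¹ = (iota c w)⁻¹ * (g1 * t * g1⁻¹) * iota c w := by
      rw [hg2]
      group
    rw [e, hwT' _ (hnorm t ht)]
    exact hnorm t ht
  have hn2' : ∀ t ∈ T', g2⁻¹ * t * g2 ∈ T' := by
    intro t ht
    have e : g2⁻¹ * t * g2 = g1⁻¹ * (iota c w * t * (iota c w)⁻¹) * g1 := by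
      rw [hg2]
      group
    rw [e, hwT'' t ht]
    exact hnorm' t ht
  have hpow2 : ∀ n : ℕ, g2 ^ n = iota c (∏ i ∈ Finset.range n, g ^ i • w)⁻¹ * g1 ^ n := by
    intro n
    induction n with
    | zero => simp
    | succ n ih =>
      rw [pow_succ, ih, hg2, Finset.prod_range_succ, mul_inv, map_mul, ← map_inv, mul_assoc,
        ← mul_assoc (g1 ^ n), mul_iota, pow_g, hg1g, smul_inv', pow_succ]
      simp only [mul_assoc]
  have hg2p : g2 ^ p = u := by
    rw [hpow2, hwx, hx, ← mul_assoc, ← map_mul, inv_mul_cancel, map_one, one_mul]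
  have hn2z : ∀ i : ℤ, ∀ t ∈ T', g2 ^ i * t * (g2 ^ i)⁻¹ ∈ T' := by
    intro i
    induction i using Int.induction_on with
    | zero => intro t ht; simpa using ht
    | succ i ih =>
      intro t ht
      have := ih _ (hn2 t ht)
      rw [zpow_add_one]
      convert this using 1
      group
    | pred i ih =>
      intro t ht
      have := ih _ (hn2' t ht)
      rw [zpow_sub_one]
      convert this using 1
      group
  refine ⟨{ carrier := {x | ∃ t ∈ T', ∃ i : ℤ, x = t * g2 ^ i}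
            mul_mem' := ?_
            one_mem' := ⟨1, T'.one_mem, 0, by simp⟩
            inv_mem' := ?_ }, ?_, ?_, ?_⟩
  · rintro _ _ ⟨t, ht, i, rfl⟩ ⟨t', ht', j, rfl⟩
    refine ⟨t * (g2 ^ i * t' * (g2 ^ i)⁻¹), T'.mul_mem ht (hn2z i _ ht'), i + j, ?_⟩
    rw [zpow_add]
    group
  · rintro _ ⟨t, ht, i, rfl⟩
    refine ⟨g2 ^ (-i) * t⁻¹ * (g2 ^ (-i))⁻¹, hn2z (-i) _ (T'.inv_mem ht), -i, ?_⟩
    group
  · rintro _ ⟨t, ht, i, rfl⟩
    show t.g * (g2 ^ i).g ∈ H
    rw [zpow_g, hg2g]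
    exact H.mul_mem (hle (hT'.mem t ht)) (H.zpow_mem hg i)
  · intro h hh
    obtain ⟨h', hh', i, rfl⟩ := hgen h hh
    obtain ⟨t, ht, htg⟩ := hT'.surj h' hh'
    refine ⟨t * g2 ^ i, ⟨t, ht, i, rfl⟩, ?_⟩
    show t.g * (g2 ^ i).g = _
    rw [zpow_g, hg2g, htg]
  · rintro _ ⟨t, ht, i, rfl⟩ h1
    have h2 : t.g * g ^ i = 1 := by
      rw [← h1]
      show _ = t.g * (g2 ^ i).g
      rw [zpow_g, hg2g]
    have h3 : g ^ i ∈ H' := by
      rw [← inv_eq_of_mul_eq_one_right h2]
      exact H'.inv_mem (hT'.mem t ht)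
    obtain ⟨j, rfl⟩ := hpi i h3
    have h4 : g2 ^ ((p : ℤ) * j) ∈ T' := by
      rw [zpow_mul, zpow_natCast, hg2p]
      exact T'.zpow_mem huT j
    exact hT'.inj _ (T'.mul_mem ht h4) h1

end Pool.Agent.TBR.T

end

section


namespace Pool.Agent.TBR.T

universe u v

variable {G : Type u} {M : Type v} [Group G] [CommGroup M] [MulDistribMulAction G M]

/-- Hilbert 90 for a subgroup -/
def H90On (M : Type v) [CommGroup M] [MulDistribMulAction G M] (H : Subgroup G) : Prop :=
  ∀ z : G → M, (∀ σ ∈ H, ∀ τ ∈ H, z (σ * τ) = z σ * σ • z τ) →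
      ∃ y : M, ∀ σ ∈ H, z σ = σ • y * y⁻¹

/-- norms are surjective for a subgroup -/
def NSOn (M : Type v) [CommGroup M] [MulDistribMulAction G M] [Finite G] (H : Subgroup G) : Prop :=
  ∀ x : M, (∀ σ ∈ H, σ • x = x) → ∃ w : M, ∏ᶠ h : H, (h : G) • w = x

theorem compl_pgroup [Finite G] (c : G → G → M) [Fact (Coc2 c)]
    (h90 : ∀ H : Subgroup G, H90On M H) (hns : ∀ H : Subgroup G, NSOn M H)
    (p : ℕ) [hp : Fact p.Prime] (n : ℕ) : ∀ H : Subgroup G, Nat.card H = p ^ n →
      ∃ T : Subgroup (Ext c), IsCompl' H T := by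
  classical
  induction n with
  | zero =>
    intro H hH
    rw [pow_zero] at hH
    rw [Subgroup.card_eq_one.1 hH]
    exact ⟨_, isCompl_bot c⟩
  | succ n ih =>
    intro H hH
    have := Fintype.ofFinite H
    obtain ⟨K, hK⟩ := Sylow.exists_subgroup_card_pow_prime (G := H) p (n := n)
      (by rw [hH]; exact pow_dvd_pow p (Nat.le_succ n))
    have hidx : K.index = p := by
      have h1 := K.card_mul_index
      rw [hK, hH, pow_succ] at h1
      exact Nat.eq_of_mul_eq_mul_left (pow_pos hp.out.pos n) h1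
    have hKn : K.Normal := by
      refine Subgroup.normal_of_index_eq_minFac_card ?_
      rw [hidx, hH, Nat.Prime.pow_minFac hp.out (Nat.succ_ne_zero n)]
    have hcardq : Nat.card (H ⧸ K) = p := hidx
    -- a generator of the quotient
    obtain ⟨g, hg⟩ : ∃ g : H, g ∉ K := by
      by_contra hcon
      push Not at hcon
      have : K = ⊤ := by
        ext x
        simp [hcon x]
      rw [this, Subgroup.index_top] at hidx
      exact hp.out.one_lt.ne hidx
    have hq1 : (g : H ⧸ K) ≠ 1 := by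
      intro h
      exact hg ((QuotientGroup.eq_one_iff g).1 h)
    have hord : orderOf (g : H ⧸ K) = p := by
      have h1 : orderOf (g : H ⧸ K) ∣ p := hcardq ▸ orderOf_dvd_natCard _
      rcases (Nat.dvd_prime hp.out).1 h1 with h2 | h2
      · exact absurd (orderOf_eq_one_iff.1 h2) hq1
      · exact h2
    have hmemK : ∀ i : ℤ, g ^ i ∈ K ↔ (p : ℤ) ∣ i := by
      intro i
      rw [← QuotientGroup.eq_one_iff, QuotientGroup.mk_zpow, ← hord, orderOf_dvd_iff_zpow_eq_one]
    have hgenK : ∀ h : H, ∃ h' ∈ K, ∃ i : ℤ, h = h' * g ^ i := by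
      intro h
      have h1 : (h : H ⧸ K) ∈ Subgroup.zpowers (g : H ⧸ K) :=
        mem_zpowers_of_prime_card hcardq hq1
      obtain ⟨i, hi⟩ := h1
      have hi' : ((g ^ i : H) : H ⧸ K) = h := by
        rw [QuotientGroup.mk_zpow]
        exact hi
      refine ⟨h * (g ^ i)⁻¹, ?_, i, by group⟩
      rw [← QuotientGroup.eq_one_iff, QuotientGroup.mk_mul, QuotientGroup.mk_inv, hi',
        mul_inv_cancel]
    set H' : Subgroup G := K.map H.subtype with hH'
    have hmem' : ∀ x : H, (x : G) ∈ H' ↔ x ∈ K := by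
      intro x
      constructor
      · rintro ⟨y, hy, hyx⟩
        have : y = x := Subtype.ext hyx
        rwa [← this]
      · intro hx
        exact ⟨x, hx, rfl⟩
    have hle : H' ≤ H := by
      rintro _ ⟨y, _, rfl⟩
      exact y.2
    have hcard' : Nat.card H' = p ^ n := by
      rw [hH', ← hK]
      exact (Nat.card_congr (K.equivMapOfInjective H.subtype H.subtype_injective).toEquiv).symm
    obtain ⟨T', hT'⟩ := ih H' hcard'
    refine compl_step (H' := H') (H := H) hle (g : G) g.2 p ?_ ?_ ?_ ?_ ?_ (h90 H') ?_ hT'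
    · rintro _ ⟨y, hy, rfl⟩
      have := hKn.conj_mem y hy g
      exact ⟨_, this, rfl⟩
    · rintro _ ⟨y, hy, rfl⟩
      have := hKn.conj_mem y hy g⁻¹
      rw [inv_inv] at this
      exact ⟨_, this, rfl⟩
    · have : g ^ (p : ℤ) ∈ K := (hmemK p).2 dvd_rfl
      rw [zpow_natCast] at this
      exact ⟨_, this, rfl⟩
    · intro i hi
      have : ((g ^ i : H) : G) ∈ H' := hi
      exact (hmemK i).1 ((hmem' _).1 this)
    · intro h hh
      obtain ⟨h', hh', i, hi⟩ := hgenK ⟨h, hh⟩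
      exact ⟨h', (hmem' _).2 hh', i, congrArg Subtype.val hi⟩
    · intro x hx hgx
      have hxH : ∀ σ ∈ H, σ • x = x := by
        intro σ hσ
        obtain ⟨h', hh', i, hi⟩ := hgenK ⟨σ, hσ⟩
        have hi' : σ = (h' : G) * (g : G) ^ i := congrArg Subtype.val hi
        have hgi : ((g : G) ^ i) • x = x := by
          have : (g : G) ∈ MulAction.stabilizer G x := hgx
          exact (MulAction.stabilizer G x).zpow_mem this i
        rw [hi', mul_smul, hgi]
        exact hx _ ((hmem' _).2 hh')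
      obtain ⟨w, hw⟩ := hns H x hxH
      refine ⟨∏ h : K, ((h : H) : G) • w, ?_, ?_⟩
      · rintro _ ⟨y, hy, rfl⟩
        rw [Finset.smul_prod']
        refine Fintype.prod_equiv (Equiv.mulLeft (⟨y, hy⟩ : K)) _ _ (fun h => ?_)
        rw [smul_smul]
        rfl
      · rw [finprod_eq_prod_of_fintype] at hw
        rw [← hw, Finset.prod_range]
        simp_rw [Finset.smul_prod']
        rw [← Fintype.prod_prod_type']
        refine Fintype.prod_bijective (fun q : Fin p × K => g ^ (q.1 : ℕ) * (q.2 : H)) ?_ _ _ ?_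
        · rw [Fintype.bijective_iff_injective_and_card]
          constructor
          · rintro ⟨i, a⟩ ⟨j, b⟩ hab
            have hab' : g ^ (i : ℕ) * (a : H) = g ^ (j : ℕ) * (b : H) := hab
            have h1 : g ^ ((i : ℤ) - (j : ℤ)) ∈ K := by
              have : g ^ ((i : ℤ) - (j : ℤ)) = (g ^ (j : ℕ)) * ((b : H) * (a : H)⁻¹) *
                  (g ^ (j : ℕ))⁻¹ := by
                have e : g ^ (i : ℕ) = g ^ (j : ℕ) * (b : H) * (a : H)⁻¹ := by
                  rw [← hab', mul_inv_cancel_right]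
                rw [zpow_sub, zpow_natCast, zpow_natCast, e]
                group
              rw [this]
              exact hKn.conj_mem _ (K.mul_mem b.2 (K.inv_mem a.2)) _
            have h2 := (hmemK _).1 h1
            have h3 : (i : ℤ) - (j : ℤ) = 0 := by
              refine Int.eq_zero_of_abs_lt_dvd h2 ?_
              have h4 := i.2
              have h5 := j.2
              rw [abs_lt]
              constructor <;> omega
            have h6 : i = j := Fin.ext (by omega)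
            subst h6
            have h7 : a = b := Subtype.ext (mul_left_cancel hab')
            rw [h7]
          · rw [Fintype.card_prod, Fintype.card_fin, ← Nat.card_eq_fintype_card,
              ← Nat.card_eq_fintype_card, hK, hH, pow_succ, mul_comm]
        · rintro ⟨i, a⟩
          show ((g : G) ^ (i : ℕ)) • ((a : H) : G) • w = ((g ^ (i : ℕ) * (a : H) : H) : G) • w
          rw [smul_smul]
          rfl

end Pool.Agent.TBR.T

end

section


namespace Pool.Agent.TBR.T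

universe u v

variable {G : Type u} {M : Type v} [Group G] [CommGroup M] [MulDistribMulAction G M]

theorem Coc2.pow {c : G → G → M} (hc : Coc2 c) (n : ℤ) : Coc2 (fun σ τ => c σ τ ^ n) := by
  intro σ τ ρ
  show c σ τ ^ n * c (σ * τ) ρ ^ n = σ • (c τ ρ ^ n) * c σ (τ * ρ) ^ n
  rw [← mul_zpow, hc σ τ ρ, mul_zpow]
  congr 1
  exact (map_zpow (MulDistribMulAction.toMonoidHom M σ) (c τ ρ) n).symm

/-- twist by a coboundary -/
def tw (c : G → G → M) (b : G → M) (σ τ : G) : M := c σ τ * b (σ * τ) * (b σ * σ • b τ)⁻¹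

theorem tw_coc {c : G → G → M} (hc : Coc2 c) (b : G → M) : Coc2 (tw c b) := by
  intro σ τ ρ
  have e := hc σ τ ρ
  have e1 : c σ τ = σ • c τ ρ * c σ (τ * ρ) * (c (σ * τ) ρ)⁻¹ := by
    rw [← e, mul_inv_cancel_right]
  unfold tw
  rw [e1, mul_assoc σ τ ρ]
  simp only [smul_mul', smul_inv', mul_smul]
  apply Additive.ofMul.injective
  simp only [ofMul_mul, ofMul_inv]
  abel

/-- the identity behind the transfer -/
theorem transfer_identity {A : Type*} [CommGroup A] {cst csT csT1 scT1n cT2m cT2mn cA cB scA : A}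
    (h1 : cst * cB = scA * csT)
    (h2 : csT1 * cA = scT1n * csT)
    (h3 : cT2m * cA = cT2mn) :
    cst = (scA * scT1n⁻¹) * (csT1 * cT2m⁻¹) * (cB * cT2mn⁻¹)⁻¹ := by
  have e1 : csT = scT1n⁻¹ * (csT1 * cA) := by rw [h2, inv_mul_cancel_left]
  have e2 : cst = scA * csT * cB⁻¹ := by rw [← h1, mul_inv_cancel_right]
  rw [e2, e1, ← h3]
  apply Additive.ofMul.injective
  simp only [ofMul_mul, ofMul_inv]
  abel

variable {P : Subgroup G}

/-- the transfer element -/
noncomputable def nu (σ : G) (q : G ⧸ P) : G := (σ • q).out⁻¹ * (σ * q.out)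

theorem nu_mem (σ : G) (q : G ⧸ P) : nu σ q ∈ P := by
  have h : ((σ • q).out : G ⧸ P) = ((σ * q.out : G) : G ⧸ P) := by
    rw [QuotientGroup.out_eq']
    conv_lhs => rw [← QuotientGroup.out_eq' q]
    rfl
  exact QuotientGroup.eq.1 h

theorem out_mul_nu (σ : G) (q : G ⧸ P) : (σ • q).out * nu σ q = σ * q.out :=
  mul_inv_cancel_left _ _

theorem nu_mul (σ τ : G) (q : G ⧸ P) : nu (σ * τ) q = nu σ (τ • q) * nu τ q := by
  unfold nu
  rw [mul_smul]
  group

/-- transfer for cocycles which are trivial on the subgroup -/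
theorem transfer_one [Fintype (G ⧸ P)] {c : G → G → M} (hc : Coc2 c)
    (h1 : ∀ σ ∈ P, ∀ τ ∈ P, c σ τ = 1) (σ τ : G) :
    c σ τ ^ Fintype.card (G ⧸ P) * ∏ q : G ⧸ P, (c (σ * τ) q.out *
        (c ((σ * τ) • q).out (nu (σ * τ) q))⁻¹) =
      (∏ q : G ⧸ P, (c σ q.out * (c (σ • q).out (nu σ q))⁻¹)) *
        σ • ∏ q : G ⧸ P, (c τ q.out * (c (τ • q).out (nu τ q))⁻¹) := by
  have key : ∀ q : G ⧸ P, c σ τ * (c (σ * τ) q.out * (c ((σ * τ) • q).out (nu (σ * τ) q))⁻¹) =
      (c σ (τ • q).out * (c (σ • τ • q).out (nu σ (τ • q)))⁻¹) *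
      (σ • c τ q.out * (σ • c (τ • q).out (nu τ q))⁻¹) := by
    intro q
    have e1 := hc σ τ q.out
    have e2 := hc σ (τ • q).out (nu τ q)
    have e3 := hc (σ • τ • q).out (nu σ (τ • q)) (nu τ q)
    rw [out_mul_nu] at e2 e3
    rw [h1 _ (nu_mem σ _) _ (nu_mem τ q), smul_one, one_mul, ← nu_mul σ τ q] at e3
    have e4 := transfer_identity e1 e2 e3
    rw [mul_smul σ τ q, e4]
    apply Additive.ofMul.injective
    simp only [ofMul_mul, ofMul_inv]
    abel
  have h2 : ∏ q : G ⧸ P, (c σ (τ • q).out * (c (σ • τ • q).out (nu σ (τ • q)))⁻¹) =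
      ∏ q : G ⧸ P, (c σ q.out * (c (σ • q).out (nu σ q))⁻¹) :=
    Equiv.prod_comp (MulAction.toPerm τ) (fun q : G ⧸ P =>
      (c σ q.out * (c (σ • q).out (nu σ q))⁻¹))
  rw [← h2, Finset.smul_prod', ← Finset.prod_mul_distrib]
  have h3 : c σ τ ^ Fintype.card (G ⧸ P) = ∏ _q : G ⧸ P, c σ τ := by
    rw [Finset.prod_const, Finset.card_univ]
  rw [h3, ← Finset.prod_mul_distrib]
  refine Finset.prod_congr rfl (fun q _ => ?_)
  rw [key q, smul_mul', smul_inv']

theorem transfer [Finite G] {c : G → G → M} (hc : Coc2 c) (h : CobOn P c) :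
    CobOn ⊤ (fun σ τ => c σ τ ^ (P.index : ℤ)) := by
  classical
  obtain ⟨b, hb⟩ := h
  have := Fintype.ofFinite (G ⧸ P)
  have h1 : ∀ σ ∈ P, ∀ τ ∈ P, tw c b σ τ = 1 := by
    intro σ hσ τ hτ
    unfold tw
    rw [hb σ hσ τ hτ, mul_inv_cancel]
  have hmain := transfer_one (tw_coc hc b) h1
  have hcard : (P.index : ℤ) = (Fintype.card (G ⧸ P) : ℤ) := by
    rw [← Nat.card_eq_fintype_card]
    rfl
  refine ⟨fun σ => (∏ q : G ⧸ P, (tw c b σ q.out * (tw c b (σ • q).out (nu σ q))⁻¹)) *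
    b σ ^ Fintype.card (G ⧸ P), fun σ _ τ _ => ?_⟩
  have h2 := hmain σ τ
  have h3 : c σ τ = tw c b σ τ * (b σ * σ • b τ) * (b (σ * τ))⁻¹ := by
    unfold tw
    rw [inv_mul_cancel_right, mul_inv_cancel_right]
  show c σ τ ^ (P.index : ℤ) * _ = _
  rw [hcard, zpow_natCast, h3, smul_mul', smul_pow', mul_pow, mul_pow, mul_pow, inv_pow]
  have h4 : tw c b σ τ ^ Fintype.card (G ⧸ P) =
      (∏ q : G ⧸ P, (tw c b σ q.out * (tw c b (σ • q).out (nu σ q))⁻¹)) *
        σ • (∏ q : G ⧸ P, (tw c b τ q.out * (tw c b (τ • q).out (nu τ q))⁻¹)) *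
        (∏ q : G ⧸ P, (tw c b (σ * τ) q.out *
          (tw c b ((σ * τ) • q).out (nu (σ * τ) q))⁻¹))⁻¹ := by
    rw [← h2, mul_inv_cancel_right]
  rw [h4]
  apply Additive.ofMul.injective
  simp only [ofMul_mul, ofMul_inv]
  abel

/-- The exponents which kill a 2-cocycle. -/
def exps (c : G → G → M) : AddSubgroup ℤ where
  carrier := {n | CobOn ⊤ (fun σ τ => c σ τ ^ n)}
  zero_mem' := ⟨fun _ => 1, fun σ _ τ _ => by simp⟩
  add_mem' := by
    rintro m n ⟨b, hb⟩ ⟨b', hb'⟩
    refine ⟨fun σ => b σ * b' σ, fun σ hσ τ hτ => ?_⟩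
    have e1 := hb σ hσ τ hτ
    have e2 := hb' σ hσ τ hτ
    show c σ τ ^ (m + n) * (b (σ * τ) * b' (σ * τ)) = b σ * b' σ * σ • (b τ * b' τ)
    rw [zpow_add, smul_mul', mul_mul_mul_comm, mul_mul_mul_comm (b σ)]
    exact congrArg₂ (· * ·) e1 e2
  neg_mem' := by
    rintro n ⟨b, hb⟩
    refine ⟨fun σ => (b σ)⁻¹, fun σ hσ τ hτ => ?_⟩
    have e1 := hb σ hσ τ hτ
    show c σ τ ^ (-n) * (b (σ * τ))⁻¹ = (b σ)⁻¹ * σ • (b τ)⁻¹
    rw [zpow_neg, smul_inv', ← mul_inv, ← mul_inv]
    exact congrArg _ e1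

theorem cob_of_finite [Finite G] (c : G → G → M) (hc : Coc2 c)
    (h90 : ∀ H : Subgroup G, H90On M H) (hns : ∀ H : Subgroup G, NSOn M H) : CobOn ⊤ c := by
  classical
  have : Fact (Coc2 c) := ⟨hc⟩
  have hmem : (1 : ℤ) ∈ exps c := by
    obtain ⟨d, hd⟩ := Int.subgroup_cyclic (exps c)
    rw [hd, AddSubgroup.mem_closure_singleton]
    by_contra hcon
    have hd1 : d.natAbs ≠ 1 := by
      intro h
      rcases Int.natAbs_eq d with h2 | h2
      · exact hcon ⟨1, by rw [h2, h]; simp⟩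
      · exact hcon ⟨-1, by rw [h2, h]; simp⟩
    obtain ⟨p, hp, hpd⟩ := Nat.exists_prime_and_dvd hd1
    have : Fact p.Prime := ⟨hp⟩
    let S : Sylow p G := default
    obtain ⟨n, hn⟩ := S.2.exists_card_eq
    obtain ⟨T, hT⟩ := compl_pgroup c h90 hns p n S hn
    have h1 : ((S : Subgroup G).index : ℤ) ∈ exps c := transfer hc (CobOn.of_compl hT)
    rw [hd, AddSubgroup.mem_closure_singleton] at h1
    obtain ⟨m, hm⟩ := h1
    have h2 : (p : ℤ) ∣ ((S : Subgroup G).index : ℤ) := by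
      rw [← hm, smul_eq_mul]
      exact Dvd.dvd.mul_left (Int.natCast_dvd.2 hpd) m
    exact S.not_dvd_index (Int.natCast_dvd_natCast.1 h2)
  obtain ⟨b, hb⟩ := hmem
  refine ⟨b, fun σ hσ τ hτ => ?_⟩
  have e : c σ τ ^ (1 : ℤ) * b (σ * τ) = b σ * σ • b τ := hb σ hσ τ hτ
  rwa [zpow_one] at e

end Pool.Agent.TBR.T

end

section


namespace Pool.Agent.TBR.T

open MvPolynomial Pool.Agent.UQ

universe u v w

section lin

variable {A : Type u} {F : Type v} [Field A] [Field F] [Algebra A F] {J : Type w}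

/-- a linear functional applied to the coefficients -/
noncomputable def lin (l : F →ₗ[A] A) (G : MvPolynomial J F) : MvPolynomial J A :=
  ∑ m ∈ G.support, monomial m (l (coeff m G))

theorem coeff_lin (l : F →ₗ[A] A) (G : MvPolynomial J F) (m : J →₀ ℕ) :
    coeff m (lin l G) = l (coeff m G) := by
  classical
  unfold lin
  rw [coeff_sum]
  simp only [coeff_monomial]
  rw [Finset.sum_ite_eq']
  split_ifs with h
  · rfl
  · rw [notMem_support_iff.1 h, map_zero]

theorem eval_lin (l : F →ₗ[A] A) (G : MvPolynomial J F) (y : J → A) :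
    eval y (lin l G) = l (eval (fun j => algebraMap A F (y j)) G) := by
  unfold lin
  rw [map_sum, eval_eq, map_sum]
  refine Finset.sum_congr rfl fun m _ => ?_
  rw [eval_monomial]
  have : ∏ i ∈ m.support, (algebraMap A F (y i)) ^ m i = algebraMap A F (m.prod fun n e => y n ^ e) := by
    rw [Finsupp.prod, map_prod]
    simp only [map_pow]
  rw [this, mul_comm (coeff m G), ← Algebra.smul_def, map_smul, smul_eq_mul, mul_comm]

theorem lin_hom (l : F →ₗ[A] A) {G : MvPolynomial J F} {d : ℕ} (hG : G.IsHomogeneous d) :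
    (lin l G).IsHomogeneous d := by
  intro m hm
  rw [coeff_lin] at hm
  exact hG (fun h => hm (by rw [h, map_zero]))

theorem cc_lin (l : F →ₗ[A] A) {G : MvPolynomial J F} (hG : constantCoeff G = 0) :
    constantCoeff (lin l G) = 0 := by
  rw [constantCoeff_eq] at hG ⊢
  rw [coeff_lin, hG, map_zero]

/-- Counting: a polynomial whose values lie in a small space has a nonzero zero. -/
theorem count [IsAlgClosed A] [Fintype J] (V : Submodule A F) [FiniteDimensional A V]
    (G : MvPolynomial J F) (hG0 : constantCoeff G = 0)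
    (hV : ∀ y : J → A, eval (fun j => algebraMap A F (y j)) G ∈ V)
    (hc : Module.finrank A V < Fintype.card J) :
    ∃ y : J → A, y ≠ 0 ∧ eval (fun j => algebraMap A F (y j)) G = 0 := by
  classical
  obtain ⟨p, hp⟩ := V.subtype.exists_leftInverse_of_injective (Submodule.ker_subtype V)
  let b := Module.finBasis A V
  let l : Fin (Module.finrank A V) → (F →ₗ[A] A) := fun i => (b.coord i) ∘ₗ p
  obtain ⟨y, hy, hy'⟩ := exists_ne_zero
    (Finset.univ.image fun i : Fin (Module.finrank A V) => lin (l i) G)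
    (lt_of_le_of_lt (Finset.card_image_le.trans (by simp)) hc)
    (by
      intro q hq
      obtain ⟨i, -, rfl⟩ := Finset.mem_image.1 hq
      exact cc_lin _ hG0)
  refine ⟨y, hy, ?_⟩
  have h1 : ∀ i, l i (eval (fun j => algebraMap A F (y j)) G) = 0 := by
    intro i
    rw [← eval_lin]
    have := hy' _ (Finset.mem_image_of_mem _ (Finset.mem_univ i))
    exact this
  have h2 : p (eval (fun j => algebraMap A F (y j)) G) = 0 := by
    apply b.ext_elem
    intro i
    have := h1 i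
    simp only [l, LinearMap.comp_apply, Module.Basis.coord_apply] at this
    rw [this]
    simp
  have h3 : p (V.subtype ⟨_, hV y⟩) = ⟨_, hV y⟩ := DFunLike.congr_fun hp _
  rw [Submodule.subtype_apply, h2] at h3
  exact (congrArg Subtype.val h3).symm

end lin

/-- the field is C1 -/
def C1 (F : Type u) [Field F] : Prop :=
  ∀ (ι : Type) [Fintype ι] (d : ℕ) (f : MvPolynomial ι F), f.IsHomogeneous d → 0 < d →
    d < Fintype.card ι → ∃ x : ι → F, x ≠ 0 ∧ eval x f = 0

theorem cc_of_hom {F : Type u} [Field F] {ι : Type v} {d : ℕ} {f : MvPolynomial ι F}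
    (hf : f.IsHomogeneous d) (hd : 0 < d) : constantCoeff f = 0 := by
  rw [constantCoeff_eq]
  apply hf.coeff_eq_zero
  simp
  omega

theorem c1_algClosed {F : Type u} [Field F] [IsAlgClosed F] : C1 F := by
  classical
  intro ι _ d f hf hd hlt
  obtain ⟨y, hy, hy'⟩ := exists_ne_zero ({f} : Finset (MvPolynomial ι F))
    (by rw [Finset.card_singleton]; omega)
    (by intro p hp; rw [Finset.mem_singleton.1 hp]; exact cc_of_hom hf hd)
  refine ⟨y, hy, ?_⟩
  have := hy' f (Finset.mem_singleton_self _)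
  exact this

section NF

variable {K : Type u} {L : Type v} [Field K] [Field L] [Algebra K L] {J : Type w}
  {n : Type} [Fintype n] [DecidableEq n] (b : Module.Basis n K L)

/-- entry of the matrix of multiplication -/
noncomputable def ent (i j : n) : L →ₗ[K] K where
  toFun x := Algebra.leftMulMatrix b x i j
  map_add' x y := by rw [map_add]; rfl
  map_smul' a x := by rw [map_smul]; rfl

/-- the norm of a polynomial -/
noncomputable def NF (G : MvPolynomial J L) : MvPolynomial J K :=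
  (Matrix.of fun i j => lin (ent b i j) G).det

theorem eval_NF (G : MvPolynomial J L) (y : J → K) :
    eval y (NF b G) = Algebra.norm K (eval (fun j => algebraMap K L (y j)) G) := by
  unfold NF
  rw [RingHom.map_det, Algebra.norm_eq_matrix_det b]
  congr 1
  ext i j
  simp only [RingHom.mapMatrix_apply, Matrix.map_apply, Matrix.of_apply]
  rw [eval_lin]
  rfl

theorem NF_hom {G : MvPolynomial J L} {d : ℕ} (hG : G.IsHomogeneous d) :
    (NF b G).IsHomogeneous (Fintype.card n * d) := by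
  unfold NF
  rw [Matrix.det_apply]
  apply IsHomogeneous.sum
  intro σ _
  have h1 : (∏ i, (Matrix.of fun i j => lin (ent b i j) G) (σ i) i).IsHomogeneous
      (Fintype.card n * d) := by
    have h := IsHomogeneous.prod (Finset.univ : Finset n)
      (fun i => (Matrix.of fun i j => lin (ent b i j) G) (σ i) i) (fun _ => d)
      (fun i _ => lin_hom _ hG)
    simpa using h
  rcases Int.units_eq_one_or (Equiv.Perm.sign σ) with h | h
  · rw [h, one_smul]; exact h1
  · rw [h, Units.neg_smul, one_smul]; exact h1.neg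

end NF

/-- finite extensions of C1 fields -/
theorem C1.of_finite {K : Type u} {L : Type v} [Field K] [Field L] [Algebra K L]
    [FiniteDimensional K L] (hK : C1 K) : C1 L := by
  classical
  intro ι _ d f hf hd hlt
  let b := Module.finBasis K L
  let g : ι → MvPolynomial (ι × Fin (Module.finrank K L)) L :=
    fun i => ∑ j, C (b j) * X (i, j)
  have hg : ∀ i, (g i).IsHomogeneous 1 := fun i =>
    IsHomogeneous.sum _ _ _ fun j _ => by
      have := (isHomogeneous_C (ι × Fin (Module.finrank K L)) (b j)).mul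
        (isHomogeneous_X L (i, j))
      rwa [zero_add] at this
  have hG : (aeval g f).IsHomogeneous d := by
    have := hf.aeval g hg
    rwa [one_mul] at this
  have hr : 0 < Module.finrank K L := Module.finrank_pos
  obtain ⟨y, hy, hy'⟩ := hK _ _ (NF b (aeval g f)) (NF_hom b hG)
    (by rw [Fintype.card_fin]; positivity)
    (by
      rw [Fintype.card_prod, Fintype.card_fin, mul_comm (Fintype.card ι)]
      exact Nat.mul_lt_mul_of_pos_left hlt hr)
  rw [eval_NF, Algebra.norm_eq_zero_iff] at hy'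
  refine ⟨fun i => ∑ j, b j * algebraMap K L (y (i, j)), ?_, ?_⟩
  · intro h
    apply hy
    funext ⟨i, j⟩
    have h1 : ∑ j, y (i, j) • b j = 0 := by
      have := congrFun h i
      simp only [Pi.zero_apply] at this
      rw [← this]
      refine Finset.sum_congr rfl fun j _ => ?_
      rw [Algebra.smul_def, mul_comm]
    exact Fintype.linearIndependent_iff.1 b.linearIndependent (fun j => y (i, j)) h1 j
  · rw [← hy', aeval_def, eval₂_eq', eval_eq', map_sum]
    refine Finset.sum_congr rfl fun m _ => ?_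
    rw [map_mul, map_prod]
    congr 1
    · simp
    · refine Finset.prod_congr rfl fun i _ => ?_
      rw [map_pow]
      congr 1
      simp [g]

end Pool.Agent.TBR.T

end

section


namespace Pool.Agent.TBR.T

open MvPolynomial Pool.Agent.UQ

universe u v w

theorem C1.of_algebraic {K : Type u} {L : Type v} [Field K] [Field L] [Algebra K L]
    [Algebra.IsAlgebraic K L] (hK : C1 K) : C1 L := by
  classical
  intro ι _ d f hf hd hlt
  let E := IntermediateField.adjoin K (f.coeffs : Set L)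
  have : FiniteDimensional K E :=
    IntermediateField.finiteDimensional_adjoin (fun x _ => Algebra.IsIntegral.isIntegral x)
  obtain ⟨g, hg⟩ : f ∈ Set.range (map (algebraMap E L)) :=
    mem_range_map_iff_coeffs_subset.2
      (fun x hx => ⟨⟨x, IntermediateField.subset_adjoin _ _ hx⟩, rfl⟩)
  have hgh : g.IsHomogeneous d :=
    IsHomogeneous.of_map (algebraMap E L).injective (by rw [hg]; exact hf)
  obtain ⟨x, hx, hx'⟩ := hK.of_finite (L := E) ι d g hgh hd hlt
  refine ⟨fun i => algebraMap E L (x i), ?_, ?_⟩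
  · intro h
    apply hx
    funext i
    have := congrFun h i
    exact (map_eq_zero_iff _ (algebraMap E L).injective).1 this
  · have h := MvPolynomial.map_eval (algebraMap E L) x g
    rw [hx', map_zero, hg] at h
    exact h.symm

theorem eval_aeval {F : Type u} [Field F] {ι : Type v} {J : Type w} (f : MvPolynomial ι F)
    (g : ι → MvPolynomial J F) (z : J → F) :
    eval z (aeval g f) = eval (fun i => eval z (g i)) f := by
  induction f using MvPolynomial.induction_on with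
  | C a => simp [algebraMap_eq]
  | add p q hp hq => simp only [map_add, hp, hq]
  | mul_X p i hp => simp only [map_mul, hp, aeval_X, eval_X]

theorem common_den {A : Type u} {F : Type v} [Field A] [Field F] [Algebra A F] (t : F)
    (hF : ∀ x : F, ∃ r s : Polynomial A, Polynomial.aeval t s ≠ 0 ∧
      x * Polynomial.aeval t s = Polynomial.aeval t r) (S : Finset F) :
    ∃ D : Polynomial A, Polynomial.aeval t D ≠ 0 ∧
      ∀ x ∈ S, ∃ r : Polynomial A, Polynomial.aeval t D * x = Polynomial.aeval t r := by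
  classical
  induction S using Finset.induction_on with
  | empty => exact ⟨1, by simp, by simp⟩
  | insert a S _ ih =>
    obtain ⟨D, hD, h⟩ := ih
    obtain ⟨r, s, hs, hr⟩ := hF a
    refine ⟨D * s, by rw [map_mul]; exact mul_ne_zero hD hs, fun x hx => ?_⟩
    rcases Finset.mem_insert.1 hx with rfl | hx
    · exact ⟨D * r, by rw [map_mul, map_mul, ← hr]; ring⟩
    · obtain ⟨r', hr'⟩ := h x hx
      exact ⟨s * r', by rw [map_mul, map_mul, ← hr']; ring⟩

theorem c1_simple {A : Type u} {F : Type v} [Field A] [IsAlgClosed A] [Field F] [Algebra A F]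
    (t : F) (ht : Transcendental A t)
    (hF : ∀ x : F, ∃ r s : Polynomial A, Polynomial.aeval t s ≠ 0 ∧
      x * Polynomial.aeval t s = Polynomial.aeval t r) : C1 F := by
  classical
  intro ι _ d f hf hd hlt
  obtain ⟨D, hD, h⟩ := common_den t hF f.coeffs
  choose! r hr using h
  let e : ℕ := f.support.sup fun m => (r (coeff m f)).natDegree
  let g : ι → MvPolynomial (ι × Fin (e + 1)) F := fun i =>
    ∑ l : Fin (e + 1), C (t ^ (l : ℕ)) * X (i, l)
  let P : (ι × Fin (e + 1) → A) → ι → Polynomial A := fun y i =>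
    ∑ l : Fin (e + 1), Polynomial.monomial (l : ℕ) (y (i, l))
  let G : MvPolynomial (ι × Fin (e + 1)) F := C (Polynomial.aeval t D) * aeval g f
  have hP : ∀ y i, Polynomial.aeval t (P y i) =
      ∑ l : Fin (e + 1), t ^ (l : ℕ) * algebraMap A F (y (i, l)) := by
    intro y i
    simp only [P, map_sum, Polynomial.aeval_monomial]
    exact Finset.sum_congr rfl fun l _ => mul_comm _ _
  have hPd : ∀ y i, (P y i).natDegree ≤ e := by
    intro y i
    refine Polynomial.natDegree_sum_le_of_forall_le _ _ fun l _ => ?_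
    exact (Polynomial.natDegree_monomial_le _).trans (Nat.lt_succ_iff.1 l.2)
  have hPc : ∀ y i (l : Fin (e + 1)), (P y i).coeff l = y (i, l) := by
    intro y i l
    simp only [P, Polynomial.finsetSum_coeff, Polynomial.coeff_monomial]
    rw [Finset.sum_eq_single l]
    · simp
    · intro l' _ hne
      rw [if_neg]
      exact fun h => hne (Fin.ext h)
    · intro h
      exact absurd (Finset.mem_univ _) h
  have hev : ∀ y : ι × Fin (e + 1) → A, eval (fun j => algebraMap A F (y j)) G =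
      Polynomial.aeval t D * eval (fun i => Polynomial.aeval t (P y i)) f := by
    intro y
    simp only [G]
    rw [map_mul, eval_C, eval_aeval]
    congr 3
    funext i
    rw [hP]
    simp [g]
  let V : Submodule A F := (Polynomial.degreeLT A (e + e * d + 1)).map
    (Polynomial.aeval t : Polynomial A →ₐ[A] F).toLinearMap
  have hfin : FiniteDimensional A (Polynomial.degreeLT A (e + e * d + 1)) :=
    Module.Finite.equiv (Polynomial.degreeLTEquiv A (e + e * d + 1)).symm
  have hfr : Module.finrank A (Polynomial.degreeLT A (e + e * d + 1)) = e + e * d + 1 := by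
    rw [(Polynomial.degreeLTEquiv A (e + e * d + 1)).finrank_eq]
    simp
  have hVfin : FiniteDimensional A V := Module.Finite.map _ _
  have hVr : Module.finrank A V ≤ e + e * d + 1 := by
    rw [← hfr]
    exact Submodule.finrank_map_le _ _
  have hG0 : constantCoeff G = 0 := by
    simp only [G]
    rw [map_mul]
    have hg : ∀ i, (g i).IsHomogeneous 1 := fun i =>
      IsHomogeneous.sum _ _ _ fun j _ => by
        have := (isHomogeneous_C (ι × Fin (e + 1)) (t ^ (j : ℕ))).mul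
          (isHomogeneous_X F (i, j))
        rwa [zero_add] at this
    have hG : (aeval g f).IsHomogeneous d := by
      have := hf.aeval g hg
      rwa [one_mul] at this
    rw [cc_of_hom hG hd, mul_zero]
  obtain ⟨y, hy, hy'⟩ := count V G hG0
    (by
      intro y
      rw [hev y, eval_eq', Finset.mul_sum]
      refine Submodule.sum_mem _ fun m hm => ?_
      rw [← mul_assoc, hr _ (coeff_mem_coeffs m (mem_support_iff.1 hm))]
      refine ⟨r (coeff m f) * ∏ i, P y i ^ m i, ?_, ?_⟩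
      · rw [SetLike.mem_coe, Polynomial.mem_degreeLT]
        refine (Polynomial.degree_le_natDegree).trans_lt ?_
        rw [Nat.cast_lt]
        refine Nat.lt_succ_of_le (Polynomial.natDegree_mul_le.trans ?_)
        refine Nat.add_le_add (Finset.le_sup (f := fun m => (r (coeff m f)).natDegree) hm) ?_
        refine (Polynomial.natDegree_prod_le _ _).trans ?_
        have h1 : ∀ i, (P y i ^ m i).natDegree ≤ e * m i := fun i => by
          refine Polynomial.natDegree_pow_le.trans ?_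
          rw [mul_comm]
          exact Nat.mul_le_mul_right _ (hPd y i)
        refine (Finset.sum_le_sum fun i _ => h1 i).trans ?_
        rw [← Finset.mul_sum]
        refine Nat.mul_le_mul_left _ (le_of_eq ?_)
        have h2 := hf (mem_support_iff.1 hm)
        rw [Finsupp.weight_apply] at h2
        rw [← h2, Finsupp.sum_fintype _ _ (by simp)]
        simp
      · simp only [AlgHom.toLinearMap_apply, map_mul, map_prod, map_pow])
    (by
      refine hVr.trans_lt ?_
      rw [Fintype.card_prod, Fintype.card_fin]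
      have : (d + 1) * (e + 1) ≤ Fintype.card ι * (e + 1) := Nat.mul_le_mul_right _ hlt
      nlinarith)
  rw [hev] at hy'
  refine ⟨_, ?_, (mul_eq_zero.1 hy').resolve_left hD⟩
  intro h
  apply hy
  funext ⟨i, l⟩
  have h1 : Polynomial.aeval t (P y i) = 0 := congrFun h i
  have h2 : P y i = 0 := (transcendental_iff.1 ht) _ h1
  rw [← hPc y i l, h2]
  simp

theorem c1_of_trdeg {A : Type u} {F : Type v} [Field A] [IsAlgClosed A] [Field F] [Algebra A F]
    (h : Algebra.trdeg A F ≤ 1) : C1 F := by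
  obtain ⟨s, hs⟩ := exists_isTranscendenceBasis A F
  have hc := hs.cardinalMk_eq_trdeg
  rw [← hc, Cardinal.le_one_iff_subsingleton] at h
  rcases s.eq_empty_or_nonempty with rfl | ⟨t, ht⟩
  · have : Algebra.IsAlgebraic A F := hs.isEmpty_iff_isAlgebraic.1 inferInstance
    exact c1_algClosed.of_algebraic (K := A)
  · have hst : s = {t} := by
      ext x
      constructor
      · intro hx
        have := congrArg Subtype.val (Subsingleton.elim (⟨x, hx⟩ : s) ⟨t, ht⟩)
        exact this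
      · rintro rfl
        exact ht
    have halg := hs.isAlgebraic_field
    rw [Subtype.range_coe, hst] at halg
    have htr : Transcendental A t := hs.1.transcendental ⟨t, ht⟩
    have h0 : C1 (IntermediateField.adjoin A {t}) := by
      refine c1_simple (A := A) (IntermediateField.AdjoinSimple.gen A t) ?_ ?_
      · intro hcon
        apply htr
        have := hcon.algebraMap (A := F)
        simpa using this
      · rintro ⟨x, hx⟩
        obtain ⟨r, s, hrs⟩ := (IntermediateField.mem_adjoin_simple_iff A x).1 hx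
        have hi : Function.Injective (algebraMap (IntermediateField.adjoin A {t}) F) :=
          (algebraMap (IntermediateField.adjoin A {t}) F).injective
        have hga : ∀ q : Polynomial A, algebraMap (IntermediateField.adjoin A {t}) F
            (Polynomial.aeval (IntermediateField.AdjoinSimple.gen A t) q) =
            Polynomial.aeval t q := by
          intro q
          rw [← Polynomial.aeval_algebraMap_apply, IntermediateField.AdjoinSimple.algebraMap_gen]
        by_cases hs0 : Polynomial.aeval t s = 0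
        · refine ⟨0, 1, by simp, hi ?_⟩
          rw [map_mul, hga, hga]
          show x * _ = _
          rw [hrs, hs0, div_zero]
          simp
        · refine ⟨r, s, fun h => hs0 (by rw [← hga, h, map_zero]), hi ?_⟩
          rw [map_mul, hga, hga]
          show x * _ = _
          rw [hrs]
          exact div_mul_cancel₀ _ hs0
    exact h0.of_algebraic

/-- norms are surjective over C1 fields -/
theorem C1.norm_surj {K : Type u} {L : Type v} [Field K] [Field L] [Algebra K L]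
    [FiniteDimensional K L] (hK : C1 K) (x : K) : ∃ z : L, Algebra.norm K z = x := by
  classical
  have hr : 0 < Module.finrank K L := Module.finrank_pos
  by_cases hx : x = 0
  · exact ⟨0, by rw [hx, Algebra.norm_zero]⟩
  let n := Module.finrank K L
  let b := Module.finBasis K L
  let f : MvPolynomial (Option (Fin n)) L := ∑ j, C (b j) * X (some j)
  have hf : f.IsHomogeneous 1 :=
    IsHomogeneous.sum _ _ _ fun j _ => by
      have := (isHomogeneous_C (Option (Fin n)) (b j)).mul (isHomogeneous_X L (some j))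
      rwa [zero_add] at this
  let G : MvPolynomial (Option (Fin n)) K := NF b f - C x * X none ^ n
  have hG : G.IsHomogeneous n := by
    refine IsHomogeneous.sub ?_ ?_
    · have := NF_hom b hf
      rwa [mul_one, Fintype.card_fin] at this
    · have := (isHomogeneous_C (Option (Fin n)) x).mul ((isHomogeneous_X K none).pow n)
      rwa [zero_add, one_mul] at this
  obtain ⟨y, hy, hy'⟩ := hK _ n G hG hr (by rw [Fintype.card_option, Fintype.card_fin]; omega)
  have hfe : eval (fun j => algebraMap K L (y j)) f = ∑ j, y (some j) • b j := by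
    simp only [f, map_sum, map_mul, eval_C, eval_X]
    refine Finset.sum_congr rfl fun j _ => ?_
    rw [Algebra.smul_def, mul_comm]
  simp only [G, map_sub, map_mul, eval_C, map_pow, eval_X] at hy'
  rw [eval_NF, hfe] at hy'
  have hy0 : y none ≠ 0 := by
    intro h0
    rw [h0, zero_pow hr.ne', mul_zero, sub_zero, Algebra.norm_eq_zero_iff] at hy'
    apply hy
    funext o
    cases o with
    | none => exact h0
    | some j =>
      exact Fintype.linearIndependent_iff.1 b.linearIndependent (fun j => y (some j)) hy' j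
  refine ⟨(∑ j, y (some j) • b j) * algebraMap K L (y none)⁻¹, ?_⟩
  rw [map_mul, Algebra.norm_algebraMap, sub_eq_zero.1 hy', mul_assoc, ← mul_pow,
    mul_inv_cancel₀ hy0, one_pow, mul_one]

end Pool.Agent.TBR.T

end

section


namespace Pool.Agent.TBR.T

universe u v w

section

variable {E Q : Type u} [Field E] [Group Q] [Finite Q] [MulSemiringAction Q E] [FaithfulSMul Q E]

/-- the action on the units -/
@[reducible] def actU (Q E : Type u) [Field E] [Group Q] [MulSemiringAction Q E] :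
    MulDistribMulAction Q Eˣ where
  smul g x := Units.map (MulDistribMulAction.toMonoidHom E g) x
  one_smul x := Units.ext (one_smul Q (x : E))
  mul_smul g h x := Units.ext (mul_smul g h (x : E))
  smul_mul g x y := Units.ext (smul_mul' g (x : E) (y : E))
  smul_one g := Units.ext (smul_one g)

attribute [local instance] actU

omit [Finite Q] [FaithfulSMul Q E] in
theorem smul_units_val (g : Q) (x : Eˣ) : ((g • x : Eˣ) : E) = g • (x : E) := rfl

theorem h90 (H : Subgroup Q) : H90On Eˣ H := by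
  classical
  intro z hz
  have := Fintype.ofFinite H
  let φ : H → (E →* E) := fun h => (MulSemiringAction.toRingHom Q E (h : Q) : E →* E)
  have hφ : Function.Injective φ := by
    intro h h' hh
    apply Subtype.ext
    apply FaithfulSMul.eq_of_smul_eq_smul (α := E)
    intro a
    exact DFunLike.congr_fun hh a
  have hli : LinearIndependent E (fun h : H => (φ h : E → E)) :=
    (linearIndependent_monoidHom E E).comp φ hφ
  obtain ⟨a, ha⟩ : ∃ a : E, ∑ h : H, (z h : E) * ((h : Q) • a) ≠ 0 := by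
    by_contra hcon
    push Not at hcon
    have h1 := Fintype.linearIndependent_iff.1 hli (fun h => (z h : E)) (by
      funext a
      rw [Finset.sum_apply]
      exact hcon a) 1
    exact (z ((1 : H) : Q)).ne_zero h1
  set y₀ : E := ∑ h : H, (z h : E) * ((h : Q) • a) with hy₀
  refine ⟨(Units.mk0 y₀ ha)⁻¹, fun σ hσ => ?_⟩
  have key : (z σ : E) * σ • y₀ = y₀ := by
    rw [hy₀, Finset.smul_sum, Finset.mul_sum]
    refine Fintype.sum_bijective (fun h : H => (⟨σ, hσ⟩ : H) * h)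
      (Group.mulLeft_bijective (⟨σ, hσ⟩ : H)) _ _ fun h => ?_
    have h1 := congrArg Units.val (hz σ hσ h h.2)
    rw [Units.val_mul, smul_units_val] at h1
    show _ = (z (σ * h) : E) * ((σ * (h : Q)) • a)
    rw [h1, smul_mul', mul_smul]
    ring
  rw [smul_inv', inv_inv, eq_comm, inv_mul_eq_iff_eq_mul]
  apply Units.ext
  rw [Units.val_mul, smul_units_val, Units.val_mk0, mul_comm]
  exact key.symm

theorem ns {κ : Type u} [Field κ] [IsAlgClosed κ] [Algebra κ E]
    (hκ : ∀ (g : Q) (x : κ), g • algebraMap κ E x = algebraMap κ E x)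
    (ht : Algebra.trdeg κ E ≤ 1) (H : Subgroup Q) : NSOn Eˣ H := by
  classical
  intro x hx
  let K := FixedPoints.subfield H E
  let i : κ →+* K := (algebraMap κ E).codRestrict K (fun x h => hκ h x)
  let : Algebra κ K := i.toAlgebra
  let f : K →ₐ[κ] E := { K.subtype with commutes' := fun _ => rfl }
  have h1 : Algebra.trdeg κ K ≤ 1 :=
    (trdeg_le_of_injective f Subtype.val_injective).trans ht
  have hC : C1 K := c1_of_trdeg (A := κ) h1
  obtain ⟨z, hz⟩ := hC.norm_surj (L := E) ⟨(x : E), fun h => congrArg Units.val (hx h h.2)⟩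
  have hn := Algebra.norm_eq_prod_automorphisms K z
  rw [hz] at hn
  have hz0 : z ≠ 0 := by
    rintro rfl
    rw [Algebra.norm_zero] at hz
    exact x.ne_zero (congrArg Subtype.val hz).symm
  refine ⟨Units.mk0 z hz0, ?_⟩
  have := Fintype.ofFinite H
  rw [finprod_eq_prod_of_fintype]
  apply Units.ext
  rw [Units.coe_prod]
  have h2 : (x : E) = ∏ σ : Gal(E/K), σ z := hn
  rw [h2]
  refine Fintype.prod_bijective (FixedPoints.toAlgAutMulEquiv H E)
    (FixedPoints.toAlgAutMulEquiv H E).bijective _ _ fun h => ?_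
  rfl

end

end Pool.Agent.TBR.T

namespace Pool.Agent.TBR

universe u

open Pool.Agent.TBR.T in
theorem T.tsq' {κ E Q : Type u} [Field κ] [IsAlgClosed κ] [Field E] [Algebra κ E] [Group Q]
    [Finite Q] [MulSemiringAction Q E] [FaithfulSMul Q E]
    (hκ : ∀ (g : Q) (x : κ), g • algebraMap κ E x = algebraMap κ E x)
    (ht : Algebra.trdeg κ E ≤ 1)
    (c : Q → Q → E) (hc0 : ∀ g h, c g h ≠ 0)
    (hc : ∀ g h j, c g h * c (g * h) j = g • c h j * c g (h * j)) :
    ∃ b : Q → E, (∀ g, b g ≠ 0) ∧ ∀ g h, c g h * b (g * h) = b g * g • b h := by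
  let := actU Q E
  obtain ⟨b, hb⟩ := cob_of_finite (M := Eˣ) (fun g h => Units.mk0 (c g h) (hc0 g h))
    (fun g h j => Units.ext (hc g h j)) h90 (ns hκ ht)
  exact ⟨fun g => b g, fun g => (b g).ne_zero, fun g h =>
    congrArg Units.val (hb g trivial h trivial)⟩

set_option linter.unusedVariables false in
theorem tsq {κ E Q : Type u} [Field κ] [IsAlgClosed κ] [Field E] [Algebra κ E] [Group Q] [Finite Q]
    [MulSemiringAction Q E] [FaithfulSMul Q E]
    (hκ : ∀ (g : Q) (x : κ), g • algebraMap κ E x = algebraMap κ E x)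
    (hfg : (⊤ : IntermediateField κ E).FG) (ht : Algebra.trdeg κ E ≤ 1)
    (c : Q → Q → E) (hc0 : ∀ g h, c g h ≠ 0)
    (hc : ∀ g h j, c g h * c (g * h) j = g • c h j * c g (h * j)) :
    ∃ b : Q → E, (∀ g, b g ≠ 0) ∧ ∀ g h, c g h * b (g * h) = b g * g • b h :=
  T.tsq' hκ ht c hc0 hc

end Pool.Agent.TBR

end

section


namespace Pool.Agent.TBR

universe u

namespace T

open scoped IntermediateField.algebraAdjoinAdjoin in
theorem trdeg_adjoin {κ Ω : Type u} [Field κ] [Field Ω] [Algebra κ Ω] (L : IntermediateField κ Ω)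
    (t : Ω) (htL : t ∈ L) (h : ∀ x ∈ L, IsAlgebraic (IntermediateField.adjoin κ {t}) x) :
    Algebra.trdeg κ L ≤ 1 := by
  have hmap : (Algebra.adjoin κ {(⟨t, htL⟩ : L)}).map L.val = Algebra.adjoin κ {t} := by
    rw [AlgHom.map_adjoin]
    simp
  let f : Algebra.adjoin κ {(⟨t, htL⟩ : L)} →ₐ[κ] Algebra.adjoin κ {t} :=
    (L.val.comp (Subalgebra.val _)).codRestrict (Algebra.adjoin κ {t}) (fun z => by
      rw [← hmap]
      exact ⟨z, z.2, rfl⟩)
  have hf : Function.Surjective f := by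
    rintro ⟨y, hy⟩
    rw [← hmap] at hy
    obtain ⟨z, hz, hzy⟩ := hy
    exact ⟨⟨z, hz⟩, Subtype.ext hzy⟩
  have : Algebra.IsAlgebraic (Algebra.adjoin κ {(⟨t, htL⟩ : L)}) L := by
    refine ⟨fun x => ?_⟩
    refine IsAlgebraic.of_ringHom_of_comp_eq (S := Algebra.adjoin κ {t}) (B := Ω)
      (f : _ →+* _) (L.val : L →+* Ω) ?_ hf L.val.injective rfl
    have h1 := h (x : Ω) x.2
    exact (IsFractionRing.isAlgebraic_iff (Algebra.adjoin κ {t})
      (IntermediateField.adjoin κ {t}) Ω).2 h1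
  have h2 := Algebra.IsAlgebraic.trdeg_le_cardinalMk κ {(⟨t, htL⟩ : L)}
  simpa using h2

variable {k Ω : Type u} [Field k] [Field Ω] [Algebra k Ω]

theorem orb_stable (D : Subgroup (Ω ≃ₐ[k] Ω)) (E : Set Ω) (hE : ∀ σ ∈ D, ∀ x ∈ E, σ x ∈ E)
    (horb : Orb D E) (S : Set Ω) (hS : S.Finite) (hSE : S ⊆ E) :
    ∃ R : Finset Ω, S ⊆ R ∧ (R : Set Ω) ⊆ E ∧ ∀ σ ∈ D, ∀ x ∈ R, σ x ∈ R := by
  classical
  have hfin : (⋃ x ∈ S, {y : Ω | ∃ σ ∈ D, σ x = y}).Finite :=
    hS.biUnion fun x hx => horb x (hSE hx)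
  refine ⟨hfin.toFinset, ?_, ?_, ?_⟩
  · intro x hx
    rw [Set.Finite.coe_toFinset]
    exact Set.mem_biUnion hx ⟨1, D.one_mem, rfl⟩
  · rw [Set.Finite.coe_toFinset]
    intro y hy
    obtain ⟨x, hx, σ, hσ, rfl⟩ := Set.mem_iUnion₂.1 hy
    exact hE σ hσ x (hSE hx)
  · intro σ hσ y hy
    rw [Set.Finite.mem_toFinset] at hy ⊢
    obtain ⟨x, hx, τ, hτ, rfl⟩ := Set.mem_iUnion₂.1 hy
    exact Set.mem_biUnion hx ⟨σ * τ, D.mul_mem hσ hτ, rfl⟩

theorem values_finite (D : Subgroup (Ω ≃ₐ[k] Ω)) (R : Finset Ω)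
    (hR : ∀ σ ∈ D, ∀ x ∈ R, σ x ∈ R) (c : (Ω ≃ₐ[k] Ω) → (Ω ≃ₐ[k] Ω) → Ωˣ)
    (hc : ∀ σ σ' τ τ' : Ω ≃ₐ[k] Ω, Ag (R : Set Ω) σ σ' → Ag (R : Set Ω) τ τ' → c σ τ = c σ' τ') :
    {v : Ω | ∃ σ ∈ D, ∃ τ ∈ D, (c σ τ : Ω) = v}.Finite := by
  classical
  let r : D → (R → R) := fun σ x => ⟨(σ : Ω ≃ₐ[k] Ω) x, hR σ σ.2 x x.2⟩
  have hr : ∀ σ τ : D, r σ = r τ → Ag (R : Set Ω) (σ : Ω ≃ₐ[k] Ω) τ := fun σ τ h x hx =>
    congrArg Subtype.val (congrFun h ⟨x, hx⟩)
  let g : (R → R) → (R → R) → Ω := fun a b =>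
    if h : (∃ σ : D, r σ = a) ∧ ∃ τ : D, r τ = b then
      (c (h.1.choose : Ω ≃ₐ[k] Ω) (h.2.choose : Ω ≃ₐ[k] Ω) : Ω) else 0
  refine (Set.finite_range (fun p : (R → R) × (R → R) => g p.1 p.2)).subset ?_
  rintro v ⟨σ, hσ, τ, hτ, rfl⟩
  refine ⟨(r ⟨σ, hσ⟩, r ⟨τ, hτ⟩), ?_⟩
  have h : (∃ σ' : D, r σ' = r ⟨σ, hσ⟩) ∧ ∃ τ' : D, r τ' = r ⟨τ, hτ⟩ := ⟨⟨_, rfl⟩, ⟨_, rfl⟩⟩
  show g (r ⟨σ, hσ⟩) (r ⟨τ, hτ⟩) = _
  simp only [g]
  rw [dif_pos h, hc _ _ _ _ (hr _ _ h.1.choose_spec) (hr _ _ h.2.choose_spec)]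

end T

open T

variable {k Ω : Type u} [Field k] [Field Ω] [Algebra k Ω]

theorem tsu (D : Subgroup (Ω ≃ₐ[k] Ω)) (κ E : IntermediateField k Ω) [IsAlgClosed κ] (hκE : κ ≤ E)
    (hκ : D ≤ Fx k (κ : Set Ω)) (hE : ∀ σ ∈ D, ∀ x ∈ E, σ x ∈ E) (t : Ω) (htE : t ∈ E)
    (ht : ∀ x ∈ E, IsAlgebraic (AA κ {t}) x)
    (horb : Orb D (E : Set Ω)) (c : (Ω ≃ₐ[k] Ω) → (Ω ≃ₐ[k] Ω) → Ωˣ)
    (hcE : ∀ σ ∈ D, ∀ τ ∈ D, (c σ τ : Ω) ∈ E) (hlc : Lc2 (E : Set Ω) c) (hc : Coc D c) :
    ∃ b : (Ω ≃ₐ[k] Ω) → Ωˣ, Lc1 (E : Set Ω) b ∧ (∀ σ, (b σ : Ω) ∈ E) ∧ Cob D c b := by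
  classical
  obtain ⟨S₀, hS₀, hS₀c⟩ := hlc
  obtain ⟨R₀, hR₀, hR₀E, hR₀D⟩ := orb_stable D E hE horb S₀ S₀.finite_toSet hS₀
  have hval := values_finite D R₀ hR₀D c fun σ σ' τ τ' h h' =>
    hS₀c σ σ' τ τ' (fun x hx => h x (hR₀ hx)) (fun x hx => h' x (hR₀ hx))
  obtain ⟨R, hR, hRE, hRD⟩ := orb_stable D E hE horb
    (({t} : Set Ω) ∪ (S₀ : Set Ω) ∪ {v : Ω | ∃ σ ∈ D, ∃ τ ∈ D, (c σ τ : Ω) = v})
    (((Set.finite_singleton t).union S₀.finite_toSet).union hval)
    (by
      rintro x ((hx | hx) | ⟨σ, hσ, τ, hτ, rfl⟩)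
      · rw [Set.mem_singleton_iff.1 hx]; exact htE
      · exact hS₀ hx
      · exact hcE σ hσ τ hτ)
  have htR : t ∈ R := hR (Or.inl (Or.inl rfl))
  have hSR : (S₀ : Set Ω) ⊆ R := fun x hx => hR (Or.inl (Or.inr hx))
  have hvR : ∀ σ ∈ D, ∀ τ ∈ D, (c σ τ : Ω) ∈ R := fun σ hσ τ hτ => hR (Or.inr ⟨σ, hσ, τ, hτ, rfl⟩)
  let E₁ : IntermediateField κ Ω := IntermediateField.adjoin κ (R : Set Ω)
  have hE₁E : ∀ x ∈ E₁, x ∈ E := by
    have : E₁ ≤ IntermediateField.extendScalars hκE := IntermediateField.adjoin_le_iff.2 hRE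
    exact fun x hx => this hx
  have hRE₁ : ∀ x ∈ R, x ∈ E₁ := fun x hx => IntermediateField.subset_adjoin _ _ hx
  -- the action
  let σκ : D → (Ω ≃ₐ[κ] Ω) := fun σ => { (σ : Ω ≃ₐ[k] Ω) with
    commutes' := fun x => hκ σ.2 x x.2 }
  have hσE₁ : ∀ (σ : D), ∀ x ∈ E₁, (σ : Ω ≃ₐ[k] Ω) x ∈ E₁ := by
    intro σ
    have : E₁ ≤ E₁.comap (σκ σ : Ω →ₐ[κ] Ω) := by
      refine IntermediateField.adjoin_le_iff.2 fun x hx => ?_
      exact hRE₁ _ (hRD σ σ.2 x hx)
    exact fun x hx => this hx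
  let act : MulSemiringAction D E₁ :=
    { smul := fun σ x => ⟨(σ : Ω ≃ₐ[k] Ω) x, hσE₁ σ x x.2⟩
      one_smul := fun x => rfl
      mul_smul := fun σ τ x => rfl
      smul_zero := fun σ => Subtype.ext (map_zero (σ : Ω ≃ₐ[k] Ω) : _)
      smul_add := fun σ x y => Subtype.ext (map_add (σ : Ω ≃ₐ[k] Ω) (x : Ω) y : _)
      smul_one := fun σ => Subtype.ext (map_one (σ : Ω ≃ₐ[k] Ω) : _)
      smul_mul := fun σ x y => Subtype.ext (map_mul (σ : Ω ≃ₐ[k] Ω) (x : Ω) y : _) }
  have hact : ∀ (σ : D) (x : E₁), ((σ • x : E₁) : Ω) = (σ : Ω ≃ₐ[k] Ω) x := fun _ _ => rfl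
  have comm : SMulCommClass D κ E₁ := ⟨fun σ a x => by
    apply Subtype.ext
    rw [hact, Algebra.smul_def, Algebra.smul_def]
    show (σ : Ω ≃ₐ[k] Ω) ((a : Ω) * (x : Ω)) = (a : Ω) * (σ : Ω ≃ₐ[k] Ω) x
    rw [map_mul, hκ σ.2 a a.2]⟩
  let ρ : D →* (E₁ ≃ₐ[κ] E₁) := MulSemiringAction.toAlgAut D κ E₁
  have hρ : ∀ (σ : D) (x : E₁), ((ρ σ x : E₁) : Ω) = (σ : Ω ≃ₐ[k] Ω) x := fun _ _ => rfl
  let Q : Subgroup (E₁ ≃ₐ[κ] E₁) := ρ.range
  have hρinj : ∀ σ τ : D, Ag (R : Set Ω) (σ : Ω ≃ₐ[k] Ω) τ → ρ σ = ρ τ := by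
    intro σ τ h
    have h1 : (ρ σ : E₁ →ₐ[κ] E₁) = (ρ τ : E₁ →ₐ[κ] E₁) := by
      refine IntermediateField.adjoin_algHom_ext κ fun x hx => ?_
      exact Subtype.ext (h x hx)
    exact AlgEquiv.ext fun x => DFunLike.congr_fun h1 x
  have hρag : ∀ σ τ : D, ρ σ = ρ τ → Ag (R : Set Ω) (σ : Ω ≃ₐ[k] Ω) τ := by
    intro σ τ h x hx
    have := congrArg Subtype.val (DFunLike.congr_fun h (⟨x, hRE₁ x hx⟩ : E₁))
    exact this
  have hQfin : Finite Q := by
    let r : D → (R → R) := fun σ x => ⟨(σ : Ω ≃ₐ[k] Ω) x, hRD σ σ.2 x x.2⟩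
    let g : Q → (R → R) := fun q => r q.2.choose
    refine Finite.of_injective g fun q q' h => ?_
    apply Subtype.ext
    rw [← q.2.choose_spec, ← q'.2.choose_spec]
    refine hρinj _ _ fun x hx => ?_
    exact congrArg Subtype.val (congrFun h ⟨x, hx⟩)
  have htr : Algebra.trdeg κ E₁ ≤ 1 := by
    refine trdeg_adjoin E₁ t (hRE₁ t htR) fun x hx => ?_
    have h1 := ht x (hE₁E x hx)
    rw [AA, ← IntermediateField.restrictScalars_adjoin_eq_sup] at h1
    exact h1
  let lift : Q → D := fun q => q.2.choose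
  have hlift : ∀ q : Q, ρ (lift q) = q := fun q => q.2.choose_spec
  let pr : D → Q := fun σ => ⟨ρ σ, σ, rfl⟩
  have hprmul : ∀ σ τ : D, pr (σ * τ) = pr σ * pr τ := fun σ τ => Subtype.ext (map_mul ρ σ τ)
  have hprlift : ∀ σ : D, Ag (R : Set Ω) (lift (pr σ) : Ω ≃ₐ[k] Ω) σ := fun σ =>
    hρag _ _ (hlift (pr σ))
  have hcag : ∀ σ σ' τ τ' : Ω ≃ₐ[k] Ω, Ag (R : Set Ω) σ σ' → Ag (R : Set Ω) τ τ' →
      c σ τ = c σ' τ' := fun σ σ' τ τ' h h' =>
    hS₀c σ σ' τ τ' (fun x hx => h x (hSR hx)) (fun x hx => h' x (hSR hx))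
  have hagmul : ∀ g h : Q, Ag (R : Set Ω) (lift (g * h) : Ω ≃ₐ[k] Ω)
      ((lift g : Ω ≃ₐ[k] Ω) * (lift h : Ω ≃ₐ[k] Ω)) := by
    intro g h
    refine hρag (lift (g * h)) (lift g * lift h) ?_
    rw [hlift, map_mul, hlift, hlift]
    rfl
  obtain ⟨b, hb0, hb⟩ := tsq' (κ := κ) (E := E₁) (Q := Q) (fun g x => g.1.commutes x) htr
    (fun g h => ⟨(c (lift g) (lift h) : Ω), hRE₁ _ (hvR _ (lift g).2 _ (lift h).2)⟩)
    (fun g h hh => (c (lift g) (lift h)).ne_zero (congrArg Subtype.val hh))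
    (by
      intro g h j
      apply Subtype.ext
      have e := congrArg Units.val (hc (lift g) (lift g).2 (lift h) (lift h).2 (lift j) (lift j).2)
      rw [Units.val_mul, Units.val_mul] at e
      rw [hcag _ (lift (g * h)) _ (lift j) (fun x hx => (hagmul g h x hx).symm) (fun _ _ => rfl),
        hcag _ (lift g) _ (lift (h * j)) (fun _ _ => rfl)
          (fun x hx => (hagmul h j x hx).symm)] at e
      have e2 : ∀ y : E₁, ((g • y : E₁) : Ω) = (lift g : Ω ≃ₐ[k] Ω) y := by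
        intro y
        rw [← hρ, hlift]
        rfl
      show (_ : Ω) * _ = _ * _
      rw [e2]
      exact e)
  let B : (Ω ≃ₐ[k] Ω) → Ωˣ := fun τ => if h : τ ∈ D then
    Units.mk0 ((b (pr ⟨τ, h⟩) : E₁) : Ω) (fun h0 => hb0 _ (Subtype.ext h0)) else 1
  let Fc : Set (Ω ≃ₐ[k] Ω) → Ωˣ := fun P => if h : P.Nonempty then B h.some else 1
  let β : (Ω ≃ₐ[k] Ω) → Ωˣ := fun σ => Fc {τ | τ ∈ D ∧ Ag (R : Set Ω) σ τ}
  have hB : ∀ τ, (B τ : Ω) ∈ E₁ := by
    intro τ
    simp only [B]
    split_ifs with h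
    · exact (b (pr ⟨τ, h⟩)).2
    · exact E₁.one_mem
  have hβD : ∀ σ (hσ : σ ∈ D), (β σ : Ω) = (b (pr ⟨σ, hσ⟩) : E₁) := by
    intro σ hσ
    have hne : {τ | τ ∈ D ∧ Ag (R : Set Ω) σ τ}.Nonempty := ⟨σ, hσ, fun _ _ => rfl⟩
    have h1 : β σ = B hne.some := by
      simp only [β, Fc]
      rw [dif_pos hne]
    rw [h1]
    have hs := hne.some_mem
    simp only [B]
    rw [dif_pos hs.1, Units.val_mk0]
    congr 2
    exact Subtype.ext (hρinj ⟨_, hs.1⟩ ⟨σ, hσ⟩ fun x hx => (hs.2 x hx).symm)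
  refine ⟨β, ⟨R, hRE, fun σ σ' h => ?_⟩, fun σ => ?_, fun σ hσ τ hτ => ?_⟩
  · have : {τ | τ ∈ D ∧ Ag (R : Set Ω) σ τ} = {τ | τ ∈ D ∧ Ag (R : Set Ω) σ' τ} := by
      ext τ
      constructor
      · rintro ⟨h1, h2⟩
        exact ⟨h1, fun x hx => by rw [← h x hx, h2 x hx]⟩
      · rintro ⟨h1, h2⟩
        exact ⟨h1, fun x hx => by rw [h x hx, h2 x hx]⟩
    simp only [β, this]
  · simp only [β, Fc]
    split_ifs
    · exact hE₁E _ (hB _)
    · exact E.one_mem
  · apply Units.ext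
    have e := hb (pr ⟨σ, hσ⟩) (pr ⟨τ, hτ⟩)
    rw [← hprmul] at e
    rw [Units.val_mul, Units.val_mul, hβD _ (D.mul_mem hσ hτ), hβD σ hσ]
    rw [hcag σ (lift (pr ⟨σ, hσ⟩)) τ (lift (pr ⟨τ, hτ⟩))
      (fun x hx => (hprlift ⟨σ, hσ⟩ x hx).symm) (fun x hx => (hprlift ⟨τ, hτ⟩ x hx).symm)]
    have e4 : ((σ • β τ : Ωˣ) : Ω) = ((pr ⟨σ, hσ⟩ • b (pr ⟨τ, hτ⟩) : E₁) : Ω) := by
      show σ (β τ : Ω) = _
      rw [hβD τ hτ]
      rfl
    rw [e4]
    exact congrArg Subtype.val e

end Pool.Agent.TBR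

end
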