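import Pool.Agent.TBM.Sit
import Pool.Agent.TBM.Crv
import Pool.Agent.TBM.Weil
import Pool.Agent.TBM.Base
import Pool.Agent.TBM.TGroup

/-!
# The relation given by a principal correspondence
-/

set_option autoImplicit false

section


namespace Pool.Agent.TBR

open Pool.Agent.TQU

universe u

section

variable {k Ω : Type u} [Field k] [Field Ω] [Algebra k Ω] [IsAlgClosed Ω]
variable {A : IntermediateField k Ω} [IsAlgClosed A] {N : Subgroup (Ω ≃ₐ[k] Ω)} {P : Fin 2 → Ω}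

omit [IsAlgClosed Ω] in
private theorem weil_ord_prime (F : MvPolynomial (Fin 2) Ω) [IsDedekindDomain (CR F)]
    (P : Fin 2 → Ω) (hP : MvPolynomial.eval P F = 0) : Prime F := by
  have hF0 : F ≠ 0 := by
    rintro rfl
    rcases Pool.Agent.TQC.smooth_pt (0 : MvPolynomial (Fin 2) Ω) P hP with h | h
    · exact h (by rw [map_zero, map_zero])
    · exact h (by rw [map_zero, map_zero])
  rw [← Ideal.span_singleton_prime hF0]
  exact (Ideal.Quotient.isDomain_iff_prime _).1 inferInstance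

omit [IsAlgClosed Ω] in
/-- an automorphism over `A` and the values of a polynomial over `A` -/
private theorem weil_ord_eval {B : IntermediateField k Ω} (τ : Ω ≃ₐ[k] Ω)
    (hτ : τ ∈ Fx k (B : Set Ω)) (P R : Fin 2 → Ω) (hR : ∀ i, τ (P i) = R i)
    (u : MvPolynomial (Fin 2) Ω) (hu : Cf (B : Set Ω) u) :
    τ (MvPolynomial.eval P u) = MvPolynomial.eval R u := by
  have h1 : MvPolynomial.map (τ : Ω →+* Ω) u = u := by
    ext m
    rw [MvPolynomial.coeff_map]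
    exact hτ _ (hu m)
  have h2 : τ (MvPolynomial.eval P u) =
      MvPolynomial.eval (fun i => τ (P i)) (MvPolynomial.map (τ : Ω →+* Ω) u) := by
    rw [MvPolynomial.eval_map]
    exact MvPolynomial.eval₂_comp_left (τ : Ω →+* Ω) (RingHom.id Ω) P u
  rw [h2, h1]
  congr 2
  funext i
  exact hR i

omit [IsAlgClosed Ω] in
private theorem weil_ord_unit (V : ValuationSubring Ω) (u : Ωˣ) (h : u ∈ V.unitGroup) :
    (u : Ω) ∈ V ∧ (u : Ω)⁻¹ ∈ V := by
  rw [ValuationSubring.mem_unitGroup_iff] at h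
  refine ⟨(V.valuation_le_one_iff _).1 h.le, (V.valuation_le_one_iff _).1 ?_⟩
  rw [map_inv₀, h, inv_one]

private theorem weil_ord_count {X G : Type*} [DecidableEq X] [CommGroup G] (M N : Multiset X)
    (g : X → G) (v : X → ℤ) (hv : ∀ R, v R = (M.count R : ℤ) - (N.count R : ℤ)) :
    (∏ᶠ R, g R ^ v R) * (N.map g).prod = (M.map g).prod := by
  have hs : Function.mulSupport (fun R => g R ^ v R) ⊆ ((M.toFinset ∪ N.toFinset : Finset X) : Set X) := by
    intro R hR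
    rw [Finset.mem_coe, Finset.mem_union, Multiset.mem_toFinset, Multiset.mem_toFinset]
    by_contra h
    rw [not_or] at h
    apply hR
    show g R ^ v R = 1
    rw [hv, Multiset.count_eq_zero_of_notMem h.1, Multiset.count_eq_zero_of_notMem h.2]
    simp
  have h1 : ∀ L : Multiset X, L.toFinset ⊆ M.toFinset ∪ N.toFinset →
      (L.map g).prod = ∏ R ∈ M.toFinset ∪ N.toFinset, g R ^ L.count R := by
    intro L hL
    rw [Finset.prod_multiset_map_count]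
    refine Finset.prod_subset hL ?_
    intro R _ hR
    rw [Multiset.mem_toFinset] at hR
    rw [Multiset.count_eq_zero_of_notMem hR, pow_zero]
  rw [finprod_eq_prod_of_mulSupport_subset _ hs, h1 N Finset.subset_union_right,
    h1 M Finset.subset_union_left, ← Finset.prod_mul_distrib]
  refine Finset.prod_congr rfl fun R _ => ?_
  rw [hv, ← zpow_natCast, ← zpow_natCast, ← zpow_add, sub_add_cancel]

theorem weil_ord (hS : Sit A N P) (F H : MvPolynomial (Fin 2) Ω) (hF : Cf (A : Set Ω) F)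
    [IsDedekindDomain (CR F)]
    (hint : ∀ (M : Type u) [Field M] [Algebra Ω M] (W : ValuationSubring M) (x : Fin 2 → M),
      (∀ a : Ω, algebraMap Ω M a ∈ W) → MvPolynomial.aeval x F = 0 →
        MvPolynomial.aeval x H ∈ W → ∀ i, x i ∈ W)
    (hP : MvPolynomial.eval P F = 0) (hPA : ¬ ∀ i, P i ∈ A) (Z : Multiset (Fin 2 → Ω))
    (hZ : Ideal.span {Ideal.Quotient.mk (Ideal.span {F}) H} = (Z.map (ptIdeal F)).prod)
    (hZF : ∀ R ∈ Z, MvPolynomial.eval R F = 0)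
    (hHA : ∀ R : Fin 2 → Ω, (∀ i, R i ∈ A) → MvPolynomial.eval R F = 0 →
      MvPolynomial.eval R H ≠ 0)
    (v : (Fin 2 → Ω) → Ωˣ → ℤ) (hv' : IsOrd A F P v) (t : (Fin 2 → Ω) → Ω ≃ₐ[k] Ω)
    (ht : ∀ R ∈ Z, t R ∈ Fx k (A : Set Ω) ∧ ∀ i, t R (P i) = R i)
    (f : Ωˣ) (hf : (f : Ω) ∈ AA A (Set.range P))
    (hinf : ∀ V : ValuationSubring Ω, (∀ x ∈ A, x ∈ V) → (¬ ∀ i, P i ∈ V) → f ∈ V.unitGroup) :
    ∃ α : Ωˣ, (α : Ω) ∈ A ∧ Tn Z t f = α * ∏ᶠ R, hv H R ^ v R f := by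
  classical
  obtain ⟨u, w, M, N', hu, hw, hFu, hFw, hfw, hM, hN, hMA, hNA, hvf⟩ := hv'.rep f hf
  have hirr : Irreducible F := (weil_ord_prime F P hP).irreducible
  have hwP : MvPolynomial.eval P w ≠ 0 := fun h => hFw ((gen_iff A F hF hirr P hP hPA w hw).1 h)
  have huP : MvPolynomial.eval P u ≠ 0 := fun h => hFu ((gen_iff A F hF hirr P hP hPA u hu).1 h)
  have hf1 : (f : Ω) = MvPolynomial.eval P u / MvPolynomial.eval P w := by
    rw [eq_div_iff hwP, hfw]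
  obtain ⟨α₀, hαA, hα0, hα⟩ := weil A hS.trd F H hF hint P hP hPA Z hZ hZF u w hu hw hFu hFw M N'
    hM (fun R hR => (hMA R hR).2) hN (fun R hR => (hNA R hR).2) (fun V hV hPV => by
      have h1 := weil_ord_unit V f (hinf V hV hPV)
      rw [hf1] at h1
      refine ⟨h1.1, ?_⟩
      rw [← inv_div]
      exact h1.2)
  -- the values at the points of `Z`
  have hZw : ∀ R ∈ Z, MvPolynomial.eval R w ≠ 0 := by
    intro R hR
    rw [← weil_ord_eval (t R) (ht R hR).1 P R (ht R hR).2 w hw]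
    exact (map_ne_zero_iff _ (t R).injective).2 hwP
  have hZf : ∀ R ∈ Z, ((t R • f : Ωˣ) : Ω) * MvPolynomial.eval R w = MvPolynomial.eval R u := by
    intro R hR
    have h1 : ((t R • f : Ωˣ) : Ω) = t R (f : Ω) := rfl
    rw [h1, ← weil_ord_eval (t R) (ht R hR).1 P R (ht R hR).2 w hw,
      ← weil_ord_eval (t R) (ht R hR).1 P R (ht R hR).2 u hu, ← map_mul, hfw]
  have hTn : ((Tn Z t f : Ωˣ) : Ω) * (Z.map fun R => MvPolynomial.eval R w).prod =
      (Z.map fun R => MvPolynomial.eval R u).prod := by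
    have h1 : ((Tn Z t f : Ωˣ) : Ω) = (Z.map fun R => ((t R • f : Ωˣ) : Ω)).prod := by
      unfold Tn
      rw [← Units.coeHom_apply, map_multiset_prod, Multiset.map_map]
      rfl
    rw [h1, ← Multiset.prod_map_mul]
    exact congrArg Multiset.prod (Multiset.map_congr rfl fun R hR => hZf R hR)
  have hZ0 : (Z.map fun R => MvPolynomial.eval R w).prod ≠ 0 := by
    refine Multiset.prod_ne_zero fun h => ?_
    rw [Multiset.mem_map] at h
    obtain ⟨R, hR, h⟩ := h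
    exact hZw R hR h
  -- the values of `H`
  have hH : ∀ L : Multiset (Fin 2 → Ω), (∀ R ∈ L, (∀ i, R i ∈ A) ∧ MvPolynomial.eval R F = 0) →
      (((L.map (hv H)).prod : Ωˣ) : Ω) = (L.map fun R => - MvPolynomial.eval R H).prod := by
    intro L hL
    rw [← Units.coeHom_apply, map_multiset_prod, Multiset.map_map]
    refine congrArg Multiset.prod (Multiset.map_congr rfl fun R hR => ?_)
    have h1 : MvPolynomial.eval R H ≠ 0 := hHA R (hL R hR).1 (hL R hR).2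
    show ((hv H R : Ωˣ) : Ω) = - MvPolynomial.eval R H
    unfold hv
    rw [dif_neg h1]
    rfl
  have hmain : Tn Z t f * (N'.map (hv H)).prod = Units.mk0 α₀ hα0 * (M.map (hv H)).prod := by
    apply Units.ext
    rw [Units.val_mul, Units.val_mul, hH N' hNA, hH M hMA, Units.val_mk0]
    apply mul_left_cancel₀ hZ0
    rw [← hTn] at hα
    linear_combination hα
  refine ⟨Units.mk0 α₀ hα0, hαA, ?_⟩
  have hc := weil_ord_count M N' (hv H) (fun R => v R f) hvf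
  apply mul_right_cancel (b := (N'.map (hv H)).prod)
  rw [hmain, mul_assoc, hc]

end

end Pool.Agent.TBR

end

section


namespace Pool.Agent.TBR

open Pool.Agent.TQU

universe u

section

variable {Ω : Type u} [Field Ω] [IsAlgClosed Ω]

/-- the action of `σ` on the ideals of the points -/
theorem tn_smul_pt (F : MvPolynomial (Fin 2) Ω) (s : Ω →+* Ω) (h : MvPolynomial.map s F = F)
    (φ : CR F →+* CR F) (hφ : ∀ g, φ (Ideal.Quotient.mk (Ideal.span {F}) g) =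
      Ideal.Quotient.mk (Ideal.span {F}) (MvPolynomial.map s g)) (R : Fin 2 → Ω) :
    Ideal.map φ (ptIdeal F R) = ptIdeal F (fun i => s (R i)) := by
  have e : φ.comp (Ideal.Quotient.mk (Ideal.span {F})) =
      (Ideal.Quotient.mk (Ideal.span {F})).comp (MvPolynomial.map s) := RingHom.ext hφ
  unfold ptIdeal
  rw [Ideal.map_map, e, ← Ideal.map_map, Ideal.map_span, ← Set.range_comp]
  congr 3
  funext i
  simp

theorem tn_smul_Z (F H : MvPolynomial (Fin 2) Ω) [IsDedekindDomain (CR F)]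
    (Z : Multiset (Fin 2 → Ω)) (s : Ω →+* Ω) (hF : MvPolynomial.map s F = F)
    (hH : MvPolynomial.map s H = H)
    (fac : Ideal.span {Ideal.Quotient.mk (Ideal.span {F}) H} = (Z.map (ptIdeal F)).prod)
    (mem : ∀ R ∈ Z, MvPolynomial.eval R F = 0) : Z.map (fun R i => s (R i)) = Z := by
  have hle : Ideal.span {F} ≤ Ideal.comap (MvPolynomial.map s) (Ideal.span {F}) := by
    rw [Ideal.span_le]
    intro x hx
    rw [Set.mem_singleton_iff.1 hx, SetLike.mem_coe, Ideal.mem_comap, hF]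
    exact Ideal.mem_span_singleton_self F
  obtain ⟨φ, hφ⟩ : ∃ φ : CR F →+* CR F, ∀ g, φ (Ideal.Quotient.mk (Ideal.span {F}) g) =
      Ideal.Quotient.mk (Ideal.span {F}) (MvPolynomial.map s g) :=
    ⟨Ideal.quotientMap (Ideal.span {F}) (MvPolynomial.map s) hle, fun g => rfl⟩
  refine mult_uniq F _ _ ?_ mem ?_
  · intro R hR
    obtain ⟨R', h', rfl⟩ := Multiset.mem_map.1 hR
    have h1 := MvPolynomial.eval₂_comp_left s (RingHom.id Ω) R' F
    have h2 : MvPolynomial.eval (fun i => s (R' i)) (MvPolynomial.map s F) =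
        s (MvPolynomial.eval R' F) := by
      rw [MvPolynomial.eval_map, MvPolynomial.eval, MvPolynomial.coe_eval₂Hom]
      rw [h1]
      rfl
    rw [hF, mem R' h', map_zero] at h2
    exact h2
  · rw [← fac, Multiset.map_map]
    have h1 : Ideal.map φ (Ideal.span {Ideal.Quotient.mk (Ideal.span {F}) H}) =
        Ideal.span {Ideal.Quotient.mk (Ideal.span {F}) H} := by
      rw [Ideal.map_span, Set.image_singleton, hφ, hH]
    rw [← h1, fac]
    have h2 := map_multiset_prod (Ideal.mapHom φ) (Z.map (ptIdeal F))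
    rw [Multiset.map_map] at h2
    refine Eq.trans ?_ h2.symm
    congr 1
    refine Multiset.map_congr rfl fun R _ => ?_
    exact (tn_smul_pt F s hF φ hφ R).symm

end

section

variable {k Ω : Type u} [Field k] [Field Ω] [Algebra k Ω] [IsAlgClosed Ω]
variable {A : IntermediateField k Ω} [IsAlgClosed A] {N : Subgroup (Ω ≃ₐ[k] Ω)} {P : Fin 2 → Ω}
variable {F H : MvPolynomial (Fin 2) Ω} [IsDedekindDomain (CR F)] {Z : Multiset (Fin 2 → Ω)}
  {t : (Fin 2 → Ω) → Ω ≃ₐ[k] Ω}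

theorem tn_smul (hS : Sit A N P) (hD : Dat A N P F H Z t) (σ : Ω ≃ₐ[k] Ω) (hσ : σ ∈ N) (f : Ωˣ)
    (hf : (f : Ω) ∈ AA A (Set.range P)) : σ • Tn Z t f = Tn Z t (σ • f) := by
  have hZ : Z.map (fun R i => σ (R i)) = Z :=
    tn_smul_Z F H Z (σ : Ω →+* Ω) (hD.sF σ hσ) (hD.sH σ hσ) hD.fac hD.mem
  have hσP : ∀ i, σ (P i) = P i := fun i => hS.fix hσ (P i) ⟨i, rfl⟩
  have hfixE : ∀ δ : Ω ≃ₐ[k] Ω, (∀ x ∈ A, δ x = x) → (∀ i, δ (P i) = P i) →
      ∀ x ∈ AA A (Set.range P), δ x = x := by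
    intro δ h1 h2 x hx
    have h3 : AA A (Set.range P) ≤ IntermediateField.fixedField (Subgroup.zpowers δ) := by
      have hz : ∀ y : Ω, δ y = y → y ∈ IntermediateField.fixedField (Subgroup.zpowers δ) := by
        intro y hy
        rw [IntermediateField.mem_fixedField_iff]
        intro g hg
        have : Subgroup.zpowers δ ≤ Fx k {y} := by
          rw [Subgroup.zpowers_le]
          intro z hz
          rw [Set.mem_singleton_iff.1 hz, hy]
        exact this hg y rfl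
      refine sup_le (fun y hy => hz y (h1 y hy)) ?_
      rw [IntermediateField.adjoin_le_iff]
      rintro _ ⟨i, rfl⟩
      exact hz _ (h2 i)
    have h4 := h3 hx
    rw [IntermediateField.mem_fixedField_iff] at h4
    exact h4 δ (Subgroup.mem_zpowers δ)
  have hσE : ∀ x ∈ AA A (Set.range P), σ x ∈ AA A (Set.range P) := by
    intro x hx
    have h3 : AA A (Set.range P) ≤ (AA A (Set.range P)).comap (σ : Ω →ₐ[k] Ω) := by
      refine sup_le (fun y hy => ?_) ?_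
      · show σ y ∈ AA A (Set.range P)
        exact (le_sup_left : A ≤ _) ((hS.stab σ hσ y).2 hy)
      · rw [IntermediateField.adjoin_le_iff]
        rintro _ ⟨i, rfl⟩
        show σ (P i) ∈ AA A (Set.range P)
        rw [hσP]
        exact (le_sup_right : _ ≤ AA A (Set.range P))
          (IntermediateField.subset_adjoin k _ ⟨i, rfl⟩)
    exact h3 hx
  have hmem : ∀ R ∈ Z, (fun i => σ (R i)) ∈ Z := by
    intro R hR
    rw [← hZ]
    exact Multiset.mem_map_of_mem _ hR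
  have hkey : ∀ R ∈ Z, σ • t R • f = t (fun i => σ (R i)) • σ • f := by
    intro R hR
    have ht := hD.tr R hR
    have ht' := hD.tr _ (hmem R hR)
    have h1 : (t (fun i => σ (R i)))⁻¹ • σ • t R • f = σ • f := by
      have h2 : ((t (fun i => σ (R i)))⁻¹ * σ * t R * σ⁻¹) • (σ • f) = σ • f := by
        apply Units.ext
        show ((t (fun i => σ (R i)))⁻¹ * σ * t R * σ⁻¹) (σ (f : Ω)) = σ (f : Ω)
        refine hfixE _ ?_ ?_ _ (hσE _ hf)
        · intro x hx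
          show (t (fun i => σ (R i)))⁻¹ (σ (t R (σ⁻¹ x))) = x
          have h3 : σ⁻¹ x ∈ A := by
            rw [← hS.stab σ hσ]
            have : σ (σ⁻¹ x) = x := σ.apply_symm_apply x
            rwa [this]
          rw [ht.1 _ h3]
          have : σ (σ⁻¹ x) = x := σ.apply_symm_apply x
          rw [this]
          exact (Fx k (A : Set Ω)).inv_mem ht'.1 x hx
        · intro i
          show (t (fun i => σ (R i)))⁻¹ (σ (t R (σ⁻¹ (P i)))) = P i
          have h3 : σ⁻¹ (P i) = P i := N.inv_mem hσ |> fun h => hS.fix h (P i) ⟨i, rfl⟩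
          rw [h3, ht.2 i]
          have h4 := ht'.2 i
          rw [← h4]
          exact (t (fun i => σ (R i))).symm_apply_apply (P i)
      rw [mul_smul, inv_smul_smul, mul_smul, mul_smul] at h2
      exact h2
    rw [← h1, smul_inv_smul]
  unfold Tn
  have h1 : σ • (Z.map fun R => t R • f).prod = (Z.map fun R => σ • t R • f).prod := by
    have := map_multiset_prod (MulDistribMulAction.toMonoidHom Ωˣ σ) (Z.map fun R => t R • f)
    rw [Multiset.map_map] at this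
    exact this
  rw [h1, Multiset.map_congr rfl hkey]
  conv_rhs => rw [← hZ, Multiset.map_map]
  rfl

end

end Pool.Agent.TBR

end

section


namespace Pool.Agent.TBR

open Pool.Agent.TQU

universe u

section

variable {k Ω : Type u} [Field k] [Field Ω] [Algebra k Ω] [IsAlgClosed Ω]
variable {A : IntermediateField k Ω} [IsAlgClosed A] {N : Subgroup (Ω ≃ₐ[k] Ω)} {P : Fin 2 → Ω}
variable {F H : MvPolynomial (Fin 2) Ω} [IsDedekindDomain (CR F)] {Z : Multiset (Fin 2 → Ω)}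
  {t : (Fin 2 → Ω) → Ω ≃ₐ[k] Ω}

private theorem ord_id_ne (F : MvPolynomial (Fin 2) Ω) [IsDedekindDomain (CR F)] : F ≠ 0 := by
  intro h0
  let φ0 : MvPolynomial (Fin 2) Ω →+* Polynomial Ω :=
    (MvPolynomial.aeval (fun i : Fin 2 => if i = 0 then (0 : Polynomial Ω) else Polynomial.X)
      : MvPolynomial (Fin 2) Ω →ₐ[Ω] Polynomial Ω)
  have hφ0 : ∀ a ∈ Ideal.span {F}, φ0 a = 0 := by
    intro a ha
    rw [h0, Ideal.mem_span_singleton] at ha
    rw [zero_dvd_iff.1 ha, map_zero]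
  let φ : CR F →+* Polynomial Ω := Ideal.Quotient.lift (Ideal.span {F}) φ0 hφ0
  have h1 : φ (Ideal.Quotient.mk (Ideal.span {F}) (MvPolynomial.X 0)) = 0 := by
    change φ0 (MvPolynomial.X 0) = 0
    simp [φ0]
  have h2 : φ (Ideal.Quotient.mk (Ideal.span {F}) (MvPolynomial.X 1)) = Polynomial.X := by
    change φ0 (MvPolynomial.X 1) = Polynomial.X
    simp [φ0]
  have h3 : Ideal.Quotient.mk (Ideal.span {F}) (MvPolynomial.X 0) ≠ 0 := by
    rw [Ne, Ideal.Quotient.eq_zero_iff_mem, h0, Ideal.mem_span_singleton, zero_dvd_iff]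
    exact MvPolynomial.X_ne_zero 0
  have hprime : (RingHom.ker φ).IsPrime := RingHom.ker_isPrime φ
  have hne : RingHom.ker φ ≠ ⊥ := by
    intro h4
    exact h3 ((Ideal.mem_bot).1 (h4 ▸ (RingHom.mem_ker).2 h1))
  have hmax : (RingHom.ker φ).IsMaximal := hprime.isMaximal hne
  have hle : RingHom.ker φ ≤ (Ideal.span {(Polynomial.X : Polynomial Ω)}).comap φ := by
    intro a ha
    rw [Ideal.mem_comap, (RingHom.mem_ker).1 ha]
    exact Ideal.zero_mem _
  have hnt : (Ideal.span {(Polynomial.X : Polynomial Ω)}).comap φ ≠ ⊤ := by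
    intro h4
    have h5 : (1 : CR F) ∈ (Ideal.span {(Polynomial.X : Polynomial Ω)}).comap φ := by
      rw [h4]
      exact Submodule.mem_top
    rw [Ideal.mem_comap, map_one, Ideal.mem_span_singleton] at h5
    exact Polynomial.not_isUnit_X (isUnit_of_dvd_one h5)
  have heq := hmax.eq_of_le hnt hle
  have h6 : Ideal.Quotient.mk (Ideal.span {F}) (MvPolynomial.X 1) ∈ RingHom.ker φ := by
    rw [heq, Ideal.mem_comap, h2]
    exact Ideal.subset_span rfl
  rw [RingHom.mem_ker, h2] at h6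
  exact Polynomial.X_ne_zero h6

private theorem ord_id_irr (F : MvPolynomial (Fin 2) Ω) [IsDedekindDomain (CR F)] :
    Irreducible F := by
  have h1 : (Ideal.span {F}).IsPrime := by
    rw [← Ideal.Quotient.isDomain_iff_prime]
    infer_instance
  exact ((Ideal.span_singleton_prime (ord_id_ne F)).1 h1).irreducible

private theorem ord_id_E (hS : Sit A N P) {σ : Ω ≃ₐ[k] Ω} (hσ : σ ∈ N) {x : Ω}
    (hx : x ∈ AA A (Set.range P)) : σ x ∈ AA A (Set.range P) := by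
  have h1 : AA A (Set.range P) ≤ (AA A (Set.range P)).comap (σ : Ω →ₐ[k] Ω) := by
    refine sup_le ?_ ?_
    · intro a ha
      have h2 : σ a ∈ A := (hS.stab σ hσ a).2 ha
      exact (le_sup_left : A ≤ AA A (Set.range P)) h2
    · rw [IntermediateField.adjoin_le_iff]
      rintro _ ⟨i, rfl⟩
      have h2 : σ (P i) = P i := hS.fix hσ (P i) ⟨i, rfl⟩
      show σ (P i) ∈ AA A (Set.range P)
      rw [h2]
      exact (le_sup_right : IntermediateField.adjoin k (Set.range P) ≤ AA A (Set.range P))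
        (IntermediateField.subset_adjoin k _ ⟨i, rfl⟩)
  exact h1 hx

private theorem ord_id_smulE (hS : Sit A N P) {σ : Ω ≃ₐ[k] Ω} (hσ : σ ∈ N) {x : Ωˣ}
    (hx : (x : Ω) ∈ AA A (Set.range P)) : ((σ • x : Ωˣ) : Ω) ∈ AA A (Set.range P) :=
  ord_id_E hS hσ hx

private theorem ord_id_mulE {x y : Ωˣ} (hx : (x : Ω) ∈ AA A (Set.range P))
    (hy : (y : Ω) ∈ AA A (Set.range P)) : ((x * y : Ωˣ) : Ω) ∈ AA A (Set.range P) := by
  rw [Units.val_mul]
  exact mul_mem hx hy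

private theorem ord_id_invE {x : Ωˣ} (hx : (x : Ω) ∈ AA A (Set.range P)) :
    ((x⁻¹ : Ωˣ) : Ω) ∈ AA A (Set.range P) := by
  rw [Units.val_inv_eq_inv_val]
  exact inv_mem hx

private theorem ord_id_powE {x : Ωˣ} (hx : (x : Ω) ∈ AA A (Set.range P)) (n : ℕ) :
    ((x ^ n : Ωˣ) : Ω) ∈ AA A (Set.range P) := by
  rw [Units.val_pow_eq_pow_val]
  exact pow_mem hx n

private theorem ord_id_one {v : (Fin 2 → Ω) → Ωˣ → ℤ} (hv' : IsOrd A F P v) (R : Fin 2 → Ω) :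
    v R 1 = 0 := by
  have h1 := hv'.mul R 1 1 (by rw [Units.val_one]; exact one_mem _)
    (by rw [Units.val_one]; exact one_mem _)
  rw [mul_one] at h1
  linarith

private theorem ord_id_inv {v : (Fin 2 → Ω) → Ωˣ → ℤ} (hv' : IsOrd A F P v) (R : Fin 2 → Ω)
    {x : Ωˣ} (hx : (x : Ω) ∈ AA A (Set.range P)) : v R x⁻¹ = - v R x := by
  have h1 := hv'.mul R x x⁻¹ hx (ord_id_invE hx)
  rw [mul_inv_cancel, ord_id_one hv'] at h1
  linarith

private theorem ord_id_pow {v : (Fin 2 → Ω) → Ωˣ → ℤ} (hv' : IsOrd A F P v) (R : Fin 2 → Ω)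
    {x : Ωˣ} (hx : (x : Ω) ∈ AA A (Set.range P)) (n : ℕ) : v R (x ^ n) = n * v R x := by
  induction n with
  | zero => rw [pow_zero, ord_id_one hv', Nat.cast_zero, zero_mul]
  | succ n ih =>
    rw [pow_succ, hv'.mul R _ _ (ord_id_powE hx n) hx, ih]
    push_cast
    ring

private theorem ord_id_eqv (hS : Sit A N P) (hD : Dat A N P F H Z t)
    {v : (Fin 2 → Ω) → Ωˣ → ℤ} (hv' : IsOrd A F P v) {σ : Ω ≃ₐ[k] Ω} (hσ : σ ∈ N)
    (R : Fin 2 → Ω) {x : Ωˣ} (hx : (x : Ω) ∈ AA A (Set.range P)) :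
    v (fun i => σ (R i)) (σ • x) = v R x :=
  hv'.equiv σ (hS.stab σ hσ) (fun i => hS.fix hσ (P i) ⟨i, rfl⟩) (hD.sF σ hσ) R x hx

private theorem ord_id_X (hS : Sit A N P) (hD : Dat A N P F H Z t)
    {a : (Ω ≃ₐ[k] Ω) → (Ω ≃ₐ[k] Ω) → Ωˣ} (ha : CocE A N P a) {v : (Fin 2 → Ω) → Ωˣ → ℤ}
    (hv' : IsOrd A F P v) {σ : Ω ≃ₐ[k] Ω} (hσ : σ ∈ N) {R : Fin 2 → Ω} (hR : R ∈ Xa N v a) :
    (fun i => σ (R i)) ∈ Xa N v a := by
  obtain ⟨τ, hτ, ρ, hρ, h1⟩ := hR
  by_contra hX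
  have h0 : ∀ σ' ∈ N, ∀ τ' ∈ N, v (fun i => σ (R i)) (a σ' τ') = 0 := by
    intro σ' hσ' τ' hτ'
    by_contra h
    exact hX ⟨σ', hσ', τ', hτ', h⟩
  have h2 := ha.coc σ hσ τ hτ ρ hρ
  have h3 := congrArg (v (fun i => σ (R i))) h2
  rw [hv'.mul _ _ _ (ha.mem _ _) (ha.mem _ _),
    hv'.mul _ _ _ (ord_id_smulE hS hσ (ha.mem _ _)) (ha.mem _ _),
    ord_id_eqv hS hD hv' hσ R (ha.mem _ _), h0 σ hσ τ hτ, h0 _ (N.mul_mem hσ hτ) ρ hρ,
    h0 σ hσ _ (N.mul_mem hτ hρ)] at h3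
  apply h1
  linarith

theorem ord_id (hS : Sit A N P) (hD : Dat A N P F H Z t)
    (a : (Ω ≃ₐ[k] Ω) → (Ω ≃ₐ[k] Ω) → Ωˣ) (ha : CocE A N P a) (v : (Fin 2 → Ω) → Ωˣ → ℤ)
    (hv' : IsOrd A F P v) (q : ℕ) (g : (Ω ≃ₐ[k] Ω) → Ωˣ)
    (hgE : ∀ σ, (g σ : Ω) ∈ AA A (Set.range P))
    (hg : ∀ V, Bad A N P a V → ∀ σ ∈ N, ∀ τ ∈ N, ag a q g σ τ ∈ V.unitGroup) :
    ∀ σ ∈ N, ∀ τ ∈ N, ∀ R, v R (ag a q g σ τ) = vX (Xa N v a) v R (g (σ * τ)) -
      vX (Xa N v a) v R (g σ) - vX (Xa N v a) v (fun i => σ⁻¹ (R i)) (g τ) := by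
  intro σ hσ τ hτ R
  have hσi : (fun i => σ ((fun i => σ⁻¹ (R i)) i)) = R := by
    funext i
    exact σ.apply_symm_apply (R i)
  have hXiff : (fun i => σ⁻¹ (R i)) ∈ Xa N v a ↔ R ∈ Xa N v a := by
    constructor
    · intro h
      have h1 := ord_id_X hS hD ha hv' hσ h
      rwa [hσi] at h1
    · intro h
      exact ord_id_X hS hD ha hv' (N.inv_mem hσ) h
  have hagE : ((ag a q g σ τ : Ωˣ) : Ω) ∈ AA A (Set.range P) :=
    ord_id_mulE (ord_id_mulE (ord_id_powE (ha.mem _ _) q) (hgE _))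
      (ord_id_invE (ord_id_mulE (hgE _) (ord_id_smulE hS hσ (hgE _))))
  by_cases hX : R ∈ Xa N v a
  · have hX' := hXiff.2 hX
    have e1 : vX (Xa N v a) v R (g (σ * τ)) = 0 := if_pos hX
    have e2 : vX (Xa N v a) v R (g σ) = 0 := if_pos hX
    have e3 : vX (Xa N v a) v (fun i => σ⁻¹ (R i)) (g τ) = 0 := if_pos hX'
    rw [e1, e2, e3, sub_zero, sub_zero]
    obtain ⟨σ', hσ', τ', hτ', h1⟩ := hX
    obtain ⟨hRA, hRF⟩ := hv'.supp R _ h1
    obtain ⟨V, hV, hV'⟩ := center A P R hRA (by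
      intro u hu hPu
      obtain ⟨w, hw⟩ := (gen_iff A F hD.cf (ord_id_irr F) P hD.zero hD.gen u hu).1 hPu
      rw [hw, map_mul, hRF, zero_mul])
    have hVt : V ≠ ⊤ := by
      intro h
      apply hD.gen
      intro i
      have h2 := hV' i
      have h3 : P i - R i = 0 := by
        by_contra h4
        rw [ValuationSubring.mem_nonunits_iff] at h2
        have h5 : (P i - R i)⁻¹ ∈ V := by rw [h]; exact ValuationSubring.mem_top _
        rw [← ValuationSubring.valuation_le_one_iff, map_inv₀] at h5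
        have h6 : 0 < V.valuation (P i - R i) := by
          rw [zero_lt_iff, Valuation.ne_zero_iff]
          exact h4
        exact absurd ((inv_le_one₀ h6).1 h5) (not_le.2 h2)
      rw [sub_eq_zero.1 h3]
      exact hRA i
    have hbad : Bad A N P a V := by
      refine ⟨hV, hVt, Or.inr ⟨σ', hσ', τ', hτ', fun h => h1 ?_⟩⟩
      exact (hv'.unit R hRA hRF V hV hV' _ (ha.mem _ _)).1 h
    exact (hv'.unit R hRA hRF V hV hV' _ hagE).1 (hg V hbad σ hσ τ hτ)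
  · have hX' : (fun i => σ⁻¹ (R i)) ∉ Xa N v a := fun h => hX (hXiff.1 h)
    have e1 : vX (Xa N v a) v R (g (σ * τ)) = v R (g (σ * τ)) := if_neg hX
    have e2 : vX (Xa N v a) v R (g σ) = v R (g σ) := if_neg hX
    have e3 : vX (Xa N v a) v (fun i => σ⁻¹ (R i)) (g τ) = v (fun i => σ⁻¹ (R i)) (g τ) :=
      if_neg hX'
    have e4 : v R (σ • g τ) = v (fun i => σ⁻¹ (R i)) (g τ) := by
      have h2 := ord_id_eqv hS hD hv' hσ (fun i => σ⁻¹ (R i)) (hgE τ)
      rwa [hσi] at h2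
    have e5 : v R (a σ τ) = 0 := by
      by_contra h
      exact hX ⟨σ, hσ, τ, hτ, h⟩
    rw [e1, e2, e3, ← e4]
    unfold ag
    rw [hv'.mul R _ _ (ord_id_mulE (ord_id_powE (ha.mem _ _) q) (hgE _))
      (ord_id_invE (ord_id_mulE (hgE _) (ord_id_smulE hS hσ (hgE _)))),
      hv'.mul R _ _ (ord_id_powE (ha.mem _ _) q) (hgE _),
      ord_id_inv hv' R (ord_id_mulE (hgE _) (ord_id_smulE hS hσ (hgE _))),
      hv'.mul R _ _ (hgE _) (ord_id_smulE hS hσ (hgE _)), ord_id_pow hv' R (ha.mem _ _), e5]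
    ring

end

end Pool.Agent.TBR

end

section


namespace Pool.Agent.TBR

open Pool.Agent.TQU

universe u

section

variable {k Ω : Type u} [Field k] [Field Ω] [Algebra k Ω] [IsAlgClosed Ω]
variable {A : IntermediateField k Ω} [IsAlgClosed A] {N : Subgroup (Ω ≃ₐ[k] Ω)} {P : Fin 2 → Ω}
variable {F H : MvPolynomial (Fin 2) Ω} [IsDedekindDomain (CR F)] {Z : Multiset (Fin 2 → Ω)}
  {t : (Fin 2 → Ω) → Ω ≃ₐ[k] Ω}

private theorem phi_eval (hD : Dat A N P F H Z t) {σ : Ω ≃ₐ[k] Ω} (hσ : σ ∈ N)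
    (R : Fin 2 → Ω) : MvPolynomial.eval (fun i => σ (R i)) H = σ (MvPolynomial.eval R H) := by
  have h1 := hD.sH σ hσ
  have h2 : MvPolynomial.eval (fun i => σ (R i)) (MvPolynomial.map (σ : Ω →+* Ω) H) =
      (σ : Ω →+* Ω) (MvPolynomial.eval R H) := by
    rw [MvPolynomial.eval_map]
    have h3 := MvPolynomial.eval₂_comp_left (σ : Ω →+* Ω) (RingHom.id Ω) R H
    rw [RingHom.comp_id] at h3
    exact h3.symm
  rw [h1] at h2
  exact h2

private theorem phi_hv (hD : Dat A N P F H Z t) {σ : Ω ≃ₐ[k] Ω} (hσ : σ ∈ N)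
    (R : Fin 2 → Ω) : hv H (fun i => σ (R i)) = σ • hv H R := by
  classical
  have h1 := phi_eval hD hσ R
  by_cases h2 : MvPolynomial.eval R H = 0
  · have h3 : MvPolynomial.eval (fun i => σ (R i)) H = 0 := by rw [h1, h2, map_zero]
    have e1 : hv H R = 1 := by
      unfold hv
      rw [dif_pos h2]
    have e2 : hv H (fun i => σ (R i)) = 1 := by
      unfold hv
      rw [dif_pos h3]
    rw [e1, e2, smul_one]
  · have h3 : MvPolynomial.eval (fun i => σ (R i)) H ≠ 0 := by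
      rw [h1]
      exact (map_ne_zero σ).2 h2
    have e1 : ((hv H R : Ωˣ) : Ω) = - MvPolynomial.eval R H := by
      unfold hv
      rw [dif_neg h2]
      rfl
    have e2 : ((hv H (fun i => σ (R i)) : Ωˣ) : Ω) = - MvPolynomial.eval (fun i => σ (R i)) H := by
      unfold hv
      rw [dif_neg h3]
      rfl
    apply Units.ext
    have e3 : ((σ • hv H R : Ωˣ) : Ω) = σ ((hv H R : Ωˣ) : Ω) := rfl
    rw [e2, e3, e1, h1, map_neg]

private theorem phi_hvE (hD : Dat A N P F H Z t) {R : Fin 2 → Ω} (hR : ∀ i, R i ∈ A) :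
    ((hv H R : Ωˣ) : Ω) ∈ AA A (Set.range P) := by
  classical
  have hle : ∀ x ∈ A, x ∈ AA A (Set.range P) := fun x hx =>
    (le_sup_left : A ≤ A ⊔ IntermediateField.adjoin k (Set.range P)) hx
  by_cases h2 : MvPolynomial.eval R H = 0
  · have e1 : hv H R = 1 := by
      unfold hv
      rw [dif_pos h2]
    rw [e1, Units.val_one]
    exact one_mem _
  · have e1 : ((hv H R : Ωˣ) : Ω) = - MvPolynomial.eval R H := by
      unfold hv
      rw [dif_neg h2]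
      rfl
    rw [e1, MvPolynomial.eval_eq]
    refine neg_mem (sum_mem fun m _ => mul_mem (hD.cfH m) (prod_mem fun i _ => pow_mem (hle _ (hR i)) _))

private theorem phi_smulE (hS : Sit A N P) {σ : Ω ≃ₐ[k] Ω} (hσ : σ ∈ N) {x : Ωˣ}
    (hx : (x : Ω) ∈ AA A (Set.range P)) : ((σ • x : Ωˣ) : Ω) ∈ AA A (Set.range P) := by
  have h1 : AA A (Set.range P) ≤ (AA A (Set.range P)).comap (σ : Ω →ₐ[k] Ω) := by
    refine sup_le ?_ ?_
    · intro a ha
      have h2 : σ a ∈ A := (hS.stab σ hσ a).2 ha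
      exact (le_sup_left : A ≤ AA A (Set.range P)) h2
    · rw [IntermediateField.adjoin_le_iff]
      rintro _ ⟨i, rfl⟩
      have h2 : σ (P i) = P i := hS.fix hσ (P i) ⟨i, rfl⟩
      show σ (P i) ∈ AA A (Set.range P)
      rw [h2]
      exact (le_sup_right : IntermediateField.adjoin k (Set.range P) ≤ AA A (Set.range P))
        (IntermediateField.subset_adjoin k _ ⟨i, rfl⟩)
  exact h1 hx

private theorem phi_agE (hS : Sit A N P) {a : (Ω ≃ₐ[k] Ω) → (Ω ≃ₐ[k] Ω) → Ωˣ}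
    (ha : CocE A N P a) (q : ℕ) {g : (Ω ≃ₐ[k] Ω) → Ωˣ}
    (hgE : ∀ σ, (g σ : Ω) ∈ AA A (Set.range P)) {σ : Ω ≃ₐ[k] Ω} (hσ : σ ∈ N) (τ : Ω ≃ₐ[k] Ω) :
    ((ag a q g σ τ : Ωˣ) : Ω) ∈ AA A (Set.range P) := by
  unfold ag
  rw [Units.val_mul, Units.val_mul, Units.val_pow_eq_pow_val, Units.val_inv_eq_inv_val,
    Units.val_mul]
  exact mul_mem (mul_mem (pow_mem (ha.mem _ _) q) (hgE _))
    (inv_mem (mul_mem (hgE _) (phi_smulE hS hσ (hgE _))))

private theorem phi_fin {v : (Fin 2 → Ω) → Ωˣ → ℤ} (hv' : IsOrd A F P v) (X : Set (Fin 2 → Ω))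
    {f : Ωˣ} (hf : (f : Ω) ∈ AA A (Set.range P)) : {R | vX X v R f ≠ 0}.Finite := by
  refine (hv'.fin f hf).subset fun R hR h => hR ?_
  unfold vX
  split_ifs
  · rfl
  · exact h

theorem phi (hS : Sit A N P) (hD : Dat A N P F H Z t)
    (a : (Ω ≃ₐ[k] Ω) → (Ω ≃ₐ[k] Ω) → Ωˣ) (ha : CocE A N P a) (q : ℕ) (g : (Ω ≃ₐ[k] Ω) → Ωˣ)
    (hgE : ∀ σ, (g σ : Ω) ∈ AA A (Set.range P)) (hgA : Lc1 (A : Set Ω) g)
    (hg : ∀ V, Bad A N P a V → ∀ σ ∈ N, ∀ τ ∈ N, ag a q g σ τ ∈ V.unitGroup) :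
    ∃ Φ : (Ω ≃ₐ[k] Ω) → Ωˣ, Lc1 (A : Set Ω) Φ ∧ (∀ σ, (Φ σ : Ω) ∈ AA A (Set.range P)) ∧
      ∀ σ ∈ N, ∀ τ ∈ N,
        ((Tn Z t (ag a q g σ τ) * Φ (σ * τ) * (Φ σ * σ • Φ τ)⁻¹ : Ωˣ) : Ω) ∈ A := by
  classical
  obtain ⟨v, hv'⟩ := exists_ord A F hD.cf P hD.zero hD.gen
  obtain ⟨w, hw⟩ : ∃ w, w = vX (Xa N v a) v := ⟨_, rfl⟩
  have hwfin : ∀ f : Ωˣ, (f : Ω) ∈ AA A (Set.range P) → {R | w R f ≠ 0}.Finite := by
    intro f hf
    rw [hw]
    exact phi_fin hv' _ hf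
  have hwA : ∀ R f, w R f ≠ 0 → ∀ i, R i ∈ A := by
    intro R f h
    refine (hv'.supp R f fun h1 => h ?_).1
    rw [hw]
    unfold vX
    split_ifs
    · rfl
    · exact h1
  -- the function `Φ`
  obtain ⟨Ψ, hΨ⟩ : ∃ Ψ : Ωˣ → Ωˣ, ∀ f, Ψ f = ∏ᶠ R, hv H R ^ (- w R f) := ⟨_, fun _ => rfl⟩
  have hsup : ∀ e : (Fin 2 → Ω) → ℤ, {R | e R ≠ 0}.Finite →
      (Function.mulSupport fun R => hv H R ^ e R).Finite := by
    intro e he
    refine he.subset fun R hR h => hR ?_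
    show hv H R ^ e R = 1
    rw [h, zpow_zero]
  refine ⟨fun σ => Ψ (g σ), hgA.map Ψ, fun σ => ?_, fun σ hσ τ hτ => ?_⟩
  · show ((Ψ (g σ) : Ωˣ) : Ω) ∈ _
    rw [hΨ]
    refine finprod_induction (fun u : Ωˣ => (u : Ω) ∈ AA A (Set.range P)) ?_ ?_ ?_
    · rw [Units.val_one]
      exact one_mem _
    · intro x y hx hy
      rw [Units.val_mul]
      exact mul_mem hx hy
    · intro R
      by_cases h : w R (g σ) = 0
      · rw [h, neg_zero, zpow_zero, Units.val_one]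
        exact one_mem _
      · rw [Units.val_zpow_eq_zpow_val]
        exact zpow_mem (phi_hvE hD (hwA R _ h)) _
  · show ((Tn Z t (ag a q g σ τ) * Ψ (g (σ * τ)) * (Ψ (g σ) * σ • Ψ (g τ))⁻¹ : Ωˣ) : Ω) ∈ A
    obtain ⟨α, hα, hTn⟩ := weil_ord hS F H hD.cf hD.hint hD.zero hD.gen Z hD.fac hD.mem hD.ne v hv' t
      hD.tr (ag a q g σ τ) (phi_agE hS ha q hgE hσ τ) (by
        intro V hV hPV
        refine hg V ⟨hV, ?_, Or.inl hPV⟩ σ hσ τ hτ
        rintro rfl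
        exact hPV fun i => ValuationSubring.mem_top _)
    have hord := ord_id hS hD a ha v hv' q g hgE hg σ hσ τ hτ
    rw [← hw] at hord
    -- the equivalence
    let e : (Fin 2 → Ω) ≃ (Fin 2 → Ω) :=
      { toFun := fun R i => σ (R i)
        invFun := fun R i => σ⁻¹ (R i)
        left_inv := fun R => funext fun i => σ.symm_apply_apply (R i)
        right_inv := fun R => funext fun i => σ.apply_symm_apply (R i) }
    have hfin3 : {R : Fin 2 → Ω | w (fun i => σ⁻¹ (R i)) (g τ) ≠ 0}.Finite := by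
      have h1 := (hwfin (g τ) (hgE τ)).preimage (f := e.symm) e.symm.injective.injOn
      exact h1
    have hsm : σ • Ψ (g τ) = ∏ᶠ R, hv H R ^ (- w (fun i => σ⁻¹ (R i)) (g τ)) := by
      rw [hΨ]
      have h1 := (MulDistribMulAction.toMonoidHom Ωˣ σ).map_finprod
        (hsup (fun R => - w R (g τ)) ((hwfin (g τ) (hgE τ)).subset fun R hR h => hR (by
          show - w R (g τ) = 0
          rw [h, neg_zero])))
      have h2 : (MulDistribMulAction.toMonoidHom Ωˣ σ) (∏ᶠ R, hv H R ^ (- w R (g τ))) =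
        σ • ∏ᶠ R, hv H R ^ (- w R (g τ)) := rfl
      rw [← h2, h1, ← finprod_comp_equiv e
        (f := fun R => hv H R ^ (- w (fun i => σ⁻¹ (R i)) (g τ)))]
      refine finprod_congr fun R => ?_
      have h3 : (fun i => σ⁻¹ (e R i)) = R := e.symm_apply_apply R
      rw [h3]
      show σ • (hv H R ^ (- w R (g τ))) = hv H (fun i => σ (R i)) ^ (- w R (g τ))
      rw [smul_zpow_units, phi_hv hD hσ]
    have hprod : ∏ᶠ R, hv H R ^ v R (ag a q g σ τ) =
        (Ψ (g (σ * τ)))⁻¹ * (Ψ (g σ) * σ • Ψ (g τ)) := by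
      rw [hsm, hΨ, hΨ, ← finprod_inv_distrib]
      have n2 : {R | - w R (g σ) ≠ 0}.Finite := (hwfin (g σ) (hgE σ)).subset fun R hR h => hR (by
        show - w R (g σ) = 0
        rw [h, neg_zero])
      have n3 : {R : Fin 2 → Ω | - w (fun i => σ⁻¹ (R i)) (g τ) ≠ 0}.Finite := hfin3.subset fun R hR h => hR (by
        show - w (fun i => σ⁻¹ (R i)) (g τ) = 0
        rw [h, neg_zero])
      have h2 := hsup _ n2
      have h3 := hsup _ n3
      have n1 : {R | w R (g (σ * τ)) ≠ 0}.Finite := hwfin _ (hgE _)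
      have h1 : (Function.mulSupport fun R => (hv H R ^ (- w R (g (σ * τ))))⁻¹).Finite := by
        refine n1.subset fun R hR h => hR ?_
        show (hv H R ^ (- w R (g (σ * τ))))⁻¹ = 1
        rw [h, neg_zero, zpow_zero, inv_one]
      have h4 : (Function.mulSupport fun R => hv H R ^ (- w R (g σ)) *
          hv H R ^ (- w (fun i => σ⁻¹ (R i)) (g τ))).Finite := by
        refine (h2.union h3).subset (Function.mulSupport_mul _ _)
      rw [← finprod_mul_distrib h2 h3, ← finprod_mul_distrib h1 h4]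
      refine finprod_congr fun R => ?_
      rw [hord R, ← zpow_neg, neg_neg, ← zpow_add, ← zpow_add]
      congr 1
      ring
    have hfinal : Tn Z t (ag a q g σ τ) * Ψ (g (σ * τ)) * (Ψ (g σ) * σ • Ψ (g τ))⁻¹ = α := by
      rw [hTn, hprod]
      apply Additive.ofMul.injective
      simp only [ofMul_mul, ofMul_inv]
      abel
    rw [hfinal]
    exact hα

end

end Pool.Agent.TBR

end

section


namespace Pool.Agent.TBR

open Pool.Agent.TQU

universe u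

section

variable {k Ω : Type u} [Field k] [Field Ω] [Algebra k Ω] [IsAlgClosed Ω]
variable {A : IntermediateField k Ω} [IsAlgClosed A] {N : Subgroup (Ω ≃ₐ[k] Ω)} {P : Fin 2 → Ω}
variable {F H : MvPolynomial (Fin 2) Ω} [IsDedekindDomain (CR F)] {Z : Multiset (Fin 2 → Ω)}
  {t : (Fin 2 → Ω) → Ω ≃ₐ[k] Ω}

theorem rel (hS : Sit A N P) (hD : Dat A N P F H Z t) (p : ℕ) [ExpChar Ω p]
    (κ : IntermediateField k Ω) [IsAlgClosed κ] (hκA : κ ≤ A) (hκ : N ≤ Fx k (κ : Set Ω)) (z : Ω)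
    (hzA : z ∈ A) (hz : ∀ x ∈ A, IsAlgebraic (AA κ {z}) x)
    (a : (Ω ≃ₐ[k] Ω) → (Ω ≃ₐ[k] Ω) → Ωˣ) (ha : CocE A N P a) :
    ∃ r : ℕ, Tri N (fun σ τ => Tn Z t (a σ τ) ^ p ^ r) := by
  classical
  obtain ⟨hTfin, hTN⟩ := bad_fin hS a ha
  obtain ⟨r, g, hg, hgE, hgu⟩ := glob hS p a ha (Bad A N P a) (fun V hV => ⟨hV.1, hV.2.1⟩) hTfin hTN
  obtain ⟨Φ, hΦ, hΦE, hΦA⟩ := phi hS hD a ha (p ^ r) g hgE hg hgu
  refine ⟨r, ?_⟩
  have hgrp : ∀ x y w : Ωˣ, x * y * w⁻¹ = x * (w * y⁻¹)⁻¹ := fun x y w => by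
    rw [mul_inv_rev, inv_inv, mul_assoc]
  -- `Tn` is a homomorphism
  let T : Ωˣ →* Ωˣ := MonoidHom.mk' (Tn Z t) (fun x y => by
    unfold Tn
    rw [← Multiset.prod_map_mul]
    congr 1
    refine Multiset.map_congr rfl fun R _ => smul_mul' _ _ _)
  have hT : ∀ f, T f = Tn Z t f := fun _ => rfl
  have hAst : ∀ σ ∈ N, ∀ x ∈ (A : Set Ω), σ x ∈ (A : Set Ω) := fun σ hσ x hx =>
    (hS.stab σ hσ x).2 hx
  have hEst : ∀ σ ∈ N, ∀ x ∈ AA A (Set.range P), σ x ∈ AA A (Set.range P) := by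
    intro σ hσ
    have h1 : AA A (Set.range P) ≤ (AA A (Set.range P)).comap (σ : Ω →ₐ[k] Ω) := by
      refine sup_le (fun x hx => ?_) (IntermediateField.adjoin_le_iff.2 ?_)
      · exact (le_sup_left : A ≤ AA A (Set.range P)) (hAst σ hσ x hx)
      · rintro _ ⟨i, rfl⟩
        show σ (P i) ∈ AA A (Set.range P)
        rw [hS.fix hσ _ ⟨i, rfl⟩]
        exact (le_sup_right : _ ≤ AA A (Set.range P)) (IntermediateField.subset_adjoin _ _ ⟨i, rfl⟩)
    exact fun x hx => h1 hx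
  have hTs : ∀ σ ∈ N, ∀ f : Ωˣ, (f : Ω) ∈ AA A (Set.range P) → T (σ • f) = σ • T f := by
    intro σ hσ f hf
    rw [hT, hT]
    exact (tn_smul hS hD σ hσ f hf).symm
  have hmulE : ∀ x y : Ωˣ, (x : Ω) ∈ AA A (Set.range P) → (y : Ω) ∈ AA A (Set.range P) →
      ((x * y : Ωˣ) : Ω) ∈ AA A (Set.range P) := by
    intro x y hx hy
    rw [Units.val_mul]
    exact mul_mem hx hy
  have hinvE : ∀ x : Ωˣ, (x : Ω) ∈ AA A (Set.range P) →
      ((x⁻¹ : Ωˣ) : Ω) ∈ AA A (Set.range P) := by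
    intro x hx
    rw [Units.val_inv_eq_inv_val]
    exact inv_mem hx
  have hsmE : ∀ σ ∈ N, ∀ x : Ωˣ, (x : Ω) ∈ AA A (Set.range P) →
      ((σ • x : Ωˣ) : Ω) ∈ AA A (Set.range P) := fun σ hσ x hx => hEst σ hσ x hx
  -- the coboundaries
  have cobd : ∀ b : (Ω ≃ₐ[k] Ω) → Ωˣ, Cob N (fun σ τ => b σ * σ • b τ * (b (σ * τ))⁻¹) b := by
    intro b σ _ τ _
    show b σ * σ • b τ * (b (σ * τ))⁻¹ * b (σ * τ) = b σ * σ • b τ
    rw [inv_mul_cancel_right]
  have hag : ∀ σ τ, ag a (p ^ r) g σ τ =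
      a σ τ ^ p ^ r * (g σ * σ • g τ * (g (σ * τ))⁻¹)⁻¹ := by
    intro σ τ
    exact hgrp _ _ _
  have hagE : ∀ σ ∈ N, ∀ τ ∈ N, ((ag a (p ^ r) g σ τ : Ωˣ) : Ω) ∈ AA A (Set.range P) := by
    intro σ hσ τ _
    unfold ag
    refine hmulE _ _ (hmulE _ _ ?_ (hgE _)) (hinvE _ (hmulE _ _ (hgE _) (hsmE σ hσ _ (hgE _))))
    rw [Units.val_pow_eq_pow_val]
    exact pow_mem (ha.mem σ τ) _
  have hcoc1 : Coc N (ag a (p ^ r) g) := by
    have h1 := (ha.coc.pow (p ^ r)).mul (cobd g).coc.inv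
    intro σ hσ τ hτ ρ hρ
    have h2 := h1 σ hσ τ hτ ρ hρ
    simp only [← hag] at h2
    exact h2
  have hcocT : Coc N (fun σ τ => T (ag a (p ^ r) g σ τ)) := by
    intro σ hσ τ hτ ρ hρ
    have h2 := congrArg T (hcoc1 σ hσ τ hτ ρ hρ)
    rw [map_mul, map_mul, hTs σ hσ _ (hagE τ hτ ρ hρ)] at h2
    exact h2
  obtain ⟨α, hα⟩ : ∃ α : (Ω ≃ₐ[k] Ω) → (Ω ≃ₐ[k] Ω) → Ωˣ, ∀ σ τ, α σ τ =
      T (ag a (p ^ r) g σ τ) * (Φ σ * σ • Φ τ * (Φ (σ * τ))⁻¹)⁻¹ := ⟨_, fun _ _ => rfl⟩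
  have hαcoc : Coc N α := by
    have h1 := hcocT.mul (cobd Φ).coc.inv
    intro σ hσ τ hτ ρ hρ
    have h2 := h1 σ hσ τ hτ ρ hρ
    simp only [← hα] at h2
    exact h2
  have hαA : ∀ σ ∈ N, ∀ τ ∈ N, ((α σ τ : Ωˣ) : Ω) ∈ (A : Set Ω) := by
    intro σ hσ τ hτ
    have h1 := hΦA σ hσ τ hτ
    have h2 : α σ τ = Tn Z t (ag a (p ^ r) g σ τ) * Φ (σ * τ) * (Φ σ * σ • Φ τ)⁻¹ := by
      rw [hα, hT]
      exact (hgrp _ _ _).symm
    rw [h2]
    exact h1
  -- `α` is locally constant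
  have hlo : Lo2 N (A : Set Ω) α := by
    obtain ⟨Sa, hSa, hSa'⟩ := ha.lc
    obtain ⟨Sg, hSg, hSg'⟩ := hg
    obtain ⟨Sf, hSf, hSf'⟩ := hΦ
    have horbA : ∀ S : Finset Ω, Orb N (S : Set Ω) := fun S =>
      hS.orb.mono le_rfl (Set.subset_univ _)
    have hfin : {m : Ωˣ | ∃ τ ∈ N, g τ = m ∨ Φ τ = m}.Finite := by
      have f1 := finite_range N Sg (horbA Sg) g (fun σ _ τ _ h => hSg' σ τ h)
      have f2 := finite_range N Sf (horbA Sf) Φ (fun σ _ τ _ h => hSf' σ τ h)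
      refine (f1.union f2).subset ?_
      rintro m ⟨τ, hτ, h | h⟩
      · exact Or.inl ⟨τ, hτ, h⟩
      · exact Or.inr ⟨τ, hτ, h⟩
    have hco : ∀ m : Ωˣ, ∃ S : Finset Ω, (S : Set Ω) ⊆ A ∧ ((m : Ω) ∈ AA A (Set.range P) →
        ∀ σ ∈ Fx k (Set.range P), ∀ τ ∈ Fx k (Set.range P), Ag (S : Set Ω) σ τ → σ • m = τ • m) := by
      intro m
      by_cases hm : (m : Ω) ∈ AA A (Set.range P)
      · obtain ⟨S, h1, h2⟩ := coef A P m hm
        exact ⟨S, h1, fun _ σ hσ τ hτ h => Units.ext (h2 σ hσ τ hτ h)⟩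
      · exact ⟨∅, by simp, fun h => absurd h hm⟩
    choose Sm hSm1 hSm2 using hco
    have hU : (((Sa ∪ Sg ∪ Sf) ∪ hfin.toFinset.biUnion Sm : Finset Ω) : Set Ω) ⊆ (A : Set Ω) := by
      intro x hx
      rw [Finset.mem_coe, Finset.mem_union, Finset.mem_union, Finset.mem_union,
        Finset.mem_biUnion] at hx
      rcases hx with ((hx | hx) | hx) | ⟨m, -, hx⟩
      · exact hSa hx
      · exact hSg hx
      · exact hSf hx
      · exact hSm1 m hx
    obtain ⟨S₁, hsub, hS₁A, hS₁⟩ := exists_stable N (A : Set Ω) hAst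
      (hS.orb.mono le_rfl (Set.subset_univ _)) _ hU
    have sa : (Sa : Set Ω) ⊆ S₁ := fun x hx => hsub (by
      rw [Finset.mem_union, Finset.mem_union, Finset.mem_union]; exact Or.inl (Or.inl (Or.inl hx)))
    have sg : (Sg : Set Ω) ⊆ S₁ := fun x hx => hsub (by
      rw [Finset.mem_union, Finset.mem_union, Finset.mem_union]; exact Or.inl (Or.inl (Or.inr hx)))
    have sf : (Sf : Set Ω) ⊆ S₁ := fun x hx => hsub (by
      rw [Finset.mem_union, Finset.mem_union, Finset.mem_union]; exact Or.inl (Or.inr hx))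
    have sm : ∀ m ∈ hfin.toFinset, (Sm m : Set Ω) ⊆ S₁ := fun m hm x hx => hsub (by
      rw [Finset.mem_union, Finset.mem_biUnion]; exact Or.inr ⟨m, hm, hx⟩)
    refine ⟨S₁, hS₁A, fun σ hσ σ' hσ' τ hτ τ' hτ' h h' => ?_⟩
    have h2 : Ag (S₁ : Set Ω) (σ * τ) (σ' * τ') := h.mul h' (fun x hx => hS₁ τ hτ x hx)
    have e1 : a σ τ = a σ' τ' := hSa' _ _ _ _ (h.mono sa) (h'.mono sa)
    have e2 : g (σ * τ) = g (σ' * τ') := hSg' _ _ (h2.mono sg)
    have e3 : g σ = g σ' := hSg' _ _ (h.mono sg)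
    have e4 : g τ = g τ' := hSg' _ _ (h'.mono sg)
    have e5 : Φ (σ * τ) = Φ (σ' * τ') := hSf' _ _ (h2.mono sf)
    have e6 : Φ σ = Φ σ' := hSf' _ _ (h.mono sf)
    have e7 : Φ τ = Φ τ' := hSf' _ _ (h'.mono sf)
    have e8 : σ • g τ = σ' • g τ := hSm2 (g τ) (hgE τ) σ (hS.fix hσ) σ' (hS.fix hσ')
      (h.mono (sm _ (hfin.mem_toFinset.2 ⟨τ, hτ, Or.inl rfl⟩)))
    have e9 : σ • Φ τ = σ' • Φ τ := hSm2 (Φ τ) (hΦE τ) σ (hS.fix hσ) σ' (hS.fix hσ')
      (h.mono (sm _ (hfin.mem_toFinset.2 ⟨τ, hτ, Or.inr rfl⟩)))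
    rw [hα, hα, hag, hag, e1, e2, e3, e5, e6, e8, e9, e4, e7]
  obtain ⟨α', hα'1, hα'2, hα'3, -⟩ := hlo.extend 1
  obtain ⟨β, hβ1, -, hβ3⟩ := tsu N κ A hκA hκ (fun σ hσ x hx => hAst σ hσ x hx) z hzA hz
    (hS.orb.mono le_rfl (Set.subset_univ _)) α' (fun σ hσ τ hτ => by
      rw [hα'2 σ hσ τ hτ]
      exact hαA σ hσ τ hτ) hα'1 (by
    intro σ hσ τ hτ ρ hρ
    rw [hα'2 σ hσ τ hτ, hα'2 _ (N.mul_mem hσ hτ) ρ hρ, hα'2 τ hτ ρ hρ,
      hα'2 σ hσ _ (N.mul_mem hτ hρ)]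
    exact hαcoc σ hσ τ hτ ρ hρ)
  refine ⟨fun σ => β σ * Φ σ * T (g σ), ((hβ1.mono (Set.subset_univ _)).mul
    (hΦ.mono (Set.subset_univ _))).mul ((hg.mono (Set.subset_univ _)).map T), ?_⟩
  refine ((hβ3.mul (cobd Φ)).mul (cobd fun σ => T (g σ))).congr fun σ hσ τ hτ => ?_
  show α' σ τ * (Φ σ * σ • Φ τ * (Φ (σ * τ))⁻¹) * (T (g σ) * σ • T (g τ) * (T (g (σ * τ)))⁻¹) =
    Tn Z t (a σ τ) ^ p ^ r
  rw [hα'2 σ hσ τ hτ, hα, inv_mul_cancel_right, ← hT, ← map_pow, hag, map_mul, map_inv, map_mul,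
    map_mul, map_inv, hTs σ hσ _ (hgE τ), inv_mul_cancel_right]

end

end Pool.Agent.TBR

end
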