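import Pool.Agent.TBM.Sit
import Pool.Agent.T1B.Dominated
import Pool.Agent.TQU.Defs
import Pool.Agent.TCB.Defs
import Pool.Agent.TBM.Base
import Pool.Agent.TBM.TGroup
import Pool.Agent.TBM.Coh
import Pool.Agent.TBM.Rel
import Pool.Agent.TBM.Crv

set_option maxSynthPendingDepth 3

private theorem br_tf_field (K L : Type*) [Field K] [Field L] [Algebra K L] :
    Module.IsTorsionFree K L := inferInstance

private theorem br_fs_field (K L : Type*) [Field K] [Field L] [Algebra K L] :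
    FaithfulSMul K L := inferInstance

attribute [local instance 5000] br_tf_field br_fs_field

/-!
# Systems of Brauer classes
-/

set_option autoImplicit false

section


namespace Pool.Agent.TBR

universe u

variable {k Ω : Type u} [Field k] [Field Ω] [Algebra k Ω]

/-- restriction of scalars -/
def rsh (K : IntermediateField k Ω) : (Ω ≃ₐ[K] Ω) →* (Ω ≃ₐ[k] Ω) where
  toFun σ := σ.restrictScalars k
  map_one' := rfl
  map_mul' _ _ := rfl

/-- the algebraic closure of `k(z)` in `Ω` -/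
noncomputable def Az (k : Type u) {Ω : Type u} [Field k] [Field Ω] [Algebra k Ω] (z : Ω) :
    IntermediateField k Ω :=
  (algebraicClosure (IntermediateField.adjoin k {z}) Ω).restrictScalars k

end Pool.Agent.TBR

end

section


namespace Pool.Agent.TBR

open Pool.Agent.TQU

universe u

/-- `F = 0` is a plane curve over `k(z)` through `P`; `H` is a polynomial over `k(z,P)` with the
zeros `3 P + s` on the curve; the pairs `P`, `Q` with `Q ∈ s` come from curves; points of the curve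
are integral over a valuation ring if the value of `H` is integral -/
structure Pln (k : Type u) {Ω : Type u} [Field k] [Field Ω] [Algebra k Ω] (z : Ω) (P : Fin 2 → Ω)
    (F H : MvPolynomial (Fin 2) Ω) (s : Multiset (Fin 2 → Ω)) : Prop where
  gen : ¬ ∀ i, P i ∈ Az k z
  ded : IsDedekindDomain (CR F)
  cf : Cf (IntermediateField.adjoin k {z} : Set Ω) F
  cfH : Cf (IntermediateField.adjoin k ({z} ∪ Set.range P) : Set Ω) H
  hint : ∀ (M : Type u) [Field M] [Algebra Ω M] (W : ValuationSubring M) (x : Fin 2 → M),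
    (∀ a : Ω, algebraMap Ω M a ∈ W) → MvPolynomial.aeval x F = 0 →
      MvPolynomial.aeval x H ∈ W → ∀ i, x i ∈ W
  zero : MvPolynomial.eval P F = 0
  mem : ∀ Q ∈ s, MvPolynomial.eval Q F = 0 ∧ FromCurves k z P Q
  fac : Ideal.span {Ideal.Quotient.mk (Ideal.span {F}) H}
    = (ptIdeal F P) ^ 3 * (s.map (ptIdeal F)).prod
  card : 3 < Multiset.card s

end Pool.Agent.TBR

end

section


namespace Pool.Agent.TBR

open Pool.Agent.TQU

universe u

section

variable {k Ω : Type u} [Field k] [Field Ω] [Algebra k Ω]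

theorem br_fg {K' Ω' : Type*} [Field K'] [Field Ω'] [Algebra K' Ω'] (E : IntermediateField K' Ω')
    (hE : FiniteDimensional K' E) : E.FG :=
  IntermediateField.fg_of_fg_toSubalgebra E (Subalgebra.fg_of_fg_toSubmodule
    (Module.Finite.iff_fg.1 (inferInstanceAs (Module.Finite K' E))))

theorem tri_iff_aux1 (K : IntermediateField k Ω) (σ : Ω ≃ₐ[k] Ω) (h : σ ∈ Fx k (K : Set Ω)) :
    ∃ σ' : Ω ≃ₐ[K] Ω, rsh K σ' = σ :=
  ⟨AlgEquiv.ofRingEquiv (f := (σ : Ω ≃+* Ω)) (fun x => h x x.2), AlgEquiv.ext fun _ => rfl⟩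

theorem tri_iff_aux2 (K : IntermediateField k Ω) (s : Set Ω) (σ τ : Ω ≃ₐ[K] Ω)
    (h : ∀ x ∈ s, σ x = τ x) : ∀ x ∈ IntermediateField.adjoin K s, σ x = τ x := by
  intro x hx
  induction hx using IntermediateField.adjoin_induction with
  | mem x hx => exact h x hx
  | algebraMap x => rw [AlgEquiv.commutes, AlgEquiv.commutes]
  | add x y _ _ hx hy => rw [map_add, map_add, hx, hy]
  | inv x _ hx => rw [map_inv₀, map_inv₀, hx]
  | mul x y _ _ hx hy => rw [map_mul, map_mul, hx, hy]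

theorem tri_iff (K : IntermediateField k Ω) (halg : ∀ x : Ω, IsAlgebraic K x)
    (D : Subgroup (Ω ≃ₐ[k] Ω)) (hD : D ≤ Fx k (K : Set Ω))
    (C : (Ω ≃ₐ[k] Ω) → (Ω ≃ₐ[k] Ω) → Ωˣ) :
    Tri D C ↔ T1B.Triv (D.comap (rsh K)) (fun σ τ => C (rsh K σ) (rsh K τ)) := by
  classical
  constructor
  · rintro ⟨b, ⟨S, _, hb⟩, hcob⟩
    refine ⟨fun σ => b (rsh K σ), ⟨IntermediateField.adjoin K (S : Set Ω),
      IntermediateField.finiteDimensional_adjoin (fun x _ => (halg x).isIntegral), ?_⟩, ?_⟩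
    · intro σ σ' h
      exact hb _ _ (fun x hx => h x (IntermediateField.subset_adjoin K _ hx))
    · intro σ hσ τ hτ
      exact hcob (rsh K σ) hσ (rsh K τ) hτ
  · rintro ⟨b, ⟨E, hE, hb⟩, hcob⟩
    have hfg : E.FG := br_fg E hE
    obtain ⟨s, hs⟩ := hfg
    obtain ⟨f, hf⟩ : ∃ f : (Ω ≃ₐ[k] Ω) → Ωˣ, ∀ σ' : Ω ≃ₐ[K] Ω, f (rsh K σ') = b σ' := by
      refine ⟨fun σ => if h : ∃ σ' : Ω ≃ₐ[K] Ω, rsh K σ' = σ then b h.choose else 1, ?_⟩
      intro σ'
      have h : ∃ τ' : Ω ≃ₐ[K] Ω, rsh K τ' = rsh K σ' := ⟨σ', rfl⟩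
      have h1 : h.choose = σ' := AlgEquiv.ext fun x => congrArg (fun g : Ω ≃ₐ[k] Ω => g x)
        h.choose_spec
      simp only [dif_pos h]
      rw [h1]
    have hlo : Lo1 D Set.univ f := by
      refine ⟨s, Set.subset_univ _, ?_⟩
      intro σ hσ τ hτ h
      obtain ⟨σ', rfl⟩ := tri_iff_aux1 K σ (hD hσ)
      obtain ⟨τ', rfl⟩ := tri_iff_aux1 K τ (hD hτ)
      rw [hf, hf]
      refine hb _ _ (fun x hx => ?_)
      rw [← hs] at hx
      exact tri_iff_aux2 K (s : Set Ω) σ' τ' h x hx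
    obtain ⟨f', h1, h2, _⟩ := hlo.extend
    refine ⟨f', h1, ?_⟩
    intro σ hσ τ hτ
    rw [h2 _ (D.mul_mem hσ hτ), h2 _ hσ, h2 _ hτ]
    obtain ⟨σ', rfl⟩ := tri_iff_aux1 K σ (hD hσ)
    obtain ⟨τ', rfl⟩ := tri_iff_aux1 K τ (hD hτ)
    have h3 := hcob σ' hσ τ' hτ
    rw [← map_mul, hf, hf, hf]
    exact h3

end

end Pool.Agent.TBR

end

section


namespace Pool.Agent.TBR

open Pool.Agent.TQU

universe u

section

variable {k Ω : Type u} [Field k] [Field Ω] [Algebra k Ω]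

theorem sysK_aux1 (K : IntermediateField k Ω) (σ : Ω ≃ₐ[k] Ω) (h : σ ∈ Fx k (K : Set Ω)) :
    ∃ σ' : Ω ≃ₐ[K] Ω, rsh K σ' = σ :=
  ⟨AlgEquiv.ofRingEquiv (f := (σ : Ω ≃+* Ω)) (fun x => h x x.2), AlgEquiv.ext fun _ => rfl⟩

theorem sysK_aux2 (K : IntermediateField k Ω) (s : Set Ω) (σ τ : Ω ≃ₐ[K] Ω)
    (h : ∀ x ∈ s, σ x = τ x) : ∀ x ∈ IntermediateField.adjoin K s, σ x = τ x := by
  intro x hx
  induction hx using IntermediateField.adjoin_induction with
  | mem x hx => exact h x hx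
  | algebraMap x => rw [AlgEquiv.commutes, AlgEquiv.commutes]
  | add x y _ _ hx hy => rw [map_add, map_add, hx, hy]
  | inv x _ hx => rw [map_inv₀, map_inv₀, hx]
  | mul x y _ _ hx hy => rw [map_mul, map_mul, hx, hy]

theorem sysK_aux3 (K : IntermediateField k Ω) (σ : Ω ≃ₐ[K] Ω) :
    rsh K σ ∈ Fx k (K : Set Ω) := fun x hx => σ.commutes ⟨x, hx⟩

theorem sysK_aux4 (K : IntermediateField k Ω) :
    (Ge k (K : Set Ω)).comap (rsh K) = T1B.geo k K Ω := by
  ext σ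
  exact ⟨fun h => h.2, fun h => ⟨sysK_aux3 K σ, h⟩⟩

theorem sysK_aux5 (K : IntermediateField k Ω) (V : ValuationSubring Ω) :
    (Ge k (K : Set Ω) ⊓ St k V).comap (rsh K) = T1B.geo k K Ω ⊓ T1B.stab V := by
  ext σ
  exact ⟨fun h => ⟨h.1.2, h.2⟩, fun h => ⟨⟨sysK_aux3 K σ, h.1⟩, h.2⟩⟩

theorem sysK (K : IntermediateField k Ω) (halg : ∀ x : Ω, IsAlgebraic K x) (ℓ : ℕ)
    (c : ℕ → (Ω ≃ₐ[K] Ω) → (Ω ≃ₐ[K] Ω) → Ωˣ) (hc : T1B.Sys k ℓ c) :
    ∃ C : ℕ → (Ω ≃ₐ[k] Ω) → (Ω ≃ₐ[k] Ω) → Ωˣ, SysU (K : Set Ω) ℓ C ∧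
      ∀ n σ τ, C n (rsh K σ) (rsh K τ) = c n σ τ := by
  classical
  have hf : ∀ n, ∃ C : (Ω ≃ₐ[k] Ω) → (Ω ≃ₐ[k] Ω) → Ωˣ, Lc2 Set.univ C ∧
      ∀ σ τ : Ω ≃ₐ[K] Ω, C (rsh K σ) (rsh K τ) = c n σ τ := by
    intro n
    obtain ⟨f, hf⟩ : ∃ f : (Ω ≃ₐ[k] Ω) → (Ω ≃ₐ[k] Ω) → Ωˣ, ∀ σ τ : Ω ≃ₐ[K] Ω,
        f (rsh K σ) (rsh K τ) = c n σ τ := by
      refine ⟨fun σ τ => if h : (∃ σ' : Ω ≃ₐ[K] Ω, rsh K σ' = σ) ∧
        (∃ τ' : Ω ≃ₐ[K] Ω, rsh K τ' = τ) then c n h.1.choose h.2.choose else 1, ?_⟩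
      intro σ τ
      have h : (∃ σ' : Ω ≃ₐ[K] Ω, rsh K σ' = rsh K σ) ∧ (∃ τ' : Ω ≃ₐ[K] Ω, rsh K τ' = rsh K τ) :=
        ⟨⟨σ, rfl⟩, ⟨τ, rfl⟩⟩
      have h1 : h.1.choose = σ := AlgEquiv.ext fun x => congrArg (fun g : Ω ≃ₐ[k] Ω => g x)
        h.1.choose_spec
      have h2 : h.2.choose = τ := AlgEquiv.ext fun x => congrArg (fun g : Ω ≃ₐ[k] Ω => g x)
        h.2.choose_spec
      simp only [dif_pos h]
      rw [h1, h2]
    obtain ⟨E, hE, hb⟩ := hc.lc n
    have hfg : E.FG := br_fg E hE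
    obtain ⟨s, hs⟩ := hfg
    have hlo : Lo2 (Fx k (K : Set Ω)) Set.univ f := by
      refine ⟨s, Set.subset_univ _, ?_⟩
      intro σ hσ σ₁ hσ₁ τ hτ τ₁ hτ₁ h h'
      obtain ⟨σ', rfl⟩ := sysK_aux1 K σ hσ
      obtain ⟨τ', rfl⟩ := sysK_aux1 K τ hτ
      obtain ⟨σ₁', rfl⟩ := sysK_aux1 K σ₁ hσ₁
      obtain ⟨τ₁', rfl⟩ := sysK_aux1 K τ₁ hτ₁
      rw [hf, hf]
      refine hb _ _ _ _ (fun x hx => ?_) (fun x hx => ?_)
      · rw [← hs] at hx
        exact sysK_aux2 K (s : Set Ω) σ' σ₁' h x hx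
      · rw [← hs] at hx
        exact sysK_aux2 K (s : Set Ω) τ' τ₁' h' x hx
    obtain ⟨f', h1, h2, _⟩ := hlo.extend 1
    exact ⟨f', h1, fun σ τ => by rw [h2 _ (sysK_aux3 K σ) _ (sysK_aux3 K τ), hf]⟩
  choose C hC1 hC2 using hf
  have hle : Ge k (K : Set Ω) ≤ Fx k (K : Set Ω) := inf_le_left
  refine ⟨C, ⟨hC1, ?_, ?_, ?_, ?_, ?_⟩, hC2⟩
  · intro n σ hσ τ hτ ρ hρ
    obtain ⟨σ', rfl⟩ := sysK_aux1 K σ (hle hσ)
    obtain ⟨τ', rfl⟩ := sysK_aux1 K τ (hle hτ)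
    obtain ⟨ρ', rfl⟩ := sysK_aux1 K ρ (hle hρ)
    have h1 := hc.coc n σ' hσ.2 τ' hτ.2 ρ' hρ.2
    rw [← map_mul, ← map_mul, hC2, hC2, hC2, hC2]
    exact h1
  · rw [tri_iff K halg _ hle, sysK_aux4]
    exact hc.zero.congr (fun σ _ τ _ => (hC2 0 σ τ).symm)
  · intro n
    rw [tri_iff K halg _ hle, sysK_aux4]
    refine (hc.step n).congr (fun σ _ τ _ => ?_)
    rw [hC2, hC2]
  · intro n g hg
    rw [tri_iff K halg _ hle, sysK_aux4]
    obtain ⟨g', rfl⟩ := sysK_aux1 K g hg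
    refine (hc.inv n g').congr (fun σ _ τ _ => ?_)
    rw [← map_inv, ← map_mul, ← map_mul, ← map_mul, ← map_mul, hC2, hC2]
    rfl
  · intro n V hV hV'
    rw [tri_iff K halg _ (inf_le_left.trans hle), sysK_aux5]
    exact (hc.unr n V hV hV').congr (fun σ _ τ _ => (hC2 n σ τ).symm)

end

end Pool.Agent.TBR

end

section


namespace Pool.Agent.TBR

open Pool.Agent.TQU

universe u

section

variable {k Ω : Type u} [Field k] [Field Ω] [Algebra k Ω]

theorem sysL (L : IntermediateField k Ω) (halg : ∀ x : Ω, IsAlgebraic L x) (ℓ : ℕ)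
    (C : ℕ → (Ω ≃ₐ[k] Ω) → (Ω ≃ₐ[k] Ω) → Ωˣ) (hC : SysU (L : Set Ω) ℓ C)
    (hT : T1B.T1' k L Ω ℓ) : ∀ n, Tri (Ge k (L : Set Ω)) (C n) := by
  have hle : Ge k (L : Set Ω) ≤ Fx k (L : Set Ω) := inf_le_left
  have hg : (Ge k (L : Set Ω)).comap (rsh L) = T1B.geo k L Ω := by
    ext σ
    constructor
    · intro h
      exact h.2
    · intro h
      exact ⟨fun x hx => σ.commutes (⟨x, hx⟩ : L), h⟩
  have hgV : ∀ V : ValuationSubring Ω,
      (Ge k (L : Set Ω) ⊓ St k V).comap (rsh L) = T1B.geo k L Ω ⊓ T1B.stab V := by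
    intro V
    rw [Subgroup.comap_inf, hg]
    rfl
  have hS : T1B.Sys k ℓ (fun n (σ τ : Ω ≃ₐ[L] Ω) => C n (rsh L σ) (rsh L τ)) := by
    refine ⟨fun n => ?_, fun n => ?_, ?_, fun n => ?_, fun n g => ?_, fun n V hV hV' => ?_⟩
    · obtain ⟨S, -, h⟩ := hC.lc n
      refine ⟨IntermediateField.adjoin L (S : Set Ω),
        IntermediateField.finiteDimensional_adjoin fun x _ => (halg x).isIntegral, ?_⟩
      intro σ σ' τ τ' h1 h2
      exact h _ _ _ _ (fun x hx => h1 x (IntermediateField.subset_adjoin L _ hx))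
        (fun x hx => h2 x (IntermediateField.subset_adjoin L _ hx))
    · intro σ hσ τ hτ ρ hρ
      rw [← hg] at hσ hτ hρ
      have h := hC.coc n _ hσ _ hτ _ hρ
      simp only [map_mul]
      exact h
    · rw [← hg]
      exact (tri_iff L halg _ hle _).1 hC.zero
    · rw [← hg]
      exact (tri_iff L halg _ hle _).1 (hC.step n)
    · rw [← hg]
      have h := (tri_iff L halg _ hle _).1 (hC.inv n (rsh L g) (fun x hx => g.commutes (⟨x, hx⟩ : L)))
      simp only [map_mul, map_inv]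
      exact h
    · rw [← hgV]
      exact (tri_iff L halg _ (inf_le_left.trans hle) _).1 (hC.unr n V hV hV')
  intro n
  refine (tri_iff L halg _ hle _).2 ?_
  rw [hg]
  exact hT _ hS n

end

end Pool.Agent.TBR

end

section


namespace Pool.Agent.TBR

open Pool.Agent.TQU

universe u

section

theorem t1_iff (k F Ω : Type u) [Field k] [Field F] [Field Ω] [Algebra k F] [Algebra F Ω]
    [Algebra k Ω] [IsScalarTower k F Ω] [IsAlgClosed Ω] [Algebra.IsAlgebraic F Ω] (ℓ : ℕ) :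
    T1B.T1 k F ℓ ↔ T1B.T1' k F Ω ℓ := by
  have hcl : IsAlgClosure F Ω := ⟨inferInstance, inferInstance⟩
  let φ : AlgebraicClosure F ≃ₐ[F] Ω := IsAlgClosure.equiv F _ _
  have hφ : ∀ x : k, φ (algebraMap k (AlgebraicClosure F) x) = algebraMap k Ω x := by
    intro x
    rw [IsScalarTower.algebraMap_apply k F (AlgebraicClosure F), φ.commutes,
      ← IsScalarTower.algebraMap_apply k F Ω]
  have hφ' : ∀ x : k, φ.symm (algebraMap k Ω x) = algebraMap k (AlgebraicClosure F) x := by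
    intro x
    rw [← hφ x, φ.symm_apply_apply]
  exact ⟨fun h => T1B.T1'.transport (φ := φ) hφ h, fun h => T1B.T1'.transport (φ := φ.symm) hφ' h⟩

end

end Pool.Agent.TBR

end

section


namespace Pool.Agent.TBR

open Pool.Agent.TQU

universe u

section

variable {k Ω : Type u} [Field k] [Field Ω] [Algebra k Ω] [IsAlgClosed Ω]

theorem perf (p : ℕ) [ExpChar Ω p] (E : IntermediateField k Ω) (halg : ∀ x : Ω, IsAlgebraic E x)
    (x : Ω) (hx : ∀ σ ∈ Fx k (E : Set Ω), σ x = x) : ∃ r : ℕ, x ^ p ^ r ∈ E := by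
  have hE : Algebra.IsAlgebraic E Ω := ⟨halg⟩
  have hcl : IsAlgClosure E Ω := ⟨inferInstance, hE⟩
  have hn : Normal E Ω := IsAlgClosure.normal E Ω
  have hexp : ExpChar E p := RingHom.expChar (algebraMap E Ω) (algebraMap E Ω).injective p
  have hint : IsIntegral E x := (halg x).isIntegral
  have hroots : (minpoly E x).aroots Ω = Multiset.replicate ((minpoly E x).aroots Ω).card x := by
    rw [Multiset.eq_replicate]
    refine ⟨rfl, fun y hy => ?_⟩
    have hy' := (Polynomial.mem_aroots.1 hy).2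
    have hconj : IsConjRoot E x y := by
      rw [isConjRoot_iff_aeval_eq_zero hint]
      exact hy'
    obtain ⟨σ, hσ⟩ := (isConjRoot_iff_exists_algEquiv.1 hconj)
    have h1 := hx (σ.restrictScalars k) (fun z hz => σ.commutes ⟨z, hz⟩)
    have h2 := hx (σ.symm.restrictScalars k) (fun z hz => σ.symm.commutes ⟨z, hz⟩)
    change σ x = x at h1
    change σ.symm x = x at h2
    first
    | (rw [← hσ, h1])
    | (have h3 : y = σ.symm x := by rw [← hσ, σ.symm_apply_apply]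
       rw [h3, h2])
  classical
  have hsep : (minpoly E x).natSepDegree = 1 := by
    rw [Polynomial.natSepDegree_eq_of_isAlgClosed Ω, hroots]
    have hpos : ((minpoly E x).aroots Ω).card ≠ 0 := by
      rw [Multiset.card_eq_zero.ne]
      intro h0
      have : x ∈ (minpoly E x).aroots Ω :=
        Polynomial.mem_aroots.2 ⟨minpoly.ne_zero hint, minpoly.aeval E x⟩
      rw [h0] at this
      exact Multiset.notMem_zero _ this
    rw [Multiset.toFinset_replicate, if_neg hpos, Finset.card_singleton]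
  obtain ⟨n, y, hy⟩ := (minpoly.natSepDegree_eq_one_iff_pow_mem p).1 hsep
  exact ⟨n, by rw [← hy]; exact y.2⟩

end

end Pool.Agent.TBR

end

section


namespace Pool.Agent.TBR

universe u

section

variable {k Ω : Type u} [Field k] [Field Ω] [Algebra k Ω]

theorem tri_conj (D : Subgroup (Ω ≃ₐ[k] Ω)) (g : Ω ≃ₐ[k] Ω) (hg : ∀ σ ∈ D, g⁻¹ * σ * g ∈ D)
    (c : (Ω ≃ₐ[k] Ω) → (Ω ≃ₐ[k] Ω) → Ωˣ) (h : Tri D c) :
    Tri D (fun σ τ => g • c (g⁻¹ * σ * g) (g⁻¹ * τ * g)) := by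
  obtain ⟨b, hb, h1⟩ := h
  refine ⟨fun σ => g • b (g⁻¹ * σ * g), (hb.conj g (fun x _ => Set.mem_univ _)).smul g, ?_⟩
  intro σ hσ τ hτ
  show g • c (g⁻¹ * σ * g) (g⁻¹ * τ * g) * g • b (g⁻¹ * (σ * τ) * g) =
    g • b (g⁻¹ * σ * g) * σ • g • b (g⁻¹ * τ * g)
  have e1 : g⁻¹ * (σ * τ) * g = (g⁻¹ * σ * g) * (g⁻¹ * τ * g) := by group
  have e2 : σ • g • b (g⁻¹ * τ * g) = g • (g⁻¹ * σ * g) • b (g⁻¹ * τ * g) := by
    rw [← mul_smul, ← mul_smul]
    congr 1
    group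
  rw [e1, e2, ← smul_mul', ← smul_mul', h1 _ (hg σ hσ) _ (hg τ hτ)]

end

end Pool.Agent.TBR

end

section


namespace Pool.Agent.TBR

open Pool.Agent.TQU

universe u

section

variable {k Ω : Type u} [Field k] [Field Ω] [Algebra k Ω]

theorem sys_congr (L : Set Ω) (ℓ : ℕ) (C a : ℕ → (Ω ≃ₐ[k] Ω) → (Ω ≃ₐ[k] Ω) → Ωˣ)
    (hC : SysU L ℓ C) (ha : ∀ n, Lc2 Set.univ (a n)) (hc : ∀ n, Coc (Ge k L) (a n))
    (h : ∀ n, Tri (Ge k L) (fun σ τ => a n σ τ * (C n σ τ)⁻¹)) : SysU L ℓ a := by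
  refine ⟨ha, hc, ?_, ?_, ?_, ?_⟩
  · exact ((h 0).mul hC.zero).congr (fun σ _ τ _ => inv_mul_cancel_right _ _)
  · intro n
    refine ((((h (n + 1)).pow ℓ).mul (hC.step n)).mul ((h n).inv)).congr (fun σ _ τ _ => ?_)
    show (a (n + 1) σ τ * (C (n + 1) σ τ)⁻¹) ^ ℓ * (C (n + 1) σ τ ^ ℓ * (C n σ τ)⁻¹) *
      (a n σ τ * (C n σ τ)⁻¹)⁻¹ = a (n + 1) σ τ ^ ℓ * (a n σ τ)⁻¹
    rw [mul_pow, inv_pow]
    group
  · intro n g hg
    have h1 : ∀ σ ∈ Ge k L, g⁻¹ * σ * g ∈ Ge k L := by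
      intro σ hσ
      refine ⟨(Fx k L).mul_mem ((Fx k L).mul_mem ((Fx k L).inv_mem hg) hσ.1) hg, ?_⟩
      intro x hx
      have h2 : σ (g x) = g x := hσ.2 (g x) (IsAlgebraic.algHom (g : Ω →ₐ[k] Ω) hx)
      show g⁻¹ (σ (g x)) = x
      rw [h2]
      exact g.symm_apply_apply x
    refine (((tri_conj (Ge k L) g h1 _ (h n)).mul (hC.inv n g hg)).mul ((h n).inv)).congr
      (fun σ _ τ _ => ?_)
    show g • (a n (g⁻¹ * σ * g) (g⁻¹ * τ * g) * (C n (g⁻¹ * σ * g) (g⁻¹ * τ * g))⁻¹) *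
      (g • C n (g⁻¹ * σ * g) (g⁻¹ * τ * g) * (C n σ τ)⁻¹) * (a n σ τ * (C n σ τ)⁻¹)⁻¹ =
      g • a n (g⁻¹ * σ * g) (g⁻¹ * τ * g) * (a n σ τ)⁻¹
    rw [smul_mul', smul_inv']
    group
  · intro n V hV hV'
    exact (((h n).mono inf_le_left).mul (hC.unr n V hV hV')).congr
      (fun σ _ τ _ => inv_mul_cancel_right _ _)

end

end Pool.Agent.TBR

end

section


namespace Pool.Agent.TBR

open Pool.Agent.TQU

universe u

section

variable {k Ω : Type u} [Field k] [Field Ω] [Algebra k Ω] [IsAlgClosed Ω]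

theorem mkA (A : IntermediateField k Ω) [IsAlgClosed A] (z : Ω) (P : Fin 2 → Ω)
    (hZ : SitZ A z P) (hA1 : ∀ t : Ω, t ∉ A → ∀ x : Ω, IsAlgebraic (AA A {t}) x)
    (hPA : ¬ ∀ i, P i ∈ A) (ℓ : ℕ)
    (C : ℕ → (Ω ≃ₐ[k] Ω) → (Ω ≃ₐ[k] Ω) → Ωˣ) (hC : SysU ({z} ∪ Set.range P) ℓ C) :
    ∃ a : ℕ → (Ω ≃ₐ[k] Ω) → (Ω ≃ₐ[k] Ω) → Ωˣ, SysA A z P ℓ a ∧
      ∀ n, Tri (Ge k ({z} ∪ Set.range P)) (fun σ τ => a n σ τ * (C n σ τ)⁻¹) := by
  classical
  obtain ⟨N₀, hN₀⟩ : ∃ N₀ : Subgroup (Ω ≃ₐ[k] Ω), N₀ = Ge k ({z} ∪ Set.range P) := ⟨_, rfl⟩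
  have hH1 : Fx k ((A : Set Ω) ∪ Set.range P) ≤ N₀ := by
    intro σ hσ
    rw [hN₀]
    refine ⟨?_, ?_⟩
    · rintro x (hx | hx)
      · rw [Set.mem_singleton_iff] at hx
        rw [hx]
        exact hσ z (Or.inl hZ.mem)
      · exact hσ x (Or.inr hx)
    · intro x hx
      exact hσ x (Or.inl (hZ.alg x hx))
  have hH2 : N₀ ⊓ Fx k (A : Set Ω) = Fx k ((A : Set Ω) ∪ Set.range P) := by
    apply le_antisymm
    · rintro σ ⟨h1, h2⟩ x (hx | hx)
      · exact h2 x hx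
      · rw [hN₀] at h1
        exact h1.1 x (Or.inr hx)
    · intro σ hσ
      exact ⟨hH1 hσ, fun x hx => hσ x (Or.inl hx)⟩
  have hstab : ∀ σ ∈ N₀, ∀ x ∈ A, σ x ∈ A := by
    intro σ hσ x hx
    rw [hN₀] at hσ
    exact (hZ.stab σ (fun y hy => hσ.1 y (Or.inl hy)) x).2 hx
  have horb : Orb N₀ Set.univ := by rw [hN₀]; exact hZ.orb
  have hclo : Clo N₀ := by rw [hN₀]; exact hZ.clo
  have hcoc : ∀ n, Coc N₀ (C n) := by rw [hN₀]; exact hC.coc
  obtain ⟨i, hi⟩ := not_forall.1 hPA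
  have htri : ∀ n, Tri (N₀ ⊓ Fx k (A : Set Ω)) (C n) := by
    intro n
    obtain ⟨b, hb, _, hb'⟩ := tsu (N₀ ⊓ Fx k (A : Set Ω)) A ⊤ le_top inf_le_right
      (fun _ _ _ _ => trivial) (P i) trivial (fun x _ => hA1 (P i) hi x)
      (horb.mono inf_le_left (Set.subset_univ _)) (C n) (fun _ _ _ _ => trivial)
      ((hC.lc n).mono (fun _ _ => trivial)) ((hcoc n).mono inf_le_left)
    exact ⟨b, hb.mono (Set.subset_univ _), hb'⟩
  choose a h1 h2 h3 h4 h5 using fun n => inflA A N₀ hstab horb hclo (C n) (hC.lc n) (hcoc n) (htri n)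
  refine ⟨a, ⟨h1, ?_, h3, ?_⟩, ?_⟩
  · intro n σ τ s hs
    exact h2 n σ τ s (by rw [hH2]; exact hs)
  · refine sys_congr _ ℓ C a hC (fun n => (h1 n).mono (Set.subset_univ _)) ?_ ?_
    · intro n
      rw [← hN₀]
      exact h4 n
    · intro n
      rw [← hN₀]
      exact h5 n
  · intro n
    rw [← hN₀]
    exact h5 n

end

end Pool.Agent.TBR

end

section


namespace Pool.Agent.TBR

open Pool.Agent.TQU

universe u

section

variable {k Ω : Type u} [Field k] [Field Ω] [Algebra k Ω] [IsAlgClosed Ω]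
variable {A : IntermediateField k Ω} [IsAlgClosed A] {P : Fin 2 → Ω}
variable {F H : MvPolynomial (Fin 2) Ω} [IsDedekindDomain (CR F)] {Z : Multiset (Fin 2 → Ω)}
  {t : (Fin 2 → Ω) → Ω ≃ₐ[k] Ω} {z : Ω}

theorem relA (hS : Sit A (Ge k ({z} ∪ Set.range P)) P) (hZ : SitZ A z P)
    (hD : Dat A (Ge k ({z} ∪ Set.range P)) P F H Z t) (p : ℕ) [ExpChar Ω p]
    (κ : IntermediateField k Ω) [IsAlgClosed κ] (hκA : κ ≤ A)
    (hκ : Ge k ({z} ∪ Set.range P) ≤ Fx k (κ : Set Ω)) (hz : ∀ x ∈ A, IsAlgebraic (AA κ {z}) x)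
    (ℓ : ℕ) (a : ℕ → (Ω ≃ₐ[k] Ω) → (Ω ≃ₐ[k] Ω) → Ωˣ) (ha : SysA A z P ℓ a) (n : ℕ) :
    ∃ r : ℕ, Tri (Ge k ({z} ∪ Set.range P)) (fun σ τ => Tn Z t (a n σ τ) ^ p ^ r) := by
  classical
  have hlc := ha.lc n
  obtain ⟨S, hS1, hS2⟩ := id hlc
  -- finitely many values
  have hfin1 : {m | ∃ σ ∈ Ge k ({z} ∪ Set.range P), a n σ = m}.Finite :=
    finite_range _ S (hS.orb.mono le_rfl (Set.subset_univ _)) (a n)
      (fun σ _ σ' _ h => funext fun τ => hS2 σ σ' τ τ h (Ag.refl _ _))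
  have hfin : {u : Ωˣ | ∃ σ ∈ Ge k ({z} ∪ Set.range P), ∃ τ ∈ Ge k ({z} ∪ Set.range P),
      a n σ τ = u}.Finite := by
    refine (hfin1.biUnion (t := fun m => {u : Ωˣ | ∃ τ ∈ Ge k ({z} ∪ Set.range P), m τ = u})
      ?_).subset ?_
    · rintro m ⟨σ, hσ, rfl⟩
      exact finite_range _ S (hS.orb.mono le_rfl (Set.subset_univ _)) (a n σ)
        (fun τ _ τ' _ h => hS2 σ σ τ τ' (Ag.refl _ _) h)
    · rintro u ⟨σ, hσ, τ, hτ, rfl⟩
      rw [Set.mem_iUnion₂]
      exact ⟨a n σ, ⟨σ, hσ, rfl⟩, τ, hτ, rfl⟩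
  have hE1 : ∀ σ τ, ∃ r : ℕ, ((a n σ τ : Ωˣ) : Ω) ^ p ^ r ∈ AA A (Set.range P) := by
    intro σ τ
    refine perf p (AA A (Set.range P)) hS.alg _ (fun s hs => ?_)
    have h1 : s • a n σ τ = a n σ τ := by
      refine ha.fix n σ τ s (Fx_mono ?_ hs)
      rintro x (hx | hx)
      · have h2 : A ≤ AA A (Set.range P) := le_sup_left
        exact h2 hx
      · have h2 : IntermediateField.adjoin k (Set.range P) ≤ AA A (Set.range P) := le_sup_right
        exact h2 (IntermediateField.subset_adjoin k _ hx)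
    exact congrArg (fun u : Ωˣ => (u : Ω)) h1
  obtain ⟨r₀, hr₀⟩ : ∃ r₀ : ℕ, ∀ σ ∈ Ge k ({z} ∪ Set.range P), ∀ τ ∈ Ge k ({z} ∪ Set.range P),
      ((a n σ τ : Ωˣ) : Ω) ^ p ^ r₀ ∈ AA A (Set.range P) := by
    have h1 : ∀ T : Set Ωˣ, T.Finite → (∀ u ∈ T, ∃ r : ℕ, (u : Ω) ^ p ^ r ∈ AA A (Set.range P)) →
        ∃ r₀ : ℕ, ∀ u ∈ T, (u : Ω) ^ p ^ r₀ ∈ AA A (Set.range P) := by
      intro T hT
      refine Set.Finite.induction_on T hT ?_ ?_
      · intro _
        exact ⟨0, fun u hu => absurd hu (Set.notMem_empty u)⟩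
      · intro u T _ _ ih h
        obtain ⟨r₁, h1⟩ := ih (fun u hu => h u (Set.mem_insert_of_mem _ hu))
        obtain ⟨r₂, h2⟩ := h u (Set.mem_insert _ _)
        refine ⟨r₁ + r₂, ?_⟩
        rintro v (rfl | hv)
        · rw [add_comm, pow_add, pow_mul]
          exact pow_mem h2 _
        · rw [pow_add, pow_mul]
          exact pow_mem (h1 v hv) _
    obtain ⟨r₀, h2⟩ := h1 _ hfin (by
      rintro u ⟨σ, _, τ, _, rfl⟩
      exact hE1 σ τ)
    exact ⟨r₀, fun σ hσ τ hτ => h2 _ ⟨σ, hσ, τ, hτ, rfl⟩⟩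
  obtain ⟨a', ha1, ha2, ha3, ha4⟩ := ((hlc.pow (p ^ r₀)).lo (Ge k ({z} ∪ Set.range P))).extend 1
  have hcoc : CocE A (Ge k ({z} ∪ Set.range P)) P a' := by
    refine ⟨ha1, ?_, ?_, ?_, ?_⟩
    · intro σ τ
      rcases ha3 σ τ with h | ⟨σ', hσ', τ', hτ', h⟩
      · rw [h]
        exact one_mem _
      · rw [h, Units.val_pow_eq_pow_val]
        exact hr₀ σ' hσ' τ' hτ'
    · intro σ hσ τ hτ ρ hρ
      rw [ha2 σ hσ τ hτ, ha2 (σ * τ) (Subgroup.mul_mem _ hσ hτ) ρ hρ, ha2 τ hτ ρ hρ,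
        ha2 σ hσ (τ * ρ) (Subgroup.mul_mem _ hτ hρ)]
      exact (ha.sys.coc n).pow (p ^ r₀) σ hσ τ hτ ρ hρ
    · exact ha4 (fun σ _ => ⟨by rw [(ha.one n σ).1, one_pow], by rw [(ha.one n σ).2, one_pow]⟩)
    · intro V hV hV'
      refine ((ha.sys.unr n V (fun x => hV _ (A.algebraMap_mem x)) hV').pow (p ^ r₀)).congr ?_
      intro σ hσ τ hτ
      exact (ha2 σ hσ.1 τ hτ.1).symm
  obtain ⟨r', hr'⟩ := rel hS hD p κ hκA hκ z hZ.mem hz a' hcoc
  refine ⟨r₀ + r', hr'.congr ?_⟩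
  intro σ hσ τ hτ
  have h1 : ∀ (f : Ωˣ) (m : ℕ), Tn Z t (f ^ m) = Tn Z t f ^ m := by
    intro f m
    unfold Tn
    rw [← Multiset.prod_map_pow]
    congr 1
    refine Multiset.map_congr rfl fun R _ => ?_
    exact smul_pow' _ _ _
  rw [ha2 σ hσ τ hτ, h1, ← pow_mul, ← pow_add]

end

end Pool.Agent.TBR

end

section


namespace Pool.Agent.TBR

open Pool.Agent.TQU

universe u

section

variable {k Ω : Type u} [Field k] [Field Ω] [Algebra k Ω]

private theorem torsD_one (D : Subgroup (Ω ≃ₐ[k] Ω)) : Tri D (fun _ _ => (1 : Ωˣ)) := by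
  refine ⟨fun _ => 1, Lc1.const _ _, fun σ _ τ _ => ?_⟩
  rw [smul_one]

private theorem torsD_ind (D : Subgroup (Ω ≃ₐ[k] Ω)) (t : (Fin 2 → Ω) → Ω ≃ₐ[k] Ω)
    (L : (Fin 2 → Ω) → Set Ω) (a : (Ω ≃ₐ[k] Ω) → (Ω ≃ₐ[k] Ω) → Ωˣ) (s : Multiset (Fin 2 → Ω)) :
    (∀ Q ∈ s, D ≤ Ge k (L Q)) → (∀ Q ∈ s, Tri (Ge k (L Q)) (fun σ τ => a σ τ * t Q • a σ τ)) →
    Tri D (fun σ τ => a σ τ ^ Multiset.card s * (s.map fun Q => t Q • a σ τ).prod) := by
  induction s using Multiset.induction_on with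
  | empty =>
    intro _ _
    refine (torsD_one D).congr fun σ _ τ _ => ?_
    rw [Multiset.card_zero, pow_zero, Multiset.map_zero, Multiset.prod_zero, mul_one]
  | cons Q s ih =>
    intro hDL hQ
    have h1 := ih (fun R hR => hDL R (Multiset.mem_cons_of_mem hR))
      (fun R hR => hQ R (Multiset.mem_cons_of_mem hR))
    have h2 : Tri D (fun σ τ => a σ τ * t Q • a σ τ) :=
      (hQ Q (Multiset.mem_cons_self Q s)).mono (hDL Q (Multiset.mem_cons_self Q s))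
    refine (h2.mul h1).congr fun σ _ τ _ => ?_
    rw [Multiset.card_cons, Multiset.map_cons, Multiset.prod_cons, pow_succ']
    exact mul_mul_mul_comm _ _ _ _

theorem torsD (N D : Subgroup (Ω ≃ₐ[k] Ω)) (hDN : D ≤ N) (P : Fin 2 → Ω)
    (s : Multiset (Fin 2 → Ω)) (t : (Fin 2 → Ω) → Ω ≃ₐ[k] Ω) (L : (Fin 2 → Ω) → Set Ω)
    (hDL : ∀ Q ∈ s, D ≤ Ge k (L Q)) (a : (Ω ≃ₐ[k] Ω) → (Ω ≃ₐ[k] Ω) → Ωˣ)
    (hQ : ∀ Q ∈ s, Tri (Ge k (L Q)) (fun σ τ => a σ τ * t Q • a σ τ))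
    (hP : ∀ σ τ, t P • a σ τ = a σ τ) (m : ℕ)
    (hrel : Tri N (fun σ τ => Tn (Multiset.replicate 3 P + s) t (a σ τ) ^ m)) :
    Tri D (fun σ τ => a σ τ ^ ((3 - (Multiset.card s : ℤ)) * m)) := by
  have h1 := ((torsD_ind D t L a s hDL hQ).pow m).inv
  refine ((hrel.mono hDN).mul h1).congr fun σ _ τ _ => ?_
  have h2 : Tn (Multiset.replicate 3 P + s) t (a σ τ) =
      a σ τ ^ 3 * (s.map fun Q => t Q • a σ τ).prod := by
    unfold Tn
    rw [Multiset.map_add, Multiset.prod_add, Multiset.map_replicate, Multiset.prod_replicate, hP]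
  rw [h2]
  generalize (s.map fun Q => t Q • a σ τ).prod = p
  generalize a σ τ = x
  rw [mul_pow, mul_pow, mul_inv, mul_mul_mul_comm, mul_inv_cancel, mul_one, ← pow_mul, ← pow_mul,
    sub_mul, zpow_sub]
  have e1 : x ^ ((3 : ℤ) * (m : ℤ)) = x ^ (3 * m) := by
    rw [← zpow_natCast]
    push_cast
    rfl
  have e2 : x ^ ((Multiset.card s : ℤ) * (m : ℤ)) = x ^ (Multiset.card s * m) := by
    rw [← zpow_natCast]
    push_cast
    rfl
  rw [e1, e2]

end

end Pool.Agent.TBR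

end

section


namespace Pool.Agent.TBR

open Pool.Agent.TQU

universe u

section

variable {k Ω : Type u} [Field k] [Field Ω] [Algebra k Ω]

private theorem fin9_lc {K : IntermediateField k Ω} {c : (Ω ≃ₐ[K] Ω) → (Ω ≃ₐ[K] Ω) → Ωˣ}
    (hc : T1B.LC2 c) (m : ℤ) : T1B.LC2 (fun σ τ => c σ τ ^ m) := by
  obtain ⟨E, hE, h⟩ := hc
  refine ⟨E, hE, fun σ σ' τ τ' h1 h2 => ?_⟩
  show c σ τ ^ m = c σ' τ' ^ m
  rw [h σ σ' τ τ' h1 h2]

private theorem fin9_coc {K : IntermediateField k Ω} {N : Subgroup (Ω ≃ₐ[K] Ω)}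
    {c : (Ω ≃ₐ[K] Ω) → (Ω ≃ₐ[K] Ω) → Ωˣ} (hc : T1B.Coc N c) (m : ℤ) :
    T1B.Coc N (fun σ τ => c σ τ ^ m) := by
  intro σ hσ τ hτ ρ hρ
  show c σ τ ^ m * c (σ * τ) ρ ^ m = σ • (c τ ρ ^ m) * c σ (τ * ρ) ^ m
  have h1 : σ • (c τ ρ ^ m) = (σ • c τ ρ) ^ m :=
    map_zpow (MulDistribMulAction.toMonoidHom Ωˣ σ) (c τ ρ) m
  rw [h1, ← mul_zpow, ← mul_zpow, hc σ hσ τ hτ ρ hρ]

theorem fin9 (K : IntermediateField k Ω) [Normal K Ω] {ℓ : ℕ} (hℓ : ℓ.Prime)
    (c : ℕ → (Ω ≃ₐ[K] Ω) → (Ω ≃ₐ[K] Ω) → Ωˣ) (hc : T1B.Sys k ℓ c) (E' : IntermediateField K Ω)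
    [FiniteDimensional K E'] (m : ℤ) (hm : m ≠ 0) (p : ℕ) (hp : p.Coprime ℓ) (r : ℕ → ℕ)
    (h : ∀ n, T1B.Triv (T1B.geo k K Ω ⊓ E'.fixingSubgroup) (fun σ τ => c n σ τ ^ (m * p ^ r n))) :
    ∀ n, T1B.Triv (T1B.geo k K Ω) (c n) := by
  have hfin : Finite (T1B.Emb (T1B.geo k K Ω) E') := inferInstance
  have hft : Fintype (T1B.Emb (T1B.geo k K Ω) E') := Fintype.ofFinite _
  have hne : Nonempty (T1B.Emb (T1B.geo k K Ω) E') :=
    ⟨⟨IntermediateField.val _, 1, Subgroup.one_mem _, fun _ => rfl⟩⟩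
  obtain ⟨M, hM⟩ : ∃ M, M = Fintype.card (T1B.Emb (T1B.geo k K Ω) E') := ⟨_, rfl⟩
  have hM0 : 0 < M := by
    rw [hM]
    exact Fintype.card_pos
  have e0 : ∀ n, T1B.Triv (T1B.geo k K Ω) (fun σ τ => (c n σ τ ^ (m * (p : ℤ) ^ r n)) ^ M) := by
    intro n
    rw [hM]
    exact T1B.transfer (fin9_lc (hc.lc n) _) (fin9_coc (hc.coc n) _) (h n)
  have e2 : ∀ n, T1B.Triv (T1B.geo k K Ω) (fun σ τ => c n σ τ ^ ((ℓ ^ n : ℕ) : ℤ)) := by
    intro n
    have h2 := (hc.pow 0 n).mul hc.zero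
    refine h2.congr (fun σ _ τ _ => ?_)
    show c (0 + n) σ τ ^ (ℓ ^ n) * (c 0 σ τ)⁻¹ * c 0 σ τ = c n σ τ ^ ((ℓ ^ n : ℕ) : ℤ)
    rw [inv_mul_cancel_right, zero_add, zpow_natCast]
  have e3 : ∀ n, T1B.Triv (T1B.geo k K Ω) (fun σ τ => c n σ τ ^ (m * (M : ℤ))) := by
    intro n
    have hcop : IsCoprime ((p ^ r n : ℕ) : ℤ) ((ℓ ^ n : ℕ) : ℤ) := by
      rw [Nat.isCoprime_iff_coprime]
      exact Nat.Coprime.pow _ _ hp
    obtain ⟨x, y, hxy⟩ := hcop
    refine (((e0 n).pow x).mul ((e2 n).pow (y * m * (M : ℤ)))).congr (fun σ _ τ _ => ?_)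
    show ((c n σ τ ^ (m * (p : ℤ) ^ r n)) ^ M) ^ x * (c n σ τ ^ ((ℓ ^ n : ℕ) : ℤ)) ^ (y * m * (M : ℤ)) =
      c n σ τ ^ (m * (M : ℤ))
    rw [← zpow_natCast (c n σ τ ^ (m * (p : ℤ) ^ r n)) M, ← zpow_mul, ← zpow_mul, ← zpow_mul,
      ← zpow_add]
    congr 1
    have h5 : m * (p : ℤ) ^ r n * ((M : ℤ) * x) + ((ℓ ^ n : ℕ) : ℤ) * (y * m * (M : ℤ)) =
        m * (M : ℤ) * (x * ((p ^ r n : ℕ) : ℤ) + y * ((ℓ ^ n : ℕ) : ℤ)) := by
      push_cast
      ring
    rw [h5, hxy, mul_one]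
  have hpos : 0 < m.natAbs * M := Nat.mul_pos (Int.natAbs_pos.2 hm) hM0
  refine hc.triv_of_pow hℓ hpos fun n => ?_
  rcases Int.natAbs_eq m with h6 | h6
  · refine (e3 n).congr fun σ _ τ _ => ?_
    show c n σ τ ^ (m * (M : ℤ)) = c n σ τ ^ (m.natAbs * M)
    rw [← zpow_natCast]
    congr 1
    push_cast
    rw [← Int.abs_eq_natAbs] at h6
    rw [← h6]
  · refine ((e3 n).pow (-1)).congr fun σ _ τ _ => ?_
    show (c n σ τ ^ (m * (M : ℤ))) ^ (-1 : ℤ) = c n σ τ ^ (m.natAbs * M)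
    rw [← zpow_natCast, ← zpow_mul]
    congr 1
    push_cast
    rw [← Int.abs_eq_natAbs] at h6
    nth_rw 1 [h6]
    ring

end

end Pool.Agent.TBR

end

section


namespace Pool.Agent.TBR

open Pool.Agent.TQU

universe u

section

variable {k Ω : Type u} [Field k] [Field Ω] [Algebra k Ω] [IsAlgClosed Ω]

theorem swapd_mono {A B : IntermediateField k Ω} (hAB : A ≤ B) {a : Ω} (h : IsAlgebraic A a) :
    IsAlgebraic B a := by
  obtain ⟨p, hp, hpa⟩ := h
  refine ⟨p.map (IntermediateField.inclusion hAB).toRingHom, ?_, ?_⟩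
  · intro h0
    apply hp
    exact (Polynomial.map_eq_zero_iff (IntermediateField.inclusion hAB).toRingHom.injective).1 h0
  · rw [Polynomial.aeval_def, Polynomial.eval₂_map]
    rw [Polynomial.aeval_def] at hpa
    exact hpa

/-- the quadratic polynomial with roots `a`, `b` -/
noncomputable def swapd_q (L : IntermediateField k Ω) (s q : L) : Polynomial L :=
  Polynomial.X ^ 2 - Polynomial.C s * Polynomial.X + Polynomial.C q

theorem swapd_q_monic (L : IntermediateField k Ω) (s q : L) : (swapd_q L s q).Monic := by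
  unfold swapd_q
  monicity!

theorem swapd_q_deg (L : IntermediateField k Ω) (s q : L) : (swapd_q L s q).natDegree = 2 := by
  unfold swapd_q
  compute_degree!

theorem swapd_q_root (L : IntermediateField k Ω) (s q : L) {a b : Ω} (hs : (s : Ω) = a + b)
    (hq : (q : Ω) = a * b) : Polynomial.aeval a (swapd_q L s q) = 0 := by
  unfold swapd_q
  simp only [map_add, map_sub, map_mul, map_pow, Polynomial.aeval_X, Polynomial.aeval_C]
  have h1 : algebraMap L Ω s = a + b := hs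
  have h2 : algebraMap L Ω q = a * b := hq
  rw [h1, h2]
  ring

theorem swapd (h2 : (2 : Ω) ≠ 0) (z : Ω) (P Q : Fin 2 → Ω) (L : IntermediateField k Ω)
    (hz : z ∈ L) (h1 : ∀ i, P i + Q i ∈ L) (h1' : ∀ i j, P i * Q j + P j * Q i ∈ L)
    (hne : ¬ ∀ i, P i ∈ L)
    (hK : ∀ x : Ω, IsAlgebraic (IntermediateField.adjoin k ({z} ∪ Set.range P)) x) :
    P ≠ Q ∧ (∀ g ∈ Fx k (L : Set Ω), (∀ i, g (P i) = P i ∧ g (Q i) = Q i) ∨
      (∀ i, g (P i) = Q i ∧ g (Q i) = P i)) ∧ (∃ w ∈ Fx k (L : Set Ω), ∀ i, w (P i) = Q i) ∧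
      ∀ x : Ω, IsAlgebraic L x := by
  have h2L : (2 : Ω)⁻¹ ∈ L := L.inv_mem (by
    have : (2 : Ω) = 1 + 1 := by norm_num
    rw [this]
    exact L.add_mem L.one_mem L.one_mem)
  have hhalf : ∀ x : Ω, x + x ∈ L → x ∈ L := by
    intro x hx
    have h3 := L.mul_mem h2L hx
    have h4 : (2 : Ω)⁻¹ * (x + x) = x := by
      rw [← two_mul, ← mul_assoc, inv_mul_cancel₀ h2, one_mul]
    rwa [h4] at h3
  have hq : ∀ i, P i * Q i ∈ L := fun i => hhalf _ (h1' i i)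
  have hne' : ∃ i, P i ∉ L := by
    by_contra hcon
    push Not at hcon
    exact hne hcon
  have hneq : ∀ i, P i ∉ L → P i ≠ Q i := by
    intro i hi h
    apply hi
    apply hhalf
    have := h1 i
    rwa [← h] at this
  have hPalg : ∀ i, IsAlgebraic L (P i) := by
    intro i
    exact ⟨swapd_q L ⟨_, h1 i⟩ ⟨_, hq i⟩, (swapd_q_monic L _ _).ne_zero,
      swapd_q_root L _ _ (a := P i) (b := Q i) rfl rfl⟩
  have hall : ∀ x : Ω, IsAlgebraic L x := by
    intro x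
    have hle : IntermediateField.adjoin k ({z} ∪ Set.range P) ≤
        (IntermediateField.adjoin L (Set.range P)).restrictScalars k := by
      rw [IntermediateField.adjoin_le_iff]
      rintro y (hy | hy)
      · rw [Set.mem_singleton_iff] at hy
        rw [hy]
        have := (IntermediateField.adjoin L (Set.range P)).algebraMap_mem (⟨z, hz⟩ : L)
        exact this
      · exact IntermediateField.subset_adjoin L (Set.range P) hy
    have hx : IsAlgebraic (IntermediateField.adjoin L (Set.range P)) x := swapd_mono hle (hK x)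
    have halg : Algebra.IsAlgebraic L (IntermediateField.adjoin L (Set.range P)) := by
      rw [IntermediateField.isAlgebraic_adjoin_iff_isAlgebraic]
      rintro _ ⟨i, rfl⟩
      exact hPalg i
    exact IsAlgebraic.restrictScalars L hx
  have hcase : ∀ g ∈ Fx k (L : Set Ω), ∀ i, (g (P i) = P i ∧ g (Q i) = Q i) ∨
      (g (P i) = Q i ∧ g (Q i) = P i) := by
    intro g hg i
    have e1 : g (P i) + g (Q i) = P i + Q i := by
      rw [← map_add]
      exact hg _ (h1 i)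
    have e2 : g (P i) * g (Q i) = P i * Q i := by
      rw [← map_mul]
      exact hg _ (hq i)
    have e3 : (g (P i) - P i) * (g (P i) - Q i) = 0 := by
      have : g (Q i) = P i + Q i - g (P i) := by rw [← e1]; ring
      rw [this] at e2
      linear_combination -e2
    rcases mul_eq_zero.1 e3 with h | h
    · left
      have h3 : g (P i) = P i := sub_eq_zero.1 h
      refine ⟨h3, ?_⟩
      rw [h3] at e1
      exact add_left_cancel e1
    · right
      have h3 : g (P i) = Q i := sub_eq_zero.1 h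
      refine ⟨h3, ?_⟩
      rw [h3] at e1
      linear_combination e1
  have hmix : ∀ g ∈ Fx k (L : Set Ω), (∀ i, g (P i) = P i ∧ g (Q i) = Q i) ∨
      (∀ i, g (P i) = Q i ∧ g (Q i) = P i) := by
    intro g hg
    have e0 := hcase g hg 0
    have e1 := hcase g hg 1
    have hf : g (P 0) * g (Q 1) + g (P 1) * g (Q 0) = P 0 * Q 1 + P 1 * Q 0 := by
      rw [← map_mul, ← map_mul, ← map_add]
      exact hg _ (h1' 0 1)
    rcases e0 with e0 | e0 <;> rcases e1 with e1 | e1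
    · left
      intro i
      fin_cases i
      · exact e0
      · exact e1
    · rw [e0.1, e0.2, e1.1, e1.2] at hf
      have h3 : (P 0 - Q 0) * (P 1 - Q 1) = 0 := by linear_combination hf
      rcases mul_eq_zero.1 h3 with h | h
      · right
        have h4 : P 0 = Q 0 := sub_eq_zero.1 h
        intro i
        fin_cases i
        · show g (P 0) = Q 0 ∧ g (Q 0) = P 0
          rw [e0.1, e0.2]
          exact ⟨h4, h4.symm⟩
        · exact e1
      · left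
        have h4 : P 1 = Q 1 := sub_eq_zero.1 h
        intro i
        fin_cases i
        · exact e0
        · show g (P 1) = P 1 ∧ g (Q 1) = Q 1
          rw [e1.1, e1.2]
          exact ⟨h4.symm, h4⟩
    · rw [e0.1, e0.2, e1.1, e1.2] at hf
      have h3 : (P 0 - Q 0) * (P 1 - Q 1) = 0 := by linear_combination hf
      rcases mul_eq_zero.1 h3 with h | h
      · left
        have h4 : P 0 = Q 0 := sub_eq_zero.1 h
        intro i
        fin_cases i
        · show g (P 0) = P 0 ∧ g (Q 0) = Q 0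
          rw [e0.1, e0.2]
          exact ⟨h4.symm, h4⟩
        · exact e1
      · right
        have h4 : P 1 = Q 1 := sub_eq_zero.1 h
        intro i
        fin_cases i
        · exact e0
        · show g (P 1) = Q 1 ∧ g (Q 1) = P 1
          rw [e1.1, e1.2]
          exact ⟨h4, h4.symm⟩
    · right
      intro i
      fin_cases i
      · exact e0
      · exact e1
  refine ⟨?_, hmix, ?_, hall⟩
  · obtain ⟨i, hi⟩ := hne'
    intro h
    exact hneq i hi (congrFun h i)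
  · obtain ⟨i, hi⟩ := hne'
    have hcl : IsAlgClosure L Ω := ⟨inferInstance, ⟨hall⟩⟩
    have hnor : Normal L Ω := IsAlgClosure.normal L Ω
    have hdvd : minpoly L (P i) ∣ swapd_q L ⟨_, h1 i⟩ ⟨_, hq i⟩ :=
      minpoly.dvd L (P i) (swapd_q_root L _ _ (a := P i) (b := Q i) rfl rfl)
    have hint : IsIntegral L (P i) := (hPalg i).isIntegral
    have hdeg : 2 ≤ (minpoly L (P i)).natDegree := by
      rw [minpoly.two_le_natDegree_iff hint]
      rintro ⟨y, hy⟩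
      apply hi
      rw [← hy]
      exact y.2
    have hmp : minpoly L (P i) = swapd_q L ⟨_, h1 i⟩ ⟨_, hq i⟩ := by
      symm
      apply Polynomial.eq_of_monic_of_dvd_of_natDegree_le (minpoly.monic hint) (swapd_q_monic L _ _)
        hdvd
      rw [swapd_q_deg]
      exact hdeg
    have hroot : Polynomial.aeval (Q i) (minpoly L (P i)) = 0 := by
      rw [hmp]
      exact swapd_q_root L _ _ (a := Q i) (b := P i) (add_comm _ _) (mul_comm _ _)
    have hconj : IsConjRoot L (P i) (Q i) := by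
      rw [isConjRoot_iff_aeval_eq_zero hint]
      exact hroot
    obtain ⟨σ, hσ⟩ := isConjRoot_iff_exists_algEquiv.1 hconj.symm
    refine ⟨σ.restrictScalars k, ?_, ?_⟩
    · intro x hx
      exact σ.commutes ⟨x, hx⟩
    · have hmem : σ.restrictScalars k ∈ Fx k (L : Set Ω) := by
        intro x hx
        exact σ.commutes ⟨x, hx⟩
      rcases hmix _ hmem with h | h
      · exfalso
        have h3 := (h i).1
        have h4 : (σ.restrictScalars k) (P i) = Q i := hσ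
        exact hneq i hi (h3.symm.trans h4)
      · exact fun j => (h j).1

end

end Pool.Agent.TBR

end

section


namespace Pool.Agent.TBR

open Pool.Agent.TQU

universe u

section

variable {k Ω : Type u} [Field k] [Field Ω] [Algebra k Ω] [IsAlgClosed Ω]

theorem az_closed (z : Ω) : IsAlgClosed (Az k z) := by
  have h : IsAlgClosed (algebraicClosure (IntermediateField.adjoin k {z}) Ω) :=
    (algebraicClosure.isAlgClosure (IntermediateField.adjoin k {z}) Ω).isAlgClosed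
  exact h

end

end Pool.Agent.TBR

end

section


namespace Pool.Agent.TBR

open Pool.Agent.TQU

universe u

section

variable {k Ω : Type u} [Field k] [Field Ω] [Algebra k Ω] [IsAlgClosed Ω]

theorem sit_az_mem (z x : Ω) :
    x ∈ Az k z ↔ IsAlgebraic (IntermediateField.adjoin k {z}) x := by
  rw [Az, IntermediateField.mem_restrictScalars, mem_algebraicClosure_iff]

theorem sit_az_mono (E E' : IntermediateField k Ω) (h : E ≤ E') (x : Ω) (hx : IsAlgebraic E x) :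
    IsAlgebraic E' x := by
  obtain ⟨p, hp, hpx⟩ := hx
  refine ⟨p.map (IntermediateField.inclusion h).toRingHom, ?_, ?_⟩
  · rwa [Ne, Polynomial.map_eq_zero]
  · have h1 : (algebraMap E' Ω).comp (IntermediateField.inclusion h).toRingHom =
        algebraMap E Ω := RingHom.ext fun _ => rfl
    rw [Polynomial.aeval_def, Polynomial.eval₂_map, h1, ← Polynomial.aeval_def]
    exact hpx

theorem sit_az_adj (A : IntermediateField k Ω) (S : Set Ω) (x : Ω) :
    IsAlgebraic (AA A S) x ↔ IsAlgebraic (IntermediateField.adjoin A S) x := by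
  have h : AA A S = (IntermediateField.adjoin A S).restrictScalars k :=
    (IntermediateField.restrictScalars_adjoin_eq_sup k A S).symm
  rw [h]
  exact Iff.rfl

theorem sit_az_trd (A : IntermediateField k Ω) (hA : ∀ x : Ω, IsAlgebraic A x → x ∈ A)
    (P : Fin 2 → Ω) (F : MvPolynomial (Fin 2) Ω) (hF : Cf (A : Set Ω) F) (hF0 : F ≠ 0)
    (hP : MvPolynomial.eval P F = 0) (halg : ∀ x : Ω, IsAlgebraic (AA A (Set.range P)) x)
    (t : Ω) (ht : t ∉ A) (x : Ω) : IsAlgebraic (AA A {t}) x := by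
  classical
  have h1 : Algebra.IsAlgebraic (Algebra.adjoin A (Set.range P)) Ω := by
    rw [← IntermediateField.isAlgebraic_adjoin_iff_top]
    exact ⟨fun x => (sit_az_adj A _ x).1 (halg x)⟩
  obtain ⟨s, hs, hsb⟩ := exists_isTranscendenceBasis_subset (R := A) (A := Ω) (Set.range P)
  -- the basis has at most one element
  have hsub : s.Subsingleton := by
    intro a ha b hb
    by_contra hab
    obtain ⟨i, hi⟩ := hs ha
    obtain ⟨j, hj⟩ := hs hb
    have hij : i ≠ j := by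
      rintro rfl
      exact hab (hi.symm.trans hj)
    have hall : ∀ l : Fin 2, l = i ∨ l = j := by
      intro l
      fin_cases l <;> fin_cases i <;> fin_cases j <;> simp_all
    have hmem : ∀ l, P l ∈ s := by
      intro l
      rcases hall l with rfl | rfl
      · rw [hi]; exact ha
      · rw [hj]; exact hb
    have hinj : Function.Injective (fun l => (⟨P l, hmem l⟩ : s)) := by
      intro l m hlm
      have hlm' : P l = P m := congrArg Subtype.val hlm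
      rcases hall l with rfl | rfl <;> rcases hall m with rfl | rfl
      · rfl
      · exact absurd (hi.symm.trans (hlm'.trans hj)) hab
      · exact absurd (hi.symm.trans (hlm'.symm.trans hj)) hab
      · rfl
    have hind : AlgebraicIndependent A P := by
      have h0 := hsb.1.comp _ hinj
      have e0 : (Subtype.val ∘ fun l => (⟨P l, hmem l⟩ : s)) = P := rfl
      rw [e0] at h0
      exact h0
    have hF' : F ∈ Set.range (MvPolynomial.map (algebraMap A Ω)) := by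
      rw [MvPolynomial.mem_range_map_iff_coeffs_subset]
      intro c hc
      obtain ⟨m, _, rfl⟩ := MvPolynomial.mem_coeffs_iff.1 hc
      exact ⟨⟨_, hF m⟩, rfl⟩
    obtain ⟨G, rfl⟩ := hF'
    have hG : MvPolynomial.aeval P G = 0 := by
      rw [MvPolynomial.eval_map] at hP
      exact hP
    have hG0 := (algebraicIndependent_iff.1 hind) G hG
    exact hF0 (by rw [hG0, map_zero])
  have htr : Algebra.trdeg A Ω ≤ 1 := by
    rw [← hsb.cardinalMk_eq_trdeg]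
    rw [Cardinal.mk_le_one_iff_set_subsingleton]
    exact hsub
  have htt : AlgebraicIndependent A (fun _ : Unit => t) := by
    rw [algebraicIndependent_unique_type_iff]
    exact fun h => ht (hA t h)
  have hb := htt.isTranscendenceBasis_of_lift_trdeg_le_of_finite (by simpa using htr)
  have hfin := hb.isAlgebraic_field
  rw [Set.range_const] at hfin
  rw [sit_az_adj]
  exact hfin.isAlgebraic x

theorem sit_az_fixE (S : Set Ω) (σ : Ω ≃ₐ[k] Ω) (hσ : σ ∈ Fx k S) (x : Ω)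
    (hx : x ∈ IntermediateField.adjoin k S) : σ x = x := by
  induction hx using IntermediateField.adjoin_induction with
  | mem x hx => exact hσ x hx
  | algebraMap c => exact σ.commutes c
  | add x y _ _ hx hy => rw [map_add, hx, hy]
  | inv x _ hx => rw [map_inv₀, hx]
  | mul x y _ _ hx hy => rw [map_mul, hx, hy]

theorem sit_az_root (S : Set Ω) (σ : Ω ≃ₐ[k] Ω) (hσ : σ ∈ Fx k S) (x : Ω)
    (p : Polynomial (IntermediateField.adjoin k S)) (hp : Polynomial.aeval x p = 0) :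
    Polynomial.aeval (σ x) p = 0 := by
  have h1 : ((σ : Ω →+* Ω)).comp (algebraMap (IntermediateField.adjoin k S) Ω) =
      algebraMap (IntermediateField.adjoin k S) Ω :=
    RingHom.ext fun c => sit_az_fixE S σ hσ c c.2
  have h2 := congrArg (σ : Ω →+* Ω) hp
  rw [Polynomial.aeval_def, Polynomial.hom_eval₂, h1, map_zero] at h2
  rw [Polynomial.aeval_def]
  exact h2

theorem sit_az_stab (z : Ω) (σ : Ω ≃ₐ[k] Ω) (hσ : σ ∈ Fx k {z}) (x : Ω) :
    σ x ∈ Az k z ↔ x ∈ Az k z := by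
  rw [sit_az_mem, sit_az_mem]
  constructor
  · rintro ⟨p, hp, hpx⟩
    refine ⟨p, hp, ?_⟩
    have h1 := sit_az_root {z} σ⁻¹ ((Fx k {z}).inv_mem hσ) (σ x) p hpx
    have h2 : σ⁻¹ (σ x) = x := σ.symm_apply_apply x
    rwa [h2] at h1
  · rintro ⟨p, hp, hpx⟩
    exact ⟨p, hp, sit_az_root {z} σ hσ x p hpx⟩

theorem sit_az_mapF (σ : Ω ≃ₐ[k] Ω) (S : Set Ω) (hσ : σ ∈ Fx k S) (F : MvPolynomial (Fin 2) Ω)
    (hF : Cf (IntermediateField.adjoin k S : Set Ω) F) :
    MvPolynomial.map (σ : Ω →+* Ω) F = F := by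
  ext m
  rw [MvPolynomial.coeff_map]
  exact sit_az_fixE S σ hσ _ (hF m)

theorem sit_az (z : Ω) (P : Fin 2 → Ω) (F : MvPolynomial (Fin 2) Ω)
    (hF : Cf (IntermediateField.adjoin k {z} : Set Ω) F) (hirr : Irreducible F)
    (hP : MvPolynomial.eval P F = 0) (hPA : ¬ ∀ i, P i ∈ Az k z)
    (hK : ∀ x : Ω, IsAlgebraic (IntermediateField.adjoin k ({z} ∪ Set.range P)) x) :
    SitZ (Az k z) z P ∧ Sit (Az k z) (Ge k ({z} ∪ Set.range P)) P := by
  classical
  have hcl : IsAlgClosed (Az k z) := az_closed z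
  have hEA : IntermediateField.adjoin k {z} ≤ Az k z := by
    intro x hx
    rw [sit_az_mem]
    exact isAlgebraic_algebraMap (⟨x, hx⟩ : IntermediateField.adjoin k {z})
  have hz : z ∈ Az k z := hEA (IntermediateField.subset_adjoin k {z} rfl)
  have hk : ∀ x : Ω, IsAlgebraic k x → x ∈ Az k z := by
    intro x hx
    rw [sit_az_mem]
    exact hx.tower_top _
  have hFA : Cf (Az k z : Set Ω) F := fun m => hEA (hF m)
  have hle : IntermediateField.adjoin k ({z} ∪ Set.range P) ≤ AA (Az k z) (Set.range P) := by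
    rw [IntermediateField.adjoin_le_iff]
    rintro x (hx | hx)
    · rw [Set.mem_singleton_iff.1 hx]
      exact (le_sup_left : Az k z ≤ _) hz
    · exact (le_sup_right : _ ≤ AA (Az k z) (Set.range P))
        (IntermediateField.subset_adjoin k _ hx)
  have halg : ∀ x : Ω, IsAlgebraic (AA (Az k z) (Set.range P)) x :=
    fun x => sit_az_mono _ _ hle x (hK x)
  have hclosed : ∀ x : Ω, IsAlgebraic (Az k z) x → x ∈ Az k z := by
    intro x hx
    have h1 : (minpoly (Az k z) x).degree = 1 :=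
      IsAlgClosed.degree_eq_one_of_irreducible _ (minpoly.irreducible hx.isIntegral)
    obtain ⟨y, hy⟩ := minpoly.mem_range_of_degree_eq_one (Az k z) x h1
    rw [← hy]
    exact y.2
  have hsub : ({z} : Set Ω) ⊆ {z} ∪ Set.range P := Set.subset_union_left
  have horb : Orb (Ge k ({z} ∪ Set.range P)) Set.univ := by
    intro x _
    obtain ⟨p, hp, hpx⟩ := hK x
    refine (p.rootSet_finite Ω).subset ?_
    rintro y ⟨σ, hσ, rfl⟩
    rw [Polynomial.mem_rootSet]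
    exact ⟨hp, sit_az_root _ σ hσ.1 x p hpx⟩
  have hclo : Clo (Ge k ({z} ∪ Set.range P)) := by
    intro σ hσ
    refine ⟨fun x hx => ?_, fun x hx => ?_⟩
    · obtain ⟨τ, hτ, h⟩ := hσ {x}
      rw [h x (by simp)]
      exact hτ.1 x hx
    · obtain ⟨τ, hτ, h⟩ := hσ {x}
      rw [h x (by simp)]
      exact hτ.2 x hx
  refine ⟨⟨hz, hk, fun σ hσ x => sit_az_stab z σ hσ x, ?_, horb, hclo⟩,
    ⟨?_, halg, ?_, ?_, ?_, horb, hclo⟩⟩
  · intro σ hσ
    have hσF : MvPolynomial.map (σ : Ω →+* Ω) F = F := sit_az_mapF σ {z} hσ F hF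
    have hσF' : MvPolynomial.map ((σ⁻¹ : Ω ≃ₐ[k] Ω) : Ω →+* Ω) F = F :=
      sit_az_mapF σ⁻¹ {z} ((Fx k {z}).inv_mem hσ) F hF
    obtain ⟨τ, hτA, hτP⟩ := ext_aut (Az k z) σ (fun x => sit_az_stab z σ hσ x) P P halg halg (by
      intro u hu
      have hu' : Cf (Az k z : Set Ω) (MvPolynomial.map (σ : Ω →+* Ω) u) := by
        intro m
        rw [MvPolynomial.coeff_map]
        exact (sit_az_stab z σ hσ _).2 (hu m)
      rw [gen_iff (Az k z) F hFA hirr P hP hPA u hu, gen_iff (Az k z) F hFA hirr P hP hPA _ hu']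
      constructor
      · intro h
        have h1 := map_dvd (MvPolynomial.map (σ : Ω →+* Ω)) h
        rwa [hσF] at h1
      · intro h
        have h1 := map_dvd (MvPolynomial.map ((σ⁻¹ : Ω ≃ₐ[k] Ω) : Ω →+* Ω)) h
        rw [hσF', MvPolynomial.map_map] at h1
        have h2 : ((σ⁻¹ : Ω ≃ₐ[k] Ω) : Ω →+* Ω).comp (σ : Ω →+* Ω) = RingHom.id Ω :=
          RingHom.ext fun x => σ.symm_apply_apply x
        rwa [h2, MvPolynomial.map_id] at h1)
    refine ⟨τ, ?_, fun x hx => (hτA x hx).symm⟩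
    rintro x (hx | ⟨i, rfl⟩)
    · rw [Set.mem_singleton_iff.1 hx, hτA z hz]
      exact hσ z rfl
    · exact hτP i
  · exact fun t ht x => sit_az_trd (Az k z) hclosed P F hFA hirr.ne_zero hP halg t ht x
  · exact fun σ hσ x => sit_az_stab z σ (fun y hy => hσ.1 y (hsub hy)) x
  · exact fun σ hσ x hx => hσ.1 x (Or.inr hx)
  · intro σ hσ
    refine ⟨?_, fun x hx => hσ x (Or.inl (hk x hx))⟩
    rintro x (hx | hx)
    · rw [Set.mem_singleton_iff.1 hx]
      exact hσ z (Or.inl hz)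
    · exact hσ x (Or.inr hx)

end

end Pool.Agent.TBR

end

section


namespace Pool.Agent.TBR

open Pool.Agent.TQU

universe u

section

variable {k Ω : Type u} [Field k] [Field Ω] [Algebra k Ω] [IsAlgClosed Ω]

theorem tgen_mono {A B : IntermediateField k Ω} (hAB : A ≤ B) {a : Ω} (h : IsAlgebraic A a) :
    IsAlgebraic B a := by
  obtain ⟨p, hp, hpa⟩ := h
  refine ⟨p.map (IntermediateField.inclusion hAB).toRingHom, ?_, ?_⟩
  · intro h0
    apply hp
    exact (Polynomial.map_eq_zero_iff (IntermediateField.inclusion hAB).toRingHom.injective).1 h0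
  · rw [Polynomial.aeval_def, Polynomial.eval₂_map]
    rw [Polynomial.aeval_def] at hpa
    exact hpa

theorem tgen (A : IntermediateField k Ω) [IsAlgClosed A]
    (hA1 : ∀ t : Ω, t ∉ A → ∀ x : Ω, IsAlgebraic (AA A {t}) x) (F : MvPolynomial (Fin 2) Ω)
    (hF : Cf (A : Set Ω) F) (hirr : Irreducible F) (P Q : Fin 2 → Ω)
    (hP : MvPolynomial.eval P F = 0) (hQ : MvPolynomial.eval Q F = 0) (hPA : ¬ ∀ i, P i ∈ A)
    (hQA : ¬ ∀ i, Q i ∈ A) : ∃ τ ∈ Fx k (A : Set Ω), ∀ i, τ (P i) = Q i := by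
  have halg : ∀ R : Fin 2 → Ω, (¬ ∀ i, R i ∈ A) → ∀ x : Ω, IsAlgebraic (AA A (Set.range R)) x := by
    intro R hR x
    push Not at hR
    obtain ⟨i, hi⟩ := hR
    refine tgen_mono ?_ (hA1 (R i) hi x)
    refine sup_le_sup_left ?_ _
    apply IntermediateField.adjoin.mono
    rintro _ rfl
    exact ⟨i, rfl⟩
  obtain ⟨τ, h1, h2⟩ := ext_aut A AlgEquiv.refl (fun _ => Iff.rfl) P Q (halg P hPA) (halg Q hQA) (by
    intro u hu
    have h3 : MvPolynomial.map ((AlgEquiv.refl : Ω ≃ₐ[k] Ω) : Ω →+* Ω) u = u := by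
      have : ((AlgEquiv.refl : Ω ≃ₐ[k] Ω) : Ω →+* Ω) = RingHom.id Ω := rfl
      rw [this, MvPolynomial.map_id]
    rw [h3, gen_iff A F hF hirr P hP hPA u hu, gen_iff A F hF hirr Q hQ hQA u hu])
  exact ⟨τ, h1, h2⟩

end

end Pool.Agent.TBR

end
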